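import Mathlib

/-! Long-range strictly self-avoiding walk: definitions used in the statements. -/

namespace Pool.Agent.Lib.LRS

variable {Γ : Type} [AddCommGroup Γ]

/-- `n`-step strictly self-avoiding walks from the origin, with arbitrary jumps. -/
def Saw (Γ : Type) [AddCommGroup Γ] (n : ℕ) : Type :=
  {ω : Fin (n + 1) → Γ // ω 0 = 0 ∧ Function.Injective ω}

/-- The weight of a walk: the product of the weights of its steps. -/
noncomputable def wt (J : Γ → ℝ) {n : ℕ} (ω : Saw Γ n) : ℝ :=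
  ∏ i : Fin n, J (ω.1 i.succ - ω.1 i.castSucc)

/-- The end point of a walk. -/
def endp {n : ℕ} (ω : Saw Γ n) : Γ := ω.1 (Fin.last n)

/-- Total weight of the `n`-step walks. -/
noncomputable def cnt (J : Γ → ℝ) (n : ℕ) : ℝ := ∑' ω : Saw Γ n, wt J ω

/-- Total weight of the `n`-step walks ending at `z`. -/
noncomputable def cntTo (J : Γ → ℝ) (n : ℕ) (z : Γ) : ℝ :=
  ∑' ω : {ω : Saw Γ n // endp ω = z}, wt J ω.1

/-- The `p`-th moment of the size of the end point of an `n`-step walk. -/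
noncomputable def mom (N J : Γ → ℝ) (p : ℝ) (n : ℕ) : ℝ :=
  (∑' ω : Saw Γ n, wt J ω * N (endp ω) ^ p) / cnt J n

/-- The two-point function. -/
noncomputable def green (J : Γ → ℝ) (μ : ℝ) (z : Γ) : ℝ := ∑' n : ℕ, cntTo J n z / μ ^ n

/-- `J` is comparable to `N ^ (-s)` away from the origin. -/
def PowerLaw (N J : Γ → ℝ) (s : ℝ) : Prop :=
  ∃ c C : ℝ, 0 < c ∧ ∀ x, x ≠ 0 → c * N x ^ (-s) ≤ J x ∧ J x ≤ C * N x ^ (-s)

/-- The Euclidean norm on `ℤ ^ d`. -/
noncomputable def eucl {d : ℕ} (z : Fin d → ℤ) : ℝ := √(∑ i, (z i : ℝ) ^ 2)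

/-- The hierarchical lattice: finitely supported sequences in `(ℤ / L) ^ d`. -/
abbrev Hier (L d : ℕ) : Type := ℕ →₀ (Fin d → ZMod L)

open Classical in
/-- The ultrametric norm `L ^ h` of the hierarchical lattice, `h` the last nonzero position
(positions counted from one). -/
noncomputable def hnorm {L d : ℕ} (x : Hier L d) : ℝ :=
  if x = 0 then 0 else (L : ℝ) ^ (x.support.sup id + 1)

end Pool.Agent.Lib.LRS
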