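import Pool.Agent.Lib.LRS.Canon
import Pool.Agent.Lib.LRS.Defs

/-! From walks as maps with real weights to lists of steps with weights in `ℝ≥0∞`. -/

namespace Pool.Agent.Lib.LRS

open scoped ENNReal
open ENNReal (ofReal)
open Filter Topology

variable {Γ : Type} [AddCommGroup Γ] {N J : Γ → ℝ} {K : Γ → ℝ≥0∞} {D α c C : ℝ}

theorem SA_iff {l : List Γ} :
    SA l ↔ ∀ i j, i < j → j ≤ l.length → (l.take i).sum ≠ (l.take j).sum := by
  refine ⟨fun h i j hij hj e => h ((l.take j).drop i)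
    ((List.drop_suffix _ _).isInfix.trans (List.take_prefix _ _).isInfix) (fun h0 => ?_) ?_,
      fun h b hb hne h0 => ?_⟩
  · have := congrArg List.length h0
    simp only [List.length_drop, List.length_take, List.length_nil] at this
    omega
  · have h1 := List.sum_take_add_sum_drop (l.take j) i
    rw [List.take_take, min_eq_left hij.le, e] at h1
    simpa using h1
  · obtain ⟨u, v, rfl⟩ := hb
    refine h u.length (u ++ b).length (by simpa using List.length_pos_of_ne_nil hne) (by simp) ?_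
    rw [List.take_left, List.append_assoc, List.take_left, List.sum_append, h0, add_zero]

/-- the steps of a walk -/
def steps {n : ℕ} (ω : Saw Γ n) : List Γ := List.ofFn fun i : Fin n => ω.1 i.succ - ω.1 i.castSucc

theorem steps_length {n : ℕ} (ω : Saw Γ n) : (steps ω).length = n := List.length_ofFn

theorem steps_take {n : ℕ} (ω : Saw Γ n) (i : ℕ) (hi : i < n + 1) :
    ((steps ω).take i).sum = ω.1 ⟨i, hi⟩ := by
  induction i with
  | zero => simpa using ω.2.1.symm
  | succ i ih =>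
    rw [List.sum_take_succ _ _ (by rw [steps_length]; omega), ih (by omega)]
    simp [steps]

theorem steps_sum {n : ℕ} (ω : Saw Γ n) : (steps ω).sum = endp ω := by
  rw [← List.take_length (l := steps ω), steps_take ω _ (by rw [steps_length]; omega)]
  simp only [steps_length]
  rfl

theorem steps_SA {n : ℕ} (ω : Saw Γ n) : SA (steps ω) := SA_iff.2 fun i j hij hj e => by
  rw [steps_length] at hj
  rw [steps_take ω i (by omega), steps_take ω j (by omega)] at e
  exact hij.ne (congrArg Fin.val (ω.2.2 e))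

theorem steps_inj {n : ℕ} {ω ω' : Saw Γ n} (h : steps ω = steps ω') : ω = ω' :=
  Subtype.ext (funext fun i => by
    have := steps_take ω i i.2
    rw [h, steps_take ω' i i.2] at this
    exact this.symm)

theorem steps_surj {l : List Γ} (h : SA l) : ∃ ω : Saw Γ l.length, steps ω = l := by
  refine ⟨⟨fun i => (l.take i).sum, by simp, fun i j e => ?_⟩, List.ext_getElem (steps_length _)
    fun i h1 h2 => ?_⟩
  · rcases lt_trichotomy (i : ℕ) j with h1 | h1 | h1
    · exact absurd e (SA_iff.1 h _ _ h1 (Nat.lt_succ_iff.1 j.2))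
    · exact Fin.ext h1
    · exact absurd e.symm (SA_iff.1 h _ _ h1 (Nat.lt_succ_iff.1 i.2))
  · simp [steps]

theorem step_ne {n : ℕ} (ω : Saw Γ n) (i : Fin n) : ω.1 i.succ - ω.1 i.castSucc ≠ 0 :=
  sub_ne_zero.2 fun e => Fin.castSucc_lt_succ.ne' (ω.2.2 e)

theorem wt_nonneg (hJ : ∀ x, x ≠ 0 → 0 ≤ J x) {n : ℕ} (ω : Saw Γ n) : 0 ≤ wt J ω :=
  Finset.prod_nonneg fun i _ => hJ _ (step_ne ω i)

theorem W_steps (hJ : ∀ x, x ≠ 0 → 0 ≤ J x) {n : ℕ} (ω : Saw Γ n) :
    W (fun s => ofReal (J s)) (steps ω) = ofReal (wt J ω) := by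
  rw [W_of_SA _ (steps_SA ω), wt, ENNReal.ofReal_prod_of_nonneg fun i _ => hJ _ (step_ne ω i),
    steps, List.map_ofFn, List.prod_ofFn]
  rfl

theorem tsum_saw (hJ : ∀ x, x ≠ 0 → 0 ≤ J x) (n : ℕ) (F : Γ → ℝ≥0∞) :
    ∑' ω : Saw Γ n, ofReal (wt J ω) * F (endp ω) =
      ∑' l, W (fun s => ofReal (J s)) l * ind (l.length = n) * F l.sum := by
  refine le_antisymm (tsum_ge_of_inj _ _ steps (fun _ _ _ _ => steps_inj) fun ω _ => ?_)
    (tsum_le_of_lift _ _ steps fun l hl => ?_)
  · rw [W_steps hJ, ind_pos (steps_length ω), steps_sum, mul_one]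
  · obtain rfl : l.length = n := of_ind_ne (right_ne_zero_of_mul (left_ne_zero_of_mul hl))
    obtain ⟨ω, hω⟩ := steps_surj (SA_of_W (left_ne_zero_of_mul (left_ne_zero_of_mul hl)))
    refine ⟨ω, hω, ?_⟩
    rw [← W_steps hJ, ← steps_sum, hω, ind_pos rfl, mul_one]

theorem tsum_real {ι : Type*} {f : ι → ℝ} (hf : ∀ i, 0 ≤ f i) :
    ∑' i, f i = (∑' i, ofReal (f i)).toReal := by
  rw [ENNReal.tsum_toReal_eq fun _ => ENNReal.ofReal_ne_top]
  exact tsum_congr fun i => (ENNReal.toReal_ofReal (hf i)).symm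

theorem summable_real {ι : Type*} {f : ι → ℝ} (hf : ∀ i, 0 ≤ f i) (h : ∑' i, ofReal (f i) ≠ ⊤) :
    Summable f :=
  (ENNReal.summable_toReal h).congr fun i => ENNReal.toReal_ofReal (hf i)

theorem cnt_eq (hJ : ∀ x, x ≠ 0 → 0 ≤ J x) (n : ℕ) :
    cnt J n = (aa (fun s => ofReal (J s)) n).toReal := by
  have := tsum_saw hJ n fun _ => 1
  simp only [mul_one] at this
  rw [cnt, tsum_real (wt_nonneg hJ), this, aa]

theorem tsum_mom (hJ : ∀ x, x ≠ 0 → 0 ≤ J x) (N : Γ → ℝ) (p : ℝ) (n : ℕ) :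
    ∑' ω : Saw Γ n, ofReal (wt J ω * N (endp ω) ^ p) = MM (fun s => ofReal (J s)) N p n := by
  rw [MM, ← tsum_saw hJ n fun z => ofReal (N z ^ p)]
  exact tsum_congr fun ω => ENNReal.ofReal_mul (wt_nonneg hJ ω)

theorem cntTo_eq (hJ : ∀ x, x ≠ 0 → 0 ≤ J x) (n : ℕ) (z : Γ) : cntTo J n z =
    (∑' l, W (fun s => ofReal (J s)) l * ind (l.length = n) * ind (l.sum = z)).toReal := by
  rw [cntTo, tsum_real fun _ => wt_nonneg hJ _, ← tsum_saw hJ n fun y => ind (y = z)]
  congr 1
  refine (tsum_subtype {ω : Saw Γ n | endp ω = z} fun ω => ofReal (wt J ω)).trans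
    (tsum_congr fun ω => ?_)
  by_cases h : endp ω = z
  · rw [Set.indicator_of_mem (by exact h), ind_pos h, mul_one]
  · rw [Set.indicator_of_notMem (by exact h), ind_neg h, mul_zero]

theorem MM_smul (t : ℝ≥0∞) (K : Γ → ℝ≥0∞) (N : Γ → ℝ) (p : ℝ) (n : ℕ) :
    MM (fun s => t * K s) N p n = t ^ n * MM K N p n := by
  rw [MM, MM, ← ENNReal.tsum_mul_left]
  refine tsum_congr fun l => ?_
  by_cases hl : l.length = n
  · rw [W_smul, hl]; ring
  · simp [ind_neg hl]

theorem GG_smul (t : ℝ≥0∞) (K : Γ → ℝ≥0∞) (z : Γ) : GG (fun s => t * K s) z =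
    ∑' n : ℕ, t ^ n * ∑' l, W K l * ind (l.length = n) * ind (l.sum = z) := by
  rw [GG, tsum_len]
  refine tsum_congr fun n => ?_
  rw [← ENNReal.tsum_mul_left]
  refine tsum_congr fun l => ?_
  by_cases hl : l.length = n
  · rw [W_smul, hl]; ring
  · simp [ind_neg hl]

theorem Geo.mono (h : Geo N D c C) {c' C' : ℝ} (hc : 0 < c') (hcc : c' ≤ c) (hC : C ≤ C') :
    Geo N D c' C' where
  toSub := h.toSub
  disc := h.disc
  D_pos := h.D_pos
  c_pos := hc
  C_pos := h.C_pos.trans_le hC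
  vlo r hr := le_trans (ENNReal.ofReal_le_ofReal (by gcongr)) (h.vlo r hr)
  vhi r hr := (h.vhi r hr).trans (ENNReal.ofReal_le_ofReal (by gcongr))

theorem PowerLaw.nonneg (h : Geo N D c C) {s : ℝ} (hJ : PowerLaw N J s) (x : Γ) (hx : x ≠ 0) :
    0 ≤ J x := by
  obtain ⟨c', C', hc', h'⟩ := hJ
  exact le_trans (by have := h.pos hx; positivity) (h' x hx).1

theorem Geo.ker (h : Geo N D c C) (hJ : PowerLaw N J (D + α)) (h0 : 0 < α) (h1 : α < 1)
    (hD : α < D) {t : ℝ} (ht : 0 < t) :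
    ∃ c' C', Ker N (fun s => ofReal t * ofReal (J s)) D α c' C' := by
  obtain ⟨c', C', hc', h'⟩ := hJ
  refine ⟨min c (t * c'), max C (t * C'), h.mono (lt_min h.c_pos (by positivity)) (min_le_left _ _)
    (le_max_left _ _), h0, h1, hD, fun s hs => ?_, fun s hs => ?_⟩
  · have := h.pos hs
    rw [← ENNReal.ofReal_mul ht.le]
    refine ENNReal.ofReal_le_ofReal (le_trans ?_ (mul_le_mul_of_nonneg_left (h' s hs).1 ht.le))
    rw [← mul_assoc]
    exact mul_le_mul_of_nonneg_right (min_le_right _ _) (by positivity)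
  · have := h.pos hs
    rw [← ENNReal.ofReal_mul ht.le]
    refine ENNReal.ofReal_le_ofReal ((mul_le_mul_of_nonneg_left (h' s hs).2 ht.le).trans ?_)
    rw [← mul_assoc]
    exact mul_le_mul_of_nonneg_right (le_max_right _ _) (by positivity)

theorem aa_mul_le (K : Γ → ℝ≥0∞) (n q : ℕ) : aa K (q * n) ≤ aa K n ^ q := by
  induction q with
  | zero => simp [aa_zero]
  | succ q ih =>
    rw [Nat.succ_mul, pow_succ]
    exact (aa_add_le K _ _).trans (mul_le_mul' ih le_rfl)

theorem chi_ne_top (ha : ∀ n, aa K n ≠ ⊤) {n : ℕ} (h : aa K n < 1) : chi K ≠ ⊤ := by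
  have hn : 0 < n := Nat.pos_of_ne_zero fun h0 => by rw [h0, aa_zero] at h; exact h.false
  have h1 : chi K ≤ ∑' p : ℕ × Fin n, aa K n ^ p.1 * aa K p.2 := by
    rw [chi_eq]
    refine tsum_le_of_lift _ _ (fun p => p.1 * n + p.2) fun m _ =>
      ⟨(m / n, ⟨m % n, Nat.mod_lt m hn⟩), Nat.div_add_mod' m n, ?_⟩
    conv_lhs => rw [← Nat.div_add_mod' m n]
    exact (aa_add_le K _ _).trans (mul_le_mul' (aa_mul_le K n _) le_rfl)
  refine ne_top_of_le_ne_top ?_ h1
  rw [ENNReal.tsum_prod']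
  simp only [ENNReal.tsum_mul_left, ENNReal.tsum_mul_right]
  rw [ENNReal.tsum_geometric, tsum_fintype]
  exact ENNReal.mul_ne_top (ENNReal.inv_ne_top.2 (tsub_pos_of_lt h).ne')
    (ENNReal.sum_ne_top.2 fun _ _ => ha _)

theorem exists_mu (h : Ker N K D α c C) : ∃ μ : ℝ, 0 < μ ∧
    Tendsto (fun n : ℕ => (aa K n).toReal ^ (1 / (n : ℝ))) atTop (𝓝 μ) ∧
      Crit fun s => ofReal μ⁻¹ * K s := by
  obtain ⟨A, hA, hA'⟩ := stepA1 h
  have ha := h.aa_ne_top
  have key : ∀ t : ℝ, 0 < t → ∀ n, t ^ n * (aa K n).toReal < 1 →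
      chi (fun s => ofReal t * K s) ≠ ⊤ := fun t ht n hn =>
    chi_ne_top (n := n) (fun m => by
      rw [aa_smul]; exact ENNReal.mul_ne_top (ENNReal.pow_ne_top ENNReal.ofReal_ne_top) (ha m)) (by
      rw [aa_smul, ← ENNReal.ofReal_toReal (ha n), ← ENNReal.ofReal_pow ht.le,
        ← ENNReal.ofReal_mul (by positivity)]
      exact ENNReal.ofReal_lt_one.2 hn)
  have h1 : ∀ n, 1 ≤ (2 * A) ^ n * (aa K n).toReal := fun n => not_lt.1 fun hn => by
    have h2 := (mul_le_mul' le_rfl (one_le_mm _ (h.zero ▸ zero_le_one))).trans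
      (hA' _ (by positivity) (key _ (by positivity) n hn) 1 le_rfl)
    rw [mul_one, Real.one_rpow, ENNReal.ofReal_le_ofReal_iff (by positivity)] at h2
    linarith
  have h2 : ∀ n, 0 < (aa K n).toReal := fun n =>
    (mul_pos_iff_of_pos_left (by positivity)).1 (one_pos.trans_le (h1 n))
  have hs : Subadditive fun n => Real.log (aa K n).toReal := fun m n => by
    rw [← Real.log_mul (h2 m).ne' (h2 n).ne', ← ENNReal.toReal_mul]
    exact Real.log_le_log (h2 _) (ENNReal.toReal_mono (ENNReal.mul_ne_top (ha m) (ha n))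
      (aa_add_le K m n))
  have hb : BddBelow (Set.range fun n : ℕ => Real.log (aa K n).toReal / n) := by
    refine ⟨-|Real.log (2 * A)|, ?_⟩
    rintro _ ⟨n, rfl⟩
    rcases n.eq_zero_or_pos with rfl | hn
    · simp
    have h3 := Real.log_nonneg (h1 n)
    rw [Real.log_mul (by positivity) (h2 n).ne', Real.log_pow] at h3
    have hn' : (0 : ℝ) < n := by exact_mod_cast hn
    simp only
    rw [le_div_iff₀ hn']
    nlinarith [le_abs_self (Real.log (2 * A))]
  have hlim := hs.tendsto_lim hb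
  have hμ := Real.exp_pos hs.lim
  have e : ∀ (x : ℝ) (n : ℕ), (Real.exp x)⁻¹ ^ n * (aa K n).toReal =
      Real.exp (Real.log (aa K n).toReal - n * x) := fun x n => by
    rw [Real.exp_sub, Real.exp_log (h2 n), Real.exp_nat_mul, inv_pow, div_eq_inv_mul]
  refine ⟨Real.exp hs.lim, hμ, ((Real.continuous_exp.tendsto _).comp hlim).congr fun n => ?_,
    fun n => ?_, fun t ht ht1 => ?_⟩
  · rw [Real.rpow_def_of_pos (h2 n), mul_one_div]; rfl
  · rw [aa_smul, ← ENNReal.ofReal_toReal (ha n), ← ENNReal.ofReal_pow (by positivity),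
      ← ENNReal.ofReal_mul (by positivity), ENNReal.one_le_ofReal, e, Real.one_le_exp_iff]
    rcases n.eq_zero_or_pos with rfl | hn
    · simp [aa_zero]
    have := hs.lim_le_div hb hn.ne'
    rw [le_div_iff₀ (by exact_mod_cast hn)] at this
    linarith
  · obtain ⟨n, hn, hn0⟩ := ((hlim.eventually_lt_const (show hs.lim < hs.lim - Real.log t by
      linarith [Real.log_neg ht ht1])).and
        (eventually_gt_atTop 0)).exists
    have h3 := key (Real.exp (hs.lim - Real.log t))⁻¹ (by positivity) n (by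
      rw [e, Real.exp_lt_one_iff]
      rw [div_lt_iff₀ (by exact_mod_cast hn0)] at hn
      linarith)
    simp only [← mul_assoc, ← ENNReal.ofReal_mul ht.le]
    rwa [Real.exp_sub, Real.exp_log ht, inv_div, div_eq_mul_inv] at h3

end Pool.Agent.Lib.LRS
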