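import Pool.Agent.Lib.LRS.Green

/-! The bubble condition gives bounded `c_n / μ ^ n`. -/

namespace Pool.Agent.Lib.LRS

open scoped ENNReal
open ENNReal (ofReal)

theorem blowup (h : ℝ → ℝ) {b : ℝ} (hb : 0 < b)
    (hrec : ∀ s s', 0 < s → s ≤ s' → s' < 1 → h s * b + (s' - s) * h s ^ 2 ≤ h s' * b)
    {s : ℝ} (hs : 0 < s) (hs1 : s < 1) : h s * (1 - s) ≤ 2 * b := by
  by_contra hcon
  rw [not_le] at hcon
  have h0 : 0 < h s := by
    by_contra h1
    nlinarith [mul_nonneg (neg_nonneg.2 (not_lt.1 h1)) (sub_pos.2 hs1).le]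
  set δ := b / h s with hδ
  have hδ0 : 0 < δ := by positivity
  have h1 : s + 2 * δ < 1 := by
    rw [hδ, ← mul_div_assoc, ← lt_sub_iff_add_lt', div_lt_iff₀' h0]; exact hcon
  have hk : ∀ k : ℕ, (0 : ℝ) < 2⁻¹ ^ k ∧ (2⁻¹ : ℝ) ^ k ≤ 1 := fun k =>
    ⟨by positivity, pow_le_one₀ (by norm_num) (by norm_num)⟩
  have key : ∀ k : ℕ, 2 ^ k * h s ≤ h (s + 2 * δ * (1 - 2⁻¹ ^ k)) := by
    intro k
    induction k with
    | zero => simp
    | succ k ih =>
      have h2 := hrec (s + 2 * δ * (1 - 2⁻¹ ^ k)) (s + 2 * δ * (1 - 2⁻¹ ^ (k + 1)))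
        (by nlinarith [hk k]) (by rw [pow_succ]; nlinarith [hk k]) (by nlinarith [hk (k + 1)])
      set x := h (s + 2 * δ * (1 - 2⁻¹ ^ k))
      have h3 : s + 2 * δ * (1 - 2⁻¹ ^ (k + 1)) - (s + 2 * δ * (1 - 2⁻¹ ^ k)) =
          b / (2 ^ k * h s) := by
        rw [hδ, pow_succ, inv_pow]; field_simp; ring
      rw [h3] at h2
      have h4 : 0 < 2 ^ k * h s := by positivity
      have h5 : x * b ≤ b / (2 ^ k * h s) * x ^ 2 := by
        rw [div_mul_eq_mul_div, le_div_iff₀ h4]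
        nlinarith [mul_le_mul_of_nonneg_left ih (mul_pos (h4.trans_le ih) hb).le]
      refine le_of_mul_le_mul_right ?_ hb
      rw [pow_succ]
      nlinarith [mul_le_mul_of_nonneg_right ih hb.le]
  obtain ⟨k, hk'⟩ := pow_unbounded_of_one_lt (h (s + 2 * δ) / h s) (one_lt_two (α := ℝ))
  rw [div_lt_iff₀ h0] at hk'
  have h2 := hrec (s + 2 * δ * (1 - 2⁻¹ ^ k)) (s + 2 * δ) (by nlinarith [hk k])
    (by nlinarith [hk k]) h1
  have h3 : 0 ≤ (s + 2 * δ - (s + 2 * δ * (1 - 2⁻¹ ^ k))) * h (s + 2 * δ * (1 - 2⁻¹ ^ k)) ^ 2 :=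
    mul_nonneg (by nlinarith [hk k]) (sq_nonneg _)
  have h4 := le_of_mul_le_mul_right (le_trans (le_add_of_nonneg_right h3) h2) hb
  linarith [key k]

theorem pow_conv {s s' : ℝ} (hs : 0 ≤ s) (h : s ≤ s') (n : ℕ) :
    s ^ (n + 1) + (s' - s) * (s ^ n * (n + 1)) ≤ s' ^ (n + 1) := by
  induction n with
  | zero => simp
  | succ n ih =>
    have h1 := mul_le_mul_of_nonneg_left ih (hs.trans h)
    have h2 : 0 ≤ (s' - s) ^ 2 * (s ^ n * (n + 1)) := by positivity
    push_cast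
    calc _ ≤ s' * (s ^ (n + 1) + (s' - s) * (s ^ n * (n + 1))) := by
          rw [pow_succ, pow_succ] at *; nlinarith
      _ ≤ _ := by rw [pow_succ' s']; exact h1

variable {Γ : Type} [AddCommGroup Γ] {N : Γ → ℝ} {K : Γ → ℝ≥0∞} {D α c C : ℝ}

theorem bubble_split {l₁ l₂ : List Γ} (h₁ : SA l₁) :
    ∃ a b c d, l₁ = a ++ b ∧ l₂ = c ++ d ∧ b.sum = -c.sum ∧ (SA l₂ → SA (a ++ d)) := by
  classical
  obtain ⟨c, hc, hm⟩ := Finset.exists_max_image
    (l₂.inits.toFinset.filter fun c => ∃ b, b <:+ l₁ ∧ b.sum = -c.sum) List.length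
    ⟨[], by simpa using ⟨[], List.nil_suffix, rfl⟩⟩
  simp only [Finset.mem_filter, List.mem_toFinset, List.mem_inits] at hc hm
  obtain ⟨⟨d, rfl⟩, b, ⟨a, rfl⟩, hb⟩ := hc
  refine ⟨a, b, c, d, rfl, rfl, hb, fun h₂ e he hne h0 => ?_⟩
  rcases List.infix_append_iff.1 he with h1 | h1 | ⟨e₁, e₂, rfl, h1, h2⟩
  · exact h₁ e (h1.trans (List.prefix_append a b).isInfix) hne h0
  · exact h₂ e (h1.trans (List.suffix_append c d).isInfix) hne h0
  · by_cases h3 : e₂ = []
    · subst h3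
      exact h₁ e₁ (h1.isInfix.trans (List.prefix_append a b).isInfix) (by simpa using hne)
        (by simpa using h0)
    · obtain ⟨u, rfl⟩ := h1
      have := hm (c ++ e₂) ⟨(List.prefix_append_right_inj c).2 h2, e₁ ++ b, ⟨u, by simp⟩, by
        rw [List.sum_append] at h0
        rw [List.sum_append, List.sum_append, hb, eq_neg_of_add_eq_zero_left h0]; abel⟩
      rw [List.length_append] at this
      exact h3 (List.length_eq_zero_iff.1 (by omega))

theorem tsum_ind_lt (n : ℕ) : ∑' i : ℕ, ind (i < n) = n := by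
  rw [tsum_eq_sum (s := Finset.range n) fun i hi => ind_neg (by simpa using hi),
    Finset.sum_congr rfl fun i hi => ind_pos (Finset.mem_range.1 hi)]
  simp

theorem bubble_le (K : Γ → ℝ≥0∞) :
    chi K * chi K ≤ (∑' l, W K l * (l.length + 1 : ℕ)) * ∑' z, GG K (-z) * GG K z := by
  have e1 : chi K * chi K = ∑' p : List Γ × List Γ, W K p.1 * W K p.2 := by
    rw [ENNReal.tsum_prod']
    simp only [ENNReal.tsum_mul_left, chi, ENNReal.tsum_mul_right]
  have e2 : (∑' l, W K l * (l.length + 1 : ℕ)) * ∑' z, GG K (-z) * GG K z =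
      ∑' p : (List Γ × ℕ) × Γ × List Γ × List Γ, W K p.1.1 * ind (p.1.2 < p.1.1.length + 1) *
        (W K p.2.2.1 * ind (p.2.2.1.sum = -p.2.1) * (W K p.2.2.2 * ind (p.2.2.2.sum = p.2.1))) := by
    rw [ENNReal.tsum_prod']
    simp only [ENNReal.tsum_mul_left, ENNReal.tsum_mul_right]
    rw [ENNReal.tsum_prod', tsum_prod3 fun z b c => W K b * ind (b.sum = -z) *
      (W K c * ind (c.sum = z))]
    simp only [ENNReal.tsum_mul_left, ENNReal.tsum_mul_right, tsum_ind_lt, GG]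
  rw [e1, e2]
  refine tsum_le_of_lift _ _ (fun p => (p.1.1.take p.1.2 ++ p.2.2.1, p.2.2.2 ++ p.1.1.drop p.1.2))
    fun p hp => ?_
  obtain ⟨l₁, l₂⟩ := p
  have h₁ := SA_of_W (left_ne_zero_of_mul hp)
  have h₂ := SA_of_W (right_ne_zero_of_mul hp)
  obtain ⟨a, b, c, d, rfl, rfl, hb, h⟩ := bubble_split (l₂ := l₂) h₁
  refine ⟨((a ++ d, a.length), c.sum, b, c), by simp, le_of_eq ?_⟩
  simp only
  rw [ind_pos hb, ind_pos trivial, ind_pos (by simp only [List.length_append]; omega), W_of_SA K h₁,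
    W_of_SA K h₂, W_of_SA K (h h₂), W_of_SA K (h₁.mono (List.suffix_append a b).isInfix),
    W_of_SA K (h₂.mono (List.prefix_append c d).isInfix)]
  simp only [List.map_append, List.prod_append]
  ring

theorem bubble_fin (h : Ker N K D α c C) (hc : Crit K) (hD : 2 * α < D) :
    ∃ b : ℝ, 0 < b ∧ ∑' z, GG K (-z) * GG K z ≤ ofReal b := by
  classical
  obtain ⟨A, hA, hA'⟩ := GG_upper h hc
  obtain ⟨B, hB, hB'⟩ := h.shell one_pos (sub_pos.2 hD)
  refine ⟨1 + A * A * B, by positivity, ?_⟩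
  rw [ENNReal.ofReal_add zero_le_one (by positivity), ENNReal.ofReal_mul (by positivity)]
  refine le_trans ?_ (add_le_add le_rfl (mul_le_mul' le_rfl (hB' 1 one_pos)))
  rw [← ENNReal.tsum_mul_left, ENNReal.ofReal_one, ← tsum_ite_eq (0 : Γ) fun _ => (1 : ℝ≥0∞),
    ← ENNReal.tsum_add]
  refine ENNReal.tsum_le_tsum fun z => ?_
  by_cases hz : z = 0
  · rw [hz, neg_zero, GG_zero, if_pos rfl, one_mul]; exact le_self_add
  have hz0 := h.pos hz
  refine le_trans ?_ le_add_self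
  refine (mul_le_mul' (hA' _ (neg_ne_zero.2 hz)) (hA' z hz)).trans (le_of_eq ?_)
  rw [ind_pos hz, one_mul, h.neg, ← ENNReal.ofReal_mul (by positivity),
    ← ENNReal.ofReal_mul (by positivity), div_one, min_eq_right
      (Real.rpow_le_rpow_of_exponent_le (h.disc z hz) (by linarith)), mul_mul_mul_comm,
    ← Real.rpow_add hz0, ← Real.rpow_add hz0]
  congr 3
  ring

theorem chi_smul (t : ℝ≥0∞) (K : Γ → ℝ≥0∞) : chi (fun s => t * K s) = ∑' n, t ^ n * aa K n := by
  simp only [chi_eq, aa_smul]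

theorem Crit.aa_ne_top (hc : Crit K) (n : ℕ) : aa K n ≠ ⊤ := by
  have h := hc.sub 2⁻¹ (by norm_num) (by norm_num)
  rw [chi_smul] at h
  intro h1
  refine ENNReal.ne_top_of_tsum_ne_top h n ?_
  rw [h1, ENNReal.mul_top (by simp)]

theorem aa_bdd (h : Ker N K D α c C) (hc : Crit K) (hD : 2 * α < D) :
    ∃ A : ℝ, ∀ n, (aa K n).toReal ≤ A := by
  obtain ⟨b, hb, hb'⟩ := bubble_fin h hc hD
  let H : ℝ → ℝ≥0∞ := fun s => ofReal s * chi fun x => ofReal s * K x
  have hH : ∀ s, 0 < s → s < 1 → H s ≠ ⊤ := fun s h1 h2 =>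
    ENNReal.mul_ne_top ENNReal.ofReal_ne_top (hc.sub s h1 h2)
  have hrec : ∀ s s', 0 < s → s ≤ s' → s' < 1 →
      (H s).toReal * b + (s' - s) * (H s).toReal ^ 2 ≤ (H s').toReal * b := by
    intro s s' hs hss hs'
    have hs1 : ofReal s ≤ 1 := ENNReal.ofReal_le_one.2 (hss.trans hs'.le)
    have h1 : H s + ofReal (s' - s) * ∑' l, W (fun x => ofReal s * K x) l * (l.length + 1 : ℕ) ≤
        H s' := by
      simp only [H, chi, W_smul, ← ENNReal.tsum_mul_left, ← ENNReal.tsum_add]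
      refine ENNReal.tsum_le_tsum fun l => ?_
      have h2 := ENNReal.ofReal_le_ofReal (pow_conv hs.le hss l.length)
      rw [ENNReal.ofReal_add (by positivity) (mul_nonneg (sub_nonneg.2 hss) (by positivity)),
        ENNReal.ofReal_mul (sub_nonneg.2 hss), ENNReal.ofReal_mul (by positivity),
        ENNReal.ofReal_pow hs.le, ENNReal.ofReal_pow hs.le, ENNReal.ofReal_pow (hs.le.trans hss),
        ← Nat.cast_succ, ENNReal.ofReal_natCast] at h2
      refine le_trans (le_of_eq ?_) ((mul_le_mul' h2 (le_refl (W K l))).trans (le_of_eq ?_)) <;> ring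
    have h2 : H s * H s ≤ (∑' l, W (fun x => ofReal s * K x) l * (l.length + 1 : ℕ)) * ofReal b := by
      refine le_trans (mul_le_mul' (mul_le_of_le_one_left' hs1) (mul_le_of_le_one_left' hs1))
        ((bubble_le _).trans (mul_le_mul' le_rfl (le_trans (ENNReal.tsum_le_tsum fun z => ?_) hb')))
      have : ∀ z, GG (fun x => ofReal s * K x) z ≤ GG K z := fun z => ENNReal.tsum_le_tsum fun l =>
        mul_le_mul' (W_mono fun x _ => mul_le_of_le_one_left' hs1) le_rfl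
      exact mul_le_mul' (this _) (this _)
    have h3 : H s * ofReal b + ofReal (s' - s) * (H s * H s) ≤ H s' * ofReal b := by
      refine le_trans ?_ (mul_le_mul' h1 le_rfl)
      rw [add_mul, mul_assoc (ofReal (s' - s))]
      exact add_le_add le_rfl (mul_le_mul' le_rfl h2)
    have h4 := hH s hs (hss.trans_lt hs')
    have h5 := ENNReal.toReal_mono
      (ENNReal.mul_ne_top (hH s' (hs.trans_le hss) hs') ENNReal.ofReal_ne_top) h3
    rw [ENNReal.toReal_add (ENNReal.mul_ne_top h4 ENNReal.ofReal_ne_top)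
      (ENNReal.mul_ne_top ENNReal.ofReal_ne_top (ENNReal.mul_ne_top h4 h4))] at h5
    simpa only [ENNReal.toReal_mul, ENNReal.toReal_ofReal hb.le, sq,
      ENNReal.toReal_ofReal (sub_nonneg.2 hss)] using h5
  refine ⟨(8 * b) ^ 2, fun n => ?_⟩
  have hn : (0 : ℝ) < n + 1 := by positivity
  have hε : (0 : ℝ) < (2 * ((n : ℝ) + 1))⁻¹ := by positivity
  have hε1 : ((n : ℝ) + 1) * (2 * ((n : ℝ) + 1))⁻¹ = 2⁻¹ := by field_simp
  have hε2 : (2 * ((n : ℝ) + 1))⁻¹ ≤ 2⁻¹ := by nlinarith [(Nat.cast_nonneg n : (0 : ℝ) ≤ n)]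
  set s : ℝ := 1 - (2 * ((n : ℝ) + 1))⁻¹ with hs
  have hs0 : 0 < s := by linarith
  have hs1 : s < 1 := by linarith
  have h1 := blowup (fun s => (H s).toReal) hb hrec hs0 hs1
  have h2 : ∑ k ∈ Finset.range (n + 1), 2⁻¹ * (aa K k).toReal ≤ (H s).toReal := by
    rw [← ENNReal.ofReal_le_iff_le_toReal (hH s hs0 hs1),
      ENNReal.ofReal_sum_of_nonneg fun _ _ => by positivity]
    simp only [H, chi_smul, ← ENNReal.tsum_mul_left]
    refine le_trans (Finset.sum_le_sum fun k hk => ?_) (ENNReal.sum_le_tsum _)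
    rw [ENNReal.ofReal_mul (by norm_num), ENNReal.ofReal_toReal (hc.aa_ne_top k), ← mul_assoc,
      ← pow_succ', ← ENNReal.ofReal_pow hs0.le]
    refine mul_le_mul' (ENNReal.ofReal_le_ofReal (le_trans ?_ (pow_le_pow_of_le_one hs0.le hs1.le
      (Nat.succ_le_of_lt (Finset.mem_range.1 hk))))) le_rfl
    have := one_add_mul_le_pow (a := -(2 * ((n : ℝ) + 1))⁻¹) (by linarith) (n + 1)
    rw [← sub_eq_add_neg, Nat.cast_succ, mul_neg, hε1] at this
    linarith
  have h3 : ∀ k ∈ Finset.range (n + 1),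
      2 * √(aa K n).toReal ≤ (aa K k).toReal + (aa K (n + 1 - 1 - k)).toReal := by
    intro k hk
    have h4 := aa_add_le K k (n + 1 - 1 - k)
    rw [show k + (n + 1 - 1 - k) = n by have := Finset.mem_range.1 hk; omega] at h4
    have h5 := ENNReal.toReal_mono (ENNReal.mul_ne_top (hc.aa_ne_top _) (hc.aa_ne_top _)) h4
    rw [ENNReal.toReal_mul] at h5
    refine abs_le_of_sq_le_sq' ?_ (by positivity) |>.2
    rw [mul_pow, Real.sq_sqrt ENNReal.toReal_nonneg]
    nlinarith [sq_nonneg ((aa K k).toReal - (aa K (n + 1 - 1 - k)).toReal)]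
  have h4 := Finset.card_nsmul_le_sum _ _ _ h3
  rw [Finset.sum_add_distrib, Finset.sum_range_reflect (fun k => (aa K k).toReal), Finset.card_range,
    nsmul_eq_mul, Nat.cast_succ] at h4
  rw [← Finset.mul_sum] at h2
  have h5 : (H s).toReal ≤ 4 * b * (n + 1) := by
    have : 1 - s = (2 * ((n : ℝ) + 1))⁻¹ := by rw [hs]; ring
    simp only [this] at h1
    rw [← div_eq_mul_inv, div_le_iff₀ (by positivity)] at h1
    linarith
  have h6 : √(aa K n).toReal ≤ 8 * b := le_of_mul_le_mul_left (by nlinarith) hn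
  exact (Real.sqrt_le_left (by positivity)).1 h6

end Pool.Agent.Lib.LRS
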