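import Mathlib

/-! Growth exponents of sequences. -/

namespace Pool.Agent.Lib.LRS

open Filter Topology

theorem log_div_tendsto {ι : Type*} {F : Filter ι} {x f : ι → ℝ} {θ : ℝ}
    (hx : Tendsto x F atTop)
    (h : ∀ ε, 0 < ε → ∃ c C : ℝ, 0 < c ∧
      ∀ᶠ n in F, c * x n ^ (θ - ε) ≤ f n ∧ f n ≤ C * x n ^ (θ + ε)) :
    Tendsto (fun n => Real.log (f n) / Real.log (x n)) F (𝓝 θ) := by
  have hl := Real.tendsto_log_atTop.comp hx
  refine Metric.tendsto_nhds.2 fun δ hδ => ?_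
  obtain ⟨c, C, hc, h⟩ := h (δ / 2) (by positivity)
  filter_upwards [h, hx.eventually_gt_atTop 1, hl.eventually_gt_atTop (Real.log C / (δ / 2)),
    hl.eventually_gt_atTop (-Real.log c / (δ / 2))] with n hn h1 h2 h3
  have hx0 : 0 < x n := one_pos.trans h1
  have hL := Real.log_pos h1
  have hf : 0 < f n := lt_of_lt_of_le (by positivity) hn.1
  have hC : 0 < C := (mul_pos_iff_of_pos_right (by positivity)).1 (hf.trans_le hn.2)
  have h4 := Real.log_le_log (by positivity) hn.1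
  have h5 := Real.log_le_log hf hn.2
  rw [Real.log_mul (by positivity) (by positivity), Real.log_rpow hx0] at h4 h5
  rw [Function.comp, div_lt_iff₀ (by positivity)] at h2 h3
  rw [Real.dist_eq, abs_lt, lt_sub_iff_add_lt, sub_lt_iff_lt_add, lt_div_iff₀ hL, div_lt_iff₀ hL]
  constructor <;> nlinarith

theorem unif_of_tendsto {A : ℕ → ℝ} {θ : ℝ} (hA : ∀ n, 1 ≤ A n)
    (h : Tendsto (fun n : ℕ => Real.log (A n) / Real.log n) atTop (𝓝 θ)) :
    0 ≤ θ ∧ ∀ ε, 0 < ε → ∃ c C : ℝ, 0 < c ∧ 0 < C ∧ ∀ᶠ n : ℕ in atTop, ∀ k ≤ n,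
      A k ≤ C * (n : ℝ) ^ (θ + ε) ∧ (n ≤ 4 * k → c * (n : ℝ) ^ (θ - ε) ≤ A k) := by
  have hθ : 0 ≤ θ := ge_of_tendsto' h fun n =>
    div_nonneg (Real.log_nonneg (hA n)) (Real.log_natCast_nonneg n)
  refine ⟨hθ, fun ε hε => ?_⟩
  obtain ⟨k₀, hk₀⟩ := eventually_atTop.1 ((Metric.tendsto_nhds.1 h ε hε).and
    (eventually_gt_atTop 1))
  have hS : ∀ k < k₀, A k ≤ ∑ j ∈ Finset.range k₀, A j := fun k hk =>
    Finset.single_le_sum (f := A) (fun j _ => zero_le_one.trans (hA j)) (Finset.mem_range.2 hk)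
  have hS0 : 0 ≤ ∑ j ∈ Finset.range k₀, A j :=
    Finset.sum_nonneg fun j _ => zero_le_one.trans (hA j)
  refine ⟨4⁻¹ ^ θ, 1 + ∑ j ∈ Finset.range k₀, A j, by positivity, by positivity, ?_⟩
  filter_upwards [eventually_ge_atTop (4 * k₀), eventually_ge_atTop 1] with n hn hn1 k hk
  have hn' : (1 : ℝ) ≤ n := by exact_mod_cast hn1
  have hkn : (k : ℝ) ≤ n := by exact_mod_cast hk
  have h1 : 1 ≤ (n : ℝ) ^ (θ + ε) := Real.one_le_rpow hn' (by linarith)
  have key : k₀ ≤ k → (k : ℝ) ^ (θ - ε) ≤ A k ∧ A k ≤ (k : ℝ) ^ (θ + ε) := fun h2 => by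
    obtain ⟨h3, h4⟩ := hk₀ k h2
    have h5 : (1 : ℝ) < k := by exact_mod_cast h4
    have hL := Real.log_pos h5
    rw [Real.dist_eq, abs_lt, lt_sub_iff_add_lt, sub_lt_iff_lt_add, lt_div_iff₀ hL,
      div_lt_iff₀ hL] at h3
    rw [Real.rpow_le_iff_le_log (one_pos.trans h5) (one_pos.trans_le (hA k)),
      Real.le_rpow_iff_log_le (one_pos.trans_le (hA k)) (one_pos.trans h5)]
    constructor <;> linarith [h3.1, h3.2]
  refine ⟨?_, fun h2 => ?_⟩
  · rcases lt_or_ge k k₀ with h2 | h2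
    · nlinarith [hS k h2]
    · have := ((key h2).2).trans (Real.rpow_le_rpow (Nat.cast_nonneg k) hkn (by linarith))
      nlinarith
  · have hk0 : (0 : ℝ) < k := by exact_mod_cast (by omega : 0 < k)
    refine le_trans ?_ (key (by omega)).1
    rw [sub_eq_add_neg, Real.rpow_add (by linarith), Real.rpow_add hk0, ← mul_assoc,
      ← Real.mul_rpow (by norm_num) (by linarith)]
    refine mul_le_mul (Real.rpow_le_rpow (by positivity) ?_ hθ)
      (Real.rpow_le_rpow_of_nonpos hk0 hkn (by linarith)) (by positivity) (by positivity)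
    have : (n : ℝ) ≤ 4 * k := by exact_mod_cast h2
    linarith

theorem canon_real {A M : ℕ → ℝ} {b : ℝ → ℕ → ℝ} {θ α p B κ : ℝ} (hA : ∀ n, 1 ≤ A n)
    (hθ : Tendsto (fun n : ℕ => Real.log (A n) / Real.log n) atTop (𝓝 θ))
    (hp : 0 ≤ p) (hα : 0 < α) (hB : 0 < B) (hκ : 0 < κ) (hb0 : ∀ R k, 0 ≤ b R k)
    (hU : ∀ R, 0 < R → ∀ n, M n ≤ A n * R ^ p +
      (∑ i ∈ Finset.range n, A i * A (n - 1 - i)) * (B * R ^ (p - α)))
    (hb : ∀ R, 0 < R → ∀ n, A n ≤ b R n +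
      (∑ i ∈ Finset.range n, A i * A (n - 1 - i)) * (B * R ^ (0 - α)))
    (hL : ∀ R, 1 ≤ R → ∀ n,
      (∑ i ∈ Finset.range n, b R i * b R (n - 1 - i)) * (κ * R ^ (-α) * R ^ p) ≤ M n) :
    Tendsto (fun n : ℕ => Real.log (M n / A n) / Real.log n) atTop (𝓝 (p * ((θ + 1) / α))) := by
  obtain ⟨hθ0, hθ1⟩ := unif_of_tendsto hA hθ
  refine log_div_tendsto tendsto_natCast_atTop_atTop fun δ hδ => ?_
  obtain ⟨ε, hε, rfl⟩ : ∃ ε, 0 < ε ∧ δ = 7 * ε := ⟨δ / 7, by positivity, by ring⟩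
  obtain ⟨c, C, hc, hC, h⟩ := hθ1 ε hε
  refine ⟨8⁻¹ * (c / 2) ^ 2 * κ / C, 1 + C ^ 2 * B / c, by positivity, ?_⟩
  filter_upwards [h, eventually_ge_atTop 16, ((tendsto_rpow_atTop hε).comp
    tendsto_natCast_atTop_atTop).eventually_ge_atTop (2 * C ^ 2 * B / c)] with n hn h16 hne
  have hx1 : (1 : ℝ) ≤ n := by exact_mod_cast (by omega : 1 ≤ n)
  have hx : (0 : ℝ) < n := one_pos.trans_le hx1
  have hAn : 0 < A n := one_pos.trans_le (hA n)
  have hS : ∀ k ≤ n, ∑ i ∈ Finset.range k, A i * A (k - 1 - i) ≤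
      C ^ 2 * (n : ℝ) ^ (1 + (θ + ε) + (θ + ε)) := by
    intro k hk
    have h1 := Finset.sum_le_card_nsmul (Finset.range k) (fun i => A i * A (k - 1 - i))
      (C * (n : ℝ) ^ (θ + ε) * (C * (n : ℝ) ^ (θ + ε))) fun i hi =>
        mul_le_mul (hn i (by have := Finset.mem_range.1 hi; omega)).1 (hn _ (by omega)).1
          (zero_le_one.trans (hA _)) (by positivity)
    rw [Finset.card_range, nsmul_eq_mul] at h1
    refine h1.trans ((mul_le_mul_of_nonneg_right (Nat.cast_le.2 hk) (by positivity)).trans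
      (le_of_eq ?_))
    rw [Real.rpow_add hx (1 + (θ + ε)), Real.rpow_add hx 1, Real.rpow_one]
    ring
  constructor
  · have hR : 1 ≤ (n : ℝ) ^ ((θ + 1 + 4 * ε) / α) := Real.one_le_rpow hx1 (by positivity)
    set R := (n : ℝ) ^ ((θ + 1 + 4 * ε) / α) with hRd
    have h1 : ∀ k ≤ n, n ≤ 4 * k → c / 2 * (n : ℝ) ^ (θ - ε) ≤ b R k := by
      intro k hk hk'
      have h2 := ((hn k hk).2 hk').trans ((hb R (one_pos.trans_le hR) k).trans (add_le_add le_rfl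
        (mul_le_mul_of_nonneg_right (hS k hk) (by positivity))))
      have h3 : (n : ℝ) ^ (1 + (θ + ε) + (θ + ε)) * R ^ (0 - α) * (n : ℝ) ^ ε =
          (n : ℝ) ^ (θ - ε) := by
        rw [hRd, ← Real.rpow_mul hx.le, ← Real.rpow_add hx, ← Real.rpow_add hx]
        congr 1
        field_simp
        ring
      rw [Function.comp, div_le_iff₀ hc] at hne
      have h4 : 0 < (n : ℝ) ^ (1 + (θ + ε) + (θ + ε)) * R ^ (0 - α) := by positivity
      nlinarith [mul_le_mul_of_nonneg_left hne h4.le]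
    have h2 : 8⁻¹ * n * (c / 2 * (n : ℝ) ^ (θ - ε) * (c / 2 * (n : ℝ) ^ (θ - ε))) ≤
        ∑ i ∈ Finset.range n, b R i * b R (n - 1 - i) := by
      have h3 := Finset.card_nsmul_le_sum (Finset.Ico (n / 4 + 1) (n / 2))
        (fun i => b R i * b R (n - 1 - i))
        (c / 2 * (n : ℝ) ^ (θ - ε) * (c / 2 * (n : ℝ) ^ (θ - ε))) fun i hi => by
          have := Finset.mem_Ico.1 hi
          exact mul_le_mul (h1 i (by omega) (by omega)) (h1 _ (by omega) (by omega))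
            (by positivity) (hb0 _ _)
      rw [Nat.card_Ico, nsmul_eq_mul] at h3
      refine le_trans (mul_le_mul_of_nonneg_right ?_ (by positivity)) (h3.trans
        (Finset.sum_le_sum_of_subset_of_nonneg (fun i hi => ?_) fun i _ _ =>
          mul_nonneg (hb0 _ _) (hb0 _ _)))
      · have : (n : ℝ) ≤ 8 * (n / 2 - (n / 4 + 1) : ℕ) := by exact_mod_cast (by omega)
        linarith
      · have := Finset.mem_Ico.1 hi
        exact Finset.mem_range.2 (by omega)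
    rw [le_div_iff₀ hAn]
    refine le_trans (mul_le_mul_of_nonneg_left (hn n le_rfl).1 (by positivity))
      (le_trans ?_ ((mul_le_mul_of_nonneg_right h2 (by positivity)).trans (hL R hR n)))
    have h3 : (n : ℝ) ^ (p * ((θ + 1) / α) - 7 * ε) * (n : ℝ) ^ (θ + ε) ≤
        (n : ℝ) ^ (1 : ℝ) * (n : ℝ) ^ (θ - ε) * (n : ℝ) ^ (θ - ε) * R ^ (-α) * R ^ p := by
      rw [hRd, ← Real.rpow_mul hx.le, ← Real.rpow_mul hx.le, ← Real.rpow_add hx,
        ← Real.rpow_add hx, ← Real.rpow_add hx, ← Real.rpow_add hx, ← Real.rpow_add hx]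
      refine Real.rpow_le_rpow_of_exponent_le hx1 ?_
      have e1 : (θ + 1 + 4 * ε) / α * -α = -(θ + 1 + 4 * ε) := by field_simp
      have e2 : (θ + 1 + 4 * ε) / α * p = p * ((θ + 1) / α) + 4 * ε / α * p := by ring
      have e3 : 0 ≤ 4 * ε / α * p := by positivity
      rw [e1, e2]
      linarith
    rw [Real.rpow_one] at h3
    calc _ = 8⁻¹ * (c / 2) ^ 2 * κ *
          ((n : ℝ) ^ (p * ((θ + 1) / α) - 7 * ε) * (n : ℝ) ^ (θ + ε)) := by field_simp
      _ ≤ 8⁻¹ * (c / 2) ^ 2 * κ *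
          (n * (n : ℝ) ^ (θ - ε) * (n : ℝ) ^ (θ - ε) * R ^ (-α) * R ^ p) := by gcongr
      _ = _ := by ring
  · have h1 := (hU ((n : ℝ) ^ ((θ + 1) / α)) (by positivity) n).trans (add_le_add le_rfl
      (mul_le_mul_of_nonneg_right (hS n le_rfl) (by positivity)))
    rw [← Real.rpow_mul hx.le, ← Real.rpow_mul hx.le] at h1
    have h2 : (n : ℝ) ^ ((θ + 1) / α * p) ≤ (n : ℝ) ^ (p * ((θ + 1) / α) + 7 * ε) :=
      Real.rpow_le_rpow_of_exponent_le hx1 (by linarith)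
    have h3 : (n : ℝ) ^ (1 + (θ + ε) + (θ + ε)) * (n : ℝ) ^ ((θ + 1) / α * (p - α)) ≤
        (n : ℝ) ^ (p * ((θ + 1) / α) + 7 * ε) * (n : ℝ) ^ (θ - ε) := by
      rw [← Real.rpow_add hx, ← Real.rpow_add hx]
      refine Real.rpow_le_rpow_of_exponent_le hx1 ?_
      have e1 : (θ + 1) / α * (p - α) = p * ((θ + 1) / α) - (θ + 1) := by field_simp
      rw [e1]
      linarith
    have h4 := (hn n le_rfl).2 (by omega)
    rw [div_le_iff₀ hAn]
    refine h1.trans ?_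
    set X := (n : ℝ) ^ (p * ((θ + 1) / α) + 7 * ε)
    have hX : 0 < X := by positivity
    calc _ ≤ A n * X + C ^ 2 * B / c * X * (c * (n : ℝ) ^ (θ - ε)) := by
          refine add_le_add (by gcongr) (le_trans (le_of_eq (by ring))
            ((mul_le_mul_of_nonneg_left h3 (by positivity : 0 ≤ C ^ 2 * B)).trans (le_of_eq ?_)))
          field_simp
      _ ≤ A n * X + C ^ 2 * B / c * X * A n := by gcongr
      _ = _ := by ring

theorem canon_mf {A M : ℕ → ℝ} {b : ℝ → ℕ → ℝ} {A₀ α p B κ : ℝ} (hA : ∀ n, 1 ≤ A n)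
    (hA₀ : ∀ n, A n ≤ A₀) (hα : 0 < α) (hB : 0 < B) (hκ : 0 < κ)
    (hU : ∀ R, 0 < R → ∀ n, M n ≤ A n * R ^ p +
      (∑ i ∈ Finset.range n, A i * A (n - 1 - i)) * (B * R ^ (p - α)))
    (hb : ∀ R, 0 < R → ∀ n, A n ≤ b R n +
      (∑ i ∈ Finset.range n, A i * A (n - 1 - i)) * (B * R ^ (0 - α)))
    (hL : ∀ R, 1 ≤ R → ∀ n,
      (∑ i ∈ Finset.range n, b R i * b R (n - 1 - i)) * (κ * R ^ (-α) * R ^ p) ≤ M n) :
    ∃ a a' : ℝ, 0 < a ∧ ∀ n : ℕ, 1 ≤ n →
      a * (n : ℝ) ^ (p / α) ≤ M n / A n ∧ M n / A n ≤ a' * (n : ℝ) ^ (p / α) := by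
  have h0 : 0 < A₀ := one_pos.trans_le ((hA 0).trans (hA₀ 0))
  set T := 1 + 2 * A₀ ^ 2 * B with hT
  have hT0 : 0 < T := by positivity
  refine ⟨4⁻¹ * κ * T ^ (p / α) / T / A₀, 1 + A₀ ^ 2 * B, by positivity, fun n hn => ?_⟩
  have hx1 : (1 : ℝ) ≤ n := by exact_mod_cast hn
  have hx : (0 : ℝ) < n := one_pos.trans_le hx1
  have hAn : 0 < A n := one_pos.trans_le (hA n)
  have hS : ∀ k ≤ n, ∑ i ∈ Finset.range k, A i * A (k - 1 - i) ≤ A₀ ^ 2 * n := by
    intro k hk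
    have h1 := Finset.sum_le_card_nsmul (Finset.range k) (fun i => A i * A (k - 1 - i))
      (A₀ * A₀) fun i _ => mul_le_mul (hA₀ _) (hA₀ _) (zero_le_one.trans (hA _)) h0.le
    rw [Finset.card_range, nsmul_eq_mul] at h1
    exact h1.trans ((mul_le_mul_of_nonneg_right (Nat.cast_le.2 hk) (by positivity)).trans
      (le_of_eq (by ring)))
  have e : ∀ y : ℝ, 0 < y → (y ^ α⁻¹) ^ (-α) = y⁻¹ ∧ (y ^ α⁻¹) ^ p = y ^ (p / α) := fun y hy =>
    ⟨by rw [Real.rpow_neg (by positivity), Real.rpow_inv_rpow hy.le hα.ne'],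
      by rw [← Real.rpow_mul hy.le, div_eq_inv_mul]⟩
  constructor
  · have hTn : 1 ≤ T * n := one_le_mul_of_one_le_of_one_le (le_add_of_nonneg_right (by positivity)) hx1
    have hR : 1 ≤ (T * n) ^ α⁻¹ := Real.one_le_rpow hTn (by positivity)
    have h1 : ∀ k ≤ n, 2⁻¹ ≤ b ((T * n) ^ α⁻¹) k := by
      intro k hk
      have h2 := (hA k).trans ((hb _ (one_pos.trans_le hR) k).trans (add_le_add le_rfl
        (mul_le_mul_of_nonneg_right (hS k hk) (by positivity))))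
      rw [zero_sub, (e _ (by positivity)).1] at h2
      have h3 : A₀ ^ 2 * n * (B * (T * n)⁻¹) ≤ 2⁻¹ := by
        rw [show A₀ ^ 2 * n * (B * (T * n)⁻¹) = A₀ ^ 2 * B / T by field_simp, div_le_iff₀ hT0]
        linarith
      linarith
    have h2 := Finset.card_nsmul_le_sum (Finset.range n)
      (fun i => b ((T * n) ^ α⁻¹) i * b ((T * n) ^ α⁻¹) (n - 1 - i)) (2⁻¹ * 2⁻¹) fun i hi =>
        mul_le_mul (h1 i (Finset.mem_range.1 hi).le) (h1 _ (by omega)) (by norm_num)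
          (le_trans (by norm_num) (h1 i (Finset.mem_range.1 hi).le))
    rw [Finset.card_range, nsmul_eq_mul] at h2
    have h3 := (mul_le_mul_of_nonneg_right h2 (by positivity)).trans (hL _ hR n)
    rw [(e _ (by positivity)).1, (e _ (by positivity)).2, Real.mul_rpow hT0.le hx.le] at h3
    rw [le_div_iff₀ hAn]
    refine le_trans (mul_le_mul_of_nonneg_left (hA₀ n) (by positivity)) (le_trans (le_of_eq ?_) h3)
    field_simp
    ring
  · have h1 := (hU ((n : ℝ) ^ α⁻¹) (by positivity) n).trans (add_le_add le_rfl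
      (mul_le_mul_of_nonneg_right (hS n le_rfl) (by positivity)))
    rw [sub_eq_add_neg, Real.rpow_add (by positivity), (e _ hx).1, (e _ hx).2] at h1
    rw [div_le_iff₀ hAn]
    refine h1.trans ?_
    have h2 : 0 < A₀ ^ 2 * B * (n : ℝ) ^ (p / α) := by positivity
    rw [show A₀ ^ 2 * n * (B * ((n : ℝ) ^ (p / α) * (n : ℝ)⁻¹)) = A₀ ^ 2 * B * (n : ℝ) ^ (p / α) by
      field_simp]
    nlinarith [hA n]

end Pool.Agent.Lib.LRS
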