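import Pool.Agent.Lib.LRS.Bubble
import Pool.Agent.Lib.LRS.Expo

/-! Moments of the end point of walks of fixed length. -/

namespace Pool.Agent.Lib.LRS

open scoped ENNReal
open ENNReal (ofReal)
open Filter Topology

variable {Γ : Type} [AddCommGroup Γ] {N : Γ → ℝ} {K : Γ → ℝ≥0∞} {D α c C : ℝ}

/-- unnormalised moment -/
noncomputable def MM (K : Γ → ℝ≥0∞) (N : Γ → ℝ) (p : ℝ) (n : ℕ) : ℝ≥0∞ :=
  ∑' l, W K l * ind (l.length = n) * ofReal (N l.sum ^ p)

/-- weight of confined walks of given length -/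
noncomputable def bb (K : Γ → ℝ≥0∞) (N : Γ → ℝ) (R : ℝ) (n : ℕ) : ℝ≥0∞ :=
  ∑' l, W K l * ind (In N R l) * ind (l.length = n)

theorem bb_le (K : Γ → ℝ≥0∞) (N : Γ → ℝ) (R : ℝ) (n : ℕ) : bb K N R n ≤ aa K n :=
  ENNReal.tsum_le_tsum fun _ => mul_le_mul' (mul_ind_le _ _) le_rfl

theorem MM_le (hN : Sub N) (K : Γ → ℝ≥0∞) {p R : ℝ} (hp : 0 ≤ p) (hp1 : p ≤ 1) (hR : 0 < R)
    (n : ℕ) : MM K N p n ≤ aa K n * ofReal (R ^ p) +
      (∑ i ∈ Finset.range n, aa K i * aa K (n - 1 - i)) * ∑' s, K s * ofReal (gp p R (N s)) := by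
  refine le_trans ?_ (add_le_add le_rfl (split_le K _ n))
  rw [aa, ← ENNReal.tsum_mul_right, ← ENNReal.tsum_add]
  refine ENNReal.tsum_le_tsum fun l => ?_
  rw [← mul_add]
  refine mul_le_mul' le_rfl ?_
  rcases le_total (N l.sum) R with h | h
  · exact (ENNReal.ofReal_le_ofReal (Real.rpow_le_rpow (hN.nonneg _) h hp)).trans le_self_add
  · rw [← gp_of_le hp1 hR h]
    exact (gp_sum_le hN hp hp1 hR (List.prefix_refl l)).trans le_add_self

theorem aa_le_bb (hN : Sub N) (K : Γ → ℝ≥0∞) {R : ℝ} (hR : 0 < R) (n : ℕ) :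
    aa K n ≤ bb K N R n +
      (∑ i ∈ Finset.range n, aa K i * aa K (n - 1 - i)) * ∑' s, K s * ofReal (gp 0 R (N s)) := by
  refine le_trans ?_ (add_le_add le_rfl (split_le K _ n))
  rw [aa, bb, ← ENNReal.tsum_add]
  refine ENNReal.tsum_le_tsum fun l => ?_
  by_cases hl : In N R l
  · rw [ind_pos hl, mul_one]; exact le_self_add
  · refine le_trans (le_mul_of_one_le_right' ?_) le_add_self
    simp only [In, not_forall, not_le] at hl
    obtain ⟨a, ha, h⟩ := hl
    refine le_trans (le_of_eq ?_) (gp_sum_le hN le_rfl zero_le_one hR ha)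
    rw [gp_of_le zero_le_one hR h.le, Real.rpow_zero, ENNReal.ofReal_one]

theorem le_MM (hN : Sub N) (K : Γ → ℝ≥0∞) {p R L : ℝ} {X : ℝ≥0∞} (hp : 0 ≤ p) (hR : 0 ≤ R)
    (hX : X ≤ ∑' s, K s * ind (3 * R < N s ∧ N s ≤ L * R)) (n : ℕ) :
    (∑ i ∈ Finset.range n, bb K N R i * bb K N R (n - 1 - i)) * (X * ofReal (R ^ p)) ≤
      MM K N p n := by
  have h := join_ge K hN hR (fun a b => (∑ i ∈ Finset.range n,
    ind (a.length = i) * ind (b.length = n - 1 - i)) * (X * ofReal (R ^ p)))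
    (fun l => ind (l.length = n) * ofReal (N l.sum ^ p)) fun a b ha hb hw => by
      obtain ⟨i, hi, h1⟩ := Finset.exists_ne_zero_of_sum_ne_zero (left_ne_zero_of_mul hw)
      have h2 : a.length = i := of_ind_ne (left_ne_zero_of_mul h1)
      have h3 : b.length = n - 1 - i := of_ind_ne (right_ne_zero_of_mul h1)
      have h4 := Finset.mem_range.1 hi
      rw [Finset.sum_eq_single i (fun j _ hj => by
        rw [ind_neg (h2 ▸ hj.symm), zero_mul]) fun h => absurd hi h, ind_pos h2, ind_pos h3,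
        one_mul, one_mul]
      refine (mul_le_mul' hX le_rfl).trans ?_
      rw [← ENNReal.tsum_mul_right]
      refine ENNReal.tsum_le_tsum fun s => ?_
      by_cases hs : 3 * R < N s ∧ N s ≤ L * R
      · have h5 := (ann_le hN ha hs).1
        rw [ind_pos hs, ind_pos h5, ind_pos (show (a ++ s :: b).length = n by
          simp only [List.length_append, List.length_cons]; omega), one_mul]
        refine mul_le_mul' le_rfl (ENNReal.ofReal_le_ofReal (Real.rpow_le_rpow hR ?_ hp))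
        have h6 := hN.le_add (a.sum + s) b.sum
        have h7 := hb.sum_le
        simp only [List.sum_append, List.sum_cons, ← add_assoc]
        linarith
      · simp [ind_neg hs]
  refine le_trans (le_of_eq ?_) (h.trans (le_of_eq ?_))
  · simp only [Finset.sum_mul, Finset.mul_sum]
    simp only [Summable.tsum_finsetSum fun _ _ => ENNReal.summable]
    refine Finset.sum_congr rfl fun i _ => ?_
    simp only [bb, ← ENNReal.tsum_mul_left, ← ENNReal.tsum_mul_right]
    rw [ENNReal.tsum_comm]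
    exact tsum_congr fun a => tsum_congr fun b => by ring
  · simp only [MM, mul_assoc]

theorem Ker.aa_ne_top (h : Ker N K D α c C) (n : ℕ) : aa K n ≠ ⊤ := by
  obtain ⟨B, -, hB⟩ := h.sum_gp h.α_pos
  induction n using Nat.strong_induction_on with
  | _ n ih =>
    rcases n.eq_zero_or_pos with rfl | hn
    · rw [aa_zero]; exact ENNReal.one_ne_top
    refine ne_top_of_le_ne_top (ENNReal.mul_ne_top (ENNReal.sum_ne_top.2 fun i hi =>
      ENNReal.mul_ne_top (ih i (Finset.mem_range.1 hi)) (ih (n - 1 - i) (by omega)))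
        ENNReal.ofReal_ne_top) (le_trans (ENNReal.tsum_le_tsum fun l => ?_)
          ((split_le K _ n).trans (mul_le_mul' le_rfl (hB 1 one_pos))))
    by_cases h0 : W K l * ind (l.length = n) = 0
    · rw [h0]; exact zero_le
    refine le_mul_of_one_le_right' ?_
    have h1 : l.length = n := of_ind_ne (right_ne_zero_of_mul h0)
    cases l with
    | nil => simp at h1; omega
    | cons s l =>
      rw [List.map_cons, List.sum_cons, gp_of_le zero_le_one one_pos
        (h.disc s ((SA_of_W (left_ne_zero_of_mul h0)).ne_zero (by simp))), Real.rpow_zero,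
        ENNReal.ofReal_one]
      exact le_self_add

theorem Ker.MM_ne_top (h : Ker N K D α c C) {p : ℝ} (hp : 0 ≤ p) (hpα : p < α) (n : ℕ) :
    MM K N p n ≠ ⊤ := by
  obtain ⟨B, -, hB⟩ := h.sum_gp hpα
  exact ne_top_of_le_ne_top (ENNReal.add_ne_top.2
    ⟨ENNReal.mul_ne_top (h.aa_ne_top n) ENNReal.ofReal_ne_top, ENNReal.mul_ne_top
      (ENNReal.sum_ne_top.2 fun i _ => ENNReal.mul_ne_top (h.aa_ne_top _) (h.aa_ne_top _))
        ENNReal.ofReal_ne_top⟩) ((MM_le h.toSub K hp (hpα.trans h.α_lt).le one_pos n).trans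
          (add_le_add le_rfl (mul_le_mul' le_rfl (hB 1 one_pos))))

theorem canon_ineq (h : Ker N K D α c C) {p : ℝ} (hp : 0 ≤ p) (hpα : p < α) :
    ∃ (B κ : ℝ) (b : ℝ → ℕ → ℝ), 0 < B ∧ 0 < κ ∧ (∀ R k, 0 ≤ b R k) ∧
      (∀ R, 0 < R → ∀ n, (MM K N p n).toReal ≤ (aa K n).toReal * R ^ p +
        (∑ i ∈ Finset.range n, (aa K i).toReal * (aa K (n - 1 - i)).toReal) * (B * R ^ (p - α))) ∧
      (∀ R, 0 < R → ∀ n, (aa K n).toReal ≤ b R n +
        (∑ i ∈ Finset.range n, (aa K i).toReal * (aa K (n - 1 - i)).toReal) * (B * R ^ (0 - α))) ∧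
      ∀ R, 1 ≤ R → ∀ n, (∑ i ∈ Finset.range n, b R i * b R (n - 1 - i)) *
        (κ * R ^ (-α) * R ^ p) ≤ (MM K N p n).toReal := by
  obtain ⟨B, hB, hB'⟩ := h.sum_gp hpα
  obtain ⟨B₀, hB₀, hB₀'⟩ := h.sum_gp h.α_pos
  obtain ⟨L, κ, -, hκ, hL⟩ := h.annulus
  have ha := h.aa_ne_top
  have hb : ∀ R n, bb K N R n ≠ ⊤ := fun R n => ne_top_of_le_ne_top (ha n) (bb_le K N R n)
  have hS : ∀ (f : ℕ → ℝ≥0∞), (∀ n, f n ≠ ⊤) → ∀ n,
      ∑ i ∈ Finset.range n, f i * f (n - 1 - i) =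
        ofReal (∑ i ∈ Finset.range n, (f i).toReal * (f (n - 1 - i)).toReal) := fun f hf n => by
    rw [ENNReal.ofReal_sum_of_nonneg fun _ _ => by positivity]
    exact Finset.sum_congr rfl fun i _ => by
      rw [ENNReal.ofReal_mul ENNReal.toReal_nonneg, ENNReal.ofReal_toReal (hf _),
        ENNReal.ofReal_toReal (hf _)]
  have hS0 : ∀ (f : ℕ → ℝ≥0∞) (n : ℕ),
      0 ≤ ∑ i ∈ Finset.range n, (f i).toReal * (f (n - 1 - i)).toReal := fun f n =>
    Finset.sum_nonneg fun _ _ => by positivity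
  refine ⟨B + B₀, κ, fun R n => (bb K N R n).toReal, by positivity, hκ,
    fun _ _ => ENNReal.toReal_nonneg, fun R hR n => ?_, fun R hR n => ?_, fun R hR n => ?_⟩
  · have h2 := (MM_le h.toSub K hp (hpα.trans h.α_lt).le hR n).trans
      (add_le_add le_rfl (mul_le_mul' le_rfl (hB' R hR)))
    have := hS0 (aa K) n
    rw [hS _ ha, ← ENNReal.ofReal_toReal (ha n), ← ENNReal.ofReal_mul ENNReal.toReal_nonneg,
      ← ENNReal.ofReal_mul this, ← ENNReal.ofReal_add (by positivity) (by positivity)] at h2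
    refine (ENNReal.toReal_le_of_le_ofReal (by positivity) h2).trans ?_
    gcongr
    linarith
  · have h2 := (aa_le_bb h.toSub K hR n).trans
      (add_le_add le_rfl (mul_le_mul' le_rfl (hB₀' R hR)))
    have := hS0 (aa K) n
    rw [hS _ ha, ← ENNReal.ofReal_toReal (hb R n),
      ← ENNReal.ofReal_mul this, ← ENNReal.ofReal_add (by positivity) (by positivity)] at h2
    refine (ENNReal.toReal_le_of_le_ofReal (by positivity) h2).trans ?_
    gcongr
    linarith
  · have hR0 : 0 < R := one_pos.trans_le hR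
    have h2 := le_MM h.toSub K hp hR0.le (hL R hR) n
    rw [hS _ (hb R), ← ENNReal.ofReal_mul (by positivity), ← ENNReal.ofReal_mul (hS0 _ n)] at h2
    exact (ENNReal.ofReal_le_iff_le_toReal (h.MM_ne_top hp hpα n)).1 h2

theorem canon (h : Ker N K D α c C) (h1 : ∀ n, 1 ≤ (aa K n).toReal) {θ p : ℝ} (hp : 0 ≤ p)
    (hpα : p < α)
    (hθ : Tendsto (fun n : ℕ => Real.log (aa K n).toReal / Real.log n) atTop (𝓝 θ)) :
    Tendsto (fun n : ℕ => Real.log ((MM K N p n).toReal / (aa K n).toReal) / Real.log n) atTop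
      (𝓝 (p * ((θ + 1) / α))) := by
  obtain ⟨B, κ, b, hB, hκ, hb0, hU, hb, hL⟩ := canon_ineq h hp hpα
  exact canon_real h1 hθ hp h.α_pos hB hκ hb0 hU hb hL

theorem canon_bdd (h : Ker N K D α c C) {A p : ℝ} (h1 : ∀ n, 1 ≤ (aa K n).toReal)
    (h2 : ∀ n, (aa K n).toReal ≤ A) (hp : 0 ≤ p) (hpα : p < α) :
    ∃ a b : ℝ, 0 < a ∧ ∀ n : ℕ, 1 ≤ n →
      a * (n : ℝ) ^ (p / α) ≤ (MM K N p n).toReal / (aa K n).toReal ∧
        (MM K N p n).toReal / (aa K n).toReal ≤ b * (n : ℝ) ^ (p / α) := by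
  obtain ⟨B, κ, b, hB, hκ, hb0, hU, hb, hL⟩ := canon_ineq h hp hpα
  exact canon_mf h1 h2 h.α_pos hB hκ hU hb hL

end Pool.Agent.Lib.LRS
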