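import Pool.Agent.Lib.LRS.Ker

/-! The critical weight of walks confined to a ball, and cut-off kernels. -/

namespace Pool.Agent.Lib.LRS

open scoped ENNReal
open ENNReal (ofReal)
open Filter Topology

theorem le_one_of_sq {ι : Type*} (u : ι → ℝ≥0∞) {B : ℝ≥0∞} (hB : B ≠ ⊤) (hu : ∀ i, u i ≤ B)
    (h : ∀ i, ∃ j, u i * u i ≤ u j) (i : ι) : u i ≤ 1 := by
  have h1 : (⨆ i, u i) * (⨆ i, u i) ≤ (⨆ i, u i) * 1 := by
    rw [mul_one, ENNReal.iSup_mul]
    refine iSup_le fun i => ?_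
    rw [ENNReal.mul_iSup]
    refine iSup_le fun j => ?_
    rcases le_total (u i) (u j) with hij | hij
    · obtain ⟨k, hk⟩ := h j
      exact ((mul_le_mul' hij le_rfl).trans hk).trans (le_iSup u k)
    · obtain ⟨k, hk⟩ := h i
      exact ((mul_le_mul' le_rfl hij).trans hk).trans (le_iSup u k)
  refine (le_iSup u i).trans ?_
  by_cases h0 : (⨆ i, u i) = 0
  · rw [h0]; exact zero_le
  · exact (ENNReal.mul_le_mul_iff_right h0 (ne_top_of_le_ne_top hB (iSup_le hu))).1 h1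

theorem half_pow_floor {D : ℝ} (hD : 0 < D) :
    ∃ E : ℝ, 0 < E ∧ ∀ y : ℝ, 0 < y → (2⁻¹ : ℝ) ^ ⌊y⌋₊ ≤ E * y ^ (-D) := by
  have hl := Real.log_pos one_lt_two
  refine ⟨2 * (D / Real.log 2) ^ D, by positivity, fun y hy => ?_⟩
  have h1 : (y * (Real.log 2 / D)) ^ D ≤ 2 ^ y := by
    refine (Real.rpow_le_rpow (by positivity) (le_trans (by linarith)
      (Real.add_one_le_exp (y * (Real.log 2 / D)))) hD.le).trans (le_of_eq ?_)
    rw [← Real.exp_mul, Real.rpow_def_of_pos two_pos]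
    congr 1
    field_simp
  have h2 : (2 : ℝ) ^ y ≤ 2 * 2 ^ ⌊y⌋₊ := by
    rw [← pow_succ', ← Real.rpow_natCast]
    exact Real.rpow_le_rpow_of_exponent_le one_le_two (by push_cast; exact (Nat.lt_floor_add_one y).le)
  have h3 := h1.trans h2
  rw [Real.mul_rpow hy.le (by positivity), ← inv_div, Real.inv_rpow (by positivity),
    ← div_eq_mul_inv, div_le_iff₀ (by positivity)] at h3
  rw [Real.rpow_neg hy.le, inv_pow, ← div_eq_mul_inv, le_div_iff₀ (by positivity), mul_comm,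
    ← div_eq_mul_inv, div_le_iff₀ (by positivity)]
  linarith

variable {Γ : Type} [AddCommGroup Γ] {N : Γ → ℝ} {K : Γ → ℝ≥0∞} {D α c C : ℝ}

omit [AddCommGroup Γ] in
theorem le_of_forall_lt_one (X : List Γ → ℝ≥0∞) (A : ℝ≥0∞)
    (h : ∀ t : ℝ, 0 < t → t < 1 → ofReal t * ∑' l, ofReal t ^ l.length * X l ≤ A) :
    ∑' l, X l ≤ A := by
  refine tsum_le_of_trunc _ _ fun n => ?_
  set Y := ∑' l, X l * ind (l.length < n)
  have h1 : Tendsto (fun t : ℝ => ofReal t ^ (n + 1) * Y) (𝓝[<] 1) (𝓝 (ofReal 1 ^ (n + 1) * Y)) :=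
    ENNReal.Tendsto.mul_const (ENNReal.Tendsto.pow
      ((ENNReal.continuous_ofReal.tendsto 1).mono_left nhdsWithin_le_nhds)) (Or.inl (by simp))
  rw [ENNReal.ofReal_one, one_pow, one_mul] at h1
  refine le_of_tendsto h1 ?_
  filter_upwards [Ioo_mem_nhdsLT (zero_lt_one' ℝ)] with t ht
  refine le_trans ?_ (h t ht.1 ht.2)
  rw [pow_succ', mul_assoc, ← ENNReal.tsum_mul_left]
  refine mul_le_mul' le_rfl (ENNReal.tsum_le_tsum fun l => ?_)
  by_cases hl : l.length < n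
  · rw [ind_pos hl, mul_one]
    exact mul_le_mul' (pow_le_pow_right_of_le_one' (ENNReal.ofReal_le_one.2 ht.2.le) hl.le) le_rfl
  · simp [ind_neg hl]

theorem ann_le (hN : Sub N) {R L : ℝ} {a : List Γ} (ha : In N R a) {s : Γ}
    (hs : 3 * R < N s ∧ N s ≤ L * R) : 2 * R < N (a.sum + s) ∧ N (a.sum + s) ≤ (L + 1) * R := by
  have h1 := hN.le_add s a.sum
  have h2 := hN.add a.sum s
  have h3 := ha.sum_le
  rw [add_comm s] at h1
  constructor <;> linarith [hs.1, hs.2]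

theorem stepA0 (hN : Sub N) {L κ : ℝ} (hα : 0 < α) (hL : 1 ≤ L) (hκ : 0 < κ)
    (hann : ∀ R, 1 ≤ R → ofReal (κ * R ^ (-α)) ≤ ∑' s, K s * ind (3 * R < N s ∧ N s ≤ L * R))
    (hχ : chi K ≠ ⊤) {R : ℝ} (hR : 1 ≤ R) :
    ofReal κ * mm K N R ≤ ofReal (((L + 2) * R) ^ α) := by
  have hrec : ∀ R, 1 ≤ R →
      mm K N R * mm K N R * ofReal (κ * R ^ (-α)) ≤ mm K N ((L + 2) * R) := by
    intro R hR
    refine le_trans (le_of_eq ?_) (join_ge K hN (zero_le_one.trans hR)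
      (fun _ _ => ofReal (κ * R ^ (-α))) (fun l => ind (In N ((L + 2) * R) l))
        fun a b ha hb _ => (hann R hR).trans (ENNReal.tsum_le_tsum fun s => ?_))
    · simp only [mm, ENNReal.tsum_mul_left, ENNReal.tsum_mul_right]
    · by_cases hs : 3 * R < N s ∧ N s ≤ L * R
      · obtain ⟨h1, h2⟩ := ann_le hN ha hs
        rw [ind_pos hs, ind_pos h1, ind_pos (In_join hN ha hb (by linarith) (by nlinarith)), mul_one,
          mul_one]
      · simp [ind_neg hs]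
  have key := le_one_of_sq (fun R : {R : ℝ // 1 ≤ R} =>
    mm K N R * ofReal (κ * ((L + 2) * R) ^ (-α))) (B := chi K * ofReal κ)
    (ENNReal.mul_ne_top hχ ENNReal.ofReal_ne_top) (fun R => mul_le_mul' (mm_le_chi _ _ _)
      (ENNReal.ofReal_le_ofReal (mul_le_of_le_one_right hκ.le
        (Real.rpow_le_one_of_one_le_of_nonpos (by nlinarith [R.2]) (by linarith)))))
    (fun R => ⟨⟨(L + 2) * R, by nlinarith [R.2]⟩, by
      refine le_trans (le_of_eq ?_) (mul_le_mul' (hrec R R.2) le_rfl)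
      have hR0 : 0 < (R : ℝ) := one_pos.trans_le R.2
      rw [mul_mul_mul_comm, mul_assoc (_ * _), ← ENNReal.ofReal_mul (by positivity),
        ← ENNReal.ofReal_mul (by positivity)]
      congr 2
      rw [Real.mul_rpow (x := L + 2) (y := (L + 2) * R) (by positivity) (by positivity),
        Real.mul_rpow (x := L + 2) (y := R) (by positivity) (by positivity)]
      ring⟩) ⟨R, hR⟩
  have hR0 : 0 < (L + 2) * R := by positivity
  calc ofReal κ * mm K N R = mm K N R * ofReal (κ * ((L + 2) * R) ^ (-α)) *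
        ofReal (((L + 2) * R) ^ α) := by
        rw [mul_assoc, ← ENNReal.ofReal_mul (by positivity), mul_assoc, ← Real.rpow_add hR0,
          neg_add_cancel, Real.rpow_zero, mul_one, mul_comm]
    _ ≤ 1 * ofReal (((L + 2) * R) ^ α) := mul_le_mul' key le_rfl
    _ = _ := one_mul _

theorem stepA1 (h : Ker N K D α c C) : ∃ A : ℝ, 0 < A ∧ ∀ t : ℝ, 0 < t →
    chi (fun s => ofReal t * K s) ≠ ⊤ → ∀ R, 1 ≤ R →
      ofReal t * mm (fun s => ofReal t * K s) N R ≤ ofReal (A * R ^ α) := by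
  obtain ⟨L, κ, hL, hκ, hann⟩ := h.annulus
  refine ⟨(L + 2) ^ α / κ, by positivity, fun t ht hχ R hR => ?_⟩
  have h1 := stepA0 h.toSub h.α_pos hL (mul_pos hκ ht) (K := fun s => ofReal t * K s)
    (fun R hR => by
      simp only [mul_assoc, ENNReal.tsum_mul_left]
      rw [mul_left_comm, ENNReal.ofReal_mul ht.le]
      exact mul_le_mul' le_rfl (hann R hR)) hχ hR
  rw [ENNReal.ofReal_mul hκ.le, mul_assoc] at h1
  refine (ENNReal.mul_le_mul_iff_right (ENNReal.ofReal_pos.2 hκ).ne' ENNReal.ofReal_ne_top).1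
    (h1.trans (le_of_eq ?_))
  rw [← ENNReal.ofReal_mul hκ.le, Real.mul_rpow (by positivity) (by positivity)]
  congr 1
  field_simp

/-- the kernel is critical -/
structure Crit (K : Γ → ℝ≥0∞) : Prop where
  one_le : ∀ n, 1 ≤ aa K n
  sub : ∀ t : ℝ, 0 < t → t < 1 → chi (fun s => ofReal t * K s) ≠ ⊤

theorem stepA (h : Ker N K D α c C) (hc : Crit K) :
    ∃ A : ℝ, 0 < A ∧ ∀ R, 1 ≤ R → mm K N R ≤ ofReal (A * R ^ α) := by
  obtain ⟨A, hA, h1⟩ := stepA1 h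
  refine ⟨A, hA, fun R hR => le_of_forall_lt_one _ _ fun t ht ht1 => ?_⟩
  refine le_trans (le_of_eq ?_) (h1 t ht (hc.sub t ht ht1) R hR)
  simp only [mm, W_smul, mul_assoc]

theorem Ker.sum_min (h : Ker N K D α c C) : ∃ B : ℝ, 0 < B ∧ ∀ ρ, 0 < ρ →
    ∑' s, K s * ofReal (2 * min (N s) ρ) ≤ ofReal (B * ρ ^ (1 - α)) := by
  obtain ⟨B, hB, h1⟩ := h.sum_gp h.α_pos
  refine ⟨2 * B, by positivity, fun ρ hρ => ?_⟩
  calc ∑' s, K s * ofReal (2 * min (N s) ρ)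
      = ofReal (2 * ρ) * ∑' s, K s * ofReal (gp 0 ρ (N s)) := by
        rw [← ENNReal.tsum_mul_left]
        refine tsum_congr fun s => ?_
        rw [← gp0 hρ, ← mul_assoc, ENNReal.ofReal_mul (by positivity), mul_left_comm]
    _ ≤ ofReal (2 * ρ) * ofReal (B * ρ ^ (0 - α)) := mul_le_mul' le_rfl (h1 ρ hρ)
    _ = _ := by
        rw [← ENNReal.ofReal_mul (by positivity), Real.rpow_sub hρ, Real.rpow_sub hρ]
        congr 1
        simp only [Real.rpow_zero, Real.rpow_one]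
        ring

theorem half_le_avg (K : Γ → ℝ≥0∞) (N : Γ → ℝ) (M : ℕ)
    (h : ∀ i < M, ¬ phi K N (i + 1 : ℕ) ≤ 2⁻¹) :
    ofReal (M / 2) ≤ ∑ i ∈ Finset.range M, phi K N (i + 1 : ℕ) := by
  refine le_trans (le_of_eq ?_) (Finset.card_nsmul_le_sum _ _ 2⁻¹ fun i hi =>
    (not_le.1 (h i (Finset.mem_range.1 hi))).le)
  rw [Finset.card_range, nsmul_eq_mul, ENNReal.ofReal_div_of_pos two_pos, ENNReal.ofReal_natCast,
    ENNReal.ofReal_ofNat, div_eq_mul_inv]

theorem Crit.chi_top (hc : Crit K) : chi K = ⊤ := by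
  rw [chi_eq, eq_top_iff]
  exact le_trans (le_of_eq (ENNReal.tsum_const_eq_top_of_ne_zero one_ne_zero).symm)
    (ENNReal.tsum_le_tsum hc.one_le)

theorem stepB (h : Ker N K D α c C) (hc : Crit K) :
    ∃ a : ℝ, 0 < a ∧ ∀ r, 0 < r → ofReal (a * r ^ α) ≤ mm K N r := by
  obtain ⟨A, hA, hA'⟩ := stepA h hc
  obtain ⟨B, hB, hB'⟩ := h.sum_min
  have hα := h.α_pos
  refine ⟨min 1 (4 * B)⁻¹, by positivity, fun r hr => ?_⟩
  rcases le_total r 1 with h1 | h1
  · refine le_trans (ENNReal.ofReal_le_one.2 ?_) (one_le_mm K (h.zero ▸ hr.le))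
    exact mul_le_one₀ (min_le_left _ _) (by positivity) (Real.rpow_le_one hr.le h1 hα.le)
  have hM : 0 < (⌊r⌋₊ : ℝ) := by exact_mod_cast Nat.floor_pos.2 h1
  have h2 := (half_le_avg K N ⌊r⌋₊ fun i _ hφ => by
    have h3 := (chi_le K (h.zero ▸ Nat.cast_nonneg _) hφ).trans
      (mul_le_mul' le_rfl (hA' _ (by exact_mod_cast Nat.succ_pos i)))
    rw [hc.chi_top, top_le_iff] at h3
    exact ENNReal.mul_ne_top (by simp) ENNReal.ofReal_ne_top h3).trans
      ((h.avg_le K ⌊r⌋₊).trans (mul_le_mul' (mm_mono (fun _ => le_rfl) N (Nat.floor_le hr.le))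
        (hB' _ hM)))
  have h3 : 0 < B * (⌊r⌋₊ : ℝ) ^ (1 - α) := by positivity
  refine (ENNReal.mul_le_mul_iff_left (ENNReal.ofReal_pos.2 h3).ne' ENNReal.ofReal_ne_top).1
    (le_trans ?_ h2)
  rw [← ENNReal.ofReal_mul (by positivity)]
  refine ENNReal.ofReal_le_ofReal ?_
  have h4 : r ^ α ≤ 2 * (⌊r⌋₊ : ℝ) ^ α := by
    have h5 : r ≤ 2 * ⌊r⌋₊ := by
      have := Nat.lt_floor_add_one r
      have : (1 : ℝ) ≤ ⌊r⌋₊ := by exact_mod_cast Nat.floor_pos.2 h1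
      linarith
    refine (Real.rpow_le_rpow hr.le h5 hα.le).trans ?_
    rw [Real.mul_rpow zero_le_two hM.le]
    refine mul_le_mul_of_nonneg_right ?_ (by positivity)
    simpa using Real.rpow_le_rpow_of_exponent_le one_le_two h.α_lt.le
  calc min 1 (4 * B)⁻¹ * r ^ α * (B * (⌊r⌋₊ : ℝ) ^ (1 - α))
      ≤ (4 * B)⁻¹ * (2 * (⌊r⌋₊ : ℝ) ^ α) * (B * (⌊r⌋₊ : ℝ) ^ (1 - α)) := by
        gcongr
        exact min_le_right _ _
    _ = _ := by
        rw [Real.rpow_sub hM, Real.rpow_one]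
        field_simp
        ring

/-- cut-off kernel -/
noncomputable def cut (K : Γ → ℝ≥0∞) (N : Γ → ℝ) (ρ : ℝ) : Γ → ℝ≥0∞ := fun s => K s * ind (N s ≤ ρ)

theorem stepC (h : Ker N K D α c C) (hc : Crit K) : ∃ E : ℝ, 0 < E ∧ ∀ ρ, 1 ≤ ρ →
    chi (cut K N ρ) ≤ ofReal (E * ρ ^ α) ∧
      ∀ x, 0 < x → TT (cut K N ρ) N x ≤ ofReal (E * ρ ^ α * (ρ / x) ^ D) := by
  obtain ⟨A, hA, hA'⟩ := stepA h hc
  obtain ⟨B, hB, hB'⟩ := h.sum_min
  obtain ⟨E, hE, hE'⟩ := half_pow_floor h.D_pos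
  have hα := h.α_pos
  have hα1 := sub_pos.2 h.α_lt
  have hD := h.D_pos
  obtain ⟨H, hH1, hH⟩ : ∃ H : ℝ, 1 ≤ H ∧ 2 * A * B < H ^ (1 - α) := by
    refine ⟨max 1 ((2 * A * B + 1) ^ (1 - α)⁻¹), le_max_left _ _, ?_⟩
    refine lt_of_lt_of_le ?_ (Real.rpow_le_rpow (by positivity) (le_max_right _ _) hα1.le)
    rw [Real.rpow_inv_rpow (by positivity) hα1.ne']
    linarith
  have hcut : ∀ ρ s, cut K N ρ s ≤ K s := fun ρ s => mul_ind_le _ _
  refine ⟨2 * A * (H + 1) ^ α * max 1 (E * (H + 2) ^ D), by positivity, fun ρ hρ => ?_⟩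
  have hρ0 : 0 < ρ := one_pos.trans_le hρ
  have hHρ : 1 ≤ H * ρ := one_le_mul_of_one_le_of_one_le hH1 hρ
  obtain ⟨i, hi, hφ⟩ : ∃ i < ⌈H * ρ⌉₊, phi (cut K N ρ) N (i + 1 : ℕ) ≤ 2⁻¹ := by
    by_contra hcon
    have hM := Nat.le_ceil (H * ρ)
    have hM0 : 0 < (⌈H * ρ⌉₊ : ℝ) := by linarith
    have h1 := (half_le_avg _ N _ fun i hi hφ => hcon ⟨i, hi, hφ⟩).trans
      ((h.avg_le _ _).trans (mul_le_mul' ((mm_mono (hcut ρ) N le_rfl).trans
        (hA' _ (hHρ.trans hM))) (le_trans (ENNReal.tsum_le_tsum fun s => ?_) (hB' ρ hρ0))))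
    · rw [← ENNReal.ofReal_mul (by positivity), ENNReal.ofReal_le_ofReal_iff (by positivity)] at h1
      have h2 := Real.rpow_le_rpow (by positivity) hM hα1.le
      rw [Real.mul_rpow (by positivity) hρ0.le, Real.rpow_sub hM0, Real.rpow_one,
        le_div_iff₀ (by positivity)] at h2
      have h3 : 0 < ρ ^ (1 - α) * (⌈H * ρ⌉₊ : ℝ) ^ α := by positivity
      nlinarith [mul_lt_mul_of_pos_right hH h3]
    · by_cases hs : N s ≤ ρ
      · refine mul_le_mul' (hcut ρ s) (ENNReal.ofReal_le_ofReal ?_)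
        rw [min_eq_left hs]
        linarith [min_le_left (N s) (⌈H * ρ⌉₊ : ℝ)]
      · simp [cut, ind_neg hs]
  have hR : ((i + 1 : ℕ) : ℝ) ≤ (H + 1) * ρ := by
    have h1 : ((i + 1 : ℕ) : ℝ) ≤ ⌈H * ρ⌉₊ := by exact_mod_cast hi
    have := Nat.ceil_lt_add_one (zero_le_one.trans hHρ)
    linarith
  have hχ : chi (cut K N ρ) ≤ ofReal (2 * A * (H + 1) ^ α * ρ ^ α) := by
    refine (chi_le _ (h.zero ▸ Nat.cast_nonneg _) hφ).trans ((mul_le_mul' le_rfl
      ((mm_mono (hcut ρ) N hR).trans (hA' _ (by nlinarith)))).trans (le_of_eq ?_))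
    rw [Real.mul_rpow (by positivity) hρ0.le, mul_assoc 2, mul_assoc 2, mul_assoc A,
      ENNReal.ofReal_mul zero_le_two, ENNReal.ofReal_ofNat]
  refine ⟨hχ.trans (ENNReal.ofReal_le_ofReal ?_), fun x hx => ?_⟩
  · exact mul_le_mul_of_nonneg_right (le_mul_of_one_le_right (by positivity) (le_max_left _ _))
      (by positivity)
  have hy : 0 < x / ((H + 2) * ρ) := by positivity
  have h1 := TT_iter _ h.toSub (Nat.cast_nonneg _) hρ0.le
    (fun s hs => of_ind_ne (right_ne_zero_of_mul hs)) hφ ⌊x / ((H + 2) * ρ)⌋₊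
  refine (TT_anti _ N ?_).trans (h1.trans ((mul_le_mul' le_rfl hχ).trans ?_))
  · have h2 := Nat.floor_le hy.le
    rw [le_div_iff₀ (by positivity)] at h2
    refine le_trans (mul_le_mul_of_nonneg_left ?_ (Nat.cast_nonneg _)) h2
    linarith
  · rw [← ENNReal.ofReal_ofNat 2, ← ENNReal.ofReal_inv_of_pos two_pos,
      ← ENNReal.ofReal_pow (by positivity), ← ENNReal.ofReal_mul (by positivity)]
    refine ENNReal.ofReal_le_ofReal ?_
    have h2 := hE' _ hy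
    rw [Real.rpow_neg hy.le, ← Real.inv_rpow hy.le, inv_div, mul_div_assoc,
      Real.mul_rpow (by positivity) (by positivity), ← mul_assoc] at h2
    calc _ ≤ max 1 (E * (H + 2) ^ D) * (ρ / x) ^ D * (2 * A * (H + 1) ^ α * ρ ^ α) := by
          gcongr
          exact h2.trans (mul_le_mul_of_nonneg_right (le_max_right _ _) (by positivity))
      _ = _ := by ring

end Pool.Agent.Lib.LRS
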