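import Pool.Agent.Lib.LRS.Crit

/-! Two-sided bounds on the critical two-point function. -/

namespace Pool.Agent.Lib.LRS

open scoped ENNReal
open ENNReal (ofReal)

variable {Γ : Type} [AddCommGroup Γ] {N : Γ → ℝ} {K : Γ → ℝ≥0∞} {D α c C : ℝ}

theorem GG_zero (K : Γ → ℝ≥0∞) : GG K 0 = 1 := by
  rw [GG, tsum_eq_single []]
  · simp [W_nil, ind_pos]
  · intro l hl
    by_cases h : SA l
    · rw [ind_neg (h l (List.infix_refl l) hl), mul_zero]
    · rw [W, ind_neg h, zero_mul, zero_mul]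

theorem GG_lower (h : Ker N K D α c C) (hc : Crit K) :
    ∃ a : ℝ, 0 < a ∧ ∀ z, z ≠ 0 → ofReal (a * N z ^ (α - D)) ≤ GG K z := by
  obtain ⟨a, ha, ha'⟩ := stepB h hc
  have hc0 := h.c_pos
  have hα := h.α_pos
  have hD := h.D_pos
  refine ⟨a * 4⁻¹ ^ α * (a * 4⁻¹ ^ α) * (c * (6 * 4⁻¹) ^ (-(D + α))), by positivity,
    fun z hz => ?_⟩
  have hz0 := h.pos hz
  have hr : 0 < 4⁻¹ * N z := by positivity
  refine le_trans ?_ (join_ge K h.toSub hr.le
    (fun _ _ => ofReal (c * (6 * 4⁻¹ * N z) ^ (-(D + α)))) (fun l => ind (l.sum = z))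
      fun a b ha hb _ => le_trans ?_ (ENNReal.le_tsum (z - a.sum - b.sum)))
  · simp only [ENNReal.tsum_mul_left, ENNReal.tsum_mul_right]
    refine le_trans (le_of_eq ?_) (mul_le_mul' (mul_le_mul' (ha' _ hr) (ha' _ hr)) le_rfl)
    rw [← ENNReal.ofReal_mul (by positivity), ← ENNReal.ofReal_mul (by positivity),
      Real.mul_rpow (x := 4⁻¹) (by positivity) hz0.le,
      Real.mul_rpow (x := 6 * 4⁻¹) (by positivity) hz0.le,
      show α - D = α + α + -(D + α) by ring, Real.rpow_add hz0, Real.rpow_add hz0]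
    congr 1
    ring
  · have h1 := ha.sum_le
    have h2 := hb.sum_le
    have e : a.sum + (z - a.sum - b.sum) = z - b.sum := by abel
    have h3 := h.le_add z (-b.sum)
    rw [h.neg, ← sub_eq_add_neg] at h3
    have h4 : 2 * (4⁻¹ * N z) < N (a.sum + (z - a.sum - b.sum)) := by rw [e]; linarith
    have h5 : z - a.sum - b.sum ≠ 0 := by
      intro h0
      rw [h0, add_zero] at h4
      linarith
    have h6 := h.sub (z - a.sum) b.sum
    have h7 := h.sub z a.sum
    rw [ind_pos h4, ind_pos (by simp), mul_one, mul_one]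
    exact le_trans (ENNReal.ofReal_le_ofReal (mul_le_mul_of_nonneg_left
      (Real.rpow_le_rpow_of_nonpos (h.pos h5) (by linarith) (by linarith)) hc0.le)) (h.klo _ h5)

omit [AddCommGroup Γ] in
theorem exists_longest (N : Γ → ℝ) {l : List Γ} (hl : l ≠ []) :
    ∃ a s b, l = a ++ s :: b ∧ ∀ t ∈ l, N t ≤ N s := by
  classical
  obtain ⟨s, hs, h⟩ := Finset.exists_max_image l.toFinset N (List.toFinset_nonempty_iff l |>.2 hl)
  obtain ⟨a, b, e⟩ := List.append_of_mem (List.mem_toFinset.1 hs)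
  exact ⟨a, s, b, e, fun t ht => h t (List.mem_toFinset.2 ht)⟩

theorem pair_le (hN : Sub N) (K : Γ → ℝ≥0∞) (z : Γ) {ρ : ℝ} (hρ : ρ < N z / 2) :
    ∑' a, ∑' b, W K a * W K b * ind (N (z - a.sum - b.sum) ≤ ρ) ≤
      2 * (TT K N (N z / 4) * chi K) := by
  have : 2 * (TT K N (N z / 4) * chi K) = ∑' a, ∑' b, (W K a * ind (¬ In N (N z / 4) a) * W K b +
      W K a * (W K b * ind (¬ In N (N z / 4) b))) := by
    simp only [ENNReal.tsum_add, ENNReal.tsum_mul_left, ENNReal.tsum_mul_right, TT, chi]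
    ring
  rw [this]
  refine ENNReal.tsum_le_tsum fun a => ENNReal.tsum_le_tsum fun b => ?_
  by_cases ha : In N (N z / 4) a
  · by_cases hb : In N (N z / 4) b
    · rw [ind_neg (P := N (z - a.sum - b.sum) ≤ ρ), mul_zero]
      · exact zero_le
      have h1 := hN.add (z - a.sum - b.sum) b.sum
      have h2 := hN.add (z - a.sum) a.sum
      rw [sub_add_cancel] at h1 h2
      linarith [ha.sum_le, hb.sum_le]
    · rw [ind_pos hb, mul_one]
      exact (mul_ind_le _ _).trans le_add_self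
  · rw [ind_pos ha, mul_one]
    exact (mul_ind_le _ _).trans le_self_add

theorem GG_upper (h : Ker N K D α c C) (hc : Crit K) :
    ∃ A : ℝ, 0 < A ∧ ∀ z, z ≠ 0 → GG K z ≤ ofReal (A * N z ^ (α - D)) := by
  obtain ⟨E, hE, hE'⟩ := stepC h hc
  have hC := h.C_pos
  have hα := h.α_pos
  have hD := h.D_pos
  have hg := geo2_ne_top hα (sub_pos.2 h.α_lt_D)
  refine ⟨C * (2 * (E * 2 ^ α) ^ 2 * 8 ^ D) * ((geo2 α (D - α)).toReal + 1), by positivity,
    fun z hz => ?_⟩
  have hz0 := h.pos hz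
  let g : ℤ → List Γ → List Γ → ℝ≥0∞ := fun j a b =>
    ind (1 ≤ 2 * (N z * 2 ^ j)) * ofReal (C * (N z * 2 ^ j) ^ (-(D + α))) *
      (W (cut K N (2 * (N z * 2 ^ j))) a * W (cut K N (2 * (N z * 2 ^ j))) b *
        ind (N (z - a.sum - b.sum) ≤ 2 * (N z * 2 ^ j)))
  have h1 : GG K z ≤ ∑' p : ℤ × List Γ × List Γ, g p.1 p.2.1 p.2.2 := by
    refine tsum_le_of_lift _ _ (fun p => p.2.1 ++ (z - p.2.1.sum - p.2.2.sum) :: p.2.2)
      fun l hl => ?_
    have hs : l.sum = z := of_ind_ne (right_ne_zero_of_mul hl)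
    have sa := SA_of_W (left_ne_zero_of_mul hl)
    obtain ⟨a, s, b, rfl, hm⟩ := exists_longest N (l := l) (by rintro rfl; exact hz hs.symm)
    have hs0 : s ≠ 0 := sa.ne_zero (by simp)
    obtain ⟨j, hj1, hj2⟩ := exists_shell (h.pos hs0) hz0
    have e : z - a.sum - b.sum = s := by rw [← hs]; simp
    refine ⟨(j, a, b), by simp only [e], ?_⟩
    simp only [g, e]
    rw [ind_pos hs, ind_pos hj2, ind_pos ((h.disc s hs0).trans hj2), mul_one, mul_one, one_mul,
      mul_left_comm, ← mul_assoc]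
    have hW : ∀ u : List Γ, (∀ t ∈ u, t ∈ a ++ s :: b) →
        W K u ≤ W (cut K N (2 * (N z * 2 ^ j))) u := fun u hu => W_mono fun t ht => by
      rw [cut, ind_pos ((hm t (hu t ht)).trans hj2), mul_one]
    refine (W_split_le K a s b).trans (mul_le_mul' (mul_le_mul' (hW a fun t ht => by simp [ht])
      ((h.khi s hs0).trans (ENNReal.ofReal_le_ofReal ?_))) (hW b fun t ht => by simp [ht]))
    exact mul_le_mul_of_nonneg_left (Real.rpow_le_rpow_of_nonpos (by positivity) hj1.le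
      (by linarith)) hC.le
  rw [tsum_prod3 g] at h1
  refine h1.trans ?_
  rw [mul_right_comm, ENNReal.ofReal_mul (by positivity)]
  refine le_trans ?_ (mul_le_mul' le_rfl
    (ENNReal.ofReal_le_ofReal (le_add_of_nonneg_right zero_le_one)))
  rw [ENNReal.ofReal_toReal hg, geo2, ← ENNReal.tsum_mul_left]
  refine ENNReal.tsum_le_tsum fun j => ?_
  simp only [g, ENNReal.tsum_mul_left]
  by_cases hj : 1 ≤ 2 * (N z * 2 ^ j)
  swap
  · simp [ind_neg hj]
  obtain ⟨hχ, hT⟩ := hE' _ hj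
  have hy : (0 : ℝ) < 2 ^ j := by positivity
  generalize (2 : ℝ) ^ j = y at hj hχ hT hy ⊢
  set X := E * (2 * (N z * y)) ^ α with hX
  have hX0 : 0 < X := by positivity
  have h2 : ∑' a, ∑' b, W (cut K N (2 * (N z * y))) a * W (cut K N (2 * (N z * y))) b *
      ind (N (z - a.sum - b.sum) ≤ 2 * (N z * y)) ≤ ofReal (X * X) := by
    rw [ENNReal.ofReal_mul hX0.le]
    refine le_trans ?_ (mul_le_mul' hχ hχ)
    rw [chi, ← ENNReal.tsum_mul_right]
    refine ENNReal.tsum_le_tsum fun a => ?_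
    rw [← ENNReal.tsum_mul_left]
    exact ENNReal.tsum_le_tsum fun b => mul_ind_le _ _
  have h8 : (1 : ℝ) ≤ 8 ^ D := Real.one_le_rpow (by norm_num) hD.le
  have h3 : ∑' a, ∑' b, W (cut K N (2 * (N z * y))) a * W (cut K N (2 * (N z * y))) b *
      ind (N (z - a.sum - b.sum) ≤ 2 * (N z * y)) ≤
        ofReal (2 * (X * X) * 8 ^ D * min (y ^ D) 1) := by
    rcases le_total (y ^ D) 1 with h4 | h4
    · rw [min_eq_left h4]
      by_cases h5 : 2 * (N z * y) < N z / 2
      · refine (pair_le h.toSub _ z h5).trans ((mul_le_mul' le_rfl (mul_le_mul'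
          (hT _ (by positivity)) hχ)).trans (le_of_eq ?_))
        rw [← ENNReal.ofReal_mul (by positivity), ← ENNReal.ofReal_ofNat 2,
          ← ENNReal.ofReal_mul zero_le_two,
          show 2 * (N z * y) / (N z / 4) = 8 * y by field_simp; norm_num,
          Real.mul_rpow (by norm_num) hy.le]
        congr 1
        ring
      · refine h2.trans (ENNReal.ofReal_le_ofReal ?_)
        have h6 : 1 ≤ 8 ^ D * y ^ D := by
          rw [← Real.mul_rpow (by norm_num) hy.le]
          exact Real.one_le_rpow (by nlinarith) hD.le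
        nlinarith [mul_pos hX0 hX0]
    · rw [min_eq_right h4]
      refine h2.trans (ENNReal.ofReal_le_ofReal ?_)
      nlinarith [mul_pos hX0 hX0]
  rw [ind_pos hj, one_mul]
  refine (mul_le_mul' le_rfl h3).trans (le_of_eq ?_)
  rw [← ENNReal.ofReal_mul (by positivity), ← ENNReal.ofReal_mul (by positivity)]
  congr 1
  have e1 : min (y ^ α) (y ^ (-(D - α))) = y ^ (α - D) * min (y ^ D) 1 := by
    rw [mul_min_of_nonneg _ _ (by positivity), ← Real.rpow_add hy, sub_add_cancel, mul_one, neg_sub]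
  have e2 : ∀ x : ℝ, 0 < x → x ^ (α - D) = x ^ (-(D + α)) * (x ^ α * x ^ α) := fun x hx => by
    rw [← Real.rpow_add hx, ← Real.rpow_add hx]
    congr 1
    ring
  rw [e1, e2 y hy, e2 _ hz0, hX, Real.mul_rpow zero_le_two (by positivity),
    Real.mul_rpow hz0.le hy.le, Real.mul_rpow hz0.le hy.le]
  ring

end Pool.Agent.Lib.LRS
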