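import Pool.Agent.Lib.LRS.Sums

/-! Estimates on power-law kernels. -/

namespace Pool.Agent.Lib.LRS

open scoped ENNReal
open ENNReal (ofReal)

/-- two-sided geometric series -/
noncomputable def geo2 (u v : ℝ) : ℝ≥0∞ :=
  ∑' j : ℤ, ofReal (min (((2 : ℝ) ^ j) ^ u) (((2 : ℝ) ^ j) ^ (-v)))

theorem geo2_ne_top {u v : ℝ} (hu : 0 < u) (hv : 0 < v) : geo2 u v ≠ ⊤ := by
  have hs : Summable fun j : ℤ => min (((2 : ℝ) ^ j) ^ u) (((2 : ℝ) ^ j) ^ (-v)) := by
    have key : ∀ w : ℝ, 0 < w → Summable fun n : ℕ => ((2 : ℝ) ^ (-w)) ^ n := fun w hw =>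
      summable_geometric_of_lt_one (by positivity)
        (Real.rpow_lt_one_of_one_lt_of_neg one_lt_two (by linarith))
    refine Summable.of_nat_of_neg ?_ ?_
    · refine (key v hv).of_nonneg_of_le (fun n => by positivity) fun n =>
        (min_le_right _ _).trans (le_of_eq ?_)
      rw [zpow_natCast, ← Real.rpow_natCast, ← Real.rpow_mul two_pos.le, ← Real.rpow_natCast,
        ← Real.rpow_mul two_pos.le, mul_comm]
    · refine (key u hu).of_nonneg_of_le (fun n => by positivity) fun n =>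
        (min_le_left _ _).trans (le_of_eq ?_)
      rw [← Real.rpow_intCast, ← Real.rpow_mul two_pos.le, ← Real.rpow_natCast,
        ← Real.rpow_mul two_pos.le]
      congr 1
      push_cast
      ring
  rw [geo2, ← ENNReal.ofReal_tsum_of_nonneg (fun _ => by positivity) hs]
  exact ENNReal.ofReal_ne_top

theorem exists_shell {x R : ℝ} (hx : 0 < x) (hR : 0 < R) :
    ∃ j : ℤ, R * 2 ^ j < x ∧ x ≤ 2 * (R * 2 ^ j) := by
  obtain ⟨j, h1, h2⟩ := exists_mem_Ioc_zpow (div_pos hx hR) (one_lt_two (α := ℝ))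
  refine ⟨j, ?_, ?_⟩
  · rwa [lt_div_iff₀' hR] at h1
  · rw [div_le_iff₀' hR, zpow_add_one₀ two_ne_zero] at h2
    linarith

/-- concave test function -/
noncomputable def gp (p R x : ℝ) : ℝ := min (x * R ^ (p - 1)) (x ^ p)

theorem gp_nonneg (p : ℝ) {R x : ℝ} (hR : 0 < R) (hx : 0 ≤ x) : 0 ≤ gp p R x := by
  unfold gp; positivity

theorem gp_zero (p R : ℝ) : gp p R 0 = 0 := by
  rw [gp, zero_mul]; exact min_eq_left (by positivity)

theorem gp_mono {p R x y : ℝ} (hp : 0 ≤ p) (hR : 0 < R) (hx : 0 ≤ x) (h : x ≤ y) :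
    gp p R x ≤ gp p R y :=
  min_le_min (by gcongr) (by gcongr)

theorem gp_add {p R x y : ℝ} (hp : p ≤ 1) (hR : 0 < R) (hx : 0 ≤ x) (hy : 0 ≤ y) :
    gp p R (x + y) ≤ gp p R x + gp p R y := by
  have key : ∀ z, 0 ≤ z → z ≤ x + y → z * max R (x + y) ^ (p - 1) ≤ gp p R z := by
    intro z hz hz'
    refine le_min (mul_le_mul_of_nonneg_left
      (Real.rpow_le_rpow_of_nonpos hR (le_max_left _ _) (by linarith)) hz) ?_
    rcases hz.eq_or_lt with rfl | hz0
    · rw [zero_mul]; positivity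
    · refine (mul_le_mul_of_nonneg_left (Real.rpow_le_rpow_of_nonpos hz0
        (hz'.trans (le_max_right R _)) (by linarith)) hz).trans (le_of_eq ?_)
      rw [Real.rpow_sub_one hz0.ne']; field_simp
  have h1 : gp p R (x + y) ≤ (x + y) * max R (x + y) ^ (p - 1) := by
    rcases le_total (x + y) R with h | h
    · rw [max_eq_left h]; exact min_le_left _ _
    · rw [max_eq_right h]
      refine (min_le_right _ _).trans (le_of_eq ?_)
      have : 0 < x + y := hR.trans_le h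
      rw [Real.rpow_sub_one this.ne']; field_simp
  have := key x hx (by linarith)
  have := key y hy (by linarith)
  linarith [add_mul x y (max R (x + y) ^ (p - 1))]

theorem gp_of_le {p R x : ℝ} (hp : p ≤ 1) (hR : 0 < R) (h : R ≤ x) : gp p R x = x ^ p := by
  have hx := hR.trans_le h
  refine min_eq_right ?_
  calc x ^ p = x * x ^ (p - 1) := by rw [Real.rpow_sub_one hx.ne']; field_simp
    _ ≤ _ := mul_le_mul_of_nonneg_left (Real.rpow_le_rpow_of_nonpos hR h (by linarith)) hx.le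

theorem gp0 {R : ℝ} (hR : 0 < R) (x : ℝ) : R * gp 0 R x = min x R := by
  rw [gp, mul_min_of_nonneg _ _ hR.le, Real.rpow_zero, zero_sub, Real.rpow_neg_one, mul_one]
  congr 1
  field_simp

variable {Γ : Type} [AddCommGroup Γ]

theorem gp_sum_le {N : Γ → ℝ} (hN : Sub N) {p R : ℝ} (hp0 : 0 ≤ p) (hp : p ≤ 1) (hR : 0 < R)
    {a l : List Γ} (h : a <+: l) :
    ofReal (gp p R (N a.sum)) ≤ (l.map fun s => ofReal (gp p R (N s))).sum := by
  obtain ⟨b, rfl⟩ := h
  rw [List.map_append, List.sum_append]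
  refine le_trans ?_ le_self_add
  induction a with
  | nil => simp [hN.zero, gp_zero]
  | cons s a ih =>
    rw [List.sum_cons, List.map_cons, List.sum_cons]
    refine le_trans (ENNReal.ofReal_le_ofReal ((gp_mono hp0 hR (hN.nonneg _) (hN.add _ _)).trans
      (gp_add hp hR (hN.nonneg _) (hN.nonneg _)))) ?_
    exact ENNReal.ofReal_add_le.trans (add_le_add le_rfl ih)

/-- a discrete size function with polynomial volume growth -/
structure Geo (N : Γ → ℝ) (D c C : ℝ) : Prop extends Sub N where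
  disc : ∀ x, x ≠ 0 → 1 ≤ N x
  D_pos : 0 < D
  c_pos : 0 < c
  C_pos : 0 < C
  vlo : ∀ r, 1 ≤ r → ofReal (c * r ^ D) ≤ ∑' x, ind (N x ≤ r)
  vhi : ∀ r, 1 ≤ r → ∑' x, ind (N x ≤ r) ≤ ofReal (C * r ^ D)

/-- a power-law kernel -/
structure Ker (N : Γ → ℝ) (K : Γ → ℝ≥0∞) (D α c C : ℝ) : Prop extends Geo N D c C where
  α_pos : 0 < α
  α_lt : α < 1
  α_lt_D : α < D
  klo : ∀ s, s ≠ 0 → ofReal (c * N s ^ (-(D + α))) ≤ K s
  khi : ∀ s, s ≠ 0 → K s ≤ ofReal (C * N s ^ (-(D + α)))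

variable {N : Γ → ℝ} {K : Γ → ℝ≥0∞} {D α c C : ℝ}

theorem Geo.pos (h : Geo N D c C) {x : Γ} (hx : x ≠ 0) : 0 < N x := one_pos.trans_le (h.disc x hx)

theorem Geo.shell (h : Geo N D c C) {u v : ℝ} (hu : 0 < u) (hv : 0 < v) :
    ∃ B : ℝ, 0 < B ∧ ∀ R, 0 < R → ∑' s, ind (s ≠ 0) *
      ofReal (N s ^ (-D) * min ((N s / R) ^ u) ((N s / R) ^ (-v))) ≤ ofReal B := by
  have hC := h.C_pos
  have hD := h.D_pos
  refine ⟨(ofReal (C * 2 ^ D * 2 ^ u) * geo2 u v).toReal + 1, by positivity, fun R hR => ?_⟩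
  refine le_trans ?_ (ENNReal.ofReal_le_ofReal (le_add_of_nonneg_right zero_le_one))
  rw [ENNReal.ofReal_toReal (ENNReal.mul_ne_top ENNReal.ofReal_ne_top (geo2_ne_top hu hv))]
  let e : ℤ → ℝ := fun j => min (((2 : ℝ) ^ j) ^ u) (((2 : ℝ) ^ j) ^ (-v))
  have h1 : ∀ s, ind (s ≠ 0) * ofReal (N s ^ (-D) * min ((N s / R) ^ u) ((N s / R) ^ (-v))) ≤
      ∑' j : ℤ, ind (1 ≤ 2 * (R * 2 ^ j)) * ofReal ((R * 2 ^ j) ^ (-D) * 2 ^ u * e j) *
        ind (N s ≤ 2 * (R * 2 ^ j)) := by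
    intro s
    by_cases hs : s = 0
    · rw [ind_neg (not_not.2 hs), zero_mul]; exact zero_le
    obtain ⟨j, h1, h2⟩ := exists_shell (h.pos hs) hR
    refine le_trans ?_ (ENNReal.le_tsum j)
    rw [ind_pos hs, ind_pos h2, ind_pos ((h.disc s hs).trans h2), one_mul, one_mul, mul_one,
      mul_assoc]
    refine ENNReal.ofReal_le_ofReal (mul_le_mul (Real.rpow_le_rpow_of_nonpos (by positivity) h1.le
      (by linarith)) ?_ (by have := h.pos hs; positivity) (by positivity))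
    rw [mul_min_of_nonneg _ _ (by positivity)]
    refine min_le_min ?_ ?_
    · rw [← Real.mul_rpow (by positivity) (by positivity)]
      refine Real.rpow_le_rpow (by have := h.pos hs; positivity) ?_ hu.le
      rw [div_le_iff₀ hR]; linarith
    · refine le_trans (Real.rpow_le_rpow_of_nonpos (x := 2 ^ j) (by positivity) ?_ (by linarith))
        (le_mul_of_one_le_left (by positivity) (Real.one_le_rpow one_le_two hu.le))
      rw [le_div_iff₀ hR]; linarith
  refine (ENNReal.tsum_le_tsum h1).trans ?_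
  rw [ENNReal.tsum_comm, geo2, ← ENNReal.tsum_mul_left]
  refine ENNReal.tsum_le_tsum fun j => ?_
  rw [ENNReal.tsum_mul_left]
  by_cases hj : 1 ≤ 2 * (R * 2 ^ j)
  · rw [ind_pos hj, one_mul]
    refine (mul_le_mul' le_rfl (h.vhi _ hj)).trans (le_of_eq ?_)
    rw [← ENNReal.ofReal_mul (by positivity), ← ENNReal.ofReal_mul (by positivity)]
    congr 1
    rw [Real.mul_rpow (x := 2) (by positivity) (by positivity), Real.rpow_neg (by positivity)]
    have : 0 < (R * 2 ^ j) ^ D := by positivity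
    simp only [e]
    field_simp
  · simp [ind_neg hj]

theorem Ker.sum_gp (h : Ker N K D α c C) {p : ℝ} (hp : p < α) :
    ∃ B : ℝ, 0 < B ∧ ∀ R, 0 < R →
      ∑' s, K s * ofReal (gp p R (N s)) ≤ ofReal (B * R ^ (p - α)) := by
  have hC := h.C_pos
  obtain ⟨B, hB, hs⟩ := h.shell (sub_pos.2 h.α_lt) (sub_pos.2 hp)
  refine ⟨C * B, by positivity, fun R hR => ?_⟩
  rw [mul_right_comm, ENNReal.ofReal_mul (by positivity)]
  refine le_trans ?_ (mul_le_mul' le_rfl (hs R hR))
  rw [← ENNReal.tsum_mul_left]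
  refine ENNReal.tsum_le_tsum fun s => ?_
  by_cases hs : s = 0
  · simp [hs, h.zero, gp_zero]
  have hx := h.pos hs
  rw [ind_pos hs, one_mul, ← ENNReal.ofReal_mul (by positivity)]
  refine (mul_le_mul' (h.khi s hs) le_rfl).trans (le_of_eq ?_)
  rw [← ENNReal.ofReal_mul (by positivity)]
  congr 1
  rw [gp, mul_min_of_nonneg _ _ (by positivity), mul_min_of_nonneg _ _ (by positivity),
    mul_min_of_nonneg _ _ (by positivity)]
  congr 1
  · rw [Real.div_rpow hx.le hR.le, neg_add, Real.rpow_add hx, Real.rpow_sub hx, Real.rpow_sub hR,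
      Real.rpow_sub hR, Real.rpow_sub hR, Real.rpow_neg hx.le α, Real.rpow_one, Real.rpow_one]
    field_simp
  · rw [Real.div_rpow hx.le hR.le, neg_add, neg_sub, Real.rpow_add hx, Real.rpow_sub hx,
      Real.rpow_neg hx.le α]
    field_simp

theorem Ker.annulus (h : Ker N K D α c C) :
    ∃ L κ : ℝ, 1 ≤ L ∧ 0 < κ ∧ ∀ R, 1 ≤ R →
      ofReal (κ * R ^ (-α)) ≤ ∑' s, K s * ind (3 * R < N s ∧ N s ≤ L * R) := by
  have hC := h.C_pos
  have hc := h.c_pos
  have hD := h.D_pos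
  have hα := h.α_pos
  obtain ⟨L, hL1, hL⟩ : ∃ L : ℝ, 1 ≤ L ∧ C * 3 ^ D + 1 ≤ c * L ^ D := by
    refine ⟨max 1 (((C * 3 ^ D + 1) / c) ^ D⁻¹), le_max_left _ _, ?_⟩
    rw [← div_le_iff₀' hc]
    refine le_trans (le_of_eq ?_) (Real.rpow_le_rpow (by positivity) (le_max_right _ _) hD.le)
    rw [Real.rpow_inv_rpow (by positivity) hD.ne']
  refine ⟨L, c * L ^ (-(D + α)), hL1, by positivity, fun R hR => ?_⟩
  have hR0 : 0 < R := one_pos.trans_le hR
  have h1 : ofReal (R ^ D) ≤ ∑' s, ind (3 * R < N s ∧ N s ≤ L * R) := by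
    have h2 : ∑' s, ind (N s ≤ L * R) ≤
        ∑' s, ind (3 * R < N s ∧ N s ≤ L * R) + ∑' s, ind (N s ≤ 3 * R) := by
      rw [← ENNReal.tsum_add]
      refine ENNReal.tsum_le_tsum fun s => ?_
      by_cases hs : N s ≤ 3 * R
      · rw [ind_pos hs]; exact (ind_le_one _).trans le_add_self
      · exact (ind_mono fun h => ⟨not_le.1 hs, h⟩).trans le_self_add
    have h3 := ((h.vlo _ (one_le_mul_of_one_le_of_one_le hL1 hR)).trans h2).trans
      (add_le_add le_rfl (h.vhi _ (by linarith)))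
    refine (ENNReal.add_le_add_iff_right ENNReal.ofReal_ne_top).1 (le_trans ?_ h3)
    rw [← ENNReal.ofReal_add (by positivity) (by positivity)]
    refine ENNReal.ofReal_le_ofReal ?_
    rw [Real.mul_rpow (by positivity) hR0.le, Real.mul_rpow (by positivity) hR0.le]
    nlinarith [Real.rpow_pos_of_pos hR0 D]
  calc ofReal (c * L ^ (-(D + α)) * R ^ (-α))
      = ofReal (c * (L * R) ^ (-(D + α))) * ofReal (R ^ D) := by
        rw [← ENNReal.ofReal_mul (by positivity), Real.mul_rpow (by positivity) hR0.le, mul_assoc,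
          mul_assoc, mul_assoc, ← Real.rpow_add hR0]
        congr 4
        ring
    _ ≤ ofReal (c * (L * R) ^ (-(D + α))) * ∑' s, ind (3 * R < N s ∧ N s ≤ L * R) := by gcongr
    _ ≤ _ := by
        rw [← ENNReal.tsum_mul_left]
        refine ENNReal.tsum_le_tsum fun s => ?_
        by_cases hs : 3 * R < N s ∧ N s ≤ L * R
        · have hs0 : s ≠ 0 := by
            rintro rfl
            rw [h.zero] at hs
            linarith [hs.1]
          refine mul_le_mul' (le_trans (ENNReal.ofReal_le_ofReal ?_) (h.klo s hs0)) le_rfl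
          exact mul_le_mul_of_nonneg_left (Real.rpow_le_rpow_of_nonpos (h.pos hs0) hs.2
            (by linarith)) hc.le
        · simp [ind_neg hs]

theorem count_le (M : ℕ) {x y d : ℝ} (hd : 1 ≤ d) (h : y ≤ x + d) :
    ∑ i ∈ Finset.range M, ind (x ≤ (i + 1 : ℕ) ∧ ((i + 1 : ℕ) : ℝ) < y) ≤ ofReal (2 * min d M) := by
  classical
  set S := (Finset.range M).filter fun i => x ≤ (i + 1 : ℕ) ∧ ((i + 1 : ℕ) : ℝ) < y with hS
  have h1 : ∑ i ∈ Finset.range M, ind (x ≤ (i + 1 : ℕ) ∧ ((i + 1 : ℕ) : ℝ) < y) = S.card := by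
    rw [hS, Finset.card_filter, Nat.cast_sum]
    refine Finset.sum_congr rfl fun i _ => ?_
    split_ifs with hi
    · rw [ind_pos hi, Nat.cast_one]
    · rw [ind_neg hi, Nat.cast_zero]
  rw [h1, ← ENNReal.ofReal_natCast]
  refine ENNReal.ofReal_le_ofReal ?_
  have h2 : (S.card : ℝ) ≤ M := by
    exact_mod_cast (Finset.card_filter_le _ _).trans (Finset.card_range M).le
  have h3 : (S.card : ℝ) ≤ 2 * d := by
    rcases S.eq_empty_or_nonempty with h0 | hne
    · rw [h0]; simp; linarith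
    have h4 : S ⊆ Finset.Ico (S.min' hne) (S.min' hne + ⌈d⌉₊) := by
      intro i hi
      refine Finset.mem_Ico.2 ⟨S.min'_le i hi, ?_⟩
      have h5 := (Finset.mem_filter.1 (S.min'_mem hne)).2.1
      have h6 := (Finset.mem_filter.1 hi).2.2
      have h7 := Nat.le_ceil d
      push_cast at h5 h6
      exact_mod_cast (by push_cast; linarith : (i : ℝ) < ((S.min' hne + ⌈d⌉₊ : ℕ) : ℝ))
    have h5 := Finset.card_le_card h4
    rw [Nat.card_Ico, Nat.add_sub_cancel_left] at h5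
    have h6 : (S.card : ℝ) ≤ ⌈d⌉₊ := by exact_mod_cast h5
    have := Nat.ceil_lt_add_one (zero_le_one.trans hd)
    linarith
  rw [mul_min_of_nonneg _ _ zero_le_two]
  exact le_min h3 (by linarith [(Nat.cast_nonneg M : (0 : ℝ) ≤ M)])

theorem Geo.avg_le (h : Geo N D c C) (K : Γ → ℝ≥0∞) (M : ℕ) :
    ∑ i ∈ Finset.range M, phi K N (i + 1 : ℕ) ≤
      mm K N M * ∑' s, K s * ofReal (2 * min (N s) M) := by
  unfold phi mm
  rw [← Summable.tsum_finsetSum fun _ _ => ENNReal.summable, ← ENNReal.tsum_mul_right]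
  refine ENNReal.tsum_le_tsum fun a => ?_
  rw [← Summable.tsum_finsetSum fun _ _ => ENNReal.summable, ← ENNReal.tsum_mul_left]
  refine ENNReal.tsum_le_tsum fun s => ?_
  by_cases hs : s = 0
  · rw [Finset.sum_eq_zero]
    · exact zero_le
    intro i _
    by_cases ha : In N (i + 1 : ℕ) a
    · rw [ind_neg (show ¬ ((i + 1 : ℕ) : ℝ) < N (a.sum + s) by simpa [hs] using ha.sum_le)]; simp
    · rw [ind_neg ha]; simp
  refine le_trans (Finset.sum_le_sum fun i hi => ?_ : _ ≤ ∑ i ∈ Finset.range M,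
    W K a * ind (In N M a) * (K s * ind (N a.sum ≤ (i + 1 : ℕ) ∧
      ((i + 1 : ℕ) : ℝ) < N (a.sum + s)))) ?_
  · by_cases ha : In N (i + 1 : ℕ) a
    · exact mul_le_mul' (mul_le_mul' le_rfl (ind_mono fun _ => ha.mono (by
        exact_mod_cast Finset.mem_range.1 hi))) (mul_le_mul' le_rfl
          (ind_mono fun h1 => ⟨ha.sum_le, h1⟩))
    · rw [ind_neg ha]; simp
  · rw [← Finset.mul_sum, ← Finset.mul_sum]
    exact mul_le_mul' le_rfl (mul_le_mul' le_rfl (count_le M (h.disc s hs) (h.add _ _)))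

end Pool.Agent.Lib.LRS
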