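import Pool.Agent.Lib.LRS.Main

/-! Volume growth of the cubic and of the hierarchical lattice. -/

namespace Pool.Agent.Lib.LRS

open scoped ENNReal
open ENNReal (ofReal)

theorem tsum_ind_finset {ι : Type*} (S : Finset ι) : ∑' x, ind (x ∈ S) = ofReal S.card := by
  rw [tsum_eq_sum (s := S) fun _ hi => ind_neg hi, Finset.sum_congr rfl fun _ hi => ind_pos hi]
  simp

theorem eucl_eq {d : ℕ} (z : Fin d → ℤ) :
    eucl z = ‖(WithLp.toLp 2 fun i => (z i : ℝ) : EuclideanSpace ℝ (Fin d))‖ := by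
  simp [eucl, EuclideanSpace.norm_eq]

theorem abs_le_eucl {d : ℕ} (z : Fin d → ℤ) (i : Fin d) : |(z i : ℝ)| ≤ eucl z :=
  Real.abs_le_sqrt (Finset.single_le_sum (f := fun i => (z i : ℝ) ^ 2) (fun _ _ => sq_nonneg _)
    (Finset.mem_univ i))

theorem geo_eucl {d : ℕ} (hd : 1 ≤ d) :
    Geo (eucl (d := d)) d ((d : ℝ)⁻¹ ^ d) (3 ^ d) := by
  have hd0 : (0 : ℝ) < d := by exact_mod_cast hd
  have hd1 : (1 : ℝ) ≤ d := by exact_mod_cast hd
  have box : ∀ m : ℕ, ((Fintype.piFinset fun _ : Fin d => Finset.Icc (-m : ℤ) m).card : ℝ) =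
      (2 * m + 1) ^ d := fun m => by
    rw [Fintype.card_piFinset, Finset.prod_const, Finset.card_univ, Fintype.card_fin, Int.card_Icc,
      show (m : ℤ) + 1 - -m = (2 * m + 1 : ℕ) by push_cast; ring, Int.toNat_natCast]
    push_cast
    rfl
  refine ⟨⟨by simp [eucl], fun x y => ?_, fun x => by simp [eucl]⟩, fun x hx => ?_, hd0,
    by positivity, by positivity, fun r hr => ?_, fun r hr => ?_⟩
  · rw [eucl_eq, eucl_eq, eucl_eq]
    refine le_trans (le_of_eq (congrArg _ ?_)) (norm_add_le _ _)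
    ext i
    simp
  · obtain ⟨i, hi⟩ := Function.ne_iff.1 hx
    refine le_trans ?_ (abs_le_eucl x i)
    exact_mod_cast Int.one_le_abs hi
  · refine le_trans ?_ (ENNReal.tsum_le_tsum fun x => ind_mono (P := x ∈ Fintype.piFinset
      fun _ : Fin d => Finset.Icc (-⌊r / d⌋₊ : ℤ) ⌊r / d⌋₊) fun hx => ?_)
    · rw [tsum_ind_finset, box, Real.rpow_natCast, ← mul_pow]
      refine ENNReal.ofReal_le_ofReal (pow_le_pow_left₀ (by positivity) ?_ d)
      have := Nat.lt_floor_add_one (r / d)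
      rw [div_eq_inv_mul] at this
      rw [div_eq_inv_mul]
      linarith [(Nat.cast_nonneg ⌊(d : ℝ)⁻¹ * r⌋₊ : (0 : ℝ) ≤ _)]
    · have h1 : ∀ i, (x i : ℝ) ^ 2 ≤ (r / d) ^ 2 := fun i => by
        have h2 := Finset.mem_Icc.1 (Fintype.mem_piFinset.1 hx i)
        have h3 := Nat.floor_le (show 0 ≤ r / d by positivity)
        have h4 : (-(⌊r / d⌋₊ : ℝ)) ≤ x i := by exact_mod_cast h2.1
        have h5 : (x i : ℝ) ≤ ⌊r / d⌋₊ := by exact_mod_cast h2.2
        exact sq_le_sq' (by linarith) (by linarith)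
      refine Real.sqrt_le_iff.2 ⟨by linarith, (Finset.sum_le_card_nsmul _ _ _
        fun i _ => h1 i).trans ?_⟩
      rw [Finset.card_univ, Fintype.card_fin, nsmul_eq_mul, div_pow, ← mul_div_assoc,
        div_le_iff₀ (by positivity)]
      nlinarith [mul_nonneg (sq_nonneg r) (mul_nonneg hd0.le (sub_nonneg.2 hd1))]
  · refine le_trans (ENNReal.tsum_le_tsum fun x => ind_mono (Q := x ∈ Fintype.piFinset
      fun _ : Fin d => Finset.Icc (-⌊r⌋₊ : ℤ) ⌊r⌋₊) fun hx => ?_) ?_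
    · refine Fintype.mem_piFinset.2 fun i => Finset.mem_Icc.2 (abs_le.1 ?_)
      have h1 : ((x i).natAbs : ℝ) ≤ r := by
        rw [Nat.cast_natAbs, Int.cast_abs]; exact (abs_le_eucl x i).trans hx
      rw [← Int.natCast_natAbs]
      exact_mod_cast Nat.le_floor h1
    · rw [tsum_ind_finset, box, Real.rpow_natCast, ← mul_pow]
      refine ENNReal.ofReal_le_ofReal (pow_le_pow_left₀ (by positivity) ?_ d)
      have := Nat.floor_le (zero_le_one.trans hr)
      linarith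

theorem hnorm_le_iff {L d : ℕ} (hL : 2 ≤ L) (x : Hier L d) (k : ℕ) :
    hnorm x ≤ (L : ℝ) ^ k ↔ x.support ⊆ Finset.range k := by
  have hL1 : (1 : ℝ) < L := by exact_mod_cast hL
  unfold hnorm
  split_ifs with hx
  · simp [hx]
  · rw [pow_le_pow_iff_right₀ hL1, Nat.succ_le_iff]
    refine ⟨fun h i hi => Finset.mem_range.2 ((Finset.le_sup (f := id) hi).trans_lt h), fun h => ?_⟩
    obtain ⟨i, hi, e⟩ := Finset.exists_mem_eq_sup _ (Finsupp.support_nonempty_iff.2 hx) id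
    rw [e]
    exact Finset.mem_range.1 (h hi)

theorem hnorm_cases {L d : ℕ} (x : Hier L d) :
    x = 0 ∧ hnorm x = 0 ∨ x ≠ 0 ∧ ∃ k, hnorm x = (L : ℝ) ^ k := by
  by_cases hx : x = 0
  · exact Or.inl ⟨hx, if_pos hx⟩
  · exact Or.inr ⟨hx, _, if_neg hx⟩

theorem hnorm_ultra {L d : ℕ} (hL : 2 ≤ L) (x y : Hier L d) :
    hnorm (x + y) ≤ max (hnorm x) (hnorm y) := by
  classical
  rcases hnorm_cases x with ⟨rfl, -⟩ | ⟨-, k, hk⟩
  · rw [zero_add]; exact le_max_right _ _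
  rcases hnorm_cases y with ⟨rfl, -⟩ | ⟨-, l, hl⟩
  · rw [add_zero]; exact le_max_left _ _
  have hL1 : (1 : ℝ) ≤ L := by exact_mod_cast (by omega : 1 ≤ L)
  have h1 : max (hnorm x) (hnorm y) = (L : ℝ) ^ max k l := by
    rw [hk, hl, (pow_right_mono₀ hL1).map_max]
  have h2 := le_max_left (hnorm x) (hnorm y)
  have h3 := le_max_right (hnorm x) (hnorm y)
  rw [h1, hnorm_le_iff hL] at h2 h3 ⊢
  exact Finsupp.support_add.trans (Finset.union_subset h2 h3)

theorem hnorm_vol {L d : ℕ} (hL : 2 ≤ L) (k : ℕ) :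
    ∑' x : Hier L d, ind (hnorm x ≤ (L : ℝ) ^ k) = ofReal (((L : ℝ) ^ k) ^ d) := by
  classical
  have : NeZero L := ⟨by omega⟩
  have h1 : ∀ x : Hier L d, hnorm x ≤ (L : ℝ) ^ k ↔
      x ∈ (Finset.range k).finsupp fun _ => Finset.univ := fun x => by
    rw [hnorm_le_iff hL, Finset.mem_finsupp_iff]; simp
  simp only [h1]
  rw [tsum_ind_finset, Finset.card_finsupp]
  simp [← pow_mul, mul_comm]

theorem geo_hnorm {L d : ℕ} (hL : 2 ≤ L) (hd : 1 ≤ d) :
    Geo (hnorm (L := L) (d := d)) d ((L : ℝ)⁻¹ ^ d) 1 := by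
  have hL1 : (1 : ℝ) < L := by exact_mod_cast hL
  have hL0 : (0 : ℝ) < L := one_pos.trans hL1
  have h0 : ∀ x : Hier L d, 0 ≤ hnorm x := fun x => by
    rcases hnorm_cases x with ⟨-, h⟩ | ⟨-, k, h⟩ <;> rw [h]
    positivity
  refine ⟨⟨if_pos rfl, fun x y => (hnorm_ultra hL x y).trans (max_le (by linarith [h0 y])
    (by linarith [h0 x])), fun x => by simp [hnorm]⟩, fun x hx => ?_, by exact_mod_cast hd,
    by positivity, one_pos, fun r hr => ?_, fun r hr => ?_⟩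
  · rw [hnorm, if_neg hx]; exact one_le_pow₀ hL1.le
  · obtain ⟨k, h1, h2⟩ := exists_nat_pow_near hr hL1
    refine le_trans ?_ (ENNReal.tsum_le_tsum fun x => ind_mono fun hx => le_trans hx h1)
    rw [hnorm_vol hL, Real.rpow_natCast, ← mul_pow]
    refine ENNReal.ofReal_le_ofReal (pow_le_pow_left₀ (by positivity) ?_ d)
    rw [inv_mul_le_iff₀ hL0, ← pow_succ']
    exact h2.le
  · obtain ⟨k, h1, h2⟩ := exists_nat_pow_near hr hL1
    refine le_trans (ENNReal.tsum_le_tsum fun x => ind_mono (Q := hnorm x ≤ (L : ℝ) ^ k)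
      fun hx => ?_) ?_
    · rcases hnorm_cases x with ⟨-, h⟩ | ⟨-, l, h⟩ <;> rw [h] at hx ⊢
      · positivity
      · exact pow_le_pow_right₀ hL1.le (Nat.lt_succ_iff.1
          ((pow_lt_pow_iff_right₀ hL1).1 (hx.trans_lt h2)))
    · rw [hnorm_vol hL, Real.rpow_natCast, one_mul]
      exact ENNReal.ofReal_le_ofReal (pow_le_pow_left₀ (by positivity) h1 d)

end Pool.Agent.Lib.LRS
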