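import Pool.Agent.Lib.LRS.Bridge

/-! The results for a general size function, and for ultrametric ones. -/

namespace Pool.Agent.Lib.LRS

open scoped ENNReal
open ENNReal (ofReal)
open Filter Topology

variable {Γ : Type} [AddCommGroup Γ] {N J : Γ → ℝ} {D α c C : ℝ}

/-- everything that is proved -/
def Concl (N J : Γ → ℝ) (D α : ℝ) : Prop := ∃ μ : ℝ, 0 < μ ∧
  Tendsto (fun n : ℕ => cnt J n ^ (1 / (n : ℝ))) atTop (𝓝 μ) ∧
  (∀ (n : ℕ) (p : ℝ), 0 ≤ p → p < α → Summable fun ω : Saw Γ n => wt J ω * N (endp ω) ^ p) ∧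
  (∀ z, Summable fun n : ℕ => cntTo J n z / μ ^ n) ∧
  (∃ a A : ℝ, 0 < a ∧ ∀ z, z ≠ 0 →
    a * N z ^ (α - D) ≤ green J μ z ∧ green J μ z ≤ A * N z ^ (α - D)) ∧
  (∀ γ : ℝ, Tendsto (fun n : ℕ => Real.log (cnt J n / μ ^ n) / Real.log n) atTop (𝓝 (γ - 1)) →
    ∀ p : ℝ, 0 ≤ p → p < α →
      Tendsto (fun n : ℕ => Real.log (mom N J p n) / Real.log n) atTop (𝓝 (p * (γ / α)))) ∧
  (2 * α < D → (∃ A : ℝ, ∀ n : ℕ, μ ^ n ≤ cnt J n ∧ cnt J n ≤ A * μ ^ n) ∧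
    ∀ p : ℝ, 0 ≤ p → p < α → ∃ a A : ℝ, 0 < a ∧ ∀ n : ℕ, 1 ≤ n →
      a * (n : ℝ) ^ (p / α) ≤ mom N J p n ∧ mom N J p n ≤ A * (n : ℝ) ^ (p / α))

theorem Geo.concl (h : Geo N D c C) (hJ : PowerLaw N J (D + α)) (h0 : 0 < α) (h1 : α < 1)
    (hD : α < D) : Concl N J D α := by
  have hJ0 := hJ.nonneg h
  obtain ⟨c₀, C₀, hK₀⟩ := h.ker hJ h0 h1 hD one_pos
  simp only [ENNReal.ofReal_one, one_mul] at hK₀
  obtain ⟨μ, hμ, hlim, hc⟩ := exists_mu hK₀
  obtain ⟨c₁, C₁, hK⟩ := h.ker hJ h0 h1 hD (inv_pos.2 hμ)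
  have e : ∀ (n : ℕ) (x : ℝ≥0∞), (ofReal μ⁻¹ ^ n * x).toReal = x.toReal / μ ^ n := fun n x => by
    rw [ENNReal.toReal_mul, ENNReal.toReal_pow, ENNReal.toReal_ofReal (by positivity), inv_pow,
      div_eq_inv_mul]
  have ea : ∀ n, (aa (fun s => ofReal μ⁻¹ * ofReal (J s)) n).toReal = cnt J n / μ ^ n := fun n => by
    rw [aa_smul, e, cnt_eq hJ0]
  have em : ∀ p n, (MM (fun s => ofReal μ⁻¹ * ofReal (J s)) N p n).toReal /
      (aa (fun s => ofReal μ⁻¹ * ofReal (J s)) n).toReal = mom N J p n := fun p n => by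
    rw [ea, MM_smul, e, mom, tsum_real fun ω => mul_nonneg (wt_nonneg hJ0 ω)
      (Real.rpow_nonneg (h.nonneg _) _), tsum_mom hJ0, div_div_div_cancel_right₀ (by positivity)]
  have ha1 : ∀ n, 1 ≤ (aa (fun s => ofReal μ⁻¹ * ofReal (J s)) n).toReal := fun n => by
    simpa using ENNReal.toReal_mono (hK.aa_ne_top n) (hc.one_le n)
  obtain ⟨a, ha, ha'⟩ := GG_lower hK hc
  obtain ⟨A, hA, hA'⟩ := GG_upper hK hc
  have hG : ∀ z, GG (fun s => ofReal μ⁻¹ * ofReal (J s)) z ≠ ⊤ := fun z => by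
    by_cases hz : z = 0
    · rw [hz, GG_zero]; exact ENNReal.one_ne_top
    · exact ne_top_of_le_ne_top ENNReal.ofReal_ne_top (hA' z hz)
  have eg : ∀ z, green J μ z = (GG (fun s => ofReal μ⁻¹ * ofReal (J s)) z).toReal := fun z => by
    have h2 := hG z
    rw [GG_smul] at h2 ⊢
    rw [ENNReal.tsum_toReal_eq (ENNReal.ne_top_of_tsum_ne_top h2), green]
    exact tsum_congr fun n => by rw [e, cntTo_eq hJ0]
  refine ⟨μ, hμ, by simpa only [cnt_eq hJ0] using hlim, fun n p hp hpα => ?_, fun z => ?_,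
    ⟨a, A, ha, fun z hz => ?_⟩, fun γ hγ p hp hpα => ?_, fun h2 => ?_⟩
  · refine summable_real (fun ω => mul_nonneg (wt_nonneg hJ0 ω)
      (Real.rpow_nonneg (h.nonneg _) _)) ?_
    rw [tsum_mom hJ0]
    exact hK₀.MM_ne_top hp hpα n
  · have h2 := hG z
    rw [GG_smul] at h2
    exact (ENNReal.summable_toReal h2).congr fun n => by rw [e, cntTo_eq hJ0]
  · have := h.pos hz
    rw [eg]
    exact ⟨(ENNReal.ofReal_le_iff_le_toReal (hG z)).1 (ha' z hz),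
      ENNReal.toReal_le_of_le_ofReal (by positivity) (hA' z hz)⟩
  · have := canon hK ha1 hp hpα (θ := γ - 1) (by simpa only [ea] using hγ)
    rw [show γ - 1 + 1 = γ by ring] at this
    simpa only [em] using this
  · obtain ⟨B, hB⟩ := aa_bdd hK hc h2
    refine ⟨⟨B, fun n => ?_⟩, fun p hp hpα => by
      simpa only [em] using canon_bdd hK ha1 hB hp hpα⟩
    have h3 := ha1 n
    have h4 := hB n
    rw [ea] at h3 h4
    exact ⟨(one_le_div (by positivity)).1 h3, (div_le_iff₀ (by positivity)).1 h4⟩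

theorem Geo.rpow (h : Geo N D c C) (hu : ∀ x y, N (x + y) ≤ max (N x) (N y)) {κ : ℝ}
    (hκ : 0 < κ) : Geo (fun x => N x ^ κ) (D / κ) c C := by
  have e : ∀ r, 1 ≤ r → (∀ x, N x ^ κ ≤ r ↔ N x ≤ r ^ κ⁻¹) ∧ r ^ (D / κ) = (r ^ κ⁻¹) ^ D ∧
      1 ≤ r ^ κ⁻¹ := fun r hr =>
    ⟨fun x => (Real.le_rpow_inv_iff_of_pos (h.nonneg x) (by linarith) hκ).symm,
      by rw [← Real.rpow_mul (by linarith), div_eq_inv_mul], Real.one_le_rpow hr (by positivity)⟩
  refine ⟨⟨by simp [h.zero, hκ.ne'], fun x y => ?_, fun x => by simp only [h.neg]⟩,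
    fun x hx => Real.one_le_rpow (h.disc x hx) hκ.le, div_pos h.D_pos hκ, h.c_pos, h.C_pos,
    fun r hr => ?_, fun r hr => ?_⟩
  · refine (Real.rpow_le_rpow (h.nonneg _) (hu x y) hκ.le).trans ?_
    have h1 := Real.rpow_nonneg (h.nonneg x) κ
    have h2 := Real.rpow_nonneg (h.nonneg y) κ
    rcases le_total (N x) (N y) with h3 | h3
    · rw [max_eq_right h3]; linarith
    · rw [max_eq_left h3]; linarith
  · simp only [(e r hr).1, (e r hr).2.1]
    exact h.vlo _ (e r hr).2.2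
  · simp only [(e r hr).1, (e r hr).2.1]
    exact h.vhi _ (e r hr).2.2

theorem Geo.concl_ultra (h : Geo N D c C) (hu : ∀ x y, N (x + y) ≤ max (N x) (N y))
    (hJ : PowerLaw N J (D + α)) (h0 : 0 < α) (hD : α < D) : Concl N J D α := by
  have hκ : 0 < α + 1 := by positivity
  have e : ∀ x q, (N x ^ (α + 1)) ^ (q / (α + 1)) = N x ^ q := fun x q => by
    rw [← Real.rpow_mul (h.nonneg x), mul_div_cancel₀ _ hκ.ne']
  have em : ∀ p, mom (fun x => N x ^ (α + 1)) J (p / (α + 1)) = mom N J p := fun p => by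
    funext n; simp only [mom, e]
  obtain ⟨μ, hμ, h1, h2, h3, h4, h5, h6⟩ := (h.rpow hu hκ).concl (J := J) (α := α / (α + 1))
    (by simpa only [PowerLaw, ← add_div, ← neg_div, e] using hJ) (by positivity)
    ((div_lt_one hκ).2 (lt_add_one α)) (by gcongr)
  have hp : ∀ p, 0 ≤ p → p < α → 0 ≤ p / (α + 1) ∧ p / (α + 1) < α / (α + 1) := fun p h1 h2 =>
    ⟨by positivity, by gcongr⟩
  refine ⟨μ, hμ, h1, fun n p hp1 hp2 => ?_, h3, by simpa only [← sub_div, e] using h4,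
    fun γ hγ p hp1 hp2 => ?_, fun h7 => ?_⟩
  · simpa only [e] using h2 n _ (hp p hp1 hp2).1 (hp p hp1 hp2).2
  · have := h5 γ hγ _ (hp p hp1 hp2).1 (hp p hp1 hp2).2
    rwa [em, show p / (α + 1) * (γ / (α / (α + 1))) = p * (γ / α) by field_simp] at this
  · obtain ⟨h8, h9⟩ := h6 (by rw [← mul_div_assoc]; gcongr)
    refine ⟨h8, fun p hp1 hp2 => ?_⟩
    have := h9 _ (hp p hp1 hp2).1 (hp p hp1 hp2).2
    rwa [em, div_div_div_cancel_right₀ hκ.ne'] at this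

theorem Geo.tendsto (h : Geo N D c C) : Tendsto N cofinite atTop := by
  refine tendsto_atTop.2 fun r => ?_
  refine (ENNReal.finite_const_le_of_tsum_ne_top (ne_top_of_le_ne_top ENNReal.ofReal_ne_top
    (h.vhi (max r 1) (le_max_right _ _))) one_ne_zero).subset fun x hx => ?_
  exact (ind_pos ((not_le.1 (show ¬ r ≤ N x from hx)).le.trans (le_max_left _ _))).ge

theorem Geo.eta (h : Geo N D c C) {G : Γ → ℝ} {θ : ℝ} (hG : ∃ a A : ℝ, 0 < a ∧ ∀ z, z ≠ 0 →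
    a * N z ^ θ ≤ G z ∧ G z ≤ A * N z ^ θ) :
    Tendsto (fun z => Real.log (G z) / Real.log (N z)) cofinite (𝓝 θ) := by
  obtain ⟨a, A, ha, hG⟩ := hG
  refine log_div_tendsto h.tendsto fun ε hε => ⟨a, |A|, ha, ?_⟩
  filter_upwards [eventually_cofinite_ne 0] with z hz
  have h1 := h.disc z hz
  have h2 := h.pos hz
  exact ⟨le_trans (mul_le_mul_of_nonneg_left (Real.rpow_le_rpow_of_exponent_le h1 (by linarith))
    ha.le) (hG z hz).1, (hG z hz).2.trans (mul_le_mul (le_abs_self A)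
      (Real.rpow_le_rpow_of_exponent_le h1 (by linarith)) (by positivity) (abs_nonneg A))⟩

end Pool.Agent.Lib.LRS
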