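import Mathlib

/-! The transition kernel of the zero-dimensional squared Bessel process. -/

namespace Pool.Agent.Lib.LRS

open MeasureTheory Set Real Filter Topology
open scoped Nat

/-- a Bessel type series -/
noncomputable def bes (y : ℝ) : ℝ := ∑' m : ℕ, y ^ m / (m ! * (m + 1)!)

/-- the kernel -/
noncomputable def kap (y x : ℝ) : ℝ := exp (-y) * exp (-x) * bes (y * x)

/-- the integral operator -/
noncomputable def IK (f : ℝ → ℝ) (y : ℝ) : ℝ := ∫ x in Ioi 0, f x * kap y x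

/-- admissible functions -/
def Adm (f : ℝ → ℝ) : Prop :=
  Continuous f ∧ ∃ C σ : ℝ, σ < 1 ∧ ∀ x, 0 < x → |f x| ≤ C * exp (σ * x)

theorem hasSum_exp (x : ℝ) : HasSum (fun n : ℕ => x ^ n / n !) (exp x) := by
  rw [Real.exp_eq_exp_ℝ]; exact NormedSpace.expSeries_div_hasSum_exp x

theorem hs_congr {ι : Type*} {f g : ι → ℝ} {a : ℝ} (h : HasSum f a) (e : ∀ i, g i = f i) :
    HasSum g a := (funext e : g = f) ▸ h

theorem bes_term {a b : ℝ} (ha : 0 ≤ a) (hb : 0 ≤ b) (m : ℕ) :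
    (a * b) ^ m / (m ! * (m + 1)!) ≤ a ^ m / m ! * exp b := by
  refine le_trans ?_ (mul_le_mul_of_nonneg_left (pow_div_factorial_le_exp b hb m) (by positivity))
  rw [div_mul_div_comm, mul_pow]
  gcongr
  exact m.le_succ

theorem bes_summable {y : ℝ} (hy : 0 ≤ y) : Summable fun m : ℕ => y ^ m / (m ! * (m + 1)!) :=
  Summable.of_nonneg_of_le (fun _ => by positivity)
    (fun m => by simpa using bes_term hy zero_le_one m) ((hasSum_exp y).summable.mul_right _)

theorem bes_le {a b : ℝ} (ha : 0 ≤ a) (hb : 0 ≤ b) : bes (a * b) ≤ exp a * exp b :=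
  hasSum_le (bes_term ha hb) (bes_summable (mul_nonneg ha hb)).hasSum ((hasSum_exp a).mul_right _)

theorem bes_zero : bes 0 = 1 := by
  rw [bes, tsum_eq_single 0 fun m hm => by simp [hm]]
  simp

theorem bes_mono {a b : ℝ} (ha : 0 ≤ a) (h : a ≤ b) : bes a ≤ bes b :=
  (bes_summable ha).tsum_le_tsum (fun m => by gcongr) (bes_summable (ha.trans h))

theorem bes_pos {a : ℝ} (ha : 0 ≤ a) : 0 < bes a :=
  one_pos.trans_le (bes_zero ▸ bes_mono le_rfl ha)

theorem bes_tp {s t x z : ℝ} (hs : 0 ≤ s) (h1 : s ≤ t) (hz : 0 ≤ z) (h2 : z ≤ x) :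
    bes (s * x) * bes (t * z) ≤ bes (t * x) * bes (s * z) := by
  have ht := hs.trans h1
  have hx := hz.trans h2
  have key : ∀ p q : ℝ, 0 ≤ p → 0 ≤ q → HasSum (fun m : ℕ × ℕ =>
      (p ^ m.1 * q ^ m.2 + p ^ m.2 * q ^ m.1) / (m.1 ! * (m.1 + 1)! * (m.2 ! * (m.2 + 1)!)))
        (bes p * bes q + bes q * bes p) := fun p q hp hq => by
    have h3 : ∀ p q : ℝ, 0 ≤ p → 0 ≤ q → HasSum (fun m : ℕ × ℕ => p ^ m.1 / (m.1 ! * (m.1 + 1)!) *
        (q ^ m.2 / (m.2 ! * (m.2 + 1)!))) (bes p * bes q) := fun p q hp hq =>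
      (bes_summable hp).hasSum.mul (bes_summable hq).hasSum ((bes_summable hp).mul_of_nonneg
        (bes_summable hq) (fun _ => by positivity) fun _ => by positivity)
    refine hs_congr ((h3 p q hp hq).add (h3 q p hq hp)) fun m => ?_
    field_simp
  have h3 := hasSum_le (fun m => ?_) (key (s * x) (t * z) (by positivity) (by positivity))
    (key (t * x) (s * z) (by positivity) (by positivity))
  · linarith
  refine div_le_div_of_nonneg_right ?_ (by positivity)
  have h4 : ∀ n r : ℕ, (s * x) ^ (n + r) * (t * z) ^ n + (s * x) ^ n * (t * z) ^ (n + r) ≤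
      (t * x) ^ (n + r) * (s * z) ^ n + (t * x) ^ n * (s * z) ^ (n + r) := fun n r => by
    have h5 := mul_nonneg (mul_nonneg (sub_nonneg.2 (pow_le_pow_left₀ hs h1 r))
      (sub_nonneg.2 (pow_le_pow_left₀ hz h2 r))) (by positivity : 0 ≤ (s * t * x * z) ^ n)
    simp only [mul_pow, pow_add] at h5 ⊢
    linarith
  obtain ⟨m, n⟩ := m
  rcases le_total m n with h | h <;> obtain ⟨r, rfl⟩ := Nat.exists_eq_add_of_le h
  · linarith [h4 m r]
  · exact h4 n r

theorem kap_pos {y x : ℝ} (hy : 0 ≤ y) (hx : 0 < x) : 0 < kap y x := by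
  have := bes_pos (mul_nonneg hy hx.le)
  unfold kap
  positivity

theorem kap_meas {y : ℝ} (hy : 0 ≤ y) : AEStronglyMeasurable (kap y) (volume.restrict (Ioi 0)) :=
  AEStronglyMeasurable.mul (f := fun x => exp (-y) * exp (-x)) (by fun_prop)
    (aemeasurable_restrict_of_monotoneOn measurableSet_Ioi fun a ha b _ h =>
      bes_mono (mul_nonneg hy (le_of_lt ha)) (by gcongr)).aestronglyMeasurable

theorem Adm.int {f : ℝ → ℝ} (h : Adm f) {y : ℝ} (hy : 0 ≤ y) :
    Integrable (fun x => f x * kap y x) (volume.restrict (Ioi 0)) := by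
  obtain ⟨h1, C, σ, hσ, h2⟩ := h
  have hη : 0 < (1 - σ) / 2 := by linarith
  refine ((exp_neg_integrableOn_Ioi 0 hη).const_mul
    (|C| * (exp (-y) * exp (y / ((1 - σ) / 2))))).mono'
      (h1.aestronglyMeasurable.mul (kap_meas hy)) ?_
  filter_upwards [ae_restrict_mem measurableSet_Ioi] with x hx
  have hx : 0 < x := hx
  have h3 := bes_le (div_nonneg hy hη.le) (mul_nonneg hη.le hx.le)
  rw [← mul_assoc, div_mul_cancel₀ _ hη.ne'] at h3
  rw [Real.norm_eq_abs, abs_mul, abs_of_pos (kap_pos hy hx), kap]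
  refine (mul_le_mul ((h2 x hx).trans (mul_le_mul_of_nonneg_right (le_abs_self C) (exp_pos _).le))
    (mul_le_mul_of_nonneg_left h3 (by positivity))
      (mul_nonneg (by positivity) (bes_pos (by positivity)).le) (by positivity)).trans (le_of_eq ?_)
  rw [show -((1 - σ) / 2) * x = σ * x + -x + (1 - σ) / 2 * x by ring, exp_add, exp_add]
  ring

theorem Adm.of_le {f g : ℝ → ℝ} (hg : Adm g) (hf : Continuous f)
    (h : ∀ x, 0 < x → |f x| ≤ |g x|) : Adm f := by
  obtain ⟨-, C, σ, hσ, h2⟩ := hg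
  exact ⟨hf, C, σ, hσ, fun x hx => (h x hx).trans (h2 x hx)⟩

theorem Adm.const_mul {f : ℝ → ℝ} (h : Adm f) (c : ℝ) : Adm fun x => c * f x := by
  obtain ⟨h1, C, σ, hσ, h2⟩ := h
  refine ⟨by fun_prop, |c| * C, σ, hσ, fun x hx => ?_⟩
  rw [abs_mul, mul_assoc]
  exact mul_le_mul_of_nonneg_left (h2 x hx) (abs_nonneg c)

theorem Adm.add {f g : ℝ → ℝ} (hf : Adm f) (hg : Adm g) : Adm fun x => f x + g x := by
  obtain ⟨h1, C, σ, hσ, h2⟩ := hf
  obtain ⟨h3, C', σ', hσ', h4⟩ := hg
  refine ⟨by fun_prop, |C| + |C'|, max σ σ', max_lt hσ hσ', fun x hx => ?_⟩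
  rw [add_mul]
  refine (abs_add_le _ _).trans (add_le_add ((h2 x hx).trans ?_) ((h4 x hx).trans ?_)) <;>
    refine mul_le_mul (le_abs_self _) ?_ (exp_pos _).le (abs_nonneg _) <;> gcongr
  exacts [le_max_left _ _, le_max_right _ _]

theorem pow_le_exp (i : ℕ) {η x : ℝ} (hη : 0 < η) (hx : 0 ≤ x) :
    x ^ i ≤ i ! / η ^ i * exp (η * x) := by
  have := pow_div_factorial_le_exp (η * x) (by positivity) i
  rw [div_le_iff₀ (by positivity), mul_pow] at this
  rw [div_mul_eq_mul_div, le_div_iff₀ (by positivity)]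
  linarith

theorem adm_pow_exp (i : ℕ) {σ : ℝ} (hσ : σ < 1) : Adm fun x => x ^ i * exp (σ * x) := by
  have hη : 0 < (1 - σ) / 2 := by linarith
  refine ⟨by fun_prop, i ! / ((1 - σ) / 2) ^ i, (1 - σ) / 2 + σ, by linarith, fun x hx => ?_⟩
  rw [abs_of_pos (by positivity), add_mul, exp_add, ← mul_assoc]
  exact mul_le_mul_of_nonneg_right (pow_le_exp i hη hx.le) (exp_pos _).le

theorem adm_exp {σ : ℝ} (hσ : σ < 1) : Adm fun x => exp (σ * x) := by
  simpa using adm_pow_exp 0 hσ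

theorem adm_const (c : ℝ) : Adm fun _ => c := by
  simpa using (adm_exp one_pos).const_mul c

theorem Adm.sub {f g : ℝ → ℝ} (hf : Adm f) (hg : Adm g) : Adm fun x => f x - g x := by
  simpa [sub_eq_add_neg] using hf.add (hg.const_mul (-1))

theorem adm_poly (P : Polynomial ℝ) : Adm fun x => P.eval x := by
  induction P using Polynomial.induction_on' with
  | add p q hp hq => simpa using hp.add hq
  | monomial n a => simpa using (adm_pow_exp n one_pos).const_mul a

variable {f g : ℝ → ℝ} {y : ℝ}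

theorem IK_add (hf : Adm f) (hg : Adm g) (hy : 0 ≤ y) :
    IK (fun x => f x + g x) y = IK f y + IK g y := by
  simp only [IK, add_mul, integral_add (hf.int hy) (hg.int hy)]

theorem IK_sub (hf : Adm f) (hg : Adm g) (hy : 0 ≤ y) :
    IK (fun x => f x - g x) y = IK f y - IK g y := by
  simp only [IK, sub_mul, integral_sub (hf.int hy) (hg.int hy)]

theorem IK_const_mul (c : ℝ) (f : ℝ → ℝ) (y : ℝ) : IK (fun x => c * f x) y = c * IK f y := by
  simp only [IK, mul_assoc, integral_const_mul]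

theorem IK_mono (hf : Adm f) (hg : Adm g) (hy : 0 ≤ y) (h : ∀ x, 0 < x → f x ≤ g x) :
    IK f y ≤ IK g y :=
  setIntegral_mono_on (hf.int hy) (hg.int hy) measurableSet_Ioi fun x hx =>
    mul_le_mul_of_nonneg_right (h x hx) (kap_pos hy hx).le

theorem IK_nonneg (hy : 0 ≤ y) (h : ∀ x, 0 < x → 0 ≤ f x) : 0 ≤ IK f y :=
  setIntegral_nonneg measurableSet_Ioi fun x hx => mul_nonneg (h x hx) (kap_pos hy hx).le

theorem IK_hasSum (i : ℕ) {σ : ℝ} (hσ : σ < 1) (hy : 0 ≤ y) :
    HasSum (fun m : ℕ => exp (-y) * (y ^ m / (m ! * (m + 1)!) * ((m + i)! / (1 - σ) ^ (m + i + 1))))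
      (IK (fun x => x ^ i * exp (σ * x)) y) := by
  have hr : 0 < 1 - σ := sub_pos.2 hσ
  let F : ℕ → ℝ → ℝ := fun m x =>
    exp (-y) * (y ^ m / (m ! * (m + 1)!) * (x ^ (m + i) * exp (-((1 - σ) * x))))
  have h1 : ∀ m, ∫ x in Ioi 0, F m x =
      exp (-y) * (y ^ m / (m ! * (m + 1)!) * ((m + i)! / (1 - σ) ^ (m + i + 1))) := fun m => by
    have := integral_rpow_mul_exp_neg_mul_Ioi (a := (m + i + 1 : ℕ)) (by positivity) hr
    rw [Real.rpow_natCast, Nat.cast_succ, Real.Gamma_nat_eq_factorial, add_sub_cancel_right] at this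
    simp only [Real.rpow_natCast] at this
    rw [integral_const_mul, integral_const_mul, this, one_div, inv_pow, div_eq_inv_mul ((m + i)! : ℝ)]
  have h2 : ∀ x, 0 < x → HasSum (F · x) (x ^ i * exp (σ * x) * kap y x) := fun x hx => by
    refine hs_congr (((bes_summable (mul_nonneg hy hx.le)).hasSum.mul_left
      (exp (-y) * exp (-x))).mul_left (x ^ i * exp (σ * x))) fun m => ?_
    simp only [F]
    rw [show -((1 - σ) * x) = σ * x + -x by ring, exp_add]
    ring
  have h0 : ∀ m x, 0 < x → 0 ≤ F m x := fun m x hx => by positivity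
  have hI := (adm_pow_exp i hσ).int hy
  have h3 : ∀ s : Finset ℕ, ∀ᵐ x ∂(volume.restrict (Ioi (0 : ℝ))),
      ∑ m ∈ s, F m x ≤ x ^ i * exp (σ * x) * kap y x := fun s => by
    filter_upwards [ae_restrict_mem measurableSet_Ioi] with x hx
    exact sum_le_hasSum s (fun m _ => h0 m x hx) (h2 x hx)
  have h4 : ∀ m, Integrable (F m) (volume.restrict (Ioi 0)) := fun m => by
    refine hI.mono' (Continuous.aestronglyMeasurable (by fun_prop)) ?_
    filter_upwards [ae_restrict_mem measurableSet_Ioi, h3 {m}] with x hx h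
    rwa [Real.norm_of_nonneg (h0 m x hx), ← Finset.sum_singleton (F · x) m]
  have h5 := hasSum_integral_of_summable_integral_norm h4 (summable_of_sum_le
    (c := IK (fun x => x ^ i * exp (σ * x)) y)
    (fun m => integral_nonneg fun x => norm_nonneg _) fun s => by
      rw [Finset.sum_congr rfl fun m _ => setIntegral_congr_fun measurableSet_Ioi fun x hx =>
        Real.norm_of_nonneg (h0 m x hx), ← integral_finsetSum _ fun m _ => h4 m]
      exact integral_mono_ae (integrable_finsetSum _ fun m _ => h4 m) hI (h3 s))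
  simp only [h1] at h5
  rwa [setIntegral_congr_fun measurableSet_Ioi fun x hx => (h2 x hx).tsum_eq] at h5

theorem IK_exp1 {σ : ℝ} (hσ : σ < 1) (hy : 0 ≤ y) :
    IK (fun x => x * exp (σ * x)) y = exp (y * (σ / (1 - σ))) / (1 - σ) ^ 2 := by
  have hr : 0 < 1 - σ := sub_pos.2 hσ
  have h1 := IK_hasSum 1 hσ hy
  simp only [pow_one] at h1
  rw [h1.unique (hs_congr
    ((hasSum_exp (y / (1 - σ))).mul_left (exp (-y) / (1 - σ) ^ 2)) fun m => ?_),
    show y * (σ / (1 - σ)) = -y + y / (1 - σ) by field_simp; ring, exp_add]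
  · ring
  · rw [div_pow]; field_simp; ring

theorem IK_exp0 {σ : ℝ} (hσ : σ < 1) (hy : 0 ≤ y) :
    y * IK (fun x => exp (σ * x)) y = exp (y * (σ / (1 - σ))) - exp (-y) := by
  have hr : 0 < 1 - σ := sub_pos.2 hσ
  have h1 := (IK_hasSum 0 hσ hy).mul_left y
  simp only [pow_zero, one_mul] at h1
  have h2 := ((hasSum_nat_add_iff' 1).2 (hasSum_exp (y / (1 - σ)))).mul_left (exp (-y))
  rw [h1.unique (hs_congr h2 fun m => ?_),
    show y * (σ / (1 - σ)) = -y + y / (1 - σ) by field_simp; ring, exp_add]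
  · simp [mul_sub]
  · rw [div_pow]; field_simp; ring_nf

theorem IK_exp00 {σ : ℝ} (hσ : σ < 1) : IK (fun x => exp (σ * x)) 0 = (1 - σ)⁻¹ := by
  have h1 := IK_hasSum 0 hσ le_rfl
  simp only [pow_zero, one_mul] at h1
  rw [h1.unique (hasSum_single 0 fun m hm => by simp [hm])]
  simp

theorem IK_pow (i : ℕ) (hy : 0 ≤ y) : IK (fun x => x ^ (i + 1)) y =
    ∑ j ∈ Finset.range (i + 1), (i + 1)! * i.choose j / (j + 1)! * y ^ j := by
  have h1 := IK_hasSum (i + 1) one_pos hy
  simp only [zero_mul, exp_zero, mul_one, sub_zero, one_pow, div_one] at h1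
  have h2 : HasSum (fun j : ℕ => (i + 1)! * i.choose j / (j + 1)! * y ^ j)
      (∑ j ∈ Finset.range (i + 1), (i + 1)! * i.choose j / (j + 1)! * y ^ j) :=
    hasSum_sum_of_ne_finset_zero fun j hj => by
      rw [Nat.choose_eq_zero_of_lt (by simpa using hj)]; simp
  have h3 := tsum_mul_tsum_eq_tsum_sum_antidiagonal_of_summable_norm h2.summable.norm
    (hasSum_exp y).summable.norm
  rw [h2.tsum_eq, (hasSum_exp y).tsum_eq] at h3
  rw [← h1.tsum_eq, tsum_mul_left, ← mul_right_inj' (exp_pos y).ne', ← mul_assoc, ← exp_add,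
    add_neg_cancel, exp_zero, one_mul, mul_comm, h3]
  refine tsum_congr fun m => ?_
  have h4 : ((m + (i + 1))! : ℝ) = (i + (m + 1)).choose m * m ! * (i + 1)! := by
    rw [show i + (m + 1) = i + 1 + m by ring, add_comm m, mul_right_comm]
    exact_mod_cast (Nat.add_choose_mul_factorial_mul_factorial (i + 1) m).symm
  rw [h4, Nat.add_choose_eq, Nat.cast_sum, Finset.sum_mul, Finset.sum_mul, Finset.mul_sum]
  refine Finset.sum_congr rfl fun p hp => ?_
  have h5 := Finset.HasAntidiagonal.mem_antidiagonal.1 hp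
  have h6 : ((m + 1)! : ℝ) = (m + 1).choose p.2 * (p.1 + 1)! * p.2 ! := by
    rw [← h5, add_right_comm]
    exact_mod_cast (Nat.add_choose_mul_factorial_mul_factorial (p.1 + 1) p.2).symm
  have h7 : ((m + 1).choose p.2 : ℝ) ≠ 0 := Nat.cast_ne_zero.2 (Nat.choose_pos (by omega)).ne'
  rw [h6, Nat.cast_mul, ← h5, pow_add, h5]
  field_simp

end Pool.Agent.Lib.LRS
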