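import Pool.Agent.Lib.LRS.RG8
import Pool.Agent.Lib.LRS.Lattice

/-! The generating polynomials count self-avoiding walks; the hierarchical lattice. -/

namespace Pool.Agent.Lib.LRS

open Polynomial Finset
open scoped ENNReal
open ENNReal (ofReal)

section
variable {Γ : Type} [AddCommGroup Γ] [DecidableEq Γ] {j : Γ → ℝ}

theorem ind_mul (P Q : Prop) : ind P * ind Q = ind (P ∧ Q) := by
  by_cases h : P
  · rw [ind_pos h, one_mul, and_iff_right h]
  · rw [ind_neg h, zero_mul, ind_neg fun h' => h h'.1]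

theorem EW_eq (j : Γ → ℝ) (S : Finset Γ) (x : Γ) :
    EW j S x = 1 + X * ∑ y ∈ S, C (j (y - x)) * EW j (S.erase y) y := by
  rw [EW, EE_eq, mul_sum]
  simp only [mul_assoc, EW]

theorem EW_pos (hj : ∀ s, 0 ≤ j s) (S : Finset Γ) : ∀ x, Pos (EW j S x) := by
  induction S using Finset.strongInduction with
  | H S ih =>
    intro x
    rw [EW_eq]
    exact (pos_sum fun y hy => (pos_C (hj _)).mul (ih _ (erase_ssubset hy) y)).lift

theorem cons_iff {S : Finset Γ} {x s : Γ} (hx : x ∉ S) (l : List Γ) :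
    (SA (s :: l) ∧ ∀ a, a <+: s :: l → a ≠ [] → x + a.sum ∈ S) ↔ x + s ∈ S ∧ SA l ∧
      ∀ a, a <+: l → a ≠ [] → x + s + a.sum ∈ S.erase (x + s) := by
  refine ⟨fun ⟨h1, h2⟩ => ⟨by simpa using h2 [s] (by simp) (by simp),
    h1.mono (List.suffix_cons s l).isInfix, fun a ha hne => mem_erase.2 ⟨fun h => h1 a
      (ha.isInfix.trans (List.suffix_cons s l).isInfix) hne (by simpa using h), ?_⟩⟩,
    fun ⟨h1, h2, h3⟩ => ?_⟩
  · simpa [add_assoc] using h2 (s :: a) (List.cons_prefix_cons.2 ⟨rfl, ha⟩) (by simp)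
  have h4 : ∀ a, a <+: s :: l → a ≠ [] → x + a.sum ∈ S := fun a ha hne => by
    rcases List.prefix_cons_iff.1 ha with rfl | ⟨e, rfl, he⟩
    · exact absurd rfl hne
    · by_cases h : e = []
      · simpa [h] using h1
      · simpa [add_assoc] using mem_of_mem_erase (h3 e he h)
  refine ⟨fun b hb hne h0 => ?_, h4⟩
  rcases List.infix_cons_iff.1 hb with h | h
  · exact hx (by simpa [h0] using h4 b h hne)
  · exact h2 b h hne h0

theorem EW_coeff (hj : ∀ s, 0 ≤ j s) (n : ℕ) : ∀ (S : Finset Γ) (x : Γ), x ∉ S →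
    ofReal ((EW j S x).coeff n) = ∑' l, W (fun s => ofReal (j s)) l *
      ind (l.length = n ∧ ∀ a, a <+: l → a ≠ [] → x + a.sum ∈ S) := by
  induction n with
  | zero =>
    intro S x _
    rw [tsum_eq_single [] fun l hl => by rw [ind_neg fun h => hl (by simpa using h.1), mul_zero],
      W_nil, ind_pos (by simp), EW_eq]
    simp
  | succ n ih =>
    intro S x hx
    rw [EW_eq, coeff_add, coeff_X_mul, coeff_one, if_neg n.succ_ne_zero, zero_add, finsetSum_coeff,
      ENNReal.ofReal_sum_of_nonneg fun y _ => ((pos_C (hj _)).mul (EW_pos hj _ y)) n,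
      ← Function.Injective.tsum_eq (g := fun p : Γ × List Γ => p.1 :: p.2)
        (fun p q h => Prod.ext (List.cons.inj h).1 (List.cons.inj h).2) fun l hl => by
          cases l with
          | nil => exact absurd (of_ind_ne (right_ne_zero_of_mul hl)).1 (by simp)
          | cons s l => exact ⟨(s, l), rfl⟩,
      ENNReal.tsum_prod', ← (Equiv.subRight x).tsum_eq, tsum_eq_sum (s := S) fun y hy => by
        refine ENNReal.tsum_eq_zero.2 fun l => by_contra fun h => hy ?_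
        simpa using ((cons_iff hx l).1 ⟨SA_of_W (left_ne_zero_of_mul h),
          (of_ind_ne (right_ne_zero_of_mul h)).2⟩).1]
    refine sum_congr rfl fun y hy => ?_
    rw [coeff_C_mul, ENNReal.ofReal_mul (hj _), ih _ y (notMem_erase y S), ← ENNReal.tsum_mul_left]
    refine tsum_congr fun l => ?_
    have h1 := cons_iff (s := y - x) hx l
    rw [add_sub_cancel] at h1
    simp only [Equiv.subRight_apply, W, List.map_cons, List.prod_cons, List.length_cons]
    rw [mul_right_comm (ind (SA l)), mul_right_comm (ind (SA (_ :: l))), ind_mul, ind_mul, show (SA ((y - x) :: l) ∧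
      l.length + 1 = n + 1 ∧ _) = (SA l ∧ l.length = n ∧ _) from propext
        ⟨fun h => ⟨(h1.1 ⟨h.1, h.2.2⟩).2.1, Nat.succ.inj h.2.1, (h1.1 ⟨h.1, h.2.2⟩).2.2⟩,
          fun h => ⟨(h1.2 ⟨hy, h.1, h.2.2⟩).1, by rw [h.2.1], (h1.2 ⟨hy, h.1, h.2.2⟩).2⟩⟩,
      mul_left_comm]

theorem EW_le_bb (hj : ∀ s, 0 ≤ j s) {K : Γ → ℝ≥0∞} (hK : ∀ s, s ≠ 0 → ofReal (j s) ≤ K s)
    {S : Finset Γ} (h0 : 0 ∈ S) {N : Γ → ℝ} {R : ℝ} (hS : ∀ x ∈ S, N x ≤ R) (n : ℕ) :
    ofReal ((EW j (S.erase 0) 0).coeff n) ≤ bb K N R n := by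
  rw [EW_coeff hj n _ _ (notMem_erase 0 S)]
  refine ENNReal.tsum_le_tsum fun l => by_contra fun h => ?_
  have h1 := (zero_le.trans_lt (not_le.1 h)).ne'
  have h2 := of_ind_ne (right_ne_zero_of_mul h1)
  refine h ?_
  rw [ind_pos h2, ind_pos h2.1, ind_pos (show In N R l from fun a ha => hS _ ?_), mul_one, mul_one,
    mul_one]
  · exact W_mono fun s hs => hK s ((SA_of_W (left_ne_zero_of_mul h1)).ne_zero hs)
  · by_cases e : a = []
    · simpa [e] using h0
    · simpa using mem_of_mem_erase (h2.2 a ha e)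

variable {Λ T : ℕ → Finset Γ} {w l : ℝ} {N : ℕ}

theorem HD.coeff {j : ℕ → Γ → ℝ} (h : HD Λ T j w l N) (hj : ∀ k s, 0 ≤ j k s) (k n : ℕ) :
    ofReal ((EW (j k) ((Λ k).erase 0) 0).coeff n) = aa (fun s => ofReal (j k s)) n := by
  rw [EW_coeff (hj k) n _ _ (notMem_erase 0 _), aa]
  refine tsum_congr fun l => ?_
  by_cases h1 : W (fun s => ofReal (j k s)) l = 0
  · rw [h1, zero_mul, zero_mul]
  have h2 : ∀ a : List Γ, (∀ s ∈ a, s ∈ Λ k) → a.sum ∈ Λ k := fun a ha => by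
    induction a with
    | nil => exact h.mem0 k
    | cons s a ih =>
      simpa [add_comm] using h.sub k _ (h.sub k s (ha s (by simp)) 0 (h.mem0 k)) _
        (ih fun t ht => ha t (by simp [ht]))
  rw [and_iff_left fun a ha hne => mem_erase.2 ⟨by simpa using SA_of_W h1 a ha.isInfix hne, ?_⟩]
  rw [zero_add]
  refine h2 a fun s hs => by_contra fun h3 => right_ne_zero_of_mul h1 (List.prod_eq_zero ?_)
  exact List.mem_map.2 ⟨s, ha.subset hs, by simp [h.vanish k s h3]⟩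
end

theorem hd_hier {L d : ℕ} (hL : 2 ≤ L) [DecidableEq (Hier L d)] {s t : ℝ} (hs : 0 < s)
    (ht : 0 < t) : ∃ Λ T : ℕ → Finset (Hier L d), (∀ k, ∀ x ∈ Λ k, hnorm x ≤ (L : ℝ) ^ k) ∧
      HD Λ T (fun k x => max (t * hnorm x ^ (-s) - t * ((L : ℝ) ^ (-s)) ^ (k + 1)) 0)
        (t * (L : ℝ) ^ (-s) * (1 - (L : ℝ) ^ (-s))) ((L : ℝ) ^ (-s)) (L ^ d) := by
  classical
  have : NeZero L := ⟨by omega⟩
  have hL1 : (1 : ℝ) < L := by exact_mod_cast hL
  have hl0 : 0 < (L : ℝ) ^ (-s) := by positivity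
  have hl1 : (L : ℝ) ^ (-s) < 1 := Real.rpow_lt_one_of_one_lt_of_neg hL1 (by linarith)
  let Λ : ℕ → Finset (Hier L d) := fun k => (range k).finsupp fun _ => univ
  have h1 : ∀ k x, x ∈ Λ k ↔ hnorm x ≤ (L : ℝ) ^ k := fun k x => by
    rw [hnorm_le_iff hL, mem_finsupp_iff]; simp
  have h2 : ∀ k x, x ∈ Λ k ↔ ∀ i, k ≤ i → x i = 0 := fun k x => by
    rw [mem_finsupp_iff]
    simp only [mem_univ, implies_true, and_true, subset_iff, Finsupp.mem_support_iff, mem_range]
    exact forall_congr' fun i => by rw [← not_le, not_imp_not]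
  have h3 : ∀ x : Hier L d, x ≠ 0 → ∃ i, hnorm x ^ (-s) = ((L : ℝ) ^ (-s)) ^ i ∧
      ∀ k, x ∈ Λ k ↔ i ≤ k := fun x hx => ⟨_, by
        rw [hnorm, if_neg hx, Real.rpow_pow_comm (by positivity)], fun k => by
        rw [h1, hnorm, if_neg hx, pow_le_pow_iff_right₀ hL1]⟩
  refine ⟨Λ, fun k => univ.image (Finsupp.single k), fun k x => (h1 k x).1, ?_, fun k => ?_,
    fun k => ?_, fun k => ?_, fun k => (h2 k 0).2 fun _ _ => rfl, fun k x hx y hy => ?_,
    fun k a ha b hb hne h => ?_, fun k x hx => ?_, fun k x hx hne => ?_⟩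
  · ext x
    rw [h2, mem_singleton, Finsupp.ext_iff]
    simp
  · ext x
    simp only [mem_biUnion, mem_image, mem_univ, true_and, h2]
    refine ⟨fun h => ⟨_, ⟨x k, rfl⟩, x - Finsupp.single k (x k), fun i hi => ?_, by abel⟩, ?_⟩
    · rcases hi.eq_or_lt with rfl | hi
      · simp
      · simp [h i hi, hi.ne']
    · rintro ⟨_, ⟨c, rfl⟩, y, hy, rfl⟩ i hi
      simp [hy i (by omega), (show i ≠ k by omega)]
  · rw [card_image_of_injective _ (Finsupp.single_injective k)]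
    simp
  · rw [card_finsupp]
    simp
  · exact (h2 k _).2 fun i hi => by simp [(h2 k x).1 hx i hi, (h2 k y).1 hy i hi]
  · obtain ⟨a, -, rfl⟩ := mem_image.1 ha
    obtain ⟨b, -, rfl⟩ := mem_image.1 hb
    have := (h2 k _).1 h k le_rfl
    simp only [Finsupp.sub_apply, Finsupp.single_eq_same, sub_eq_zero] at this
    exact hne (by rw [this])
  · obtain ⟨i, h4, h5⟩ := h3 x fun e => hx (e ▸ (h2 k 0).2 fun _ _ => rfl)
    rw [h4]
    exact max_eq_right (sub_nonpos.2 (mul_le_mul_of_nonneg_left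
      (pow_le_pow_of_le_one hl0.le hl1.le (not_le.1 fun e => hx ((h5 k).2 e))) ht.le))
  · obtain ⟨i, h4, h5⟩ := h3 x hne
    have h6 := (h5 _).1 hx
    rw [h4, max_eq_left (sub_nonneg.2 (mul_le_mul_of_nonneg_left
      (pow_le_pow_of_le_one hl0.le hl1.le (by omega)) ht.le)), max_eq_left (sub_nonneg.2
        (mul_le_mul_of_nonneg_left (pow_le_pow_of_le_one hl0.le hl1.le h6) ht.le))]
    ring

end Pool.Agent.Lib.LRS
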