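import Pool.Agent.Lib.LRS.T33
import Pool.Agent.Lib.LRS.Expo

/-! The analytic ending: from the decay of the generating polynomials to the pointwise exponent. -/

set_option autoImplicit false

namespace Pool.Agent.Lib.LRS.T33

open Polynomial Real Finset Filter Topology

theorem bern {t : ℝ} (h1 : t ≤ 1) (i : ℕ) :
    1 - (1 - t) ^ i ≤ i * t ∧ (1 - t) ^ i * (1 + i * t) ≤ 1 := by
  refine ⟨by linarith [one_add_mul_le_pow (a := -t) (by linarith) i, sub_eq_add_neg 1 t,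
    show (1 + -t) ^ i = (1 - t) ^ i by ring], ?_⟩
  induction i with
  | zero => simp
  | succ i ih =>
    have h2 : 0 ≤ (1 - t) ^ i := pow_nonneg (by linarith) i
    have h3 : (0 : ℝ) ≤ i := Nat.cast_nonneg i
    have h4 : (1 - t) * (1 + (i + 1) * t) ≤ 1 + i * t := by nlinarith [mul_nonneg h3 (sq_nonneg t)]
    push_cast
    rw [pow_succ, mul_assoc]
    exact (mul_le_mul_of_nonneg_left h4 h2).trans ih

theorem mass {P : ℝ[X]} {l A D δ : ℝ} (h0 : ∀ i, 0 ≤ P.coeff i) (hA0 : 0 < A) (hA : P.eval 1 ≤ A)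
    (hδ : 0 < δ) (hl : δ ≤ l) (hD : D * δ ≤ 1 / 2)
    (hd : ∀ s, 0 ≤ s → s ≤ 1 → (1 - s) * l - D * ((1 - s) * l) ^ 2 ≤ P.eval 1 - P.eval s ∧
      P.eval 1 - P.eval s ≤ (1 - s) * l) :
    ∃ S : Finset ℕ, (∀ i ∈ S, 1 / (8 * A) * l ≤ i ∧ (i : ℝ) ≤ 16 / δ * l) ∧
      δ / 4 ≤ ∑ i ∈ S, P.coeff i := by
  have l0 : 0 < l := hδ.trans_le hl
  have t0 : 0 < δ / l := by positivity
  have t1 : δ / l ≤ 1 := (div_le_one l0).2 hl
  have h1 := (hd (1 - δ / l) (by linarith) (by linarith)).1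
  have h2 := (hd (1 - δ / l / 16) (by linarith) (by linarith)).2
  rw [sub_sub_cancel, div_mul_cancel₀ _ l0.ne'] at h1
  rw [sub_sub_cancel, show δ / l / 16 * l = δ / 16 by field_simp] at h2
  refine ⟨(range (P.natDegree + 1)).filter fun i => 1 / (8 * A) * l ≤ i ∧ (i : ℝ) ≤ 16 / δ * l,
    fun i hi => (mem_filter.1 hi).2, ?_⟩
  have key : ∀ i ∈ range (P.natDegree + 1), P.coeff i * 1 ^ i - P.coeff i * (1 - δ / l) ^ i ≤
      δ / (8 * A) * (P.coeff i * 1 ^ i) +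
        2 * (P.coeff i * 1 ^ i - P.coeff i * (1 - δ / l / 16) ^ i) +
        if 1 / (8 * A) * l ≤ i ∧ (i : ℝ) ≤ 16 / δ * l then P.coeff i else 0 := fun i _ => by
    have a0 := h0 i
    have b1 := (bern t1 i).1
    have b2 := (bern (t := δ / l / 16) (by linarith) i).2
    have b3 : 0 ≤ (1 - δ / l) ^ i := pow_nonneg (by linarith) i
    have b4 : 0 ≤ (1 - δ / l / 16) ^ i := pow_nonneg (by linarith) i
    have b5 : (1 - δ / l / 16) ^ i ≤ 1 := pow_le_one₀ (by linarith) (by linarith)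
    have b6 : 0 < δ / (8 * A) := by positivity
    rw [one_pow, mul_one]
    split_ifs with hc
    · nlinarith [mul_nonneg a0 b3, mul_nonneg a0 (sub_nonneg.2 b5), mul_nonneg a0 b6.le]
    · rcases not_and_or.1 hc with hc | hc
      · have b7 : (i : ℝ) * (δ / l) ≤ δ / (8 * A) :=
          (mul_le_mul_of_nonneg_right (not_le.1 hc).le t0.le).trans (le_of_eq (by field_simp))
        nlinarith [mul_nonneg a0 (sub_nonneg.2 b5), mul_le_mul_of_nonneg_left (b1.trans b7) a0]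
      · have b7 : 1 ≤ (i : ℝ) * (δ / l / 16) :=
          le_trans (le_of_eq (by field_simp))
            (mul_le_mul_of_nonneg_right (not_le.1 hc).le (by positivity))
        have b8 : 2 * (1 - δ / l / 16) ^ i ≤ 1 := by nlinarith
        nlinarith [mul_nonneg a0 b3, mul_nonneg a0 b6.le, mul_le_mul_of_nonneg_left b8 a0]
  have h3 := sum_le_sum key
  rw [sum_add_distrib, sum_add_distrib, ← mul_sum, ← mul_sum, sum_sub_distrib, sum_sub_distrib,
    ← eval_eq_sum_range, ← eval_eq_sum_range, ← eval_eq_sum_range, ← sum_filter] at h3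
  have h4 : δ / (8 * A) * P.eval 1 ≤ δ / 8 :=
    (mul_le_mul_of_nonneg_left hA (by positivity)).trans (le_of_eq (by field_simp))
  nlinarith

theorem drop12 {P : ℝ[X]} (hP : ∀ i, 0 ≤ P.coeff i) {p : ℝ} (m₁ : p ≤ P.coeff 1)
    (m₂ : p ≤ P.coeff 2) {z : ℂ} (hz : ‖z‖ ≤ 1) :
    ‖aeval z P‖ ≤ P.eval 1 - p * ‖1 - z‖ ^ 2 / 8 := by
  obtain ⟨u, hu, he⟩ := Complex.exists_norm_eq_mul_self (aeval z P)
  have e : ‖aeval z P‖ = (u * aeval z P).re := by rw [← he, Complex.ofReal_re]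
  have hη : 0 ≤ ‖1 - z‖ ^ 2 / 8 := by positivity
  have h5 := parallelogram_law_with_norm ℝ (1 : ℂ) z
  have h7 : (u * z ^ 1).re + (u * z ^ 2).re ≤ ‖1 + z‖ := by
    rw [← Complex.add_re, show u * z ^ 1 + u * z ^ 2 = u * z * (1 + z) by ring]
    refine (Complex.re_le_norm _).trans ?_
    rw [norm_mul, norm_mul, hu, one_mul]
    exact mul_le_of_le_one_left (norm_nonneg _) hz
  rw [norm_one] at h5
  have key : (u * z ^ 1).re + (u * z ^ 2).re ≤ 2 - ‖1 - z‖ ^ 2 / 4 := by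
    nlinarith [norm_nonneg z, sq_nonneg (2 - ‖1 + z‖)]
  rw [e, mul_div_assoc, mul_comm p]
  rcases le_total (u * z ^ 1).re (1 - ‖1 - z‖ ^ 2 / 8) with hc | hc
  · have := drop_one hP hz hu (S := {1}) (η := ‖1 - z‖ ^ 2 / 8) (by simpa using hc)
    rw [sum_singleton] at this
    linarith [mul_le_mul_of_nonneg_left m₁ hη]
  · have := drop_one hP hz hu (S := {2}) (η := ‖1 - z‖ ^ 2 / 8) fun i hi => by
      rw [mem_singleton.1 hi]; linarith
    rw [sum_singleton] at this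
    linarith [mul_le_mul_of_nonneg_left m₂ hη]

theorem pw {ρ g : ℝ} (hρ : 0 < ρ) (hg : g ≠ 0) (n : ℕ) :
    (exp (-log ρ / g) ^ n) ^ g = (ρ ^ n)⁻¹ := by
  rw [← exp_nat_mul, ← exp_mul, mul_assoc, div_mul_cancel₀ _ hg, exp_nat_mul, exp_neg, exp_log hρ,
    inv_pow]

theorem cross {l : ℕ → ℝ} (h : Tendsto l atTop atTop) {y : ℝ} (h0 : l 0 ≤ y) :
    ∃ k, l k ≤ y ∧ y < l (k + 1) := by
  by_contra hc
  push Not at hc
  have : ∀ k, l k ≤ y := fun k => Nat.rec h0 (fun k ih => hc k ih) k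
  obtain ⟨k, hk⟩ := (h.eventually_gt_atTop y).exists
  exact hk.not_ge (this k)

theorem decay {ρ τ A D b E U : ℝ} (hρ : 0 < ρ) (hρ1 : ρ ≤ 1) (hτ : 0 < τ) (hb : 1 < b)
    {P : ℕ → ℝ[X]} {l : ℕ → ℝ} (h0 : ∀ k i, 0 ≤ (P k).coeff i) (hA : ∀ k, (P k).eval 1 ≤ A)
    (hA0 : 0 < A) (hτl : ∀ k, τ ≤ l k)
    (hd : ∀ k s, 0 ≤ s → s ≤ 1 → (1 - s) * l k - D * ((1 - s) * l k) ^ 2 ≤
      (P k).eval 1 - (P k).eval s ∧ (P k).eval 1 - (P k).eval s ≤ (1 - s) * l k)
    (hm : ∀ k i, ρ * (P k).coeff i ≤ (P (k + 1)).coeff i)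
    (he : ∀ c, 0 < c → ∃ B, ∀ k (z : ℂ), ‖z‖ ≤ 1 → ‖aeval z (P k)‖ ≤ (P k).eval 1 - c →
      ∀ n, ‖aeval z (P (k + n))‖ ≤ B * ρ ^ n)
    (hU : ∀ k, l (k + 1) ≤ U * l k) (hE : ∀ k n, b ^ n * l k ≤ E * l (k + n))
    (hlim : Tendsto l atTop atTop) (h12 : 0 < (P 1).coeff 1 ∧ 0 < (P 1).coeff 2) :
    (∃ C p : ℝ, 0 < C ∧ 0 < p ∧ ∀ k, ∃ S : Finset ℕ, (∀ i ∈ S, (i : ℝ) ≤ C * l k) ∧
      p ≤ ∑ i ∈ S, (P k).coeff i) ∧
    ∃ B C : ℝ, 0 < B ∧ 0 < C ∧ ∀ z : ℂ, ‖z‖ ≤ 1 → z ≠ 1 → ∃ k, ‖1 - z‖ * l k ≤ C ∧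
      ∀ n, ‖aeval z (P (k + n))‖ ≤ B * ρ ^ n := by
  have l0 : ∀ k, 0 < l k := fun k => hτ.trans_le (hτl k)
  have hU0 : 0 < U := (mul_pos_iff_of_pos_right (l0 0)).1 ((l0 1).trans_le (hU 0))
  obtain ⟨δ, hδ, hδ1, hδ2⟩ : ∃ δ, 0 < δ ∧ δ ≤ τ ∧ D * δ ≤ 1 / 2 := by
    refine ⟨min τ (1 / (2 * (|D| + 1))), by positivity, min_le_left _ _, ?_⟩
    calc _ ≤ (|D| + 1) * min τ (1 / (2 * (|D| + 1))) := by gcongr; linarith [le_abs_self D]
      _ ≤ (|D| + 1) * (1 / (2 * (|D| + 1))) := by gcongr; exact min_le_right _ _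
      _ = _ := by field_simp
  choose S hS hp using fun k => mass (h0 k) hA0 (hA k) hδ (hδ1.trans (hτl k)) hδ2 (hd k)
  refine ⟨⟨16 / δ, δ / 4, by positivity, by positivity, fun k => ⟨S k, fun i hi => (hS k i hi).2,
    hp k⟩⟩, ?_⟩
  generalize hc : 1 / (8 * A) = c at hS
  generalize hC : 16 / δ = C at hS
  have c0 : 0 < c := by rw [← hc]; positivity
  have C0 : 0 < C := by rw [← hC]; positivity
  obtain ⟨r, hr⟩ := pow_unbounded_of_one_lt (2 * C * E / c) hb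
  have hmr : ∀ k n i, ρ ^ n * (P k).coeff i ≤ (P (k + n)).coeff i := fun k n i => by
    induction n with
    | zero => simp
    | succ n ih =>
      rw [pow_succ', mul_assoc]
      exact (mul_le_mul_of_nonneg_left ih hρ.le).trans (hm _ _)
  have hdrop : ∀ k (z : ℂ), ‖z‖ ≤ 1 → C * l (k + r) * ‖1 - z‖ ≤ 1 / 2 → ‖aeval z (P (k + r))‖ ≤
      (P (k + r)).eval 1 - ρ ^ r * (δ / 4) * (c * l (k + r) * ‖1 - z‖) ^ 2 / 128 := by
    intro k z hz h
    refine T3 (h0 _) (S₁ := S k) (S₂ := S (k + r)) (mul_pos c0 (l0 _)).le (fun i hi => ?_)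
      (hS _) ?_ ((mul_le_of_le_one_left (by positivity) (pow_le_one₀ hρ.le hρ1)).trans (hp _)) hz h
    · refine (hS k i hi).2.trans (le_of_mul_le_mul_left ?_ (pow_pos (one_pos.trans hb) r))
      rw [div_lt_iff₀ c0] at hr
      have h1 := mul_le_mul_of_nonneg_left (hE k r) C0.le
      have h2 := mul_le_mul_of_nonneg_right hr.le (l0 (k + r)).le
      nlinarith
    · refine (mul_le_mul_of_nonneg_left (hp k) (by positivity)).trans ?_
      rw [mul_sum]
      exact sum_le_sum fun i _ => hmr k r i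
  have p0 := lt_min h12.1 h12.2
  have lr := l0 r
  obtain ⟨B, hB⟩ := he (min (ρ ^ r * (δ / 4) * (c / (2 * C * U)) ^ 2 / 128)
    (min ((P 1).coeff 1) ((P 1).coeff 2) * (1 / (2 * C * l r)) ^ 2 / 8)) (by positivity)
  refine ⟨|B| + 1, 1 / (2 * C) + 2 * l 1, by positivity, by have := l0 1; positivity,
    fun z hz hz1 => ?_⟩
  have e0 : 0 < ‖1 - z‖ := norm_pos_iff.2 (sub_ne_zero.2 hz1.symm)
  have hB' : ∀ n, B * ρ ^ n ≤ (|B| + 1) * ρ ^ n := fun n => by gcongr; linarith [le_abs_self B]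
  rcases le_or_gt (l (0 + r)) (1 / (2 * C * ‖1 - z‖)) with h | h
  · obtain ⟨k, k1, k2⟩ := cross (hlim.comp (tendsto_add_atTop_nat r)) h
    simp only [Function.comp] at k1 k2
    rw [le_div_iff₀ (by positivity)] at k1
    rw [div_lt_iff₀ (by positivity), add_right_comm] at k2
    refine ⟨k + r, ?_, fun n => (hB _ z hz ((hdrop k z hz (by linarith)).trans ?_) n).trans (hB' n)⟩
    · have : ‖1 - z‖ * l (k + r) ≤ 1 / (2 * C) := by rw [le_div_iff₀ (by positivity)]; linarith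
      linarith [l0 1]
    · have h1 : c / (2 * C * U) ≤ c * l (k + r) * ‖1 - z‖ := by
        rw [div_le_iff₀ (by positivity)]
        have h2 := mul_le_mul_of_nonneg_right (hU (k + r)) (show 0 ≤ 2 * C * ‖1 - z‖ by positivity)
        nlinarith
      refine sub_le_sub_left ((min_le_left _ _).trans ?_) _
      gcongr
  · refine ⟨1, ?_, fun n => (hB _ z hz ((drop12 (h0 1) (min_le_left _ _) (min_le_right _ _)
      hz).trans ?_) n).trans (hB' n)⟩
    · have h1 : ‖1 - z‖ ≤ 2 := (norm_sub_le _ _).trans (by rw [norm_one]; linarith)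
      have h2 : 0 < 1 / (2 * C) := by positivity
      nlinarith [l0 1]
    · have h1 : 1 / (2 * C * l r) ≤ ‖1 - z‖ := by
        rw [zero_add, div_lt_iff₀ (by positivity)] at h
        rw [div_le_iff₀ (by positivity)]
        linarith
      refine sub_le_sub_left ((min_le_right _ _).trans ?_) _
      gcongr

theorem inv_le_rpow {x K g : ℝ} (hx : 0 < x) (h : x ≤ K) (hg : 0 ≤ g) : 1 ≤ K ^ g * x ^ (-g) := by
  rw [rpow_neg hx.le, ← div_eq_mul_inv, one_le_div (by positivity)]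
  exact rpow_le_rpow hx.le h hg

/-- the pointwise exponent -/
theorem T6 {ρ Λ τ A D : ℝ} (hρ : 0 < ρ) (hΛ : 1 < Λ) (hΛρ : Λ * ρ < 1) (hτ : 0 < τ)
    {P : ℕ → ℝ[X]} {l a : ℕ → ℝ} (h0 : ∀ k i, 0 ≤ (P k).coeff i) (h00 : ∀ k, (P k).coeff 0 = 0)
    (h1 : ∀ k, τ ≤ (P k).eval 1 ∧ (P k).eval 1 ≤ A)
    (hd : ∀ k s, 0 ≤ s → s ≤ 1 → (1 - s) * l k - D * ((1 - s) * l k) ^ 2 ≤
      (P k).eval 1 - (P k).eval s ∧ (P k).eval 1 - (P k).eval s ≤ (1 - s) * l k)
    (hm : ∀ k i, ρ * (P k).coeff i ≤ (P (k + 1)).coeff i)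
    (he : ∀ c, 0 < c → ∃ B, ∀ k (z : ℂ), ‖z‖ ≤ 1 → ‖aeval z (P k)‖ ≤ (P k).eval 1 - c →
      ∀ n, ‖aeval z (P (k + n))‖ ≤ B * ρ ^ n)
    (hu : ∀ b, Λ < b → ∃ E, ∀ k n, l (k + n) ≤ E * b ^ n * l k)
    (hl : ∀ b, 0 < b → b < Λ → ∃ E, ∀ k n, b ^ n * l k ≤ E * l (k + n))
    (h12 : 0 < (P 1).coeff 1 ∧ 0 < (P 1).coeff 2)
    (ha : ∀ m, Tendsto (fun k => (P k).coeff (m + 1) / ρ ^ k) atTop (𝓝 (a m)))
    (hj : ∀ r, 1 ≤ r → ∃ c, 0 < c ∧ ∀ k m, c * ((P k) ^ r).coeff (m + 1) ≤ ρ ^ k * a m) :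
    Tendsto (fun m : ℕ => log (a m) / log m) atTop (𝓝 (-log ρ / log Λ - 1)) := by
  have ρ1 : ρ < 1 := by nlinarith
  have hτl : ∀ k, τ ≤ l k := fun k => by
    have := (hd k 0 le_rfl zero_le_one).2
    rw [← coeff_zero_eq_eval_zero, h00] at this
    linarith [(h1 k).1]
  have l0 : ∀ k, 0 < l k := fun k => hτ.trans_le (hτl k)
  have hA0 : 0 < A := hτ.trans_le ((h1 0).1.trans (h1 0).2)
  have pu : ∀ {E b : ℝ}, (∀ k n, l (k + n) ≤ E * b ^ n * l k) → 0 < E := fun h =>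
    (mul_pos_iff_of_pos_right (l0 0)).1 ((l0 0).trans_le (by simpa using h 0 0))
  have pl : ∀ {E b : ℝ}, (∀ k n, b ^ n * l k ≤ E * l (k + n)) → 0 < E := fun h =>
    (mul_pos_iff_of_pos_right (l0 0)).1 ((l0 0).trans_le (by simpa using h 0 0))
  obtain ⟨b0, b1, b2⟩ := exists_between hΛ
  obtain ⟨E0, hE0⟩ := hl b0 (one_pos.trans b1) b2
  have E00 := pl hE0
  obtain ⟨U, hU⟩ : ∃ U, ∀ k, l (k + 1) ≤ U * l k := by
    obtain ⟨E, hE⟩ := hu (Λ + 1) (lt_add_one Λ)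
    exact ⟨_, fun k => hE k 1⟩
  have U0 : 0 < U := (mul_pos_iff_of_pos_right (l0 0)).1 ((l0 1).trans_le (hU 0))
  have hlim : Tendsto l atTop atTop := by
    refine tendsto_atTop_mono (fun n => ?_)
      (((tendsto_pow_atTop_atTop_of_one_lt b1).atTop_mul_const (l0 0)).atTop_div_const E00)
    rw [div_le_iff₀' E00]
    simpa using hE0 0 n
  obtain ⟨⟨C1, p, C10, p0, hS⟩, B, C, B0, C0, hdec⟩ := decay hρ ρ1.le hτ b1 h0
    (fun k => (h1 k).2) hA0 hτl hd hm he hU hE0 hlim h12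
  have hPA : ∀ k (z : ℂ), ‖z‖ ≤ 1 → ‖aeval z (P k)‖ ≤ A := fun k z hz =>
    (norm_le_eval (h0 k) hz).trans (h1 k).2
  have LΛ := log_pos hΛ
  have Lρ : 0 < -log ρ := neg_pos.2 (log_neg hρ ρ1)
  have γ1 : 1 < -log ρ / log Λ := by
    rw [one_lt_div LΛ, lt_neg_iff_add_neg, ← log_mul (by positivity) hρ.ne']
    exact log_neg (by positivity) hΛρ
  generalize hγ : -log ρ / log Λ = γ at γ1
  have eΛ : Λ = exp (-log ρ / γ) := by
    rw [← hγ, div_div_cancel₀ Lρ.ne', exp_log (by positivity)]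
  have up : ∀ g, γ < g → ∃ K, ∀ m : ℕ, 1 ≤ m → a m ≤ K * (m : ℝ) ^ (g - 1) := fun g hg => by
    have g0 : 0 < g := by linarith
    obtain ⟨E, hE⟩ := hl (exp (-log ρ / g)) (exp_pos _) (by
      rw [eΛ]; exact exp_lt_exp.2 (div_lt_div_of_pos_left Lρ (by linarith) hg))
    have E0 := pl hE
    obtain ⟨K, K0, hK⟩ := T1 (g := g) (C := (A + B) * (E * C / τ) ^ g) (by linarith) (by positivity)
    refine ⟨K * 2 ^ (g - 1), fun m hm1 => le_of_tendsto' (ha m) fun k => ?_⟩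
    have h2 := hK (Polynomial.C (ρ ^ k)⁻¹ * P k) (fun z hz => by
      have hz1 : z ≠ 1 := fun e => by simp [e] at hz
      have e0 : 0 < ‖1 - z‖ := norm_pos_iff.2 (sub_ne_zero.2 hz1.symm)
      obtain ⟨j, j1, j2⟩ := hdec z hz.le hz1
      have h3 : (ρ ^ k)⁻¹ * ‖aeval z (P k)‖ ≤ (A + B) * (ρ ^ j)⁻¹ := by
        rcases le_total j k with h | h
        · obtain ⟨n, rfl⟩ := Nat.exists_eq_add_of_le h
          calc _ ≤ (ρ ^ (j + n))⁻¹ * (B * ρ ^ n) := by gcongr; exact j2 n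
            _ = B * (ρ ^ j)⁻¹ := by rw [pow_add]; field_simp
            _ ≤ _ := by gcongr; linarith
        · rw [mul_comm]
          exact mul_le_mul ((hPA k z hz.le).trans (by linarith))
            (inv_anti₀ (by positivity) (pow_le_pow_of_le_one hρ.le ρ1.le h)) (by positivity)
            (by positivity)
      have h4 : exp (-log ρ / g) ^ j ≤ E * C / τ * ‖1 - z‖⁻¹ := by
        rw [← div_eq_mul_inv, div_div, le_div_iff₀ (by positivity)]
        have h5 := hE 0 j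
        rw [zero_add] at h5
        calc _ = exp (-log ρ / g) ^ j * τ * ‖1 - z‖ := by ring
          _ ≤ exp (-log ρ / g) ^ j * l 0 * ‖1 - z‖ := by gcongr; exact hτl 0
          _ ≤ E * l j * ‖1 - z‖ := by gcongr
          _ = E * (‖1 - z‖ * l j) := by ring
          _ ≤ _ := by gcongr
      have h6 := rpow_le_rpow (by positivity) h4 g0.le
      rw [pw hρ g0.ne', mul_rpow (by positivity) (by positivity), inv_rpow e0.le,
        ← rpow_neg e0.le] at h6
      rw [map_mul, aeval_C, norm_mul, norm_algebraMap', norm_eq_abs, abs_of_pos (by positivity),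
        mul_assoc]
      exact h3.trans (by gcongr)) (m + 1) (by omega)
    have hm' : (1 : ℝ) ≤ m := by exact_mod_cast hm1
    rw [coeff_C_mul, ← div_eq_inv_mul] at h2
    refine ((le_abs_self _).trans h2).trans ?_
    rw [mul_assoc, ← mul_rpow (by norm_num) (by positivity)]
    push_cast
    gcongr <;> linarith
  have lo : ∀ g, 0 < g → g < γ → ∃ c, 0 < c ∧ ∀ᶠ m : ℕ in atTop, c * (m : ℝ) ^ (g - 1) ≤ a m := by
    intro g g0 hg
    obtain ⟨g2, g1, g3⟩ := exists_between γ1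
    obtain ⟨E, hE⟩ := hu (exp (-log ρ / g)) (by
      rw [eΛ]; exact exp_lt_exp.2 (div_lt_div_of_pos_left Lρ g0 hg))
    obtain ⟨E2, hE2⟩ := hu (exp (-log ρ / g2)) (by
      rw [eΛ]; exact exp_lt_exp.2 (div_lt_div_of_pos_left Lρ (by linarith) g3))
    have E1 := pu hE
    have E20 := pu hE2
    have t1 : 0 ≤ A * (E0 * C) ^ g2 := by positivity
    have t2 : 0 ≤ B * (E2 * C) ^ g2 := by positivity
    obtain ⟨C2, c, L, R, C20, c0, hT⟩ := T2 (g := g2)
      (A := A + A * (E0 * C) ^ g2 + B * (E2 * C) ^ g2) g1 C10 p0 U0.le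
    obtain ⟨c', c'0, hc'⟩ : ∃ c', 0 < c' ∧ ∀ r, 1 ≤ r → r ≤ R → ∀ k m,
        0 ≤ ((P k) ^ r).coeff (m + 1) → c' * ((P k) ^ r).coeff (m + 1) ≤ ρ ^ k * a m := by
      clear hT
      induction R with
      | zero => exact ⟨1, one_pos, fun r _ _ => by omega⟩
      | succ R ih =>
        obtain ⟨x, x0, hx⟩ := ih
        obtain ⟨y, y0, hy⟩ := hj (R + 1) (by omega)
        refine ⟨min x y, lt_min x0 y0, fun r r1 r2 k m h => ?_⟩
        rcases Nat.lt_or_eq_of_le r2 with r3 | rfl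
        · exact (mul_le_mul_of_nonneg_right (min_le_left _ _) h).trans (hx r r1 (by omega) k m h)
        · exact (mul_le_mul_of_nonneg_right (min_le_right _ _) h).trans (hy k m)
    have l00 := l0 0
    refine ⟨c' * c * C2 / 2 * (U * C2 * E * l 0)⁻¹ ^ g, by positivity, ?_⟩
    filter_upwards [eventually_ge_atTop 1,
      tendsto_natCast_atTop_atTop.eventually_ge_atTop (C2 * l 0),
      tendsto_natCast_atTop_atTop.eventually_ge_atTop (U * C2 * L)] with m m1 m2 m3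
    have hm' : (1 : ℝ) ≤ m := by exact_mod_cast m1
    obtain ⟨k, k1, k2⟩ := cross (hlim.const_mul_atTop C20) (y := (m : ℝ) + 1) (by linarith)
    have lk := l0 k
    have k3 : (m : ℝ) + 1 ≤ U * C2 * l k := by
      have := mul_le_mul_of_nonneg_left (hU k) C20.le
      linarith
    obtain ⟨S, S1, S2⟩ := hS k
    obtain ⟨r, r1, r2, hr⟩ := hT (l k) (P k) S
      (le_of_mul_le_mul_left (by linarith) (mul_pos U0 C20)) (h0 k) (by linarith [(h1 k).2]) S1 S2
      (fun z hz hz1 => by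
        have e0 : 0 < ‖1 - z‖ := norm_pos_iff.2 (sub_ne_zero.2 hz1.symm)
        obtain ⟨j, j1, j2⟩ := hdec z hz.le hz1
        have t3 : 0 ≤ (‖1 - z‖ * l k) ^ (-g2) := by positivity
        rcases le_total j k with h | h
        · obtain ⟨n, rfl⟩ := Nat.exists_eq_add_of_le h
          have h3 : ‖1 - z‖ * l (j + n) ≤ E2 * C * exp (-log ρ / g2) ^ n :=
            calc _ ≤ ‖1 - z‖ * (E2 * exp (-log ρ / g2) ^ n * l j) := by gcongr; exact hE2 j n
              _ = E2 * (‖1 - z‖ * l j) * exp (-log ρ / g2) ^ n := by ring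
              _ ≤ _ := by gcongr
          have h4 := inv_le_rpow (by positivity) h3 (by linarith : 0 ≤ g2)
          rw [mul_rpow (by positivity) (by positivity), pw hρ (by linarith), mul_right_comm,
            ← div_eq_mul_inv, one_le_div (by positivity)] at h4
          have h5 := mul_le_mul_of_nonneg_left h4 B0.le
          nlinarith [j2 n, mul_nonneg t1 t3, mul_nonneg hA0.le t3]
        · obtain ⟨n, rfl⟩ := Nat.exists_eq_add_of_le h
          have h3 : ‖1 - z‖ * l k ≤ E0 * C :=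
            calc _ ≤ ‖1 - z‖ * (b0 ^ n * l k) := by
                  gcongr; exact le_mul_of_one_le_left lk.le (one_le_pow₀ b1.le)
              _ ≤ ‖1 - z‖ * (E0 * l (k + n)) := mul_le_mul_of_nonneg_left (hE0 k n) e0.le
              _ = E0 * (‖1 - z‖ * l (k + n)) := by ring
              _ ≤ _ := by gcongr
          have h5 := mul_le_mul_of_nonneg_left
            (inv_le_rpow (by positivity) h3 (by linarith : 0 ≤ g2)) hA0.le
          nlinarith [hPA k z hz.le, mul_nonneg t2 t3, mul_nonneg hA0.le t3])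
      (m + 1) (by push_cast; exact k1) (by push_cast; exact k3)
    have h2 := (mul_le_mul_of_nonneg_left hr c'0.le).trans
      (hc' r r1 r2 k m (le_trans (by positivity) hr))
    have h3 : (U * C2 * E * l 0)⁻¹ * m ≤ exp (-log ρ / g) ^ k := by
      rw [inv_mul_le_iff₀ (by positivity)]
      have h4 := mul_le_mul_of_nonneg_left (hE 0 k) (mul_pos U0 C20).le
      rw [zero_add] at h4
      linarith
    have h4 := rpow_le_rpow (by positivity) h3 g0.le
    rw [pw hρ g0.ne', mul_rpow (by positivity) (by positivity)] at h4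
    have h5 : C2 / 2 * (m : ℝ)⁻¹ ≤ (l k)⁻¹ := by
      rw [← div_eq_mul_inv, div_div, ← one_div, div_le_div_iff₀ (by positivity) lk]
      linarith
    calc _ = c' * c * (C2 / 2 * (m : ℝ)⁻¹) * ((U * C2 * E * l 0)⁻¹ ^ g * (m : ℝ) ^ g) := by
          rw [rpow_sub_one (by positivity)]; ring
      _ ≤ c' * c * (l k)⁻¹ * (ρ ^ k)⁻¹ := by gcongr
      _ = (ρ ^ k)⁻¹ * (c' * (c / l k)) := by ring
      _ ≤ _ := (inv_mul_le_iff₀ (by positivity)).2 h2
  refine log_div_tendsto tendsto_natCast_atTop_atTop fun ε hε => ?_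
  obtain ⟨K, hK⟩ := up (γ + ε) (by linarith)
  obtain ⟨c, c0, hc⟩ := lo (γ - min ε 1) (by linarith [min_le_right ε 1])
    (by linarith [lt_min hε one_pos])
  refine ⟨c, K, c0, ?_⟩
  filter_upwards [hc, eventually_ge_atTop 1] with m h2 h3
  have hm' : (1 : ℝ) ≤ m := by exact_mod_cast h3
  refine ⟨le_trans ?_ h2, (hK m h3).trans (le_of_eq (by congr 2; ring))⟩
  exact mul_le_mul_of_nonneg_left
    (rpow_le_rpow_of_exponent_le hm' (by linarith [min_le_left ε 1])) c0.le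

end Pool.Agent.Lib.LRS.T33
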