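import Pool.Agent.Lib.LRS.Ultra5
import Pool.Agent.Lib.LRS.Canon

/-! Links between generating polynomials and sums over walks. -/

namespace Pool.Agent.Lib.LRS

open scoped ENNReal
open ENNReal (ofReal)
open Filter Topology Polynomial

variable {Γ : Type} [AddCommGroup Γ] {N : Γ → ℝ} {K : Γ → ℝ≥0∞} {D α c C : ℝ}

theorem W_tendsto33 {Ks : ℕ → Γ → ℝ≥0∞} (hfin : ∀ s, s ≠ 0 → K s ≠ ⊤)
    (h : ∀ s, s ≠ 0 → Tendsto (fun k => Ks k s) atTop (𝓝 (K s))) (l : List Γ) :
    Tendsto (fun k => W (Ks k) l) atTop (𝓝 (W K l)) := by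
  by_cases hl : SA l
  · simp only [W_of_SA _ hl]
    have h0 : ∀ s ∈ l, s ≠ 0 := fun s hs => hl.ne_zero hs
    clear hl
    suffices (l.map K).prod ≠ ⊤ ∧
      Tendsto (fun k => (l.map (Ks k)).prod) atTop (𝓝 (l.map K).prod) from this.2
    induction l with
    | nil => simp
    | cons s l ih =>
      obtain ⟨h1, h2⟩ := ih fun t ht => h0 t (by simp [ht])
      have h3 := h0 s (by simp)
      simp only [List.map_cons, List.prod_cons]
      exact ⟨ENNReal.mul_ne_top (hfin s h3) h1,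
        ENNReal.Tendsto.mul (h s h3) (Or.inr h1) h2 (Or.inr (hfin s h3))⟩
  · simp [W, ind_neg hl]

theorem aa_tendsto {Ks : ℕ → Γ → ℝ≥0∞} (hle : ∀ k s, Ks k s ≤ K s) (hfin : ∀ s, s ≠ 0 → K s ≠ ⊤)
    (h : ∀ s, s ≠ 0 → Tendsto (fun k => Ks k s) atTop (𝓝 (K s))) (n : ℕ) :
    Tendsto (fun k => aa (Ks k) n) atTop (𝓝 (aa K n)) := by
  refine tendsto_order.2 ⟨fun x hx => ?_, fun x hx => Eventually.of_forall fun k =>
    lt_of_le_of_lt (ENNReal.tsum_le_tsum fun l => mul_le_mul' (W_mono fun s _ => hle k s) le_rfl) hx⟩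
  rw [aa, ENNReal.tsum_eq_iSup_sum, lt_iSup_iff] at hx
  obtain ⟨S, hS⟩ := hx
  have h1 := tendsto_finsetSum S fun l _ => ENNReal.Tendsto.mul_const (b := ind (l.length = n))
    (W_tendsto33 hfin h l) (Or.inr (ne_top_of_le_ne_top ENNReal.one_ne_top (ind_le_one _)))
  exact (h1.eventually_const_lt hS).mono fun k hk => hk.trans_le (ENNReal.sum_le_tsum S)

theorem bb_mono33 (K : Γ → ℝ≥0∞) (N : Γ → ℝ) {R R' : ℝ} (h : R ≤ R') (n : ℕ) :
    bb K N R n ≤ bb K N R' n :=
  ENNReal.tsum_le_tsum fun _ => mul_le_mul' (mul_le_mul' le_rfl (ind_mono fun hl => hl.mono h)) le_rfl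

theorem bb_join33 (hN : Sub N) (K : Γ → ℝ≥0∞) {R L : ℝ} {X : ℝ≥0∞} (hR : 0 ≤ R) (hL : 0 ≤ L)
    (hX : X ≤ ∑' s, K s * ind (3 * R < N s ∧ N s ≤ L * R)) (n : ℕ) :
    (∑ i ∈ Finset.range n, bb K N R i * bb K N R (n - 1 - i)) * X ≤ bb K N ((L + 2) * R) n := by
  have h := join_ge K hN hR (fun a b => (∑ i ∈ Finset.range n,
    ind (a.length = i) * ind (b.length = n - 1 - i)) * X)
    (fun l => ind (In N ((L + 2) * R) l) * ind (l.length = n)) fun a b ha hb hw => by
      obtain ⟨i, hi, h1⟩ := Finset.exists_ne_zero_of_sum_ne_zero (left_ne_zero_of_mul hw)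
      have h2 : a.length = i := of_ind_ne (left_ne_zero_of_mul h1)
      have h3 : b.length = n - 1 - i := of_ind_ne (right_ne_zero_of_mul h1)
      have h4 := Finset.mem_range.1 hi
      rw [Finset.sum_eq_single i (fun j _ hj => by
        rw [ind_neg (h2 ▸ hj.symm), zero_mul]) fun h => absurd hi h, ind_pos h2, ind_pos h3,
        one_mul, one_mul]
      refine hX.trans (ENNReal.tsum_le_tsum fun s => ?_)
      by_cases hs : 3 * R < N s ∧ N s ≤ L * R
      · have h5 := ann_le hN ha hs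
        rw [ind_pos hs, ind_pos h5.1, ind_pos (show (a ++ s :: b).length = n by
          simp only [List.length_append, List.length_cons]; omega),
          ind_pos (In_join hN ha hb (by linarith [h5.2]) (by nlinarith)), one_mul, mul_one, mul_one]
      · simp [ind_neg hs]
  refine le_trans (le_of_eq ?_) (h.trans (le_of_eq ?_))
  · simp only [Finset.sum_mul, Finset.mul_sum]
    simp only [Summable.tsum_finsetSum fun _ _ => ENNReal.summable]
    refine Finset.sum_congr rfl fun i _ => ?_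
    simp only [bb, ← ENNReal.tsum_mul_left, ← ENNReal.tsum_mul_right]
    rw [ENNReal.tsum_comm]
    exact tsum_congr fun a => tsum_congr fun b => by ring
  · simp only [bb, mul_assoc]

theorem join_pow (h : Ker N K D α c C) (r : ℕ) : ∃ c' : ℝ, 0 < c' ∧ ∀ R : ℝ, 1 ≤ R →
    ∀ Q : ℝ[X], (∀ i, 0 ≤ Q.coeff i) → (∀ n, ofReal (Q.coeff n) ≤ bb K N R n) → ∀ m,
      c' * (R ^ (-α)) ^ r * ((X * Q) ^ (r + 1)).coeff (m + 1) ≤ (aa K m).toReal := by
  obtain ⟨L, κ, hL, hκ, hX⟩ := h.annulus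
  have key : ∃ c' T : ℝ, 0 < c' ∧ 1 ≤ T ∧ ∀ R : ℝ, 1 ≤ R →
      ∀ Q : ℝ[X], (∀ i, 0 ≤ Q.coeff i) → (∀ n, ofReal (Q.coeff n) ≤ bb K N R n) → ∀ m,
        ofReal (c' * (R ^ (-α)) ^ r * (X ^ r * Q ^ (r + 1)).coeff m) ≤ bb K N (T * R) m := by
    induction r with
    | zero => exact ⟨1, 1, one_pos, le_rfl, fun R _ Q _ hQ m => by simpa using hQ m⟩
    | succ r ih =>
      obtain ⟨c', T, hc, hT, ih⟩ := ih
      refine ⟨c' * (κ * T ^ (-α)), (L + 2) * T, by positivity, by nlinarith,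
        fun R hR Q h0 hQ m => ?_⟩
      rw [show X ^ (r + 1) * Q ^ (r + 1 + 1) = X * (X ^ r * Q ^ (r + 1) * Q) by ring]
      rcases m with _ | m
      · simp
      have hTR : 1 ≤ T * R := one_le_mul_of_one_le_of_one_le hT hR
      rw [mul_assoc (L + 2)]
      refine le_trans ?_ (bb_join33 h.toSub K (zero_le_one.trans hTR) (by linarith) (hX _ hTR) _)
      rw [coeff_X_mul, coeff_mul, Finset.Nat.sum_antidiagonal_eq_sum_range_succ_mk,
        Finset.mul_sum, Finset.sum_mul]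
      refine (Finset.le_sum_of_subadditive ofReal (by simp) (fun _ _ => ENNReal.ofReal_add_le)
        _ _).trans (Finset.sum_le_sum fun i _ => ?_)
      refine le_trans (le_of_eq ?_) (mul_le_mul' (mul_le_mul' (ih R hR Q h0 hQ i)
        ((hQ (m - i)).trans (bb_mono33 K N (le_mul_of_one_le_left (by linarith) hT) _))) le_rfl)
      rw [← ENNReal.ofReal_mul' (h0 _), ← ENNReal.ofReal_mul' (by positivity),
        Real.mul_rpow (by linarith) (by linarith)]
      congr 1
      ring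
  obtain ⟨c', T, hc, -, key⟩ := key
  refine ⟨c', hc, fun R hR Q h0 hQ m => ?_⟩
  rw [show (X * Q) ^ (r + 1) = X * (X ^ r * Q ^ (r + 1)) by ring, coeff_X_mul]
  exact (ENNReal.ofReal_le_iff_le_toReal (h.aa_ne_top m)).1 ((key R hR Q h0 hQ m).trans (bb_le _ _ _ _))

theorem eval_le_mm_QQ (hN : UL N) {R : ℝ} (hR : 0 ≤ R) {Q : ℝ[X]} (hQ0 : ∀ i, 0 ≤ Q.coeff i)
    (hQ : ∀ n, ofReal (Q.coeff n) ≤ bb K N R n) :
    ofReal (Q.eval 1) ≤ mm K N R ∧ ofReal ((X * Q).derivative.eval 1) ≤ QQ K N R := by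
  constructor
  · rw [eval_eq_sum_range, ENNReal.ofReal_sum_of_nonneg fun i _ => by simpa using hQ0 i, mm,
      tsum_len]
    exact (Finset.sum_le_sum fun i _ => by rw [one_pow, mul_one]; exact hQ i).trans (ENNReal.sum_le_tsum _)
  · have h1 : ∑' l, Ws K N R l * (l.length + 1 : ℕ) ≤ QQ K N R := by
      simp only [← tsum_ind_lt, tsum_dep]
      refine tsum_ge_of_inj _ _ (fun p => (p.1, p.1.take p.2)) ?_ fun p _ => ?_
      · rintro ⟨l, i⟩ ⟨l', j⟩ h h' e
        have h2 : i < l.length + 1 := of_ind_ne (right_ne_zero_of_mul h)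
        have h3 : j < l'.length + 1 := of_ind_ne (right_ne_zero_of_mul h')
        simp only [Prod.mk.injEq] at e
        obtain ⟨rfl, e⟩ := e
        have := congrArg List.length e
        rw [List.length_take, List.length_take] at this
        rw [show i = j by omega]
      · exact mul_le_mul' le_rfl (ind_mono fun _ => List.take_prefix _ _)
    refine le_trans ?_ h1
    simp only [eval_eq_sum_range, one_pow, mul_one, coeff_derivative, coeff_X_mul]
    rw [ENNReal.ofReal_sum_of_nonneg fun i _ => mul_nonneg (hQ0 i) (by positivity), tsum_len]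
    refine (Finset.sum_le_sum fun i _ => ?_).trans (ENNReal.sum_le_tsum _)
    rw [ENNReal.ofReal_mul (hQ0 i), ← Nat.cast_succ, ENNReal.ofReal_natCast]
    refine (mul_le_mul' (hQ i) le_rfl).trans (le_of_eq ?_)
    rw [bb, ← ENNReal.tsum_mul_right]
    refine tsum_congr fun l => ?_
    by_cases hl : l.length = i
    · rw [Ws, in_iff_short hN hR, hl, mul_right_comm]
    · simp [ind_neg hl]

theorem le_derivative_eval (P : ℝ[X]) (a : ℝ)
    (h : ∀ s, 1 < s → (s - 1) * a ≤ P.eval s - P.eval 1) : a ≤ P.derivative.eval 1 := by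
  refine ge_of_tendsto ((P.hasDerivAt 1).tendsto_slope.mono_left (nhdsGT_le_nhdsNE 1)) ?_
  filter_upwards [self_mem_nhdsWithin] with s hs
  rw [slope_def_field, le_div_iff₀' (sub_pos.2 hs)]
  exact h s hs

end Pool.Agent.Lib.LRS
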