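import Pool.Agent.Lib.LRS.Ultra6
import Pool.Agent.Lib.LRS.Lattice

/-! The exponent `γ` is `1` exactly at and above the upper critical dimension. -/

namespace Pool.Agent.Lib.LRS

open scoped ENNReal
open ENNReal (ofReal)
open Filter Topology

theorem exp_le {p q a b : ℝ} (ha : 0 < a)
    (h : ∀ᶠ n : ℕ in atTop, a * (n : ℝ) ^ p ≤ b * (n : ℝ) ^ q) : p ≤ q := by
  by_contra hc
  obtain ⟨n, h1, h2, h3⟩ := (h.and ((((tendsto_rpow_atTop (sub_pos.2 (not_le.1 hc))).comp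
    tendsto_natCast_atTop_atTop).eventually_gt_atTop (b / a)).and (eventually_gt_atTop 0))).exists
  have hn : (0 : ℝ) < n := by exact_mod_cast h3
  rw [Function.comp, Real.rpow_sub hn, div_lt_div_iff₀ ha (by positivity)] at h2
  linarith

theorem gamma_bounds {A : ℕ → ℝ} {θ : ℝ} (hA : ∀ n, 1 ≤ A n)
    (h : Tendsto (fun n : ℕ => Real.log (A n) / Real.log n) atTop (𝓝 θ)) {p q a b : ℝ}
    (ha : 0 < a) (h1 : ∀ n : ℕ, a * (n : ℝ) ^ p ≤ ∑ k ∈ Finset.range n, A k ∧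
      ∑ k ∈ Finset.range n, A k ≤ b * (n : ℝ) ^ q) : p ≤ θ + 1 ∧ θ + 1 ≤ q := by
  obtain ⟨-, h2⟩ := unif_of_tendsto hA h
  refine ⟨le_of_forall_pos_le_add fun ε hε => ?_, le_of_forall_pos_le_add fun ε hε => ?_⟩ <;>
    obtain ⟨c, C, hc, hC, h3⟩ := h2 ε hε
  · refine exp_le (b := C) ha ?_
    filter_upwards [h3, eventually_gt_atTop 0] with n hn h0
    have h4 := Finset.sum_le_card_nsmul (Finset.range n) A _ fun k hk =>
      (hn k (Finset.mem_range.1 hk).le).1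
    rw [Finset.card_range, nsmul_eq_mul] at h4
    rw [add_right_comm, Real.rpow_add_one (by positivity)]
    linarith [(h1 n).1]
  · rw [← sub_le_iff_le_add]
    refine exp_le (a := c / 2) (b := b) (by positivity) ?_
    filter_upwards [h3, eventually_gt_atTop 1] with n hn h0
    have h4 := Finset.card_nsmul_le_sum (Finset.Ico (n / 2) n) A _ fun k hk => by
      have := Finset.mem_Ico.1 hk
      exact (hn k this.2.le).2 (by omega)
    rw [Nat.card_Ico, nsmul_eq_mul] at h4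
    have h5 : (n : ℝ) ≤ 2 * (n - n / 2 : ℕ) := by exact_mod_cast (by omega)
    refine le_trans ?_ ((h4.trans (Finset.sum_le_sum_of_subset_of_nonneg (fun k hk =>
      Finset.mem_range.2 (Finset.mem_Ico.1 hk).2) fun k _ _ => zero_le_one.trans (hA k))).trans
        (h1 n).2)
    rw [add_sub_right_comm, Real.rpow_add_one (by positivity)]
    nlinarith [mul_pos hc (Real.rpow_pos_of_pos (by positivity : (0 : ℝ) < n) (θ - ε))]

theorem gamma_one {A : ℕ → ℝ} (hA : ∀ n, 1 ≤ A n) (hs : ∀ n m, A (n + m) ≤ A n * A m)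
    (h : ∀ ε : ℝ, 0 < ε → ∃ b : ℝ, ∀ n : ℕ, ∑ k ∈ Finset.range n, A k ≤ b * (n : ℝ) ^ (1 + ε)) :
    Tendsto (fun n : ℕ => Real.log (A n) / Real.log n) atTop (𝓝 0) := by
  refine log_div_tendsto tendsto_natCast_atTop_atTop fun ε hε => ?_
  obtain ⟨b, hb⟩ := h (ε / 2) (by positivity)
  refine ⟨1, b ^ 2 * 2 ^ ε, one_pos, ?_⟩
  filter_upwards [eventually_ge_atTop 1] with n hn
  have hn1 : (1 : ℝ) ≤ n := by exact_mod_cast hn
  have h0 : ∀ n, 0 ≤ A n := fun n => zero_le_one.trans (hA n)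
  refine ⟨by rw [one_mul]; exact (Real.rpow_le_one_of_one_le_of_nonpos hn1 (by linarith)).trans (hA n),
    ?_⟩
  have h3 : ∀ k ∈ Finset.range (n + 1), 2 * √(A n) ≤ A k + A (n + 1 - 1 - k) := by
    intro k hk
    have h4 := hs k (n + 1 - 1 - k)
    rw [show k + (n + 1 - 1 - k) = n by have := Finset.mem_range.1 hk; omega] at h4
    refine abs_le_of_sq_le_sq' ?_ (add_nonneg (h0 _) (h0 _)) |>.2
    rw [mul_pow, Real.sq_sqrt (h0 n)]
    nlinarith [sq_nonneg (A k - A (n + 1 - 1 - k))]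
  have h4 := Finset.card_nsmul_le_sum _ _ _ h3
  have h5 := hb (n + 1)
  rw [Finset.sum_add_distrib, Finset.sum_range_reflect A, Finset.card_range, nsmul_eq_mul] at h4
  have h6 : (0 : ℝ) < (n + 1 : ℕ) := by positivity
  rw [Real.rpow_add h6, Real.rpow_one] at h5
  have h7 : √(A n) ≤ b * ((n + 1 : ℕ) : ℝ) ^ (ε / 2) := le_of_mul_le_mul_left (by linarith) h6
  refine ((Real.sqrt_le_left ((Real.sqrt_nonneg _).trans h7)).1 h7).trans ?_
  rw [mul_pow, ← Real.rpow_natCast (_ ^ _), ← Real.rpow_mul h6.le, zero_add, mul_assoc,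
    ← Real.mul_rpow zero_le_two (by positivity), show ε / 2 * (2 : ℕ) = ε by simp]
  refine mul_le_mul_of_nonneg_left (Real.rpow_le_rpow h6.le ?_ hε.le) (sq_nonneg b)
  push_cast
  linarith

variable {Γ : Type} [AddCommGroup Γ] {N J : Γ → ℝ} {D α c C : ℝ}

/-- the growth of `c_n / μ ^ n` -/
def Concl2 (J : Γ → ℝ) (μ D α : ℝ) : Prop := (∀ n, 1 ≤ cnt J n / μ ^ n) ∧
  (2 * α ≤ D → Tendsto (fun n : ℕ => Real.log (cnt J n / μ ^ n) / Real.log n) atTop (𝓝 0)) ∧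
  (D < 2 * α → ∃ δ a A : ℝ, 0 < δ ∧ 0 < a ∧ ∀ n : ℕ,
    a * (n : ℝ) ^ (1 + δ) ≤ ∑ k ∈ Finset.range n, cnt J k / μ ^ k ∧
      ∑ k ∈ Finset.range n, cnt J k / μ ^ k ≤ A * (n : ℝ) ^ (α / (D - α)))

theorem Geo.concl2 (h : Geo N D c C) (hN : UL N) (hJ : PowerLaw N J (D + α)) (h0 : 0 < α)
    (h1 : α < 1) (hD : α < D) {μ : ℝ}
    (hm : Tendsto (fun n : ℕ => cnt J n ^ (1 / (n : ℝ))) atTop (𝓝 μ)) : Concl2 J μ D α := by
  have hJ0 := hJ.nonneg h
  obtain ⟨c₀, C₀, hK₀⟩ := h.ker hJ h0 h1 hD one_pos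
  simp only [ENNReal.ofReal_one, one_mul] at hK₀
  obtain ⟨μ', hμ, hlim, hc⟩ := exists_mu hK₀
  obtain rfl : μ = μ' := tendsto_nhds_unique hm (by simpa only [cnt_eq hJ0] using hlim)
  obtain ⟨c₁, C₁, hK⟩ := h.ker hJ h0 h1 hD (inv_pos.2 hμ)
  have ea : ∀ n, cnt J n / μ ^ n = (aa (fun s => ofReal μ⁻¹ * ofReal (J s)) n).toReal := fun n => by
    rw [aa_smul, ENNReal.toReal_mul, ENNReal.toReal_pow, ENNReal.toReal_ofReal (by positivity),
      inv_pow, div_eq_inv_mul, cnt_eq hJ0]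
  have ha1 : ∀ n, 1 ≤ (aa (fun s => ofReal μ⁻¹ * ofReal (J s)) n).toReal := fun n => by
    simpa using ENNReal.toReal_mono (hK.aa_ne_top n) (hc.one_le n)
  have hd := sub_pos.2 hD
  simp only [Concl2, ea]
  refine ⟨ha1, fun h2 => gamma_one ha1 (fun n m => ?_) fun ε hε => ?_, fun h2 => ?_⟩
  · rw [← ENNReal.toReal_mul]
    exact ENNReal.toReal_mono (ENNReal.mul_ne_top (hc.aa_ne_top _) (hc.aa_ne_top _))
      (aa_add_le _ n m)
  · obtain ⟨A, -, hA⟩ := aa_upper hK hc (u := ε * (D - α)) (by positivity)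
      (by linarith [mul_pos hε hd])
    exact ⟨A, by rwa [show (ε * (D - α) + (D - α)) / (D - α) = 1 + ε by field_simp; ring] at hA⟩
  · obtain ⟨A, -, hA⟩ := aa_upper hK hc (sub_pos.2 h2) le_rfl
    obtain ⟨δ, a, hδ, ha, h3⟩ := aa_lower hK hc hN h2
    rw [show 2 * α - D + (D - α) = α by ring] at hA
    exact ⟨δ, a, A, hδ, ha, fun n => ⟨h3 n, hA n⟩⟩

theorem Geo.concl2_ultra (h : Geo N D c C) (hu : ∀ x y, N (x + y) ≤ max (N x) (N y))
    (hJ : PowerLaw N J (D + α)) (h0 : 0 < α) (hD : α < D) {μ : ℝ}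
    (hm : Tendsto (fun n : ℕ => cnt J n ^ (1 / (n : ℝ))) atTop (𝓝 μ)) : Concl2 J μ D α := by
  have hκ : 0 < α + 1 := by positivity
  have e : ∀ x q, (N x ^ (α + 1)) ^ (q / (α + 1)) = N x ^ q := fun x q => by
    rw [← Real.rpow_mul (h.nonneg x), mul_div_cancel₀ _ hκ.ne']
  obtain ⟨h1, h2, h3⟩ := (h.rpow hu hκ).concl2 (J := J) (α := α / (α + 1))
    ⟨(h.rpow hu hκ).toSub, fun x y => by
      rw [← Real.rpow_max (h.nonneg x) (h.nonneg y) hκ.le]
      exact Real.rpow_le_rpow (h.nonneg _) (hu x y) hκ.le⟩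
    (by simpa only [PowerLaw, ← add_div, ← neg_div, e] using hJ) (by positivity)
    ((div_lt_one hκ).2 (lt_add_one α)) (by gcongr) hm
  refine ⟨h1, fun h4 => h2 (by rw [← mul_div_assoc]; gcongr), fun h4 => ?_⟩
  have := h3 (by rw [← mul_div_assoc]; gcongr)
  rwa [← sub_div, div_div_div_cancel_right₀ hκ.ne'] at this

end Pool.Agent.Lib.LRS
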