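import Pool.Agent.Lib.LRS.RG7
import Pool.Agent.Lib.LRS.RG9
import Pool.Agent.Lib.LRS.T33b
import Pool.Agent.Lib.LRS.T33c
import Pool.Agent.Lib.LRS.Ultra7

/-! Existence of the susceptibility exponent for the hierarchical walk. -/

namespace Pool.Agent.Lib.LRS

open Filter Topology Polynomial
open scoped ENNReal
open ENNReal (ofReal)

theorem Maj.iter {l : ℝ} {N : ℕ} {P : ℂ[X]} {Q : ℝ[X]} (hl : 0 ≤ l) (h : Maj P Q) (n : ℕ) :
    Maj ((LRS.step (l : ℂ) N)^[n] P) ((LRS.step l N)^[n] Q) := by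
  induction n with
  | zero => exact h
  | succ n ih =>
    rw [Function.iterate_succ_apply', Function.iterate_succ_apply']
    exact ih.step hl

theorem rg_main {l w A B θ : ℝ} {N : ℕ} (hp : Par l N) (hd : 1 < l * N ^ 2) (hw : 0 < w)
    {P : ℕ → ℝ[X]} {a : ℕ → ℝ} (h0 : ∀ k i, 0 ≤ (P k).coeff i) (h00 : ∀ k, (P k).coeff 0 = 0)
    (hR : ∀ k s, (P k).eval s = (UU l N (w * s) k).eval 0)
    (hC : ∀ k (ζ : ℂ), aeval ζ (P k) = (UU (l : ℂ) N (w * ζ) k).coeff 0)
    (hA : ∀ k, (P k).eval 1 ≤ A) (hc : ∀ B : ℝ, ∃ k, B * (l * N) ^ k < (P k).eval 1)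
    (hθ : 0 < θ) (hθ1 : θ * (l * N) < 1) (hQ : ∀ k, (P k).derivative.eval 1 ≤ B * θ ^ k)
    (hm : ∀ k i, l * N * (P k).coeff i ≤ (P (k + 1)).coeff i)
    (h12 : 0 < (P 1).coeff 1 ∧ 0 < (P 1).coeff 2)
    (ha : ∀ m, Tendsto (fun k => (P k).coeff (m + 1) / (l * N) ^ k) atTop (𝓝 (a m)))
    (hj : ∀ r, 1 ≤ r → ∃ c, 0 < c ∧ ∀ k m, c * ((P k) ^ r).coeff (m + 1) ≤ (l * N) ^ k * a m) :
    ∃ γ : ℝ, Tendsto (fun m : ℕ => Real.log (a m) / Real.log m) atTop (𝓝 (γ - 1)) := by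
  have hl := hp.l_pos
  have hρ := mul_pos hl hp.N_pos
  have e1 : ∀ k, (P k).eval 1 = (UU l N w k).eval 0 := fun k => by rw [hR, mul_one]
  have h1 : Crt l N w A := ⟨hp, hw, fun k => e1 k ▸ hA k, fun B => by simpa only [e1] using hc B⟩
  have h2 : ∀ k s, 0 ≤ s → (P k).eval 1 - (P k).eval s ≤
      (1 - s) * (w * gf l (fun k => dP N (UU l N w k)) 0 k) := fun k s hs => by
    have := conv_drop hp hw.le (mul_nonneg hw.le hs) k 0 le_rfl
    rw [eval_sub, eval_sub, TP_C, ← e1, ← hR] at this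
    linarith
  have h3 : ∀ k, gf l (fun k => dP N (UU l N w k)) 0 k ≤ B / w * θ ^ k := fun k => by
    rw [div_mul_eq_mul_div, le_div_iff₀' hw]
    exact (le_derivative_eval _ _ fun s hs => by linarith [h2 k s (by linarith)]).trans (hQ k)
  have h4 : Crs l N w A := ⟨h1, fun δ hδ => h1.small hd hθ hθ1 h3 hδ⟩
  obtain ⟨E, hE, h5⟩ := h4.mult'
  obtain ⟨D, h6⟩ := gf_sub hp hE h5
  obtain ⟨p, h7⟩ := h4.gf_big
  have h8 := fun {D} => h4.drop (D := D)
  have h9 := gf_conv hp hE h5 fun x hx => by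
    obtain ⟨b, hb⟩ := h1.conv hx
    exact ⟨_, by simpa only [dP_eval] using (((hb.const_mul x).const_add 1).pow _).const_mul _⟩
  have hg := gf_pos hp fun k => (h5 k).1
  have hs := gf_super hl.le fun k => (h5 k).1.of_sub
  obtain ⟨Λ, hΛ, hu, hlo⟩ := T33.T4 hρ hg hs h6 (fun p => h9 p 0 le_rfl)
    (gf_one hl.le fun k => (h5 k).1)
  set g := gf l fun k => dP N (UU l N w k)
  have hΛ1 : 1 < Λ := by
    by_contra hc
    have h10 : ContinuousAt (fun b : ℝ => b ^ p) 1 := by fun_prop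
    obtain ⟨b, h11, h12⟩ := (((h10.eventually_lt_const (by simp : (1 : ℝ) ^ p < 2)).filter_mono
      nhdsWithin_le_nhds).and (self_mem_nhdsWithin (s := Set.Ioi (1 : ℝ)))).exists
    have hb : (0 : ℝ) < b := one_pos.trans h12
    obtain ⟨F, hF⟩ := hu b ((not_lt.1 hc).trans_lt h12)
    obtain ⟨q, hq⟩ := grow (b := fun q => g 0 (q * p) / b ^ (q * p))
      ((one_lt_div (by positivity)).2 h11) (n := 0) (div_pos (hg _ _) (by positivity))
      (fun q _ => by
        rw [add_mul, one_mul, pow_add, div_mul_div_comm, mul_comm (b ^ p), mul_comm 2]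
        exact div_le_div_of_nonneg_right ((mul_le_mul_of_nonneg_left (h7 _) (hg _ _).le).trans
          (hs 0 _ p)) (by positivity)) F
    exact absurd ((lt_div_iff₀ (by positivity)).1 hq) (not_lt.2 (hF 0 _))
  have hΛθ : Λ ≤ θ := by
    by_contra hc
    obtain ⟨b, h10, h11⟩ := exists_between (not_le.1 hc)
    obtain ⟨F, hF⟩ := hlo b (hθ.trans h10) h11
    obtain ⟨n, hn⟩ := pow_unbounded_of_one_lt (|F| * (B / w)) ((one_lt_div hθ).2 h10)
    rw [div_pow, lt_div_iff₀ (by positivity), mul_assoc] at hn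
    exact absurd ((hF 0 n).trans (mul_le_mul (le_abs_self F) (h3 n) (hg 0 n).le (abs_nonneg F)))
      (not_le.2 hn)
  obtain ⟨b, hb1, hb2⟩ := exists_between hΛ1
  obtain ⟨F, hF⟩ := hlo b (one_pos.trans hb1) hb2
  obtain ⟨G, hG⟩ := h8 (D := |F| / (b - 1)) fun n => by
    have h10 : ∀ j ∈ Finset.range n, g 0 j ≤ |F| * g 0 n / b ^ n * b ^ j := fun j hj => by
      obtain ⟨i, rfl⟩ := Nat.exists_eq_add_of_le (Finset.mem_range.1 hj).le
      rw [pow_add, div_mul_eq_mul_div, mul_comm (b ^ j), mul_div_mul_right _ _ (by positivity),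
        le_div_iff₀ (by positivity)]
      have h10 := hs 0 j i
      rw [zero_add] at h10
      exact (mul_le_mul_of_nonneg_left ((hF j i).trans (mul_le_mul_of_nonneg_right (le_abs_self F)
        (hg _ _).le)) (hg _ _).le).trans ((mul_left_comm _ _ _).trans_le
          (mul_le_mul_of_nonneg_left h10 (abs_nonneg F)))
    refine (Finset.sum_le_sum h10).trans ?_
    rw [← Finset.mul_sum, geom_sum_eq hb1.ne', div_mul_div_comm, mul_comm (b ^ n),
      ← div_mul_div_comm, div_mul_eq_mul_div _ _ (g 0 n)]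
    exact mul_le_of_le_one_right (div_nonneg (mul_nonneg (abs_nonneg F) (hg _ _).le)
      (by linarith)) ((div_le_one (by positivity)).2 (by linarith))
  have hτ := div_pos (sub_pos.2 hp.lt_one) hp.N_pos
  refine ⟨_, T33.T6 (l := fun k => w * g 0 k) (D := G) hρ hΛ1
    ((mul_le_mul_of_nonneg_right hΛθ hρ.le).trans_lt hθ1) hτ h0 h00
    (fun k => ⟨e1 k ▸ h1.lower k, hA k⟩) (fun k s hs hs1 => ⟨?_, h2 k s hs⟩) hm (fun c hc => ?_)
    (fun b hb => ?_) (fun b hb hb' => ?_) h12 ha hj⟩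
  · have := hG (w * s) k (by positivity) (mul_le_of_le_one_right hw.le hs1)
    rwa [← e1, ← hR, show (w - w * s) * g 0 k = (1 - s) * (w * g 0 k) by ring] at this
  · obtain ⟨B', hB'⟩ := h4.escape (lt_min hc (half_pos hτ)) (min_le_right _ _)
    refine ⟨B', fun k ζ hζ h10 n => le_trans ?_ (hB' k n)⟩
    have h11 : Maj (UU (l : ℂ) N (w * ζ) k) (UU l N w k) := Maj.iter hl.le (fun j => by
      rw [coeff_C, coeff_C]
      split_ifs
      · rw [norm_mul, Complex.norm_real, Real.norm_of_nonneg hw.le]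
        exact mul_le_of_le_one_right hw.le hζ
      · simp) k
    rw [hC, add_comm, UU, Function.iterate_add_apply, ← coeff_zero_eq_eval_zero]
    refine Maj.iter hl.le (fun j => ?_) n 0
    rw [coeff_sub, coeff_C]
    split_ifs with h12
    · rw [hC, e1] at h10
      rw [h12, coeff_zero_eq_eval_zero (UU l N w k)]
      exact h10.trans (sub_le_sub_left (min_le_left _ _) _)
    · exact (h11 j).trans (sub_zero _).ge
  · obtain ⟨F, hF⟩ := hu b hb
    refine ⟨|D| * F, fun k n => ?_⟩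
    have := (h6 0 k n).trans (mul_le_mul (le_abs_self D) (mul_le_mul_of_nonneg_left (hF _ n)
      (hg 0 k).le) (mul_pos (hg _ _) (hg _ _)).le (abs_nonneg D))
    exact (mul_le_mul_of_nonneg_left this hw.le).trans (le_of_eq (by ring))
  · obtain ⟨F, hF⟩ := hlo b hb hb'
    refine ⟨|F|, fun k n => ?_⟩
    have := (mul_le_mul_of_nonneg_left ((hF (0 + k) n).trans (mul_le_mul_of_nonneg_right
      (le_abs_self F) (hg _ _).le)) (hg 0 k).le).trans ((mul_left_comm _ _ _).trans_le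
        (mul_le_mul_of_nonneg_left (hs 0 k n) (abs_nonneg F)))
    exact le_trans (le_of_eq (by ring)) ((mul_le_mul_of_nonneg_left this hw.le).trans
      (le_of_eq (by ring)))

theorem HD.gamma {Γ : Type} [AddCommGroup Γ] [DecidableEq Γ] {Λ T : ℕ → Finset Γ} {j : ℕ → Γ → ℝ}
    {w l : ℝ} {N : ℕ} (h : HD Λ T j w l N) (hp : Par l N) (hd : 1 < l * N ^ 2) (hw : 0 < w)
    (hj : ∀ k s, 0 ≤ j k s) (hm : ∀ k s, j k s ≤ j (k + 1) s) {M : Γ → ℝ} {K : Γ → ℝ≥0∞}
    {D α c c' G : ℝ} (hK : Ker M K D α c c') (hc : Crit K) (hM : UL M) (hD : D < 2 * α)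
    (hG : 1 < G) (hρ : G ^ (-α) = l * N) (hΛ : ∀ k, ∀ x ∈ Λ k, M x ≤ G ^ k)
    (hle : ∀ k s, ofReal (j k s) ≤ K s)
    (hlim : ∀ s, s ≠ 0 → Tendsto (fun k => ofReal (j k s)) atTop (𝓝 (K s))) :
    ∃ γ : ℝ, Tendsto (fun m : ℕ => Real.log (aa K m).toReal / Real.log m) atTop (𝓝 (γ - 1)) := by
  have hG0 := one_pos.trans hG
  have hρ0 := mul_pos hp.l_pos hp.N_pos
  set b := fun k => EW (j k) ((Λ k).erase 0) 0 with hb
  have e : ∀ k, PP Λ j w (l * N) k = C (w * (l * N) ^ k) * (X * b k) := fun k => mul_assoc _ _ _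
  have hb0 : ∀ k, Pos (b k) := fun k => EW_pos (hj k) _ _
  have h1 : ∀ k n, ofReal ((b k).coeff n) ≤ bb K M (G ^ k) n := fun k =>
    EW_le_bb (hj k) (fun s _ => hle k s) (h.mem0 k) (hΛ k)
  have h2 := fun k => eval_le_mm_QQ hM (pow_pos hG0 k).le (hb0 k) (h1 k)
  have h3 : ∀ m, Tendsto (fun k => (b k).coeff m) atTop (𝓝 (aa K m).toReal) := fun m =>
    ((ENNReal.tendsto_toReal (hK.aa_ne_top m)).comp (aa_tendsto hle (fun s hs =>
      ne_top_of_le_ne_top ENNReal.ofReal_ne_top (hK.khi s hs)) hlim m)).congr fun k => by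
        rw [Function.comp, ← h.coeff hj, ENNReal.toReal_ofReal (hb0 k m)]
  obtain ⟨A, hA, h4⟩ := stepA hK hc
  obtain ⟨θ, B, -, hθ, hB, h5⟩ := QQ_poly hK hc hM hD
  have h6 : ∀ k : ℕ, (G ^ k) ^ (-α) = (l * N) ^ k := fun k => by
    rw [← Real.rpow_pow_comm hG0.le, hρ]
  have ha1 : ∀ n, 1 ≤ (aa K n).toReal := fun n => by
    simpa using ENNReal.toReal_mono (hK.aa_ne_top n) (hc.one_le n)
  refine (rg_main (P := PP Λ j w (l * N)) (a := fun m => w * (aa K m).toReal)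
    (A := w * A) (B := w * B) (θ := l * N * G ^ θ) hp hd hw
    (fun k => e k ▸ (pos_C (by positivity)).mul (pos_X.mul (hb0 k))) (fun k => by simp [e])
    (fun k s => by rw [← coeff_zero_eq_eval_zero]; simpa using h.link s k)
    (fun k ζ => h.link ζ k) (fun k => ?_) (fun B => ?_) (by positivity) ?_ (fun k => ?_)
    (fun k i => ?_) ⟨?_, ?_⟩ (fun m => ?_) fun r hr => ?_).imp fun γ hγ => ?_
  rotate_right
  · have h7 := hγ.sub ((Real.tendsto_log_atTop.comp tendsto_natCast_atTop_atTop).const_div_atTop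
      (Real.log w))
    rw [sub_zero] at h7
    refine h7.congr fun m => ?_
    rw [Real.log_mul hw.ne' (one_pos.trans_le (ha1 m)).ne', Function.comp, ← sub_div,
      add_sub_cancel_left]
  · rw [e, eval_mul, eval_mul, eval_C, eval_X, one_mul, mul_assoc, ← h6, Real.rpow_neg (by positivity)]
    refine mul_le_mul_of_nonneg_left ((inv_mul_le_iff₀' (by positivity)).2 ?_) hw.le
    exact (ENNReal.ofReal_le_ofReal_iff (by positivity)).1 ((h2 k).1.trans (h4 _ (one_le_pow₀ hG.le)))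
  · have h7 : ofReal (B / w) < ∑' n, aa K n := chi_eq K ▸ hc.chi_top ▸ ENNReal.ofReal_lt_top
    rw [ENNReal.tsum_eq_iSup_sum, lt_iSup_iff] at h7
    obtain ⟨S, hS⟩ := h7
    have h8 : B / w < ∑ n ∈ S, (aa K n).toReal ∨ B / w < 0 := by
      rcases le_or_gt 0 (B / w) with h8 | h8
      · rw [← ENNReal.toReal_sum fun n _ => hK.aa_ne_top n]
        exact Or.inl ((ENNReal.ofReal_lt_iff_lt_toReal h8
          (ENNReal.sum_ne_top.2 fun n _ => hK.aa_ne_top n)).1 hS)
      · exact Or.inr h8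
    obtain ⟨k, hk⟩ : ∃ k, B / w < (b k).eval 1 := by
      rcases h8 with h8 | h8
      · obtain ⟨k, hk⟩ := ((tendsto_finsetSum S fun n _ => h3 n).eventually_const_lt h8).exists
        exact ⟨k, hk.trans_le (T33.eval_sum _ S ▸ Finset.sum_le_sum_of_subset_of_nonneg
          Finset.subset_union_right fun i _ _ => hb0 k i)⟩
      · exact ⟨0, h8.trans_le ((hb0 0).nonneg zero_le_one)⟩
    refine ⟨k, ?_⟩
    rw [e, eval_mul, eval_mul, eval_C, eval_X, one_mul, mul_right_comm]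
    exact mul_lt_mul_of_pos_right ((div_lt_iff₀' hw).1 hk) (by positivity)
  · rw [← hρ, ← Real.rpow_add hG0, ← Real.rpow_add hG0]
    exact Real.rpow_lt_one_of_one_lt_of_neg hG (by linarith)
  · rw [e, derivative_C_mul, eval_mul, eval_C, mul_pow _ (G ^ θ), Real.rpow_pow_comm hG0.le]
    exact (mul_le_mul_of_nonneg_left ((ENNReal.ofReal_le_ofReal_iff (by positivity)).1
      ((h2 k).2.trans (h5 _ (one_le_pow₀ hG.le)))) (by positivity)).trans (le_of_eq (by ring))
  · rw [e, e, coeff_C_mul, coeff_C_mul, ← mul_assoc, mul_left_comm, ← pow_succ']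
    refine mul_le_mul_of_nonneg_left ?_ (by positivity)
    cases i with
    | zero => simp
    | succ i =>
      rw [coeff_X_mul, coeff_X_mul, ← ENNReal.ofReal_le_ofReal_iff (hb0 _ i), h.coeff hj, h.coeff hj]
      exact ENNReal.tsum_le_tsum fun l => mul_le_mul' (W_mono fun s _ =>
        ENNReal.ofReal_le_ofReal (hm k s)) le_rfl
  · rw [e, coeff_C_mul, coeff_X_mul, hb]
    simp only
    rw [EW_eq]
    simpa using mul_pos hw hρ0
  · rw [e, coeff_C_mul, coeff_X_mul, hb]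
    simp only
    rw [EW_eq, coeff_add, coeff_X_mul, coeff_one, if_neg one_ne_zero, zero_add, finsetSum_coeff]
    refine mul_pos (by positivity) (Finset.sum_pos (fun y hy => ?_) (Finset.card_pos.1 ?_))
    · rw [coeff_C_mul, EW_eq, sub_zero, h.shift 0 y (Finset.mem_of_mem_erase hy)
        (Finset.ne_of_mem_erase hy)]
      simpa using add_pos_of_nonneg_of_pos (hj 0 y) hw
    · rw [Finset.card_erase_of_mem (h.mem0 1), h.cardL, pow_one]
      have := hp.two_le
      omega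
  · refine ((h3 m).const_mul w).congr fun k => ?_
    rw [e, coeff_C_mul, coeff_X_mul, mul_right_comm, mul_div_cancel_right₀ _ (by positivity)]
  · obtain ⟨r, rfl⟩ := Nat.exists_eq_add_of_le' hr
    obtain ⟨κ, hκ, h7⟩ := join_pow hK r
    refine ⟨κ / w ^ r, by positivity, fun k m => ?_⟩
    have h8 := h7 _ (one_le_pow₀ hG.le) _ (hb0 k) (h1 k) m
    rw [h6] at h8
    rw [e, mul_pow, ← C_pow, coeff_C_mul, ← mul_assoc _ w]
    refine le_trans (le_of_eq ?_) (mul_le_mul_of_nonneg_left h8 (by positivity))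
    field_simp
    ring

theorem hier_gamma {L d : ℕ} (hL : 2 ≤ L) {α β : ℝ} (h0 : 0 < α) (h1 : α < d) (h2 : d < 2 * α)
    (hβ : 0 < β) {J : Hier L d → ℝ} (hJ : ∀ x, x ≠ 0 → J x = β * hnorm x ^ (-(d + α))) {μ : ℝ}
    (hm : Tendsto (fun n : ℕ => cnt J n ^ (1 / (n : ℝ))) atTop (𝓝 μ)) :
    ∃ γ : ℝ, Tendsto (fun n : ℕ => Real.log (cnt J n / μ ^ n) / Real.log n) atTop (𝓝 (γ - 1)) := by
  classical
  have h := geo_hnorm hL (d := d) (by exact_mod_cast h0.trans h1)
  have hu := hnorm_ultra hL (d := d)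
  have hκ : 0 < α + 1 := by positivity
  have hL1 : (1 : ℝ) < L := by exact_mod_cast hL
  have hL0 := one_pos.trans hL1
  have hP : PowerLaw (fun x => hnorm x ^ (α + 1)) J (d / (α + 1) + α / (α + 1)) :=
    ⟨β, β, hβ, fun x hx => by
      rw [← add_div, ← neg_div, ← Real.rpow_mul (h.nonneg x), mul_div_cancel₀ _ hκ.ne', hJ x hx]
      exact ⟨le_rfl, le_rfl⟩⟩
  have h3 := h.rpow hu hκ
  have h4 : α / (α + 1) < 1 := (div_lt_one hκ).2 (lt_add_one α)
  have hJ0 := hP.nonneg h3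
  obtain ⟨c₀, C₀, hK₀⟩ := h3.ker hP (by positivity) h4 (by gcongr) one_pos
  simp only [ENNReal.ofReal_one, one_mul] at hK₀
  obtain ⟨μ', hμ, hlim, hc⟩ := exists_mu hK₀
  obtain rfl : μ = μ' := tendsto_nhds_unique hm (by simpa only [cnt_eq hJ0] using hlim)
  obtain ⟨c₁, C₁, hK⟩ := h3.ker hP (by positivity) h4 (by gcongr) (inv_pos.2 hμ)
  have ea : ∀ n, cnt J n / μ ^ n = (aa (fun s => ofReal μ⁻¹ * ofReal (J s)) n).toReal := fun n => by
    rw [aa_smul, ENNReal.toReal_mul, ENNReal.toReal_pow, ENNReal.toReal_ofReal (by positivity),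
      inv_pow, div_eq_inv_mul, cnt_eq hJ0]
  have hs : 0 < d + α := by positivity
  obtain ⟨Λ, T, h5, h6⟩ := hd_hier hL (d := d) hs (mul_pos (inv_pos.2 hμ) hβ)
  have hl0 : 0 < (L : ℝ) ^ (-(d + α)) := by positivity
  have hl1 : (L : ℝ) ^ (-(d + α)) < 1 := Real.rpow_lt_one_of_one_lt_of_neg hL1 (by linarith)
  have e : (L : ℝ) ^ (-(d + α)) * (L ^ d : ℕ) = (L : ℝ) ^ (-α) := by
    rw [Nat.cast_pow, ← Real.rpow_natCast, ← Real.rpow_add hL0]; congr 1; ring
  have e2 : ∀ s, s ≠ 0 → ofReal μ⁻¹ * ofReal (J s) = ofReal (μ⁻¹ * β * hnorm s ^ (-(d + α))) :=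
    fun s hs => by rw [← ENNReal.ofReal_mul (by positivity), hJ s hs, mul_assoc]
  simp only [ea]
  refine h6.gamma ⟨hl0, hL.trans (Nat.le_self_pow (by rintro rfl; simp at h1; linarith) L),
    e ▸ Real.rpow_lt_one_of_one_lt_of_neg hL1 (by linarith)⟩ ?_
    (mul_pos (by positivity) (sub_pos.2 hl1)) (fun _ _ => le_max_right _ _)
    (fun k s => max_le_max_right _ (sub_le_sub_left (mul_le_mul_of_nonneg_left
      (pow_le_pow_of_le_one hl0.le hl1.le (by omega)) (by positivity)) _)) hK hc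
    ⟨h3.toSub, fun x y => by
      rw [← Real.rpow_max (h.nonneg x) (h.nonneg y) hκ.le]
      exact Real.rpow_le_rpow (h.nonneg _) (hu x y) hκ.le⟩ (by rw [← mul_div_assoc]; gcongr)
    (Real.one_lt_rpow hL1 hκ) ?_ (fun k x hx => ?_) (fun k s => ?_) fun s hs => ?_
  · rw [sq, ← mul_assoc, e, Nat.cast_pow, ← Real.rpow_natCast, ← Real.rpow_add hL0]
    exact Real.one_lt_rpow hL1 (by linarith)
  · rw [e, ← neg_div, ← Real.rpow_mul hL0.le, mul_div_cancel₀ _ hκ.ne']
  · rw [Real.rpow_pow_comm hL0.le]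
    exact Real.rpow_le_rpow (h.nonneg x) (h5 k x hx) hκ.le
  · by_cases hs : s = 0
    · rw [hs, h.zero, Real.zero_rpow (by linarith), mul_zero, zero_sub,
        max_eq_right (neg_nonpos.2 (by positivity)), ENNReal.ofReal_zero]
      exact zero_le
    · rw [e2 s hs]
      exact ENNReal.ofReal_le_ofReal (max_le (sub_le_self _ (by positivity))
        (mul_nonneg (by positivity) (Real.rpow_nonneg (h.nonneg s) _)))
  · rw [e2 s hs]
    refine ENNReal.tendsto_ofReal ?_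
    have h7 := ((((tendsto_pow_atTop_nhds_zero_of_lt_one hl0.le hl1).comp
      (tendsto_add_atTop_nat 1)).const_mul (μ⁻¹ * β)).const_sub
        (μ⁻¹ * β * hnorm s ^ (-(d + α)))).max (tendsto_const_nhds (x := 0))
    rwa [mul_zero, sub_zero, max_eq_left (mul_nonneg (by positivity)
      (Real.rpow_nonneg (h.nonneg s) _))] at h7

end Pool.Agent.Lib.LRS
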