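import Pool.Agent.Lib.LRS.RG1

/-! Single crossing and truncation. -/

namespace Pool.Agent.Lib.LRS

open MeasureTheory Set Real Filter Topology

/-- at most one sign change, from minus to plus -/
def SC (H : ℝ → ℝ) : Prop := ∀ s t, 0 < s → s ≤ t → 0 < H s → 0 ≤ H t

variable {H : ℝ → ℝ} {y : ℝ}

theorem SC.exists_c (hH : SC H) {ψ : ℝ → ℝ} (hψ : MonotoneOn ψ (Ioi 0)) {M : ℝ} (hM0 : 0 ≤ M)
    (h0 : ∀ x, 0 < x → 0 ≤ ψ x) (hM : ∀ x, 0 < x → H x < 0 → ψ x ≤ M) :
    ∃ c, 0 ≤ c ∧ c ≤ M ∧ ∀ x, 0 < x → c * H x ≤ ψ x * H x := by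
  have hb : ∀ {b}, 0 ≤ b → (∀ x, 0 < x → H x < 0 → ψ x ≤ b) →
      ∀ v ∈ insert 0 (ψ '' {x | 0 < x ∧ H x < 0}), v ≤ b := by
    rintro b h1 h2 v (rfl | ⟨x, hx, rfl⟩)
    exacts [h1, h2 x hx.1 hx.2]
  have hB : BddAbove (insert 0 (ψ '' {x | 0 < x ∧ H x < 0})) := ⟨M, hb hM0 hM⟩
  refine ⟨sSup (insert 0 (ψ '' {x | 0 < x ∧ H x < 0})), le_csSup hB (mem_insert _ _),
    csSup_le (insert_nonempty _ _) (hb hM0 hM), fun x hx => ?_⟩
  rcases lt_trichotomy (H x) 0 with h | h | h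
  · exact mul_le_mul_of_nonpos_right (le_csSup hB (Or.inr ⟨x, ⟨hx, h⟩, rfl⟩)) h.le
  · simp [h]
  · refine mul_le_mul_of_nonneg_right (csSup_le (insert_nonempty _ _) (hb (h0 x hx)
      fun z hz hz' => hψ hz hx (not_lt.1 fun h1 => ?_))) h.le
    exact absurd (hH x z hx h1.le h) (not_le.2 hz')

theorem IK_cross (hH : SC H) (ha : Adm H) {s t : ℝ} (hs : 0 ≤ s) (hst : s ≤ t)
    (h : 0 < IK H s) : 0 ≤ IK H t := by
  have ht := hs.trans hst
  have hψ : MonotoneOn (fun x => kap t x / kap s x) (Ioi 0) := fun z hz x hx h1 => by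
    have h2 := bes_tp hs hst (le_of_lt hz) h1
    rw [div_le_div_iff₀ (kap_pos hs hz) (kap_pos hs hx)]
    simp only [kap]
    nlinarith [mul_le_mul_of_nonneg_left h2
      (by positivity : 0 ≤ exp (-t) * exp (-s) * exp (-x) * exp (-z))]
  obtain ⟨x₁, hx₁, h1⟩ : ∃ x, 0 < x ∧ 0 < H x := by
    by_contra hc
    have := IK_mono ha (adm_const 0) hs fun x hx => not_lt.1 fun h1 => hc ⟨x, hx, h1⟩
    simp only [IK, zero_mul, integral_zero] at this h
    linarith
  have h0 : ∀ x, 0 < x → 0 ≤ kap t x / kap s x := fun x hx =>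
    div_nonneg (kap_pos ht hx).le (kap_pos hs hx).le
  obtain ⟨c, hc, -, h2⟩ := hH.exists_c hψ (h0 x₁ hx₁) h0 fun z hz hz' =>
    hψ hz hx₁ (not_lt.1 fun h3 => absurd (hH x₁ z hx₁ h3.le h1) (not_le.2 hz'))
  refine (mul_nonneg hc h.le).trans ?_
  rw [← IK_const_mul]
  refine setIntegral_mono_on ((ha.const_mul c).int hs) (ha.int ht) measurableSet_Ioi fun x hx => ?_
  refine (mul_le_mul_of_nonneg_right (h2 x hx) (kap_pos hs hx).le).trans (le_of_eq ?_)
  have := (kap_pos hs hx).ne'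
  field_simp

theorem IK_exp_le {σ : ℝ} (hσ : σ < 1) (hy : 0 ≤ y) :
    IK (fun x => exp (σ * x)) y ≤ exp (y * (σ / (1 - σ))) / (1 - σ) := by
  have hr : 0 < 1 - σ := sub_pos.2 hσ
  rcases hy.eq_or_lt with rfl | hy'
  · simp [IK_exp00 hσ]
  refine le_of_mul_le_mul_left ?_ hy'
  rw [IK_exp0 hσ hy, show -y = y * (σ / (1 - σ)) + -(y / (1 - σ)) by field_simp; ring, exp_add]
  have := mul_le_mul_of_nonneg_left (add_one_le_exp (-(y / (1 - σ))))
    (exp_pos (y * (σ / (1 - σ)))).le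
  rw [mul_div_left_comm y (exp _)]
  linarith

theorem IK_trunc {σ Y ε : ℝ} (hσ0 : 0 ≤ σ) (hσ : σ < 1) (hY : 0 ≤ Y) (hε : 0 < ε) :
    ∃ K : ℝ, 0 < K ∧ ∀ (H : ℝ → ℝ) (C η y : ℝ), SC H → Adm H → 0 ≤ C → 0 ≤ η →
      (∀ x, 0 < x → -(C * exp (σ * x)) ≤ H x) → 0 ≤ y → y ≤ Y → -η ≤ IK H 0 →
        -(K * η + ε * C) ≤ IK H y := by
  set s := (1 + σ) / 2 with hs
  have hs1 : s < 1 := by linarith
  have hs2 : 0 < s - σ := by linarith
  have hs3 := sub_pos.2 hs1
  set B := exp (Y * (s / (1 - s))) / (1 - s) with hB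
  have hB0 : 0 < B := by positivity
  set X := B / ε / (s - σ) with hX
  have hX0 : 0 < X := by positivity
  refine ⟨bes (Y * X), bes_pos (by positivity), fun H C η y hH ha hC hη h1 hy hyY h2 => ?_⟩
  have hm : ∀ x, 0 < x → 0 ≤ y * min x X := fun x hx => by positivity
  obtain ⟨c, hc, hcM, h3⟩ := hH.exists_c (ψ := fun x => exp (-y) * bes (y * min x X))
    (fun z hz x _ h => mul_le_mul_of_nonneg_left (bes_mono (hm z hz) (by gcongr)) (exp_pos _).le)
    (bes_pos (mul_nonneg hY hX0.le)).le (fun x hx => mul_nonneg (exp_pos _).le (bes_pos (hm x hx)).le)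
    fun x hx _ => (mul_le_of_le_one_left (bes_pos (hm x hx)).le (exp_le_one_iff.2 (by linarith))).trans
      (bes_mono (hm x hx) (mul_le_mul hyY (min_le_right _ _) (by positivity) hY))
  have h4 : c * IK H 0 - C * exp (-((s - σ) * X)) * IK (fun x => exp (s * x)) y ≤ IK H y := by
    rw [← IK_const_mul, ← IK_const_mul, IK, IK, ← integral_sub ((ha.const_mul c).int le_rfl)
      (((adm_exp hs1).const_mul _).int hy)]
    refine setIntegral_mono_on (((ha.const_mul c).int le_rfl).sub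
      (((adm_exp hs1).const_mul _).int hy)) (ha.int hy) measurableSet_Ioi fun x hx => ?_
    have hx : 0 < x := hx
    have h5 := mul_le_mul_of_nonneg_right (h3 x hx) (exp_pos (-x)).le
    have h6 := kap_pos hy hx
    have e : kap 0 x = exp (-x) := by simp [kap, bes_zero]
    rw [e]
    rcases le_total x X with h | h
    · rw [min_eq_left h] at h5
      have : 0 ≤ C * exp (-((s - σ) * X)) * exp (s * x) * kap y x := by positivity
      simp only [kap] at this ⊢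
      linarith
    · rw [min_eq_right h] at h5
      have h7 : C * exp (σ * x) ≤ C * exp (-((s - σ) * X)) * exp (s * x) := by
        rw [mul_assoc, ← exp_add]
        exact mul_le_mul_of_nonneg_left (exp_le_exp.2 (by nlinarith)) hC
      have h8 : exp (-y) * exp (-x) * bes (y * X) ≤ kap y x :=
        mul_le_mul_of_nonneg_left (bes_mono (by positivity) (by gcongr)) (by positivity)
      have h9 : 0 ≤ exp (-y) * exp (-x) * bes (y * X) :=
        mul_nonneg (by positivity) (bes_pos (by positivity)).le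
      nlinarith [mul_nonneg (sub_nonneg.2 (h1 x hx)) (sub_nonneg.2 h8),
        mul_le_mul_of_nonneg_right h7 h6.le, mul_nonneg (by positivity : 0 ≤ C * exp (σ * x)) h9]
  have h5 : IK (fun x => exp (s * x)) y ≤ B := (IK_exp_le hs1 hy).trans (by
    have : 0 ≤ s := by linarith
    rw [hB]; gcongr)
  have h6 : exp (-((s - σ) * X)) * B ≤ ε := by
    rw [hX, mul_div_cancel₀ _ hs2.ne', exp_neg, inv_mul_le_iff₀ (exp_pos _), ← div_le_iff₀ hε]
    linarith [add_one_le_exp (B / ε)]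
  nlinarith [mul_le_mul_of_nonneg_left h2 hc, mul_le_mul_of_nonneg_right hcM hη,
    mul_le_mul_of_nonneg_left h5 (by positivity : 0 ≤ C * exp (-((s - σ) * X))),
    mul_le_mul_of_nonneg_left h6 hC]

theorem IK_tendsto {ι : Type*} {l : Filter ι} [l.IsCountablyGenerated] {f : ι → ℝ → ℝ}
    {g φ : ℝ → ℝ} (hf : ∀ i, Continuous (f i)) (hg : Adm g)
    (h1 : ∀ i x, 0 < x → |f i x| ≤ g x) (h2 : ∀ x, 0 < x → Tendsto (f · x) l (𝓝 (φ x)))
    (hy : 0 ≤ y) : Tendsto (fun i => IK (f i) y) l (𝓝 (IK φ y)) := by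
  refine tendsto_integral_filter_of_dominated_convergence _ (Eventually.of_forall fun i =>
    (hf i).aestronglyMeasurable.mul (kap_meas hy)) (Eventually.of_forall fun i => ?_) (hg.int hy) ?_
  · filter_upwards [ae_restrict_mem measurableSet_Ioi] with x hx
    rw [Real.norm_eq_abs, abs_mul, abs_of_pos (kap_pos hy hx)]
    exact mul_le_mul_of_nonneg_right (h1 i x hx) (kap_pos hy hx).le
  · filter_upwards [ae_restrict_mem measurableSet_Ioi] with x hx
    exact (h2 x hx).mul_const _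

theorem IK_fatou {ι : Type*} {l : Filter ι} [l.IsCountablyGenerated] {f : ι → ℝ → ℝ}
    {g : ℝ → ℝ} (hf : ∀ i, Adm (f i)) (hg : Adm g) (h0 : ∀ i x, 0 < x → 0 ≤ f i x)
    (hg0 : ∀ x, 0 < x → 0 ≤ g x) (h : ∀ x, 0 < x → ∀ c < g x, ∀ᶠ i in l, c < f i x)
    (hy : 0 ≤ y) : ∀ c < IK g y, ∀ᶠ i in l, c < IK (f i) y := by
  intro c hc
  have h1 : ∀ i x, 0 < x → |min (f i x) (g x)| ≤ g x := fun i x hx => by
    rw [abs_of_nonneg (le_min (h0 i x hx) (hg0 x hx))]; exact min_le_right _ _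
  have h2 := IK_tendsto (l := l) (φ := g) (fun i => (hf i).1.min hg.1) hg h1 (fun x hx =>
    tendsto_order.2 ⟨fun c hc => (h x hx c hc).mono fun i hi => lt_min hi hc,
      fun c hc => Eventually.of_forall fun i => min_lt_of_right_lt hc⟩) hy
  exact (h2.eventually_const_lt hc).mono fun i hi => hi.trans_le (IK_mono (hg.of_le
    ((hf i).1.min hg.1) fun x hx => (h1 i x hx).trans (le_abs_self _)) (hf i) hy
      fun x _ => min_le_left _ _)

/-- the key limit lemma -/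
theorem IK_key {ι : Type*} {l : Filter ι} {f : ι → ℝ → ℝ} {C σ : ℝ} (hσ0 : 0 ≤ σ) (hσ : σ < 1)
    (hC : 0 < C) (hs : ∀ i, SC (f i)) (hf : ∀ i, Adm (f i))
    (h1 : ∀ i x, 0 < x → -(C * exp (σ * x)) ≤ f i x)
    (h2 : Tendsto (fun i => IK (f i) 0) l (𝓝 0)) (hy : 0 ≤ y) :
    Tendsto (fun i => min (IK (f i) y) 0) l (𝓝 0) := by
  refine tendsto_order.2 ⟨fun c hc => ?_, fun c hc => Eventually.of_forall fun i =>
    min_lt_of_right_lt hc⟩
  have hc' := neg_pos.2 hc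
  obtain ⟨K, hK, h3⟩ := IK_trunc (ε := -c / 3 / C) hσ0 hσ hy (by positivity)
  filter_upwards [h2.eventually_const_lt (neg_lt_zero.2 (by positivity : 0 < -c / 3 / K))] with i hi
  have := h3 _ C _ y (hs i) (hf i) hC.le (by positivity) (h1 i) hy le_rfl hi.le
  rw [mul_div_cancel₀ _ hK.ne', div_mul_cancel₀ _ hC.ne'] at this
  exact lt_min (by linarith) hc

end Pool.Agent.Lib.LRS
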