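import Pool.Agent.Lib.LRS.RG2

/-! The renormalisation map on polynomials. -/

namespace Pool.Agent.Lib.LRS

open Set Real Filter Topology Polynomial
open scoped Nat

section
variable {𝕜 : Type} [Field 𝕜]

/-- image of a monomial -/
noncomputable def Up (l : 𝕜) (i : ℕ) : 𝕜[X] :=
  ∑ j ∈ Finset.range i, monomial j (l * (i ! * (i - 1).choose j / (j + 1)! * l ^ j))

/-- the joining operator -/
noncomputable def Ud (l : 𝕜) : 𝕜[X] →ₗ[𝕜] 𝕜[X] :=
  Polynomial.lsum fun i => LinearMap.toSpanSingleton 𝕜 _ (Up l i)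

/-- one renormalisation step -/
noncomputable def step (l : 𝕜) (N : ℕ) (U : 𝕜[X]) : 𝕜[X] := Ud l ((1 + X * U) ^ N)

theorem Ud_monomial (l : 𝕜) (i : ℕ) (a : 𝕜) : Ud l (monomial i a) = a • Up l i := by
  simp [Ud, Polynomial.sum_monomial_index]

theorem Ud_coeff (l : 𝕜) (P : 𝕜[X]) {n : ℕ} (hn : P.natDegree < n) (j : ℕ) :
    (Ud l P).coeff j = ∑ i ∈ Finset.range n, P.coeff i * (Up l i).coeff j := by
  conv_lhs => rw [P.as_sum_range' n hn]
  simp [map_sum, Ud_monomial]

theorem Up_coeff (l : 𝕜) (i j : ℕ) :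
    (Up l i).coeff j = if j < i then l * (i ! * (i - 1).choose j / (j + 1)! * l ^ j) else 0 := by
  simp [Up, coeff_monomial]
end

/-- nonnegative coefficients -/
def Pos (P : ℝ[X]) : Prop := ∀ j, 0 ≤ P.coeff j

/-- coefficientwise majorant -/
def Maj (P : ℂ[X]) (Q : ℝ[X]) : Prop := ∀ j, ‖P.coeff j‖ ≤ Q.coeff j

variable {l : ℝ} {N : ℕ} {P Q U V : ℝ[X]} {t : ℝ}

theorem Pos.add (hP : Pos P) (hQ : Pos Q) : Pos (P + Q) := fun j => by
  rw [coeff_add]; exact add_nonneg (hP j) (hQ j)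

theorem Pos.mul (hP : Pos P) (hQ : Pos Q) : Pos (P * Q) := fun j => by
  rw [coeff_mul]; exact Finset.sum_nonneg fun _ _ => mul_nonneg (hP _) (hQ _)

theorem pos_C {a : ℝ} (ha : 0 ≤ a) : Pos (C a) := fun j => by
  rw [coeff_C]; split_ifs; exacts [ha, le_rfl]

theorem pos_one : Pos 1 := pos_C zero_le_one

theorem pos_X : Pos X := fun j => by rw [coeff_X]; split_ifs; exacts [zero_le_one, le_rfl]

theorem Pos.pow (hP : Pos P) (n : ℕ) : Pos (P ^ n) := by
  induction n with
  | zero => exact pos_one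
  | succ n ih => rw [pow_succ]; exact ih.mul hP

theorem pos_sum {ι : Type*} {s : Finset ι} {f : ι → ℝ[X]} (h : ∀ i ∈ s, Pos (f i)) :
    Pos (∑ i ∈ s, f i) := fun j => by
  rw [finsetSum_coeff]; exact Finset.sum_nonneg fun i hi => h i hi j

theorem Up_nonneg (hl : 0 ≤ l) (i j : ℕ) : 0 ≤ (Up l i).coeff j := by
  rw [Up_coeff]; split_ifs; exacts [by positivity, le_rfl]

theorem Pos.ud (hl : 0 ≤ l) (hP : Pos P) : Pos (Ud l P) := fun j => by
  rw [Ud_coeff l P (Nat.lt_succ_self _)]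
  exact Finset.sum_nonneg fun i _ => mul_nonneg (hP i) (Up_nonneg hl i j)

theorem Pos.mono (hP : Pos P) {s : ℝ} (hs : 0 ≤ s) (h : s ≤ t) : P.eval s ≤ P.eval t := by
  rw [eval_eq_sum_range, eval_eq_sum_range]
  exact Finset.sum_le_sum fun i _ => mul_le_mul_of_nonneg_left (pow_le_pow_left₀ hs h i) (hP i)

theorem Pos.zero_le (hP : Pos P) : 0 ≤ P.eval 0 := by rw [← coeff_zero_eq_eval_zero]; exact hP 0

theorem Pos.nonneg (hP : Pos P) (ht : 0 ≤ t) : 0 ≤ P.eval t := hP.zero_le.trans (hP.mono le_rfl ht)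

theorem Pos.lift (hU : Pos U) : Pos (1 + X * U) := pos_one.add (pos_X.mul hU)

theorem Pos.step (hl : 0 ≤ l) (hU : Pos U) : Pos (step l N U) := (hU.lift.pow N).ud hl

theorem Pos.step_sub (hl : 0 ≤ l) (hU : Pos U) (h : Pos (V - U)) :
    Pos (LRS.step l N V - LRS.step l N U) := by
  have hV : Pos V := by simpa using hU.add h
  rw [LRS.step, LRS.step, ← map_sub, ← (Commute.all _ _).geom_sum₂_mul,
    show 1 + X * V - (1 + X * U) = X * (V - U) by ring]
  exact ((pos_sum fun i _ => (hV.lift.pow _).mul (hU.lift.pow _)).mul (pos_X.mul h)).ud hl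

theorem Maj.mul {P P' : ℂ[X]} {Q Q' : ℝ[X]} (h : Maj P Q) (h' : Maj P' Q') :
    Maj (P * P') (Q * Q') := fun j => by
  rw [coeff_mul, coeff_mul]
  refine (norm_sum_le _ _).trans (Finset.sum_le_sum fun _ _ => ?_)
  rw [norm_mul]
  exact mul_le_mul (h _) (h' _) (norm_nonneg _) ((norm_nonneg _).trans (h _))

theorem Maj.step {P : ℂ[X]} (hl : 0 ≤ l) (h : Maj P Q) :
    Maj (step (l : ℂ) N P) (step l N Q) := fun j => by
  have h1 : Maj 1 1 := fun j => by rw [coeff_one, coeff_one]; split_ifs <;> simp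
  have h2 : Maj (1 + X * P) (1 + X * Q) := fun j => by
    cases j with
    | zero => simp
    | succ j => simpa [coeff_one, coeff_X_mul] using h j
  have h3 : ∀ n, Maj ((1 + X * P) ^ n) ((1 + X * Q) ^ n) := fun n => by
    induction n with
    | zero => exact h1
    | succ n ih => rw [pow_succ, pow_succ]; exact ih.mul h2
  rw [LRS.step, LRS.step, Ud_coeff _ _ (Nat.lt_succ_of_le (le_max_left _ ((1 + X * Q) ^ N).natDegree)),
    Ud_coeff _ _ (Nat.lt_succ_of_le (le_max_right ((1 + X * P) ^ N).natDegree _))]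
  refine (norm_sum_le _ _).trans (Finset.sum_le_sum fun i _ => ?_)
  rw [norm_mul]
  refine mul_le_mul (h3 N i) (le_of_eq ?_) (norm_nonneg _) ((norm_nonneg _).trans (h3 N i))
  rw [Up_coeff, Up_coeff]
  split_ifs <;> simp [abs_of_nonneg hl]

theorem Ud_eval (hl : 0 ≤ l) (ht : 0 ≤ t) (P : ℝ[X]) :
    (Ud l P).eval t = l * IK (fun x => P.eval x - P.eval 0) (l * t) := by
  have hy := mul_nonneg hl ht
  induction P using Polynomial.induction_on' with
  | add p q hp hq =>
    rw [map_add, eval_add, hp, hq, ← mul_add, ← IK_add ((adm_poly p).sub (adm_const _))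
      ((adm_poly q).sub (adm_const _)) hy]
    simp only [eval_add, add_sub_add_comm]
  | monomial n a =>
    rw [Ud_monomial]
    cases n with
    | zero => simp [Up, IK]
    | succ n =>
      simp only [eval_monomial, ne_eq, Nat.add_eq_zero_iff, one_ne_zero, and_false,
        not_false_eq_true, zero_pow, mul_zero, sub_zero]
      rw [IK_const_mul, IK_pow n hy, Up, eval_smul, eval_finsetSum, smul_eq_mul, mul_left_comm l,
        Finset.mul_sum _ _ l]
      refine congrArg _ (Finset.sum_congr rfl fun j _ => ?_)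
      rw [eval_monomial, mul_pow, Nat.add_sub_cancel]
      ring

theorem adm_pow (U : ℝ[X]) (N : ℕ) : Adm fun x => (1 + x * U.eval x) ^ N := by
  have := adm_poly ((1 + X * U) ^ N)
  simp only [eval_pow, eval_add, eval_one, eval_mul, eval_X] at this
  exact this

theorem step_eval (hl : 0 ≤ l) (ht : 0 ≤ t) (U : ℝ[X]) :
    (step l N U).eval t = l * IK (fun x => (1 + x * U.eval x) ^ N - 1) (l * t) := by
  simp [step, Ud_eval hl ht]

theorem IK_exp_sub {σ y : ℝ} (hσ : σ < 1) (hy : 0 ≤ y) :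
    y * IK (fun x => exp (σ * x) - 1) y = exp (y * (σ / (1 - σ))) - 1 := by
  have h := IK_exp0 one_pos hy
  simp only [zero_mul, exp_zero, zero_div, mul_zero] at h
  rw [IK_sub (adm_exp hσ) (adm_const 1) hy, mul_sub, IK_exp0 hσ hy, h]
  ring

theorem step_le_exp (hl : 0 ≤ l) (hU : Pos U) {B σ : ℝ} (hB : 1 ≤ B) (hσ : N * σ < 1)
    (h : ∀ x, 0 < x → 1 + x * U.eval x ≤ B * exp (σ * x)) (ht : 0 ≤ t) :
    1 + t * (step l N U).eval t ≤ B ^ N * exp (l * (N * σ / (1 - N * σ)) * t) := by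
  have hy := mul_nonneg hl ht
  have h1 := IK_mono ((adm_pow U N).sub (adm_const 1))
    ((((adm_exp hσ).sub (adm_const 1)).const_mul (B ^ N)).add (adm_const (B ^ N - 1))) hy
    fun x hx => by
      have := pow_le_pow_left₀ (by have := hU.nonneg hx.le; positivity) (h x hx) N
      rw [mul_pow, ← exp_nat_mul, ← mul_assoc] at this
      linarith
  have h2 := IK_exp0 one_pos hy
  simp only [zero_mul, exp_zero, zero_div, mul_zero] at h2
  have h3 := IK_const_mul (B ^ N - 1) (fun _ => 1) (l * t)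
  simp only [mul_one] at h3
  have h4 := mul_le_mul_of_nonneg_left h1 hy
  rw [IK_add (((adm_exp hσ).sub (adm_const 1)).const_mul _) (adm_const _) hy, IK_const_mul, h3,
    mul_add, mul_left_comm, IK_exp_sub hσ hy, mul_left_comm, h2] at h4
  rw [step_eval hl ht, mul_right_comm l]
  nlinarith [mul_nonneg (sub_nonneg.2 (one_le_pow₀ hB (n := N))) (exp_pos (-(l * t))).le]

theorem step_zero_le (hl : 0 ≤ l) (hU : Pos U) {σ : ℝ} (hσ : N * σ < 1)
    (h : ∀ x, 0 < x → 1 + x * U.eval x ≤ exp (σ * x)) :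
    (step l N U).eval 0 ≤ l * (N * σ / (1 - N * σ)) := by
  rw [step_eval hl le_rfl, mul_zero]
  refine mul_le_mul_of_nonneg_left ((IK_mono ((adm_pow U N).sub (adm_const 1))
    ((adm_exp hσ).sub (adm_const 1)) le_rfl fun x hx => ?_).trans (le_of_eq ?_)) hl
  · have := pow_le_pow_left₀ (by have := hU.nonneg hx.le; positivity) (h x hx) N
    rw [← exp_nat_mul, ← mul_assoc] at this
    linarith
  · have h2 := IK_exp00 one_pos
    simp only [zero_mul, exp_zero, sub_zero, inv_one] at h2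
    have := (sub_pos.2 hσ).ne'
    rw [IK_sub (adm_exp hσ) (adm_const 1) le_rfl, IK_exp00 hσ, h2]
    field_simp
    ring

theorem SC.pow {f g : ℝ → ℝ} (h : SC fun x => f x - g x) (hf : ∀ x, 0 < x → 0 ≤ f x)
    (hg : ∀ x, 0 < x → 0 ≤ g x) (N : ℕ) : SC fun x => f x ^ N - g x ^ N := fun s t hs hst h1 =>
  sub_nonneg.2 (pow_le_pow_left₀ (hg t (hs.trans_le hst)) (sub_nonneg.1 (h s t hs hst
    (sub_pos.2 (lt_of_pow_lt_pow_left₀ N (hf s hs) (sub_pos.1 h1))))) N)

theorem SC.ik {H : ℝ → ℝ} (h : SC H) (ha : Adm H) (hl : 0 < l) :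
    SC fun t => l * t * IK H (l * t) := fun s t hs hst h1 =>
  mul_nonneg (mul_pos hl (hs.trans_le hst)).le (IK_cross h ha (mul_pos hl hs).le (by gcongr)
    ((mul_pos_iff_of_pos_left (mul_pos hl hs)).1 h1))

theorem SC.congr {f g : ℝ → ℝ} (h : SC f) (e : ∀ x, 0 < x → g x = f x) : SC g :=
  fun s t hs hst h1 => e t (hs.trans_le hst) ▸ h s t hs hst (e s hs ▸ h1)

theorem poly_le_exp (P : ℝ[X]) {δ : ℝ} (hδ : 0 < δ) :
    ∃ B, 1 ≤ B ∧ ∀ x, 0 < x → P.eval x ≤ B * exp (δ * x) := by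
  induction P using Polynomial.induction_on' with
  | add p q hp hq =>
    obtain ⟨B, h1, h2⟩ := hp
    obtain ⟨B', h3, h4⟩ := hq
    exact ⟨B + B', by linarith, fun x hx => by
      rw [eval_add, add_mul]; exact add_le_add (h2 x hx) (h4 x hx)⟩
  | monomial n a =>
    refine ⟨1 + |a| * (n ! / δ ^ n), le_add_of_nonneg_right (by positivity), fun x hx => ?_⟩
    rw [eval_monomial, add_mul, mul_assoc]
    exact (mul_le_mul (le_abs_self a) (pow_le_exp n hδ hx.le) (by positivity)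
      (abs_nonneg a)).trans (le_add_of_nonneg_left (by positivity))

end Pool.Agent.Lib.LRS
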