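import Pool.Agent.Lib.LRS.RG3

/-! The critical orbit converges. -/

namespace Pool.Agent.Lib.LRS

open Set Real Filter Topology Polynomial

/-- the orbit of a single site -/
noncomputable def UU {𝕜 : Type} [Field 𝕜] (l : 𝕜) (N : ℕ) (z : 𝕜) (k : ℕ) : 𝕜[X] :=
  (step l N)^[k] (C z)

/-- the generating function at scale `k` -/
noncomputable def FF (l : ℝ) (N : ℕ) (z : ℝ) (k : ℕ) (x : ℝ) : ℝ := 1 + x * (UU l N z k).eval x

/-- the parameters -/
structure Par (l : ℝ) (N : ℕ) : Prop where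
  l_pos : 0 < l
  two_le : 2 ≤ N
  lt_one : l * N < 1

variable {l z A : ℝ} {N : ℕ} {U : ℝ[X]}

theorem Par.N_pos (h : Par l N) : (0 : ℝ) < N := by exact_mod_cast two_pos.trans_le h.two_le

theorem Par.half (h : Par l N) : l < 1 / 2 := by
  have : (2 : ℝ) ≤ N := by exact_mod_cast h.two_le
  nlinarith [h.lt_one, h.l_pos]

theorem Pos.iter (hl : 0 ≤ l) (hU : Pos U) (n : ℕ) : Pos ((LRS.step l N)^[n] U) := by
  induction n with
  | zero => exact hU
  | succ n ih => rw [Function.iterate_succ_apply']; exact ih.step hl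

theorem UU_succ {𝕜 : Type} [Field 𝕜] (l : 𝕜) (N : ℕ) (z : 𝕜) (k : ℕ) :
    UU l N z (k + 1) = step l N (UU l N z k) := Function.iterate_succ_apply' _ _ _

theorem UU_pos (h : Par l N) (hz : 0 ≤ z) (k : ℕ) : Pos (UU l N z k) := (pos_C hz).iter h.l_pos.le k

theorem one_le_FF (h : Par l N) (hz : 0 ≤ z) (k : ℕ) {x : ℝ} (hx : 0 < x) : 1 ≤ FF l N z k x :=
  le_add_of_nonneg_right (mul_nonneg hx.le ((UU_pos h hz k).nonneg hx.le))

theorem FF_mono (h : Par l N) (hz : 0 ≤ z) (k : ℕ) {x y : ℝ} (hx : 0 < x) (hxy : x ≤ y) :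
    FF l N z k x ≤ FF l N z k y :=
  add_le_add le_rfl (mul_le_mul hxy ((UU_pos h hz k).mono hx.le hxy)
    ((UU_pos h hz k).nonneg hx.le) (hx.le.trans hxy))

theorem adm_FF (l : ℝ) (N : ℕ) (z : ℝ) (k n : ℕ) : Adm fun x => FF l N z k x ^ n := adm_pow _ _

theorem UU_eval (h : Par l N) (k : ℕ) {t : ℝ} (ht : 0 ≤ t) :
    (UU l N z (k + 1)).eval t = l * IK (fun x => FF l N z k x ^ N - 1) (l * t) := by
  rw [UU_succ, step_eval h.l_pos.le ht]; rfl

theorem Par.exists_sig (h : Par l N) {σ : ℝ} (h0 : 0 < σ) (h1 : N * σ < 1 - l * N) :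
    ∃ (s : ℕ → ℝ) (B : ℝ), 0 < B ∧ s 0 = σ ∧ ∀ n, N * s n < 1 ∧
      l * (N * s n / (1 - N * s n)) = s (n + 1) ∧ s n ≤ B * (l * N) ^ n := by
  have hN := h.N_pos
  have hl := h.l_pos
  have h2 := sub_pos.2 h.lt_one
  have h3 : 0 < σ⁻¹ - N / (1 - l * N) := by
    rw [sub_pos, div_lt_iff₀ h2, ← div_eq_inv_mul, lt_div_iff₀ h0]; exact h1
  set a := σ⁻¹ - N / (1 - l * N) with ha
  refine ⟨fun n => (N / (1 - l * N) + a / (l * N) ^ n)⁻¹, a⁻¹, by positivity, by simp [ha],
    fun n => ?_⟩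
  have h4 : 0 < a / (l * N) ^ n := by positivity
  have h5 : (N : ℝ) < N / (1 - l * N) + a / (l * N) ^ n := by
    have : (N : ℝ) ≤ N / (1 - l * N) := by rw [le_div_iff₀ h2]; nlinarith [mul_pos hl hN]
    linarith
  refine ⟨by rwa [← div_eq_mul_inv, div_lt_one (by positivity)], ?_, ?_⟩
  · simp only
    rw [pow_succ, ← div_div]
    set b := a / (l * N) ^ n
    have h6 := (sub_pos.2 h5).ne'
    rw [show N / (1 - l * N) + b / (l * N) = (N / (1 - l * N) + b - N) / (l * N) by
      generalize hq : 1 - l * N = q at h2 ⊢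
      field_simp
      rw [← hq]
      ring]
    set v := N / (1 - l * N) + b
    have h7 : v ≠ 0 := (hN.trans h5).ne'
    field_simp
  · rw [← div_eq_inv_mul, ← inv_div a]
    exact inv_anti₀ h4 (le_add_of_nonneg_left (div_pos hN h2).le)

theorem iter_le_exp (h : Par l N) {s : ℕ → ℝ}
    (hs : ∀ n, N * s n < 1 ∧ l * (N * s n / (1 - N * s n)) = s (n + 1)) (hU : Pos U) {B : ℝ}
    (hB : 1 ≤ B) (h1 : ∀ x, 0 < x → 1 + x * U.eval x ≤ B * exp (s 0 * x)) (n : ℕ) :
    ∀ x, 0 < x → 1 + x * ((step l N)^[n] U).eval x ≤ B ^ N ^ n * exp (s n * x) := by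
  induction n with
  | zero => simpa using h1
  | succ n ih =>
    intro x hx
    rw [Function.iterate_succ_apply', pow_succ, pow_mul, ← (hs n).2]
    exact step_le_exp h.l_pos.le (hU.iter h.l_pos.le n) (one_le_pow₀ hB) (hs n).1 ih hx.le

theorem decay (h : Par l N) {σ : ℝ} (h0 : 0 < σ) (h1 : N * σ < 1 - l * N) :
    ∃ B : ℝ, 0 < B ∧ ∀ U : ℝ[X], Pos U → (∀ x, 0 < x → 1 + x * U.eval x ≤ exp (σ * x)) →
      ∀ n, ((step l N)^[n + 1] U).eval 0 ≤ B * (l * N) ^ (n + 1) := by
  obtain ⟨s, B, hB, rfl, hs⟩ := h.exists_sig h0 h1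
  refine ⟨B, hB, fun U hU h2 n => ?_⟩
  have := iter_le_exp h (fun n => ⟨(hs n).1, (hs n).2.1⟩) hU le_rfl (by simpa using h2) n
  rw [Function.iterate_succ_apply']
  exact (step_zero_le h.l_pos.le (hU.iter h.l_pos.le n) (hs n).1 (by simpa using this)).trans
    ((hs n).2.1 ▸ (hs (n + 1)).2.2)

theorem SC_exp (h : Par l N) (hz : 0 ≤ z) (k : ℕ) :
    ∀ κ, 0 < κ → SC fun t => exp (κ * t) - FF l N z k t := by
  have hl := h.l_pos
  have hN := h.N_pos
  induction k with
  | zero =>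
    intro κ hκ s t hs hst h1
    simp only [FF, UU, Function.iterate_zero, id, eval_C] at h1 ⊢
    have ht := hs.trans_le hst
    have h2 := convexOn_exp.2 (mem_univ (κ * t)) (mem_univ 0) (div_nonneg hs.le ht.le)
      (sub_nonneg.2 ((div_le_one ht).2 hst)) (add_sub_cancel _ _)
    simp only [smul_eq_mul, mul_zero, add_zero, exp_zero, mul_one] at h2
    rw [show s / t * (κ * t) = κ * s by field_simp] at h2
    have h3 : s / t * (1 + t * z) ≤ s / t * exp (κ * t) := by
      rw [mul_add, show s / t * (t * z) = s * z by field_simp]; linarith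
    exact sub_nonneg.2 (le_of_mul_le_mul_left h3 (by positivity))
  | succ k ih =>
    intro κ hκ
    have h1 : κ / (l + κ) < 1 := (div_lt_one (by positivity)).2 (by linarith)
    have h2 := (ih (κ / (l + κ) / N) (by positivity)).pow (fun _ _ => (exp_pos _).le)
      (fun x hx => zero_le_one.trans (one_le_FF h hz k hx)) N
    have h3 : SC fun x => (exp (κ / (l + κ) * x) - 1) - (FF l N z k x ^ N - 1) :=
      h2.congr fun x _ => by
        rw [← exp_nat_mul, show N * (κ / (l + κ) / N * x) = κ / (l + κ) * x by field_simp]; ring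
    have a1 := (adm_exp h1).sub (adm_const 1)
    have a2 := (adm_FF l N z k N).sub (adm_const 1)
    refine (h3.ik (a1.sub a2) hl).congr fun t ht => ?_
    rw [IK_sub a1 a2 (by positivity), mul_sub, IK_exp_sub h1 (by positivity), FF,
      UU_eval h k ht.le, show l * t * (κ / (l + κ) / (1 - κ / (l + κ))) = κ * t by
        rw [one_sub_div (by positivity), add_sub_cancel_right]; field_simp]
    ring

theorem FF_le_of_lt (h : Par l N) (hz : 0 ≤ z) {k : ℕ} {κ t₀ : ℝ} (hκ : 0 < κ) (ht : 0 < t₀)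
    (h1 : FF l N z k t₀ < exp (κ * t₀)) {t : ℝ} (ht' : 0 < t) :
    FF l N z k t ≤ exp (κ * t₀) * exp (κ * t) := by
  rcases le_total t t₀ with h2 | h2
  · exact ((FF_mono h hz k ht' h2).trans h1.le).trans
      (le_mul_of_one_le_right (exp_pos _).le (one_le_exp (by positivity)))
  · exact (sub_nonneg.1 (SC_exp h hz k κ hκ _ _ ht h2 (sub_pos.2 h1))).trans
      (le_mul_of_one_le_left (exp_pos _).le (one_le_exp (by positivity)))

theorem small_pos {P : ℝ[X]} (h : 0 < P.eval 0) {t : ℝ} (ht : 0 < t) :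
    ∃ s, 0 < s ∧ s ≤ t ∧ 0 < P.eval s := by
  have h1 := (P.continuous.tendsto 0).eventually_const_lt h
  obtain ⟨s, h2, h3⟩ := ((h1.filter_mono nhdsWithin_le_nhds).and (Ioc_mem_nhdsGT ht)).exists
  exact ⟨s, h3.1, h3.2, h2⟩

theorem FF_le_exp (h : Par l N) (hz : 0 ≤ z) {k : ℕ} {σ : ℝ} (h1 : (UU l N z k).eval 0 < σ)
    {t : ℝ} (ht : 0 < t) : FF l N z k t ≤ exp (σ * t) := by
  obtain ⟨s, hs, h2, h3⟩ := small_pos (P := C σ - UU l N z k) (by simpa using h1) ht
  refine sub_nonneg.1 (SC_exp h hz k σ ((UU_pos h hz k).zero_le.trans_lt h1) s t hs h2 ?_)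
  rw [eval_sub, eval_C] at h3
  simp only [FF]
  nlinarith [add_one_le_exp (σ * s), mul_pos hs h3]

/-- the critical orbit -/
structure Crt (l : ℝ) (N : ℕ) (z A : ℝ) : Prop extends Par l N where
  z_pos : 0 < z
  bdd : ∀ k, (UU l N z k).eval 0 ≤ A
  crit : ∀ B : ℝ, ∃ k, B * (l * N) ^ k < (UU l N z k).eval 0

theorem Crt.lower (h : Crt l N z A) (k : ℕ) : (1 - l * N) / N ≤ (UU l N z k).eval 0 := by
  by_contra hc
  have hN := h.N_pos
  have hl := h.l_pos
  obtain ⟨σ, h1, h2⟩ := exists_between (not_le.1 hc)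
  have hP := UU_pos h.toPar h.z_pos.le
  obtain ⟨B, hB, h3⟩ := decay h.toPar ((hP k).zero_le.trans_lt h1) ((lt_div_iff₀' hN).1 h2)
  have h4 := h3 _ (hP k) fun x hx => FF_le_exp h.toPar h.z_pos.le h1 hx
  have hA : 0 ≤ A := (hP 0).zero_le.trans (h.bdd 0)
  obtain ⟨n, hn⟩ := h.crit ((A + B) / (l * N) ^ k)
  refine absurd hn (not_lt.2 ?_)
  rw [div_mul_eq_mul_div, le_div_iff₀ (by positivity)]
  rcases le_or_gt n k with h5 | h5
  · exact mul_le_mul ((h.bdd n).trans (by linarith))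
      (pow_le_pow_of_le_one (by positivity) h.lt_one.le h5) (by positivity) (by positivity)
  · obtain ⟨j, rfl⟩ := Nat.exists_eq_add_of_lt h5
    have := h4 j
    rw [UU, ← Function.iterate_add_apply, show j + 1 + k = k + j + 1 by ring] at this
    refine (mul_le_mul_of_nonneg_right this (by positivity)).trans ?_
    rw [mul_assoc, ← pow_add, show j + 1 + k = k + j + 1 by ring]
    gcongr
    linarith

theorem Crt.unif (h : Crt l N z A) : ∃ B κ : ℝ, 0 < B ∧ 0 ≤ κ ∧ κ < 1 ∧
    ∀ k x, 0 < x → FF l N z k x ^ N ≤ B * exp (κ * x) := by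
  have hN := h.N_pos
  have hl := h.l_pos
  have hz := h.z_pos.le
  have hA : 0 ≤ A := (UU_pos h.toPar hz 0).zero_le.trans (h.bdd 0)
  set κ := 1 - (A / l + 2)⁻¹ with hκ
  have h0 : 0 < κ := sub_pos.2 (inv_lt_one_of_one_lt₀ (by have := div_nonneg hA hl.le; linarith))
  have h1 : κ < 1 := sub_lt_self _ (by positivity)
  have a1 := (adm_exp h1).sub (adm_const 1)
  have hb : ∀ (i : ℕ) (x : ℝ), 0 < x → |exp (κ * min x (i + 1)) - 1| ≤ exp (κ * x) - 1 := fun i x hx => by
    rw [abs_of_nonneg (sub_nonneg.2 (one_le_exp (by positivity)))]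
    gcongr
    exact min_le_left _ _
  have h2 := IK_tendsto (l := atTop) (f := fun (i : ℕ) x => exp (κ * min x (i + 1)) - 1)
    (φ := fun x => exp (κ * x) - 1) (fun i => by fun_prop) a1 hb (fun x _ =>
      tendsto_const_nhds.congr' ((tendsto_natCast_atTop_atTop.eventually_ge_atTop x).mono
        fun i hi => by simp only; rw [min_eq_left (by linarith)])) le_rfl
  have h3 := IK_exp00 one_pos
  simp only [zero_mul, exp_zero, sub_zero, inv_one] at h3
  rw [IK_sub (adm_exp h1) (adm_const 1) le_rfl, IK_exp00 h1, h3, hκ, sub_sub_cancel, inv_inv] at h2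
  obtain ⟨i, hi⟩ := (h2.eventually_const_lt (show A / l < _ by linarith)).exists
  rw [← hκ] at hi
  have hi0 : (0 : ℝ) < i + 1 := by positivity
  refine ⟨exp ((κ + 1) / 2 * (i + 1)), (κ + 1) / 2, exp_pos _, by linarith, by linarith,
    fun k x hx => ?_⟩
  have e : ∀ a y : ℝ, exp (a / N * y) ^ N = exp (a * y) := fun a y => by
    rw [← exp_nat_mul]; congr 1; field_simp
  have h4 : FF l N z k (i + 1) ≤ exp (κ / N * (i + 1)) := by
    by_contra hc
    have h5 := h.bdd (k + 1)
    rw [UU_eval h.toPar k le_rfl, mul_zero, ← le_div_iff₀' hl] at h5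
    refine absurd (hi.trans_le (IK_mono (a1.of_le (by fun_prop) fun x hx =>
      (hb i x hx).trans (le_abs_self _)) ((adm_FF l N z k N).sub (adm_const 1)) le_rfl
        fun x hx => sub_le_sub_right ?_ 1)) (not_lt.2 h5)
    rw [← e]
    refine pow_le_pow_left₀ (exp_pos _).le (le_trans (not_lt.1 fun h6 => hc (sub_nonneg.1
      (SC_exp h.toPar hz k _ (by positivity) _ _ (by positivity) (min_le_right _ _)
        (sub_pos.2 h6)))) (FF_mono h.toPar hz k (by positivity) (min_le_left _ _))) N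
  rw [← e _ x, ← e _ (i + 1), ← mul_pow]
  exact pow_le_pow_left₀ (zero_le_one.trans (one_le_FF h.toPar hz k hx))
    (FF_le_of_lt h.toPar hz (by positivity) hi0 (h4.trans_lt (by gcongr; linarith)) hx) N

theorem FF_sub (h : Par l N) (a b : ℕ) {t : ℝ} (ht : 0 ≤ t) :
    (UU l N z (a + 1)).eval t - (UU l N z (b + 1)).eval t =
      l * IK (fun x => FF l N z a x ^ N - FF l N z b x ^ N) (l * t) := by
  rw [UU_eval h a ht, UU_eval h b ht, ← mul_sub, ← IK_sub ((adm_FF l N z a N).sub (adm_const 1))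
    ((adm_FF l N z b N).sub (adm_const 1)) (mul_nonneg h.l_pos.le ht)]
  simp only [sub_sub_sub_cancel_right]

theorem SC_orbit (h : Par l N) (hz : 0 ≤ z) (p n : ℕ) :
    SC fun t => FF l N z (p + n) t - FF l N z n t := by
  induction n with
  | zero =>
    intro s t hs hst h1
    have h2 := (UU_pos h hz p).mono hs.le hst
    simp only [FF, add_zero, show UU l N z 0 = C z from rfl, eval_C] at h1 ⊢
    nlinarith [(mul_pos_iff_of_pos_left hs).1 (show 0 < s * ((UU l N z p).eval s - z) by linarith)]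
  | succ n ih =>
    refine ((ih.pow (fun x hx => zero_le_one.trans (one_le_FF h hz _ hx))
      (fun x hx => zero_le_one.trans (one_le_FF h hz _ hx)) N).ik
        ((adm_FF l N z _ N).sub (adm_FF l N z _ N)) h.l_pos).congr fun t ht => ?_
    rw [mul_right_comm, ← FF_sub h _ _ ht.le, FF, FF, add_assoc]
    ring

theorem Crt.alpha_conv (h : Crt l N z A) :
    ∃ a, Tendsto (fun k => (UU l N z k).eval 0) atTop (𝓝 a) := by
  have hz := h.z_pos.le
  by_cases hc : ∀ k, (UU l N z (k + 1)).eval 0 ≤ (UU l N z k).eval 0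
  · exact ⟨_, tendsto_atTop_ciInf (antitone_nat_of_succ_le hc)
      ⟨0, by rintro _ ⟨k, rfl⟩; exact (UU_pos h.toPar hz k).zero_le⟩⟩
  obtain ⟨k, hk⟩ := not_forall.1 hc
  have h1 : ∀ n t, 0 ≤ t → (UU l N z (k + n)).eval t ≤ (UU l N z (k + n + 1)).eval t := by
    intro n
    induction n with
    | zero =>
      intro t ht
      rcases ht.eq_or_lt with rfl | ht
      · exact (not_le.1 hk).le
      obtain ⟨s, hs, h2, h3⟩ := small_pos (P := UU l N z (k + 1) - UU l N z k)
        (by simpa using hk) ht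
      have h4 := SC_orbit h.toPar hz 1 k s t hs h2
      simp only [FF, add_comm 1 k, add_sub_add_left_eq_sub, ← mul_sub, ← eval_sub] at h4
      exact sub_nonneg.1 (eval_sub (R := ℝ) _ _ _ ▸ nonneg_of_mul_nonneg_right
        (h4 (mul_pos hs h3)) ht)
    | succ n ih =>
      intro t ht
      rw [← sub_nonneg, ← add_assoc, FF_sub h.toPar _ _ ht]
      exact mul_nonneg h.l_pos.le (IK_nonneg (mul_nonneg h.l_pos.le ht) fun x hx =>
        sub_nonneg.2 (pow_le_pow_left₀ (zero_le_one.trans (one_le_FF h.toPar hz _ hx))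
          (add_le_add le_rfl (mul_le_mul_of_nonneg_left (ih x hx.le) hx.le)) N))
  refine ⟨_, (tendsto_add_atTop_iff_nat k).1 (tendsto_atTop_ciSup
    (monotone_nat_of_le_succ fun n => ?_) ⟨A, by rintro _ ⟨k, rfl⟩; exact h.bdd _⟩)⟩
  rw [add_right_comm, add_comm n]
  exact h1 n 0 le_rfl

theorem Crt.conv (h : Crt l N z A) {t : ℝ} (ht : 0 ≤ t) :
    ∃ a, Tendsto (fun k => (UU l N z k).eval t) atTop (𝓝 a) := by
  have hz := h.z_pos.le
  have hl := h.l_pos
  obtain ⟨B, κ, hB, h0, h1, h2⟩ := h.unif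
  obtain ⟨a, ha⟩ := h.alpha_conv
  let H : ℕ → ℕ × ℕ → ℝ → ℝ := fun r i x =>
    FF l N z (max i.1 i.2 + r) x ^ N - FF l N z (min i.1 i.2 + r) x ^ N
  have hF : ∀ k x, 0 < x → 0 ≤ FF l N z k x := fun k x hx =>
    zero_le_one.trans (one_le_FF h.toPar hz _ hx)
  have hA : ∀ r i, Adm (H r i) := fun r i => (adm_FF l N z _ N).sub (adm_FF l N z _ N)
  have hb : ∀ r i x, 0 < x → |H r i x| ≤ B * exp (κ * x) := fun r i x hx =>
    abs_sub_le_iff.2 ⟨(sub_le_self _ (pow_nonneg (hF _ x hx) N)).trans (h2 _ x hx),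
      (sub_le_self _ (pow_nonneg (hF _ x hx) N)).trans (h2 _ x hx)⟩
  have hm : Tendsto (fun i : ℕ × ℕ => min i.1 i.2) atTop atTop :=
    tendsto_atTop.2 fun n => (eventually_ge_atTop (n, n)).mono fun i hi => le_min hi.1 hi.2
  have hT : ∀ r, Tendsto (fun i => IK (H r i) 0) atTop (𝓝 0) := fun r => by
    have h3 := ((tendsto_add_atTop_iff_nat (r + 1)).2 ha)
    have h4 := ((h3.comp (tendsto_atTop_mono (fun i => min_le_max) hm)).sub (h3.comp hm)).div_const l
    rw [sub_self, zero_div] at h4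
    refine h4.congr fun i => ?_
    simp only [Function.comp, ← add_assoc]
    rw [FF_sub h.toPar _ _ le_rfl, mul_zero, mul_div_cancel_left₀ _ hl.ne']
  have h3 : ∀ x, 0 < x → Tendsto (fun i => min (H 1 i x) 0) atTop (𝓝 0) := fun x hx => by
    have h4 := IK_key (f := H 0) h0 h1 hB (fun i => by
      have := (SC_orbit h.toPar hz (max i.1 i.2 - min i.1 i.2) (min i.1 i.2)).pow
        (hF _) (hF _) N
      rwa [Nat.sub_add_cancel min_le_max] at this) (hA 0)
      (fun i x hx => (abs_le.1 (hb 0 i x hx)).1) (hT 0) (mul_pos hl hx).le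
    have h5 := ((h4.const_mul (x * l)).mul_const (N * (B * exp (κ * x))))
    rw [mul_zero, zero_mul] at h5
    refine tendsto_of_tendsto_of_tendsto_of_le_of_le h5 tendsto_const_nhds (fun i => ?_)
      fun i => min_le_right _ _
    have h6 : FF l N z (max i.1 i.2 + 1) x - FF l N z (min i.1 i.2 + 1) x =
        x * l * IK (H 0 i) (l * x) := by
      rw [FF, FF, add_sub_add_left_eq_sub, ← mul_sub, FF_sub h.toPar _ _ hx.le, mul_assoc]; rfl
    have h7 := one_le_FF h.toPar hz (min i.1 i.2 + 1) hx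
    have h8 := hF (max i.1 i.2 + 1) x hx
    have h9 := h2 (min i.1 i.2 + 1) x hx
    simp only [H] at h6 ⊢
    rw [mul_min_of_nonneg _ _ (by positivity), mul_zero, ← h6]
    set u := FF l N z (max i.1 i.2 + 1) x
    set v := FF l N z (min i.1 i.2 + 1) x
    rcases le_total u v with h10 | h10
    · have h11 := abs_pow_sub_pow_le (a := u) (b := v) (n := N)
      rw [abs_of_nonneg h8, abs_of_nonneg (by linarith : 0 ≤ v), max_eq_right h10,
        abs_of_nonpos (sub_nonpos.2 h10)] at h11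
      have h12 := (pow_le_pow_right₀ h7 (Nat.sub_le N 1)).trans h9
      rw [min_eq_left (sub_nonpos.2 h10)]
      refine le_min ?_ (mul_nonpos_of_nonpos_of_nonneg (sub_nonpos.2 h10) (by positivity))
      nlinarith [neg_abs_le (u ^ N - v ^ N), mul_le_mul_of_nonneg_left h12
        (mul_nonneg (sub_nonneg.2 h10) h.N_pos.le)]
    · rw [min_eq_right (sub_nonneg.2 h10), zero_mul,
        min_eq_right (sub_nonneg.2 (pow_le_pow_left₀ (by linarith) h10 N))]
  have hm1 : ∀ i x, 0 < x → |min (H 1 i x) 0| ≤ B * exp (κ * x) := fun i x hx =>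
    (abs_min_le_max_abs_abs ..).trans (max_le (hb 1 i x hx) (by rw [abs_zero]; positivity))
  have aB := (adm_exp h1).const_mul B
  have h4 := IK_tendsto (φ := fun _ => 0) (fun i => (hA 1 i).1.min continuous_const) aB hm1 h3 le_rfl
  have a2 : ∀ i, Adm fun x => -|H 1 i x| := fun i => (hA 1 i).of_le (hA 1 i).1.abs.neg
    fun x _ => by simp
  have h5 := IK_key (f := fun i x => -|H 1 i x|) (l := atTop) h0 h1 hB
    (fun i s t _ _ h => absurd h (by simp)) a2 (fun i x hx => neg_le_neg (hb 1 i x hx)) (by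
      have h6 := (h4.const_mul 2).sub (hT 1)
      simp only [IK, zero_mul, MeasureTheory.integral_zero, mul_zero, sub_zero] at h6
      refine h6.congr fun i => ?_
      have h7 := IK_sub ((aB.of_le ((hA 1 i).1.min continuous_const) fun x hx =>
        (hm1 i x hx).trans (le_abs_self _)).const_mul 2) (hA 1 i) le_rfl
      rw [IK_const_mul] at h7
      refine h7.symm.trans (congrArg (IK · 0) (funext fun x => ?_))
      rcases le_total (H 1 i x) 0 with h8 | h8
      · rw [min_eq_left h8, abs_of_nonpos h8]; ring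
      · rw [min_eq_right h8, abs_of_nonneg h8]; ring) (mul_nonneg hl.le ht)
  have h6 : CauchySeq fun k => (UU l N z (k + 2)).eval t := by
    refine cauchySeq_iff_tendsto_dist_atTop_0.2 (squeeze_zero (fun _ => dist_nonneg) (fun i => ?_)
      (by simpa using h5.const_mul (-l)))
    have h7 := FF_sub (z := z) h.toPar (max i.1 i.2 + 1) (min i.1 i.2 + 1) ht
    have h8 : |IK (H 1 i) (l * t)| ≤ -IK (fun x => -|H 1 i x|) (l * t) := by
      refine abs_le.2 ⟨(neg_neg _).trans_le (IK_mono (a2 i) (hA 1 i) (by positivity)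
        fun x _ => neg_abs_le _), ?_⟩
      rw [← neg_one_mul, ← IK_const_mul]
      exact IK_mono (hA 1 i) ((a2 i).const_mul _) (by positivity) fun x _ => by
        simpa using le_abs_self _
    have h9 : dist ((UU l N z (i.1 + 2)).eval t) ((UU l N z (i.2 + 2)).eval t) =
        l * |IK (H 1 i) (l * t)| := by
      rw [← abs_of_pos hl, ← abs_mul, abs_of_pos hl, ← h7, Real.dist_eq]
      rcases le_total i.1 i.2 with h | h
      · rw [max_eq_right h, min_eq_left h, abs_sub_comm]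
      · rw [max_eq_left h, min_eq_right h]
    rw [h9, min_eq_left (by linarith [abs_nonneg (IK (H 1 i) (l * t))])]
    nlinarith
  obtain ⟨b, hb⟩ := cauchySeq_tendsto_of_complete h6
  exact ⟨b, (tendsto_add_atTop_iff_nat 2).1 hb⟩

end Pool.Agent.Lib.LRS
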