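import Pool.Agent.Lib.LRS.RG4

/-! The linearised flow; the critical orbit has small exponential type. -/

namespace Pool.Agent.Lib.LRS

open Set Real Filter Topology Polynomial

/-- linearised step with multiplier `h` -/
noncomputable def Td (l : ℝ) (h : ℝ[X]) : ℝ[X] →ₗ[ℝ] ℝ[X] := Ud l ∘ₗ LinearMap.mulLeft ℝ (h * X)

/-- products of linearised steps -/
noncomputable def TP (l : ℝ) (h : ℕ → ℝ[X]) (i : ℕ) : ℕ → ℝ[X] →ₗ[ℝ] ℝ[X]
  | 0 => LinearMap.id
  | p + 1 => Td l (h (i + p)) ∘ₗ TP l h i p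

/-- growth factor -/
noncomputable def gf (l : ℝ) (h : ℕ → ℝ[X]) (i p : ℕ) : ℝ := (TP l h i p 1).eval 0

/-- nonnegative on the half line -/
def NN (Q : ℝ[X]) : Prop := ∀ t, 0 ≤ t → 0 ≤ Q.eval t

/-- the derivative of the power map -/
noncomputable def dP (N : ℕ) (U : ℝ[X]) : ℝ[X] := C (N : ℝ) * (1 + X * U) ^ (N - 1)

variable {l z A t : ℝ} {N : ℕ} {U Q g : ℝ[X]} {h : ℕ → ℝ[X]}

theorem Td_apply (l : ℝ) (g Q : ℝ[X]) : Td l g Q = Ud l (g * X * Q) := rfl

theorem adm_Td (g Q : ℝ[X]) : Adm fun x => g.eval x * x * Q.eval x := by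
  have := adm_poly (g * X * Q)
  simp only [eval_mul, eval_X] at this
  exact this

theorem Td_eval (hl : 0 ≤ l) (ht : 0 ≤ t) (g Q : ℝ[X]) :
    (Td l g Q).eval t = l * IK (fun x => g.eval x * x * Q.eval x) (l * t) := by
  simp [Td_apply, Ud_eval hl ht]

theorem TP_succ (l : ℝ) (h : ℕ → ℝ[X]) (i p : ℕ) (Q : ℝ[X]) :
    TP l h i (p + 1) Q = Td l (h (i + p)) (TP l h i p Q) := rfl

theorem TP_zero (l : ℝ) (h : ℕ → ℝ[X]) (i : ℕ) (Q : ℝ[X]) : TP l h i 0 Q = Q := rfl

theorem Pos.nn (hQ : Pos Q) : NN Q := fun _ ht => hQ.nonneg ht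

theorem NN.td (hl : 0 ≤ l) (hg : NN g) (hQ : NN Q) : NN (Td l g Q) := fun t ht => by
  rw [Td_eval hl ht]
  exact mul_nonneg hl (IK_nonneg (mul_nonneg hl ht) fun x hx =>
    mul_nonneg (mul_nonneg (hg x hx.le) hx.le) (hQ x hx.le))

theorem NN.tp (hl : 0 ≤ l) (hh : ∀ i, NN (h i)) (hQ : NN Q) (i p : ℕ) : NN (TP l h i p Q) := by
  induction p with
  | zero => exact hQ
  | succ p ih => rw [TP_succ]; exact NN.td hl (hh _) ih

theorem Pos.td (hl : 0 ≤ l) (hg : Pos g) (hQ : Pos Q) : Pos (Td l g Q) :=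
  ((hg.mul pos_X).mul hQ).ud hl

theorem Pos.tp (hl : 0 ≤ l) (hh : ∀ i, Pos (h i)) (hQ : Pos Q) (i p : ℕ) : Pos (TP l h i p Q) := by
  induction p with
  | zero => exact hQ
  | succ p ih => rw [TP_succ]; exact Pos.td hl (hh _) ih

theorem TP_add (l : ℝ) (h : ℕ → ℝ[X]) (i p q : ℕ) (Q : ℝ[X]) :
    TP l h i (p + q) Q = TP l h (i + p) q (TP l h i p Q) := by
  induction q with
  | zero => rfl
  | succ q ih => rw [← add_assoc, TP_succ, TP_succ, ih, add_assoc]

theorem TP_succ' (l : ℝ) (h : ℕ → ℝ[X]) (i p : ℕ) (Q : ℝ[X]) :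
    TP l h i (p + 1) Q = TP l h (i + 1) p (Td l (h i) Q) := by rw [add_comm p, TP_add]; rfl

theorem TP_C (l : ℝ) (h : ℕ → ℝ[X]) (i p : ℕ) (a : ℝ) :
    (TP l h i p (C a)).eval 0 = a * gf l h i p := by
  rw [show C a = a • (1 : ℝ[X]) by simp [smul_eq_C_mul], map_smul, eval_smul, smul_eq_mul, gf]

theorem TP_ge (hl : 0 ≤ l) (hh : ∀ i, NN (h i)) {a : ℝ} (hQ : NN (Q - C a)) (i p : ℕ) :
    a * gf l h i p ≤ (TP l h i p Q).eval 0 := by
  have := hQ.tp hl hh i p 0 le_rfl
  rwa [map_sub, eval_sub, TP_C, sub_nonneg] at this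

theorem Pos.sub_C (hQ : Pos Q) : Pos (Q - C (Q.eval 0)) := fun j => by
  rw [coeff_sub, coeff_C, ← coeff_zero_eq_eval_zero]
  split_ifs with h1
  · simp [h1]
  · simpa using hQ j

theorem gf_super (hl : 0 ≤ l) (hh : ∀ i, Pos (h i)) (i p q : ℕ) :
    gf l h i p * gf l h (i + p) q ≤ gf l h i (p + q) := by
  rw [gf, gf.eq_1 l h i (p + q), TP_add]
  exact TP_ge hl (fun i => (hh i).nn) (pos_one.tp hl hh i p).sub_C.nn _ _

theorem Pos.of_sub (hg : Pos (g - C (N : ℝ))) : Pos g := by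
  simpa using hg.add (pos_C (Nat.cast_nonneg N))

theorem Td_lower (hl : 0 ≤ l) (hg : Pos (g - C (N : ℝ))) (hQ : Pos Q) :
    l * N * Q.eval 0 ≤ (Td l g Q).eval 0 := by
  have h1 := ((((hg.mul pos_X).mul hQ).add (((pos_C (Nat.cast_nonneg N)).mul pos_X).mul
    hQ.sub_C)).ud hl).zero_le
  rw [show (g - C (N : ℝ)) * X * Q + C (N : ℝ) * X * (Q - C (Q.eval 0)) =
    g * X * Q - monomial 1 (N * Q.eval 0) by rw [← C_mul_X_eq_monomial, C_mul]; ring, map_sub,
    Ud_monomial, eval_sub, sub_nonneg] at h1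
  refine le_trans (le_of_eq ?_) h1
  simp [Up]
  ring

theorem gf_zero (l : ℝ) (h : ℕ → ℝ[X]) (i : ℕ) : gf l h i 0 = 1 := by simp [gf, TP]

theorem gf_one (hl : 0 ≤ l) (hh : ∀ i, Pos (h i - C (N : ℝ))) (i : ℕ) : l * N ≤ gf l h i 1 := by
  rw [gf, TP_succ, TP_zero]
  simpa using Td_lower hl (hh i) pos_one

theorem gf_pos (hp : Par l N) (hh : ∀ i, Pos (h i - C (N : ℝ))) (i p : ℕ) : 0 < gf l h i p := by
  induction p with
  | zero => simp [gf_zero]
  | succ p ih =>
    exact (mul_pos ih ((mul_pos hp.l_pos hp.N_pos).trans_le (gf_one hp.l_pos.le hh _))).trans_le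
      (gf_super hp.l_pos.le (fun i => (hh i).of_sub) i p 1)

theorem Pos.pow_sub (hU : Pos U) (n : ℕ) : Pos ((1 + X * U) ^ n - 1) := by
  rw [← geom_sum_mul, add_sub_cancel_left]
  exact (pos_sum fun i _ => hU.lift.pow _).mul (pos_X.mul hU)

theorem Pos.dP (hU : Pos U) : Pos (dP N U - C (N : ℝ)) := by
  rw [LRS.dP, ← mul_sub_one]
  exact (pos_C (Nat.cast_nonneg N)).mul (hU.pow_sub _)

theorem dP_eval (N : ℕ) (U : ℝ[X]) (x : ℝ) :
    (dP N U).eval x = N * (1 + x * U.eval x) ^ (N - 1) := by simp [dP]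

theorem grow {b : ℕ → ℝ} {ρ : ℝ} (hρ : 1 < ρ) {n : ℕ} (h0 : 0 < b n)
    (h : ∀ p, n ≤ p → ρ * b p ≤ b (p + 1)) (M : ℝ) : ∃ p, M < b p := by
  have h1 : ∀ q, ρ ^ q * b n ≤ b (n + q) := fun q => by
    induction q with
    | zero => simp
    | succ q ih =>
      rw [pow_succ', mul_assoc]
      exact (mul_le_mul_of_nonneg_left ih (by linarith)).trans (h _ (by omega))
  obtain ⟨q, hq⟩ := pow_unbounded_of_one_lt (M / b n) hρ
  exact ⟨_, ((div_lt_iff₀ h0).1 hq).trans_le (h1 q)⟩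

theorem tend_min {ι : Type*} {F : Filter ι} {f : ι → ℝ} {a : ℝ}
    (h : ∀ c < a, ∀ᶠ i in F, c < f i) : Tendsto (fun i => min (f i) a) F (𝓝 a) :=
  tendsto_order.2 ⟨fun c hc => (h c hc).mono fun _ hi => lt_min hi hc,
    fun _ hc => Eventually.of_forall fun _ => min_lt_of_right_lt hc⟩

theorem Crt.not_gauss (hc : Crt l N z A) (hd : 1 < l * N ^ 2) {B θ : ℝ} (hθ : 0 < θ)
    (hθ1 : θ * (l * N) < 1) (hQ : ∀ k, gf l (fun k => dP N (UU l N z k)) 0 k ≤ B * θ ^ k) :
    ¬ ∀ x, 0 < x → ∀ c < exp ((1 - l * N) / N * x), ∀ᶠ k in atTop, c < FF l N z k x := by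
  intro hG
  have hl := hc.l_pos
  have hN := hc.N_pos
  have hz := hc.z_pos.le
  have hP := fun k => (UU_pos hc.toPar hz k).dP (N := N)
  have hlN := mul_pos hl hN
  set τ := (1 - l * N) / N with hτ
  have hτ0 : 0 < τ := div_pos (sub_pos.2 hc.lt_one) hN
  let e : ℕ → ℝ := fun p => Nat.rec τ (fun _ x => x / (N * (l * N + x))) p
  let c : ℕ → ℝ := fun p => Nat.rec 1 (fun p x => x * (l * N / (l * N + e p) ^ 2)) p
  have he : ∀ p, 0 < e p ∧ e p ≤ τ * (l * N ^ 2)⁻¹ ^ p := fun p => by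
    induction p with
    | zero => exact ⟨hτ0, by simp [e]⟩
    | succ p ih =>
      have := ih.1
      refine ⟨by simp only [e] at this ⊢; positivity, ?_⟩
      rw [pow_succ, ← mul_assoc, ← div_eq_mul_inv]
      exact div_le_div₀ (this.le.trans ih.2) ih.2 (by positivity) (by nlinarith)
  have hc0 : ∀ p, 0 < c p := fun p => by
    induction p with
    | zero => exact one_pos
    | succ p ih => have := (he p).1; exact mul_pos ih (by positivity)
  have key : ∀ p t, 0 ≤ t → ∀ a < c p * exp ((τ - e p) * t), ∀ᶠ i in atTop,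
      a < (TP l (fun k => dP N (UU l N z k)) i p 1).eval t := by
    intro p
    induction p with
    | zero => intro t _ a ha; exact Eventually.of_forall fun i => by simpa [c, e, TP] using ha
    | succ p ih =>
      intro t ht a ha
      have h1 := (he p).1
      have hσ : 1 - (l * N + e p) < 1 := by linarith
      have h2 := IK_fatou (l := atTop)
        (fun i => adm_Td (dP N (UU l N z (i + p))) (TP l (fun k => dP N (UU l N z k)) i p 1))
        ((adm_pow_exp 1 hσ).const_mul (N * c p))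
        (fun i x hx => mul_nonneg (mul_nonneg ((hP _).of_sub.nonneg hx.le) hx.le)
          ((pos_one.tp hl.le (fun i => (hP i).of_sub) i p).nonneg hx.le))
        (fun x hx => by have := hc0 p; positivity) (fun x hx b hb => by
          have h3 := ((((tend_min (hG x hx)).comp (tendsto_add_atTop_nat p)).pow (N - 1)).const_mul
            (N : ℝ)).mul_const x |>.mul (tend_min (ih x hx.le))
          have h4 : N * exp (τ * x) ^ (N - 1) * x * (c p * exp ((τ - e p) * x)) =
              N * c p * (x ^ 1 * exp ((1 - (l * N + e p)) * x)) := by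
            rw [← exp_nat_mul, Nat.cast_pred (two_pos.trans_le hc.two_le),
              show (1 - (l * N + e p)) * x = (N - 1) * (τ * x) + (τ - e p) * x by
                rw [hτ]; field_simp; ring, exp_add]
            ring
          rw [h4] at h3
          refine (h3.eventually_const_lt hb).mono fun i hi => hi.trans_le ?_
          have h5 := one_le_FF hc.toPar hz (i + p) hx
          have h6 := (pos_one.tp hl.le (fun i => (hP i).of_sub) i p).nonneg hx.le
          have h7 := hc0 p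
          rw [dP_eval]
          refine mul_le_mul (mul_le_mul_of_nonneg_right (mul_le_mul_of_nonneg_left
            (pow_le_pow_left₀ (le_min (by linarith) (exp_pos _).le) (min_le_left _ _) _) hN.le)
              hx.le) (min_le_left _ _) (le_min h6 (by positivity)) ?_
          exact mul_nonneg (mul_nonneg hN.le (pow_nonneg (zero_le_one.trans h5) _)) hx.le)
        (mul_nonneg hl.le ht) (a / l) (by
          simp only [pow_one]
          rw [IK_const_mul, IK_exp1 hσ (mul_nonneg hl.le ht), div_lt_iff₀' hl, sub_sub_cancel,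
            show l * t * ((1 - (l * N + e p)) / (l * N + e p)) = (τ - e (p + 1)) * t by
              rw [show e (p + 1) = e p / (N * (l * N + e p)) from rfl, hτ]; field_simp; ring]
          refine ha.trans_eq ?_
          rw [show c (p + 1) = c p * (l * N / (l * N + e p) ^ 2) from rfl]
          ring)
      exact h2.mono fun i hi => by rwa [TP_succ, Td_eval hl.le ht, ← div_lt_iff₀' hl]
  have h1 : Tendsto (fun p => l * N / (l * N + e p) ^ 2 / θ) atTop (𝓝 (l * N / (l * N + 0) ^ 2 / θ)) :=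
    (tendsto_const_nhds.div ((tendsto_const_nhds.add (squeeze_zero (fun p => (he p).1.le)
      (fun p => (he p).2) (by simpa using (tendsto_pow_atTop_nhds_zero_of_lt_one (by positivity)
        (inv_lt_one_of_one_lt₀ hd)).const_mul τ))).pow 2) (by positivity)).div_const θ
  obtain ⟨ρ, h2, h3⟩ := exists_between (show 1 < l * N / (l * N + 0) ^ 2 / θ by
    rw [one_lt_div hθ, lt_div_iff₀ (by positivity)]; nlinarith [mul_lt_mul_of_pos_right hθ1 hlN])
  obtain ⟨n, hn⟩ := eventually_atTop.1 (h1.eventually_const_lt h3)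
  obtain ⟨p, hp⟩ := grow (b := fun p => c p / θ ^ p) h2 (div_pos (hc0 n) (by positivity))
    (fun p hp => (mul_le_mul_of_nonneg_right (hn p hp).le (div_pos (hc0 p) (by positivity)).le).trans
      (le_of_eq (by rw [show c (p + 1) = c p * (l * N / (l * N + e p) ^ 2) from rfl]; ring))) 1
  obtain ⟨r, h4, h5⟩ := exists_between hp
  obtain ⟨i, hi⟩ := eventually_atTop.1 (key p 0 le_rfl (r * θ ^ p)
    (by simpa using (lt_div_iff₀ (by positivity)).1 h5))
  obtain ⟨q, hq⟩ := grow (b := fun q => gf l (fun k => dP N (UU l N z k)) 0 (i + q * p) /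
    θ ^ (i + q * p)) h4 (n := 0) (div_pos (gf_pos hc.toPar hP _ _) (by positivity)) (fun q _ => by
      have h6 := gf_super hl.le (fun i => (hP i).of_sub) 0 (i + q * p) p
      have h7 := mul_le_mul_of_nonneg_left (hi (0 + (i + q * p)) (by omega)).le
        (gf_pos hc.toPar hP 0 (i + q * p)).le
      rw [add_mul, one_mul, ← add_assoc, pow_add _ _ p, ← div_div, div_right_comm, ← mul_div_assoc]
      refine div_le_div_of_nonneg_right ((le_div_iff₀ (by positivity)).2 ?_) (by positivity)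
      exact le_trans (le_of_eq (by ring)) (h7.trans h6)) B
  exact absurd ((lt_div_iff₀ (by positivity)).1 hq) (not_lt.2 (hQ _))

theorem Crt.small (hc : Crt l N z A) (hd : 1 < l * N ^ 2) {B θ : ℝ} (hθ : 0 < θ)
    (hθ1 : θ * (l * N) < 1) (hQ : ∀ k, gf l (fun k => dP N (UU l N z k)) 0 k ≤ B * θ ^ k)
    {δ : ℝ} (hδ : 0 < δ) : ∃ M, 1 ≤ M ∧ ∀ k x, 0 < x → FF l N z k x ≤ M * exp (δ * x) := by
  have hN := hc.N_pos
  have hz := hc.z_pos.le
  obtain ⟨x, hx, h1⟩ : ∃ x, 0 < x ∧ ∃ c < exp ((1 - l * N) / N * x),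
      ¬ ∀ᶠ k in atTop, c < FF l N z k x := by
    by_contra h1
    exact hc.not_gauss hd hθ hθ1 hQ fun x hx c h2 => by_contra fun h3 => h1 ⟨x, hx, c, h2, h3⟩
  obtain ⟨c, h1, h2⟩ := h1
  obtain ⟨a, ha⟩ := hc.conv hx.le
  have h3 : Tendsto (fun k => FF l N z k x) atTop (𝓝 (1 + x * a)) := (ha.const_mul x).const_add 1
  have h4 := (not_lt.1 fun h => h2 (h3.eventually_const_lt h)).trans_lt h1
  have h5 : ContinuousAt (fun κ => exp (κ * x)) ((1 - l * N) / N) := by fun_prop
  obtain ⟨κ, h6, h7⟩ := (((h5.eventually_const_lt h4).filter_mono nhdsWithin_le_nhds).and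
    (Ioo_mem_nhdsLT (div_pos (sub_pos.2 hc.lt_one) hN))).exists
  obtain ⟨k₀, hk₀⟩ := eventually_atTop.1 (h3.eventually_lt_const h6)
  obtain ⟨s, E, hE, rfl, hs⟩ := hc.exists_sig h7.1 ((lt_div_iff₀' hN).1 h7.2)
  obtain ⟨n, hn⟩ := exists_pow_lt_of_lt_one (div_pos hδ hE) hc.lt_one
  have h8 : ∀ j, ∃ M, 1 ≤ M ∧ ∀ k < j, ∀ x, 0 < x → FF l N z k x ≤ M * exp (δ * x) := fun j => by
    induction j with
    | zero => exact ⟨1, le_rfl, fun k hk => absurd hk (by omega)⟩
    | succ j ih =>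
      obtain ⟨M, h8, h9⟩ := ih
      obtain ⟨M', -, h10⟩ := poly_le_exp (1 + X * UU l N z j) hδ
      refine ⟨max M M', le_max_of_le_left h8, fun k hk x hx => ?_⟩
      rcases Nat.lt_succ_iff_lt_or_eq.1 hk with hk | rfl
      · exact (h9 k hk x hx).trans (by gcongr; exact le_max_left _ _)
      · exact le_trans (by simpa [FF] using h10 x hx)
          (mul_le_mul_of_nonneg_right (le_max_right M M') (exp_pos _).le)
  obtain ⟨M, h9, h10⟩ := h8 (n + k₀)
  refine ⟨max M (exp (s 0 * x) ^ N ^ n), le_max_of_le_left h9, fun k y hy => ?_⟩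
  rcases lt_or_ge k (n + k₀) with hk | hk
  · exact (h10 k hk y hy).trans (by gcongr; exact le_max_left _ _)
  obtain ⟨j, rfl⟩ := Nat.exists_eq_add_of_le (le_self_add.trans hk)
  have h11 := iter_le_exp hc.toPar (fun n => ⟨(hs n).1, (hs n).2.1⟩) (UU_pos hc.toPar hz j)
    (one_le_exp (mul_pos h7.1 hx).le) (fun y hy => FF_le_of_lt hc.toPar hz h7.1 hx
      (hk₀ j (by omega)) hy) n y hy
  rw [UU, ← Function.iterate_add_apply] at h11
  refine h11.trans (mul_le_mul (le_max_right _ _) (exp_le_exp.2 (mul_le_mul_of_nonneg_right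
    ((hs n).2.2.trans ((lt_div_iff₀' hE).1 hn).le) hy.le)) (exp_pos _).le ?_)
  exact le_max_of_le_left (by linarith)

end Pool.Agent.Lib.LRS
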