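import Pool.Agent.Lib.LRS.RG5

/-! Harnack inequalities for the linearised flow. -/

namespace Pool.Agent.Lib.LRS

open Set Real Filter Topology Polynomial

/-- admissible multipliers -/
def Mult (N : ℕ) (E : ℝ) (g : ℝ[X]) : Prop :=
  Pos (g - C (N : ℝ)) ∧ ∀ x, 0 < x → g.eval x ≤ E * exp (1 / 32 * x)

/-- forward Harnack class -/
def FH (K : ℝ) (Q : ℝ[X]) : Prop := Pos Q ∧ ∀ t, 0 ≤ t → Q.eval t ≤ K * Q.eval 0 * exp (1 / 8 * t)

variable {l z A B E t : ℝ} {N : ℕ} {P U Q g : ℝ[X]} {h : ℕ → ℝ[X]}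

theorem Ud_le (hp : Par l N) (hB : 0 ≤ B) {σ : ℝ} (h0 : 0 ≤ σ) (h1 : σ ≤ 1 / 2)
    (h : ∀ x, 0 < x → P.eval x - P.eval 0 ≤ B * (x * exp (σ * x))) (ht : 0 ≤ t) :
    (Ud l P).eval t ≤ 2 * B * exp (σ / (1 - σ) / 2 * t) := by
  have hl := hp.l_pos
  have h2 := hp.half
  have hσ : σ < 1 := by linarith
  have h3 := IK_mono ((adm_poly P).sub (adm_const _)) (Adm.const_mul
    (by simpa using adm_pow_exp 1 hσ) B) (mul_nonneg hl.le ht) h
  rw [IK_const_mul, IK_exp1 hσ (mul_nonneg hl.le ht)] at h3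
  rw [Ud_eval hl.le ht]
  refine (mul_le_mul_of_nonneg_left h3 hl.le).trans ?_
  have h4 : exp (l * t * (σ / (1 - σ))) ≤ exp (σ / (1 - σ) / 2 * t) := exp_le_exp.2 (by
    nlinarith [mul_nonneg ht (div_nonneg h0 (sub_pos.2 hσ).le)])
  have h5 : l / (1 - σ) ^ 2 ≤ 2 := (div_le_iff₀ (pow_pos (sub_pos.2 hσ) 2)).2 (by nlinarith)
  refine le_trans (le_of_eq (by ring)) (mul_le_mul (mul_le_mul_of_nonneg_right h5 hB) h4
    (exp_pos _).le (by positivity))

theorem Td_le (hp : Par l N) (hg : Mult N E g) (hE : 0 < E) (hB : 0 ≤ B) {σ : ℝ} (h0 : 0 ≤ σ)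
    (h1 : σ ≤ 1 / 4) (h : ∀ x, 0 ≤ x → Q.eval x ≤ B * exp (σ * x)) :
    (∀ x, 0 < x → g.eval x * x * Q.eval x ≤ E * B * (x * exp ((1 / 32 + σ) * x))) ∧
    ∀ t, 0 ≤ t → (Td l g Q).eval t ≤ 2 * (E * B) * exp ((1 / 32 + σ) / (1 - (1 / 32 + σ)) / 2 * t) := by
  have h2 : ∀ x, 0 < x → g.eval x * x * Q.eval x ≤ E * B * (x * exp ((1 / 32 + σ) * x)) :=
    fun x hx => by
      refine (mul_le_mul_of_nonneg_left (h x hx.le)
        (mul_nonneg (hg.1.of_sub.nonneg hx.le) hx.le)).trans ((mul_le_mul_of_nonneg_right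
          (mul_le_mul_of_nonneg_right (hg.2 x hx) hx.le) (by positivity)).trans (le_of_eq ?_))
      rw [add_mul, exp_add]
      ring
  exact ⟨h2, fun t ht => Ud_le hp (by positivity) (by linarith) (by linarith)
    (fun x hx => by simpa [mul_assoc] using h2 x hx) ht⟩

theorem exp_split {a b c ρ : ℝ} (hc : 0 < c) (hρ : 0 < ρ) (hab : a < b) :
    ∃ T, 0 ≤ T ∧ ∀ t, T ≤ t → c * exp (a * t) ≤ ρ * exp (b * t) := by
  have h1 := sub_pos.2 hab
  refine ⟨c / ρ / (b - a), by positivity, fun t ht => ?_⟩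
  rw [div_le_iff₀ h1, div_le_iff₀ hρ] at ht
  rw [show b * t = t * (b - a) + a * t by ring, exp_add, ← mul_assoc]
  exact mul_le_mul_of_nonneg_right (by nlinarith [add_one_le_exp (t * (b - a))]) (exp_pos _).le

theorem back_harnack (hp : Par l N) (hE : 0 < E) : ∃ H, 1 ≤ H ∧ ∀ h : ℕ → ℝ[X],
    (∀ n, Mult N E (h n)) → ∀ p i Q B, 0 ≤ B → (∀ t, 0 ≤ t → Q.eval t ≤ B * exp (1 / 4 * t)) →
      (TP l h i p Q).eval 0 ≤ H * B * gf l h i p := by
  have hlN := mul_pos hp.l_pos hp.N_pos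
  obtain ⟨T, hT, h1⟩ := exp_split (a := (1 / 32 + 1 / 4) / (1 - (1 / 32 + 1 / 4)) / 2) (b := 1 / 4)
    (c := 2 * E) (ρ := l * N / 2) (by positivity) (by positivity) (by norm_num)
  set D := 2 * E * exp (1 / 4 * T) with hD
  have hD0 : 0 < D := by positivity
  refine ⟨1 + 2 * D / (l * N), le_add_of_nonneg_right (by positivity), fun h hh p => ?_⟩
  induction p with
  | zero =>
    intro i Q B hB h2
    have := h2 0 le_rfl
    rw [mul_zero, exp_zero, mul_one] at this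
    rw [gf_zero, TP_zero, mul_one]
    exact this.trans (le_mul_of_one_le_left hB (le_add_of_nonneg_right (by positivity)))
  | succ p ih =>
    intro i Q B hB h2
    have h3 := ih (i + 1) (Td l (h i) Q - C (B * D)) (l * N / 2 * B) (by positivity) fun t ht => by
      have h3 := (Td_le hp (hh i) hE hB (by norm_num) le_rfl h2).2 t ht
      rw [eval_sub, eval_C]
      rcases le_total T t with h4 | h4
      · nlinarith [mul_le_mul_of_nonneg_left (h1 t h4) hB, mul_nonneg hB hD0.le]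
      · have h5 : exp ((1 / 32 + 1 / 4) / (1 - (1 / 32 + 1 / 4)) / 2 * t) ≤ exp (1 / 4 * T) :=
          exp_le_exp.2 (by nlinarith)
        nlinarith [mul_le_mul_of_nonneg_left h5 (by positivity : 0 ≤ 2 * (E * B)),
          (by positivity : 0 ≤ l * N / 2 * B * exp (1 / 4 * t))]
    rw [map_sub, eval_sub, TP_C, ← TP_succ'] at h3
    have h4 := gf_super hp.l_pos.le (fun i => (hh i).1.of_sub) i 1 p
    have h5 := gf_pos hp (fun i => (hh i).1) (i + 1) p
    have h6 := (mul_le_mul_of_nonneg_right (gf_one hp.l_pos.le (fun i => (hh i).1) i) h5.le).trans h4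
    rw [add_comm 1 p] at h6
    refine le_trans ?_ (mul_le_mul_of_nonneg_left h6 (by positivity))
    have h7 : (1 + 2 * D / (l * N)) * (l * N) = l * N + 2 * D := by
      rw [add_mul, one_mul, div_mul_cancel₀ _ hlN.ne']
    have h8 := mul_nonneg (mul_nonneg hlN.le hB) h5.le
    linarith [congrArg (· * (B * gf l h (i + 1) p)) h7]

theorem fwd_harnack (hp : Par l N) (hE : 0 < E) : ∃ K₀, 1 ≤ K₀ ∧ ∀ K, K₀ ≤ K → ∀ g Q,
    Mult N E g → FH K Q → FH K (Td l g Q) := by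
  have hl := hp.l_pos
  have hN := hp.N_pos
  obtain ⟨T, hT, h1⟩ := exp_split (a := (1 / 32 + 1 / 8) / (1 - (1 / 32 + 1 / 8)) / 2) (b := 1 / 8)
    (c := 2 * E) (ρ := l * N) (by positivity) (by positivity) (by norm_num)
  obtain ⟨K₁, hK₁, h2⟩ := IK_trunc (σ := 1 / 4) (Y := T) (ε := 3 * N / (64 * E)) (by norm_num)
    (by norm_num) hT (by positivity)
  refine ⟨1 + 2 * K₁, by linarith, fun K hK g Q hg hQ => ⟨hg.1.of_sub.td hl.le hQ.1, fun t ht => ?_⟩⟩
  have hK0 : 0 ≤ K := by linarith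
  have hQ0 := hQ.1.zero_le
  obtain ⟨h3, h4⟩ := Td_le hp hg hE (mul_nonneg hK0 hQ0) (by norm_num) (by norm_num) hQ.2
  have h5 := Td_lower hl.le hg.1 hQ.1
  rcases le_total T t with h6 | h6
  · nlinarith [h4 t ht, mul_le_mul_of_nonneg_left (h1 t h6) (mul_nonneg hK0 hQ0),
      mul_le_mul_of_nonneg_left h5 (mul_nonneg hK0 (exp_pos (1 / 8 * t)).le)]
  have h7 : ∀ x, 0 < x → 0 ≤ g.eval x * x * Q.eval x := fun x hx =>
    mul_nonneg (mul_nonneg (hg.1.of_sub.nonneg hx.le) hx.le) (hQ.1.nonneg hx.le)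
  have h8 := h2 _ (32 / 3 * (E * (K * Q.eval 0))) _ (l * t)
    (fun s t _ _ h => absurd h (by linarith [h7 s ‹_›])) ((adm_Td g Q).const_mul (-1))
    (by positivity) (IK_nonneg le_rfl h7) (fun x hx => by
      have h8 := mul_le_mul_of_nonneg_right (pow_le_exp 1 (η := 3 / 32) (by norm_num) hx.le)
        (exp_pos ((1 / 32 + 1 / 8) * x)).le
      rw [mul_assoc, ← exp_add, show 3 / 32 * x + (1 / 32 + 1 / 8) * x = 1 / 4 * x by ring] at h8
      norm_num at h8
      nlinarith [h3 x hx, mul_le_mul_of_nonneg_left h8 (by positivity : 0 ≤ E * (K * Q.eval 0))])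
    (by positivity) (by nlinarith [hp.half]) (by rw [IK_const_mul]; linarith)
  rw [IK_const_mul, show 3 * N / (64 * E) * (32 / 3 * (E * (K * Q.eval 0))) =
    N * K * Q.eval 0 / 2 by field_simp; ring] at h8
  have h9 := Td_eval hl.le le_rfl g Q
  rw [mul_zero] at h9
  have h10 := (hg.1.of_sub.td hl.le hQ.1).zero_le
  refine le_trans ?_ (le_mul_of_one_le_right (by positivity) (one_le_exp (by positivity)))
  rw [Td_eval hl.le ht]
  rw [h9] at h5 h10 ⊢
  nlinarith [mul_le_mul_of_nonneg_left h8 hl.le, mul_le_mul_of_nonneg_left h5 hK0,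
    mul_le_mul_of_nonneg_right hK h10]

theorem FH_one {K : ℝ} (hK : 1 ≤ K) : FH K 1 := ⟨pos_one, fun t ht => by
  simpa using one_le_mul_of_one_le_of_one_le hK (one_le_exp (by positivity : 0 ≤ 1 / 8 * t))⟩

theorem FH.le4 {K : ℝ} (hK : 0 ≤ K) (hQ : FH K Q) (t : ℝ) (ht : 0 ≤ t) :
    Q.eval t ≤ K * Q.eval 0 * exp (1 / 4 * t) :=
  (hQ.2 t ht).trans (mul_le_mul_of_nonneg_left (exp_le_exp.2 (by linarith))
    (mul_nonneg hK hQ.1.zero_le))

theorem FH_TP (hp : Par l N) (hE : 0 < E) : ∃ K, 1 ≤ K ∧ ∀ h : ℕ → ℝ[X],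
    (∀ n, Mult N E (h n)) → ∀ i p, FH K (TP l h i p 1) := by
  obtain ⟨K, hK, h1⟩ := fwd_harnack hp hE
  refine ⟨K, hK, fun h hh i p => ?_⟩
  induction p with
  | zero => exact FH_one hK
  | succ p ih => rw [TP_succ]; exact h1 K le_rfl _ _ (hh _) ih

theorem gf_sub (hp : Par l N) (hE : 0 < E) (hh : ∀ n, Mult N E (h n)) :
    ∃ D, ∀ i p q, gf l h i (p + q) ≤ D * (gf l h i p * gf l h (i + p) q) := by
  obtain ⟨K, hK, h1⟩ := FH_TP hp hE
  obtain ⟨H, -, h2⟩ := back_harnack hp hE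
  refine ⟨H * K, fun i p q => ?_⟩
  rw [gf, TP_add]
  exact (h2 h hh q _ _ _ (mul_nonneg (by linarith) (h1 h hh i p).1.zero_le)
    ((h1 h hh i p).le4 (by linarith))).trans (le_of_eq (by rw [gf.eq_1 l h i p]; ring))

theorem gf_conv (hp : Par l N) (hE : 0 < E) (hh : ∀ n, Mult N E (h n))
    (hc : ∀ x, 0 ≤ x → ∃ a, Tendsto (fun n => (h n).eval x) atTop (𝓝 a)) (p : ℕ) :
    ∀ t, 0 ≤ t → ∃ a, Tendsto (fun i => (TP l h i p 1).eval t) atTop (𝓝 a) := by
  have hl := hp.l_pos.le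
  have h1 : ∀ p i t, 0 ≤ t → (TP l h i p 1).eval t ≤ (2 * E) ^ p * exp (1 / 4 * t) := fun p i => by
    induction p with
    | zero => intro t ht; simpa [TP_zero] using ht
    | succ p ih =>
      intro t ht
      rw [TP_succ]
      refine ((Td_le hp (hh _) hE (by positivity) (by norm_num) le_rfl ih).2 t ht).trans
        (mul_le_mul (le_of_eq (by ring)) (exp_le_exp.2 (by nlinarith)) (exp_pos _).le
          (by positivity))
  induction p with
  | zero => exact fun t _ => ⟨eval t 1, tendsto_const_nhds⟩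
  | succ p ih =>
    intro t ht
    choose! a ha using hc
    choose! b hb using ih
    refine ⟨_, ((IK_tendsto (φ := fun x => a x * x * b x) (fun i => (adm_Td (h (i + p))
      (TP l h i p 1)).1) (Adm.const_mul (by simpa using adm_pow_exp 1 (by norm_num :
        (1 / 32 + 1 / 4 : ℝ) < 1)) (E * (2 * E) ^ p)) (fun i x hx => ?_) (fun x hx =>
          (((ha x hx.le).comp (tendsto_add_atTop_nat p)).mul_const x).mul (hb x hx.le))
      (mul_nonneg hl ht)).const_mul l).congr fun i => by rw [TP_succ, Td_eval hl ht]⟩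
    rw [abs_of_nonneg (mul_nonneg (mul_nonneg ((hh _).1.of_sub.nonneg hx.le) hx.le)
      ((pos_one.tp hl (fun i => (hh i).1.of_sub) i p).nonneg hx.le))]
    simpa using (Td_le hp (hh _) hE (by positivity) (by norm_num) le_rfl (h1 p i)).1 x hx

theorem NN.add (hP : NN P) (hQ : NN Q) : NN (P + Q) := fun t ht => by
  rw [eval_add]; exact add_nonneg (hP t ht) (hQ t ht)

theorem duhamel (hl : 0 ≤ l) (hh : ∀ n, NN (h n)) {Y S : ℕ → ℝ[X]} (i p : ℕ)
    (H : ∀ n, NN (Td l (h n) (Y n) + S n - Y (n + 1))) :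
    NN (TP l h i p (Y i) + ∑ j ∈ Finset.range p, TP l h (i + j + 1) (p - 1 - j) (S (i + j)) -
      Y (i + p)) := by
  induction p with
  | zero => intro t _; simp [TP_zero]
  | succ p ih =>
    have h1 := (NN.td hl (hh (i + p)) ih).add (H (i + p))
    have h2 : ∑ j ∈ Finset.range p, TP l h (i + j + 1) (p + 1 - 1 - j) (S (i + j)) =
        ∑ j ∈ Finset.range p, Td l (h (i + p)) (TP l h (i + j + 1) (p - 1 - j) (S (i + j))) :=
      Finset.sum_congr rfl fun j hj => by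
        have := Finset.mem_range.1 hj
        rw [show p + 1 - 1 - j = p - 1 - j + 1 by omega, TP_succ,
          show i + j + 1 + (p - 1 - j) = i + p by omega]
    rw [Finset.sum_range_succ, h2, show p + 1 - 1 - p = 0 by omega, TP_zero, TP_succ, ← add_assoc i]
    rwa [map_sub, map_add, map_sum, show ∀ a b c d e : ℝ[X], a + b - c + (c + d - e) =
      a + (b + d) - e from fun _ _ _ _ _ => by ring] at h1

theorem duhamel_up (hl : 0 ≤ l) (hh : ∀ n, NN (h n)) {Y : ℕ → ℝ[X]} (i p : ℕ)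
    (H : ∀ n, NN (Td l (h n) (Y n) - Y (n + 1))) :
    (Y (i + p)).eval 0 ≤ (TP l h i p (Y i)).eval 0 := by
  simpa using duhamel hl hh (S := fun _ => 0) i p (by simpa using H) 0 le_rfl

theorem duhamel_C (hl : 0 ≤ l) (hh : ∀ n, NN (h n)) {Y : ℕ → ℝ[X]} {q : ℕ → ℝ} (i p : ℕ)
    (H : ∀ n, NN (Td l (h n) (Y n) + C (q n) - Y (n + 1))) : (Y (i + p)).eval 0 ≤
      (TP l h i p (Y i)).eval 0 + ∑ j ∈ Finset.range p, q (i + j) * gf l h (i + j + 1) (p - 1 - j) := by
  have := duhamel hl hh (S := fun n => C (q n)) i p H 0 le_rfl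
  simpa only [eval_sub, eval_add, eval_finsetSum, TP_C, sub_nonneg] using this

end Pool.Agent.Lib.LRS
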