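import Pool.Agent.Lib.LRS.RG6

/-! Growth of the linearised flow, escape from the critical orbit, response to the fugacity. -/

namespace Pool.Agent.Lib.LRS

open Set Real Filter Topology Polynomial

variable {l z A B E t : ℝ} {N : ℕ} {P U V Q g : ℝ[X]} {h : ℕ → ℝ[X]}

theorem tangent {a b : ℝ} (ha : 0 ≤ a) (hb : 0 ≤ b) (n : ℕ) :
    a ^ n + n * a ^ (n - 1) * (b - a) ≤ b ^ n := by
  simpa using pow_add_mul_le_add_pow ha (b := b - a) (by linarith) n

theorem NN.ud (hl : 0 ≤ l) {c : ℝ} (hc : 0 ≤ c)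
    (h : ∀ x, 0 < x → c * x ^ 2 ≤ P.eval x - P.eval 0) : NN (Ud l P - C (2 * l * c)) := by
  intro t ht
  have h1 : 0 ≤ (Ud l (P - monomial 2 c)).eval t := by
    rw [Ud_eval hl ht]
    exact mul_nonneg hl (IK_nonneg (mul_nonneg hl ht) fun x hx => by
      have := h x hx
      simp only [eval_sub, eval_monomial]
      linarith)
  rw [map_sub, Ud_monomial, eval_sub] at h1
  have h2 : (c • Up l 2).eval t = 2 * l * c + c * l * l * t := by
    simp [Up, Finset.sum_range_succ, Nat.factorial]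
    ring
  rw [eval_sub, eval_C]
  nlinarith [(by positivity : 0 ≤ c * l * l * t)]

theorem NN.ud0 (hl : 0 ≤ l) (h : ∀ x, 0 < x → 0 ≤ P.eval x - P.eval 0) : NN (Ud l P) := by
  simpa using NN.ud hl le_rfl (P := P) (by simpa using h)

theorem NN.lift (hU : NN U) {x : ℝ} (hx : 0 < x) : 1 ≤ 1 + x * U.eval x :=
  le_add_of_nonneg_right (mul_nonneg hx.le (hU x hx.le))

theorem step_convex (hl : 0 ≤ l) (hU : NN U) (hV : NN V) :
    NN (Td l (dP N U) (U - V) - (step l N U - step l N V)) := by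
  rw [Td_apply, step, step, ← map_sub, ← map_sub]
  refine NN.ud0 hl fun x hx => ?_
  have := tangent (zero_le_one.trans (hU.lift hx)) (zero_le_one.trans (hV.lift hx)) N
  simp only [eval_sub, eval_mul, eval_X, eval_pow, eval_add, eval_one, dP_eval]
  simp only [mul_zero, zero_mul, add_zero, sub_self, sub_zero]
  linarith

theorem step_self (hp : Par l N) (hU : Pos U) {c : ℝ} (hc : 0 ≤ c) (h : c ≤ U.eval 0) :
    NN (Td l (dP N U) U + C (-(2 * l * c ^ 2)) - step l N U) := by
  rw [Td_apply, step, map_neg, ← sub_eq_add_neg, sub_right_comm, ← map_sub]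
  refine NN.ud hp.l_pos.le (by positivity) fun x hx => ?_
  obtain ⟨n, rfl⟩ := Nat.exists_eq_add_of_le' hp.two_le
  have h1 := hU.nn.lift hx
  have h2 := tangent (zero_le_one.trans h1) zero_le_one (n + 1)
  have h3 := mul_le_mul_of_nonneg_left (h.trans (hU.mono le_rfl hx.le)) hx.le
  have h4 := pow_le_pow_left₀ (by positivity) h3 2
  simp only [eval_sub, eval_mul, eval_X, eval_pow, eval_add, eval_one, dP_eval]
  simp only [mul_zero, zero_mul, add_zero, one_pow, show n + 2 - 1 = n + 1 from rfl,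
    Nat.add_sub_cancel, pow_succ _ (n + 1), pow_succ _ n, Nat.cast_add, Nat.cast_one,
    Nat.cast_ofNat] at h2 ⊢
  have h5 : 1 ≤ (n + 1 : ℝ) * (1 + x * U.eval x) ^ n :=
    one_le_mul_of_one_le_of_one_le (by linarith [n.cast_nonneg (α := ℝ)]) (one_le_pow₀ h1)
  nlinarith [mul_le_mul_of_nonneg_left h5 (sq_nonneg (x * U.eval x))]

theorem step_gap (hp : Par l N) (hV : NN V) (hU : Pos (U - V)) :
    NN (Td l (dP N V) (V - U) + C (-(2 * l * (U - V).eval 0 ^ 2)) - (step l N V - step l N U)) := by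
  rw [Td_apply, step, step, map_neg, ← sub_eq_add_neg, sub_right_comm, ← map_sub, ← map_sub]
  refine NN.ud hp.l_pos.le (by positivity) fun x hx => ?_
  obtain ⟨n, rfl⟩ := Nat.exists_eq_add_of_le' hp.two_le
  have h1 := hV.lift hx
  have h3 := mul_le_mul_of_nonneg_left (hU.mono le_rfl hx.le) hx.le
  have h0 := mul_nonneg hx.le hU.zero_le
  have h4 := pow_le_pow_left₀ h0 h3 2
  generalize (U - V).eval 0 = c at h0 h3 h4 ⊢
  rw [eval_sub] at h3 h4
  have h2 := tangent (zero_le_one.trans h1) (b := 1 + x * U.eval x) (by nlinarith) (n + 1)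
  simp only [eval_sub, eval_mul, eval_X, eval_pow, eval_add, eval_one, dP_eval]
  simp only [mul_zero, zero_mul, add_zero, one_pow, show n + 2 - 1 = n + 1 from rfl,
    Nat.add_sub_cancel, pow_succ _ (n + 1), pow_succ _ n, Nat.cast_add, Nat.cast_one,
    Nat.cast_ofNat] at h2 ⊢
  have h5 : 1 ≤ (n + 1 : ℝ) * (1 + x * V.eval x) ^ n :=
    one_le_mul_of_one_le_of_one_le (by linarith [n.cast_nonneg (α := ℝ)]) (one_le_pow₀ h1)
  nlinarith [mul_le_mul_of_nonneg_left h5 (sq_nonneg (x * (U.eval x - V.eval x))),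
    mul_le_mul_of_nonneg_right h2 (by nlinarith : 0 ≤ 1 + x * U.eval x)]

theorem step_second (hp : Par l N) (hV : NN V) (hU : NN (U - V)) :
    NN (Td l (dP N U) (V - U) + Ud l (C (N : ℝ) * dP N U * (X * (U - V)) ^ 2) -
      (step l N V - step l N U)) := by
  rw [Td_apply, step, step, ← map_sub, ← map_add, ← map_sub]
  refine NN.ud0 hp.l_pos.le fun x hx => ?_
  obtain ⟨n, rfl⟩ := Nat.exists_eq_add_of_le' hp.two_le
  have h1 := hV.lift hx
  have h3 := mul_nonneg hx.le (hU x hx.le)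
  rw [eval_sub] at h3
  have h0 : 1 ≤ 1 + x * U.eval x := by nlinarith
  have h2 := tangent (zero_le_one.trans h1) (zero_le_one.trans h0) (n + 2)
  have h4 := tangent (zero_le_one.trans h0) (zero_le_one.trans h1) (n + 1)
  simp only [eval_sub, eval_mul, eval_X, eval_pow, eval_add, eval_one, dP_eval, eval_C]
  simp only [mul_zero, zero_mul, add_zero, one_pow, show n + 2 - 1 = n + 1 from rfl,
    Nat.add_sub_cancel, Nat.cast_add, Nat.cast_one, Nat.cast_ofNat] at h2 h4 ⊢
  have h5 : (n + 1 : ℝ) * (1 + x * U.eval x) ^ n ≤ (n + 2) * (1 + x * U.eval x) ^ (n + 1) :=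
    mul_le_mul (by linarith) (pow_le_pow_right₀ h0 n.le_succ) (by positivity) (by positivity)
  nlinarith [mul_le_mul_of_nonneg_left h5 (by positivity :
    0 ≤ (n + 2 : ℝ) * (x * (U.eval x - V.eval x)) ^ 2),
    mul_le_mul_of_nonneg_left h4 (by positivity : 0 ≤ (n + 2 : ℝ) * (x * (U.eval x - V.eval x)))]

theorem conv_drop (hp : Par l N) (hz : 0 ≤ z) {z' : ℝ} (hz' : 0 ≤ z') (p : ℕ) :
    NN (TP l (fun k => dP N (UU l N z k)) 0 p (C (z - z')) - (UU l N z p - UU l N z' p)) := by
  have := duhamel hp.l_pos.le (fun k => (UU_pos hp hz k).dP.of_sub.nn)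
    (Y := fun k => UU l N z k - UU l N z' k) (S := fun _ => 0) 0 p fun n => by
      rw [add_zero, UU_succ, UU_succ]
      exact step_convex hp.l_pos.le (UU_pos hp hz n).nn (UU_pos hp hz' n).nn
  simpa [UU] using this

/-- the critical orbit has small type -/
structure Crs (l : ℝ) (N : ℕ) (z A : ℝ) : Prop extends Crt l N z A where
  small : ∀ δ, 0 < δ → ∃ M, 1 ≤ M ∧ ∀ k x, 0 < x → FF l N z k x ≤ M * exp (δ * x)

theorem Crs.mult (hc : Crs l N z A) : ∃ E, 0 < E ∧ ∀ k Y, Pos Y → NN (UU l N z k - Y) →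
    Mult N E (dP N Y) ∧ Mult N E (∑ i ∈ Finset.range N, (1 + X * Y) ^ i) := by
  have hN := hc.N_pos
  obtain ⟨M, hM, h1⟩ := hc.small (1 / 32 / N) (by positivity)
  refine ⟨N * M ^ N, by positivity, fun k Y hY h2 => ?_⟩
  have h3 : ∀ x, 0 < x → ∀ i ≤ N, (1 + x * Y.eval x) ^ i ≤ M ^ N * exp (1 / 32 * x) :=
    fun x hx i hi => by
      have h3 := h2 x hx.le
      rw [eval_sub, sub_nonneg] at h3
      refine (pow_le_pow_right₀ (hY.nn.lift hx) hi).trans ((pow_le_pow_left₀ (zero_le_one.trans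
        (hY.nn.lift hx)) (le_trans (by rw [FF]; gcongr) (h1 k x hx)) N).trans (le_of_eq ?_))
      rw [mul_pow, ← exp_nat_mul]
      congr 2
      field_simp
  refine ⟨⟨hY.dP, fun x hx => ?_⟩, ?_, fun x hx => ?_⟩
  · rw [dP_eval, mul_assoc]
    exact mul_le_mul_of_nonneg_left (h3 x hx _ (Nat.sub_le N 1)) hN.le
  · have := pos_sum (s := Finset.range N) fun i _ => hY.pow_sub i
    simpa using this
  · rw [eval_finsetSum, mul_assoc]
    refine (Finset.sum_le_card_nsmul (Finset.range N) _ (M ^ N * exp (1 / 32 * x)) fun i hi => by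
      simpa using h3 x hx i (Finset.mem_range.1 hi).le).trans (le_of_eq (by simp))

theorem Crs.mult' (hc : Crs l N z A) : ∃ E, 0 < E ∧ ∀ k, Mult N E (dP N (UU l N z k)) := by
  obtain ⟨E, hE, h1⟩ := hc.mult
  exact ⟨E, hE, fun k => (h1 k _ (UU_pos hc.toPar hc.z_pos.le k) fun _ _ => by simp).1⟩

theorem Crs.bound (hc : Crs l N z A) : ∃ B, 0 < B ∧ ∀ k Y, NN (UU l N z k - Y) →
    ∀ t, 0 ≤ t → Y.eval t ≤ B * exp (1 / 8 * t) := by
  obtain ⟨M, hM, h1⟩ := hc.small (1 / 8) (by norm_num)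
  refine ⟨M * exp (1 / 8), by positivity, fun k Y hY t ht => ?_⟩
  have h2 := h1 k (t + 1) (by linarith)
  have h3 := hY t ht
  have h4 := (UU_pos hc.toPar hc.z_pos.le k).mono ht (by linarith : t ≤ t + 1)
  have h5 := (UU_pos hc.toPar hc.z_pos.le k).nonneg (by linarith : 0 ≤ t + 1)
  rw [FF, mul_add, exp_add, mul_one] at h2
  rw [eval_sub] at h3
  nlinarith [mul_nonneg ht h5]

theorem NN.weak (h : NN (P + C (-B) - Q)) (hB : 0 ≤ B) : NN (P - Q) := fun t ht => by
  have := h t ht
  simp only [eval_sub, eval_add, eval_C] at this ⊢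
  linarith

theorem le4_of_le8 (hB : 0 ≤ B) (h : ∀ t, 0 ≤ t → Q.eval t ≤ B * exp (1 / 8 * t)) (t : ℝ)
    (ht : 0 ≤ t) : Q.eval t ≤ B * exp (1 / 4 * t) :=
  (h t ht).trans (mul_le_mul_of_nonneg_left (exp_le_exp.2 (by linarith)) hB)

theorem Crs.gf_big (hc : Crs l N z A) :
    ∃ p, ∀ i, 2 ≤ gf l (fun k => dP N (UU l N z k)) i p := by
  have hl := hc.l_pos
  have hP := UU_pos hc.toPar hc.z_pos.le
  obtain ⟨E, hE, h1⟩ := hc.mult'
  obtain ⟨B, hB, h2⟩ := hc.bound
  obtain ⟨H, hH, h3⟩ := back_harnack hc.toPar hE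
  have hτ := div_pos (sub_pos.2 hc.lt_one) hc.N_pos
  have h4 := hc.lower
  set τ := (1 - l * N) / N
  have h5 := fun i p => h3 _ h1 p i (UU l N z i) B hB.le (le4_of_le8 hB.le
    (h2 i _ fun _ _ => by simp))
  have h6 := fun n => UU_succ l N z n ▸ step_self hc.toPar (hP n) hτ.le (h4 n)
  have hh := fun n => (h1 n).1.of_sub.nn
  have h7 : ∀ i p, τ / (H * B) ≤ gf l (fun k => dP N (UU l N z k)) i p := fun i p =>
    (div_le_iff₀' (by positivity)).2 ((h4 _).trans ((duhamel_up hl.le hh i p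
      fun n => (h6 n).weak (by positivity)).trans (h5 i p)))
  obtain ⟨p, hp⟩ := exists_nat_ge (H * B * 2 / (2 * l * τ ^ 2 * (τ / (H * B))))
  refine ⟨p, fun i => le_of_mul_le_mul_left (le_trans ?_ (h5 i p)) (by positivity)⟩
  have h8 := duhamel_C hl.le hh i p h6
  have h9 := Finset.sum_le_card_nsmul (Finset.range p) _ _ fun j _ => mul_le_mul_of_nonpos_left
    (h7 (i + j + 1) (p - 1 - j)) (neg_nonpos.2 (by positivity : 0 ≤ 2 * l * τ ^ 2))
  rw [Finset.card_range, nsmul_eq_mul] at h9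
  rw [div_le_iff₀ (by positivity)] at hp
  linarith [(hP (i + p)).zero_le]

theorem Pos.iter_sub (hl : 0 ≤ l) (hU : Pos U) (h : Pos (V - U)) (n : ℕ) :
    Pos ((LRS.step l N)^[n] V - (LRS.step l N)^[n] U) := by
  induction n with
  | zero => exact h
  | succ n ih =>
    rw [Function.iterate_succ_apply', Function.iterate_succ_apply']
    exact (hU.iter hl n).step_sub hl ih

theorem step_eq_Td (l : ℝ) (N : ℕ) (U : ℝ[X]) :
    step l N U = Td l (∑ i ∈ Finset.range N, (1 + X * U) ^ i) U := by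
  have := geom_sum_mul (1 + X * U) N
  rw [add_sub_cancel_left] at this
  rw [Td_apply, mul_assoc, this, map_sub, ← monomial_zero_one, Ud_monomial, step]
  simp [Up]

theorem Crs.escape (hc : Crs l N z A) {c : ℝ} (h0 : 0 < c) (hcτ : c ≤ (1 - l * N) / N / 2) :
    ∃ B, ∀ k n, ((step l N)^[n] (UU l N z k - C c)).eval 0 ≤ B * (l * N) ^ n := by
  have hl := hc.l_pos
  have hN := hc.N_pos
  have hP := UU_pos hc.toPar hc.z_pos.le
  obtain ⟨E, hE, h1⟩ := hc.mult
  obtain ⟨B, hB, h2⟩ := hc.bound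
  obtain ⟨H, hH, h3⟩ := back_harnack hc.toPar hE
  obtain ⟨K₀, hK₀, h4⟩ := fwd_harnack hc.toPar hE
  have hτ := div_pos (sub_pos.2 hc.lt_one) hN
  obtain ⟨D, hD, h5⟩ := decay hc.toPar (half_pos hτ) (by
    rw [← lt_div_iff₀' hN]; exact half_lt_self hτ)
  have h6 := hc.lower
  set τ := (1 - l * N) / N
  obtain ⟨M, hM, h7⟩ := hc.small (τ / 4) (by positivity)
  obtain ⟨T, hT, h8⟩ := exp_split (a := τ / 4) (b := τ / 2) (by linarith : 0 < M) one_pos
    (by linarith)
  set K := K₀ + B / (τ / 2)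
  have hK : K₀ ≤ K := le_add_of_nonneg_right (by positivity)
  have hK0 : 0 < K := by linarith
  set a := τ / 2 / (K * exp (1 / 8 * T)) with ha
  have ha0 : 0 < a := by positivity
  obtain ⟨m, hm⟩ := exists_nat_gt (A / (2 * l * (c * (a / (H * B))) ^ 2 * (a / (H * B))))
  have hA : 0 ≤ A := (hP 0).zero_le.trans (hc.bdd 0)
  refine ⟨(A + D) / (l * N) ^ m, fun k n => ?_⟩
  set Y := fun j => (step l N)^[j] (UU l N z k - C c) with hY
  have hY0 : Pos (Y 0) := by
    have := (hP k).sub_C.add (pos_C (show 0 ≤ (UU l N z k).eval 0 - c by linarith [h6 k]))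
    rwa [map_sub, sub_add_sub_cancel] at this
  have hYp : ∀ j, Pos (Y j) := hY0.iter hl.le
  have hYs : ∀ j, Y (j + 1) = step l N (Y j) := fun j => Function.iterate_succ_apply' _ _ _
  have hu : ∀ j, Pos (UU l N z (j + k) - Y j) := fun j => by
    rw [UU, Function.iterate_add_apply]
    exact hY0.iter_sub hl.le (by simpa [hY, UU] using pos_C h0.le) j
  have hYA : ∀ j, (Y j).eval 0 ≤ A := fun j => by
    have := (hu j).zero_le
    rw [eval_sub] at this
    linarith [hc.bdd (j + k)]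
  have hm1 := fun j => h1 _ _ (hYp j) (hu j).nn
  have hh := fun j => (hm1 j).1.1.of_sub.nn
  obtain ⟨j, hj, h9⟩ : ∃ j ≤ m, (Y j).eval 0 < a := by
    by_contra hcon
    have h9 : ∀ i p, i + p ≤ m → a / (H * B) ≤ gf l (fun j => dP N (Y j)) i p := fun i p hip =>
      (div_le_iff₀' (by positivity)).2 ((not_lt.1 fun h => hcon ⟨_, hip, h⟩).trans
        ((duhamel_up hl.le hh i p fun n => (hYs n ▸ step_self hc.toPar (hYp n) le_rfl
          (hYp n).zero_le).weak (by positivity)).trans (h3 _ (fun j => (hm1 j).1) p i _ B hB.le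
            (le4_of_le8 hB.le (h2 _ _ (hu i).nn)))))
    have h10 := fun p => duhamel_C hl.le hh (Y := fun j => Y j - UU l N z (j + k)) 0 p fun n => by
      rw [hYs, add_right_comm, UU_succ]
      exact step_gap hc.toPar (hYp n).nn (hu n)
    simp only [zero_add, show Y 0 - UU l N z k = C (-c) by simp [hY], TP_C] at h10
    have h11 : ∀ p, ∑ j ∈ Finset.range p, -(2 * l * (UU l N z (j + k) - Y j).eval 0 ^ 2) *
        gf l (fun j => dP N (Y j)) (j + 1) (p - 1 - j) ≤ 0 := fun p =>
      Finset.sum_nonpos fun j _ => mul_nonpos_of_nonpos_of_nonneg (neg_nonpos.2 (by positivity))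
        (gf_pos hc.toPar (fun j => (hm1 j).1.1) _ _).le
    have h12 := Finset.sum_le_card_nsmul (Finset.range m) _
      (-(2 * l * (c * (a / (H * B))) ^ 2 * (a / (H * B)))) fun j hj => show
        -(2 * l * (UU l N z (j + k) - Y j).eval 0 ^ 2) *
          gf l (fun j => dP N (Y j)) (j + 1) (m - 1 - j) ≤ _ by
      have hj := Finset.mem_range.1 hj
      have h12 := h10 j
      have h13 := mul_le_mul_of_nonneg_left (h9 0 j (by omega)) h0.le
      rw [neg_mul, neg_le_neg_iff]
      refine mul_le_mul (mul_le_mul_of_nonneg_left (pow_le_pow_left₀ (by positivity) ?_ 2)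
        (by positivity)) (h9 _ _ (by omega)) (by positivity) (by positivity)
      rw [eval_sub] at h12 ⊢
      linarith [h11 j]
    rw [Finset.card_range, nsmul_eq_mul] at h12
    rw [div_lt_iff₀ (by positivity)] at hm
    have h13 := h10 m
    rw [eval_sub] at h13
    linarith [(hYp m).zero_le, hc.bdd (m + k), mul_nonneg h0.le
      (gf_pos hc.toPar (fun j => (hm1 j).1.1) 0 m).le]
  have h10 : ∀ j, FH K (Y j) := fun j => by
    induction j with
    | zero =>
      refine ⟨hY0, fun t ht => (h2 _ _ (hu 0).nn t ht).trans (mul_le_mul_of_nonneg_right ?_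
        (exp_pos _).le)⟩
      have h10 : τ / 2 ≤ (Y 0).eval 0 := by simp [hY]; linarith [h6 k]
      refine le_trans (le_of_eq ?_) (mul_le_mul (le_add_of_nonneg_left (by linarith)) h10
        (by positivity) hK0.le)
      field_simp
    | succ j ih => rw [hYs, step_eq_Td]; exact h4 K hK _ _ (hm1 j).2 ih
  have h11 := h5 _ (hYp j) fun x hx => by
    rcases le_total T x with h | h
    · have h11 := (hu j).nonneg hx.le
      have h12 := h7 (j + k) x hx
      rw [eval_sub] at h11
      rw [FF] at h12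
      nlinarith [h8 x h]
    · have h11 := ((h10 j).2 x hx.le).trans (mul_le_mul (mul_le_mul_of_nonneg_left h9.le hK0.le)
        (exp_le_exp.2 (show 1 / 8 * x ≤ 1 / 8 * T by linarith)) (exp_pos _).le (by positivity))
      rw [show K * a * exp (1 / 8 * T) = τ / 2 by rw [ha]; field_simp] at h11
      nlinarith [add_one_le_exp (τ / 2 * x)]
  rw [div_mul_eq_mul_div, le_div_iff₀ (by positivity)]
  rcases le_or_gt n j with h12 | h12
  · exact mul_le_mul ((hYA n).trans (by linarith))
      (pow_le_pow_of_le_one (by positivity) hc.lt_one.le (by omega)) (by positivity) (by positivity)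
  · obtain ⟨i, rfl⟩ := Nat.exists_eq_add_of_lt h12
    have := h11 i
    simp only [hY] at this
    rw [← Function.iterate_add_apply, show i + 1 + j = j + i + 1 by ring] at this
    refine (mul_le_mul_of_nonneg_right this (by positivity)).trans ?_
    rw [mul_assoc, ← pow_add]
    exact mul_le_mul (by linarith) (pow_le_pow_of_le_one (by positivity) hc.lt_one.le (by omega))
      (by positivity) (by positivity)

theorem Crs.drop (hc : Crs l N z A) {D : ℝ}
    (hs : ∀ p, ∑ j ∈ Finset.range p, gf l (fun k => dP N (UU l N z k)) 0 j ≤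
      D * gf l (fun k => dP N (UU l N z k)) 0 p) : ∃ G, ∀ z' p, 0 ≤ z' → z' ≤ z →
      (z - z') * gf l (fun k => dP N (UU l N z k)) 0 p -
        G * ((z - z') * gf l (fun k => dP N (UU l N z k)) 0 p) ^ 2 ≤
          (UU l N z p).eval 0 - (UU l N z' p).eval 0 := by
  have hl := hc.l_pos
  have hN := hc.N_pos
  have hz := hc.z_pos.le
  obtain ⟨E, hE, h1⟩ := hc.mult'
  obtain ⟨H, hH, h3⟩ := back_harnack hc.toPar hE
  obtain ⟨K, hK, h4⟩ := FH_TP hc.toPar hE
  refine ⟨H * (64 * N * E * K ^ 2) / (l * N) * D, fun z' p hz' hzz => ?_⟩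
  set h := fun k => dP N (UU l N z k)
  have hg := gf_pos hc.toPar fun k => (h1 k).1
  have hu : ∀ j, Pos (UU l N z j - UU l N z' j) := fun j =>
    (pos_C hz').iter_sub hl.le (by rw [← map_sub]; exact pos_C (sub_nonneg.2 hzz)) j
  have h5 := duhamel hl.le (fun k => (h1 k).1.of_sub.nn) (Y := fun j => UU l N z' j - UU l N z j)
    0 p (fun n => by
      rw [UU_succ, UU_succ]
      exact step_second hc.toPar (UU_pos hc.toPar hz' n).nn (hu n).nn) 0 le_rfl
  simp only [zero_add, show UU l N z' 0 - UU l N z 0 = C (z' - z) by simp [UU], eval_sub, eval_add,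
    TP_C, eval_finsetSum] at h5
  have h6 := Finset.sum_le_sum fun j (hj : j ∈ Finset.range p) => show (TP l h (j + 1) (p - 1 - j)
      (Ud l (C (N : ℝ) * dP N (UU l N z j) * (X * (UU l N z j - UU l N z' j)) ^ 2))).eval 0 ≤
      H * (64 * N * E * K ^ 2) / (l * N) * (z - z') ^ 2 * gf l h 0 p * gf l h 0 j by
    have hj := Finset.mem_range.1 hj
    have h6 := gf_super hl.le (fun k => (h1 k).1.of_sub) 0 j (1 + (p - 1 - j))
    have h7 := (mul_le_mul_of_nonneg_right (gf_one hl.le (fun k => (h1 k).1) j)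
      (hg (j + 1) (p - 1 - j)).le).trans (gf_super hl.le (fun k => (h1 k).1.of_sub) j 1 (p - 1 - j))
    rw [zero_add, show j + (1 + (p - 1 - j)) = p by omega] at h6
    have h8 := (mul_le_mul_of_nonneg_left h7 (hg 0 j).le).trans h6
    have h9 := hg 0 j
    refine (h3 h h1 _ _ _ (2 * (32 * N * E * ((z - z') * (K * gf l h 0 j)) ^ 2)) (by positivity)
      fun t ht => (Ud_le hc.toPar (by positivity) (σ := 5 / 16) (by norm_num) (by norm_num)
        (fun x hx => ?_) ht).trans (mul_le_mul_of_nonneg_left (exp_le_exp.2 (by nlinarith))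
          (by positivity))).trans ?_
    · have h10 := conv_drop hc.toPar hz hz' j x hx.le
      rw [show C (z - z') = (z - z') • (1 : ℝ[X]) by simp [smul_eq_C_mul], map_smul, eval_sub,
        eval_smul, smul_eq_mul, sub_nonneg] at h10
      have h11 := pow_le_pow_left₀ ((hu j).nonneg hx.le) (h10.trans (mul_le_mul_of_nonneg_left
        ((h4 h h1 0 j).2 x hx.le) (sub_nonneg.2 hzz))) 2
      have h12 := pow_le_exp 1 (η := 1 / 32) (by norm_num) hx.le
      simp only [eval_mul, eval_pow, eval_C, eval_X, zero_mul, mul_pow x]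
      rw [zero_pow two_ne_zero, mul_zero, sub_zero, show 5 / 16 * x = 1 / 32 * x + (1 / 32 * x +
        (2 : ℕ) * (1 / 8 * x)) by push_cast; ring, exp_add, exp_add, exp_nat_mul]
      refine (mul_le_mul (mul_le_mul_of_nonneg_left ((h1 j).2 x hx) hN.le) (mul_le_mul
        (sq x ▸ mul_le_mul_of_nonneg_left (pow_one x ▸ h12) hx.le) h11 (sq_nonneg _)
          (by positivity)) (by positivity) (by positivity)).trans (le_of_eq ?_)
      rw [gf]
      simp only [Nat.factorial_one, Nat.cast_one]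
      ring
    · refine le_trans (le_of_eq ?_) (mul_le_mul_of_nonneg_right (mul_le_mul_of_nonneg_left h8
        (by positivity)) h9.le)
      field_simp
      ring
  rw [← Finset.mul_sum] at h6
  have h7 := mul_le_mul_of_nonneg_left (hs p) (mul_nonneg (by positivity :
    0 ≤ H * (64 * N * E * K ^ 2) / (l * N) * (z - z') ^ 2) (hg 0 p).le)
  linarith

end Pool.Agent.Lib.LRS
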