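import Pool.Agent.Lib.LRS.RG4

/-! The exact renormalisation of families of mutually avoiding walks. -/

namespace Pool.Agent.Lib.LRS

open Polynomial Finset
open scoped Nat

section
variable {V V' R R' : Type} [DecidableEq V] [DecidableEq V'] [CommRing R] [CommRing R']

/-- weight of sequences of distinct vertices of `S`, the first step having weight `r` -/
noncomputable def EE (z : R) (J : V → V → R) (S : Finset V) (r : V → R) : R :=
  1 + ∑ y ∈ S.attach, z * r y * EE z J (S.erase y) (J y)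
termination_by S.card
decreasing_by exact card_erase_lt_of_mem y.2

theorem EE_eq (z : R) (J : V → V → R) (S : Finset V) (r : V → R) :
    EE z J S r = 1 + ∑ y ∈ S, z * r y * EE z J (S.erase y) (J y) := by
  rw [EE, sum_attach S fun y => z * r y * EE z J (S.erase y) (J y)]

theorem EE_hom (Φ : R →+* R') {f : V → V'} (hf : Function.Injective f) (z : R) {J : V → V → R}
    {J' : V' → V' → R'} (S : Finset V) : ∀ {r : V → R} {r' : V' → R'},
      (∀ x ∈ S, ∀ y ∈ S, x ≠ y → Φ (J x y) = J' (f x) (f y)) → (∀ y ∈ S, Φ (r y) = r' (f y)) →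
        Φ (EE z J S r) = EE (Φ z) J' (S.image f) r' := by
  induction S using Finset.strongInduction with
  | H S ih =>
    intro r r' h1 h2
    rw [EE_eq, EE_eq, sum_image fun _ _ _ _ h => hf h, map_add, map_one, map_sum]
    refine congrArg _ (sum_congr rfl fun y hy => ?_)
    rw [map_mul, map_mul, h2 y hy, ← image_erase hf, ih _ (erase_ssubset hy)
      (fun a ha b hb => h1 a (mem_of_mem_erase ha) b (mem_of_mem_erase hb))
      fun a ha => h1 y hy a (mem_of_mem_erase ha) (ne_of_mem_erase ha).symm]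
end

variable {𝕜 : Type} [Field 𝕜]

/-- scaled Borel transform -/
noncomputable def Bo (w : 𝕜) : 𝕜[X] →ₗ[𝕜] 𝕜[X] :=
  Polynomial.lsum fun i => LinearMap.toSpanSingleton 𝕜 _ (monomial i (w ^ i / i !))

theorem Bo_monomial (w : 𝕜) (i : ℕ) (a : 𝕜) :
    Bo w (monomial i a) = monomial i (a * (w ^ i / i !)) := by
  simp [Bo, Polynomial.sum_monomial_index, smul_monomial]

theorem Bo_one (w : 𝕜) : Bo w 1 = 1 := by
  rw [← monomial_zero_one, Bo_monomial]; simp

theorem Bo_coeff (w : 𝕜) (P : 𝕜[X]) (i : ℕ) : (Bo w P).coeff i = P.coeff i * (w ^ i / i !) := by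
  induction P using Polynomial.induction_on' with
  | add p q hp hq => rw [map_add, coeff_add, coeff_add, hp, hq, add_mul]
  | monomial n a =>
    rw [Bo_monomial, coeff_monomial, coeff_monomial]
    split_ifs with h
    · rw [h]
    · rw [zero_mul]

theorem Bo_C_mul (w a : 𝕜) (P : 𝕜[X]) : Bo w (C a * P) = C a * Bo w P := by
  rw [← smul_eq_C_mul, map_smul, smul_eq_C_mul]

variable [CharZero 𝕜]

theorem Bo_deriv (w : 𝕜) (P : 𝕜[X]) : derivative (Bo w (1 + X * P)) = C w * Bo w P := by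
  ext n
  rw [coeff_derivative, coeff_C_mul, Bo_coeff, Bo_coeff, coeff_add, coeff_X_mul, coeff_one,
    if_neg n.succ_ne_zero, Nat.factorial_succ]
  have : (n ! : 𝕜) ≠ 0 := Nat.cast_ne_zero.2 n.factorial_ne_zero
  have : (n + 1 : 𝕜) ≠ 0 := n.cast_add_one_ne_zero
  push_cast
  field_simp
  ring

theorem Bo_shift (l w : 𝕜) (P : 𝕜[X]) :
    Bo (w * l) (X * taylor w P) = X * Ud l (Bo w (1 + X * P)) := by
  rw [map_add, map_add, Bo_one, ← monomial_zero_one, Ud_monomial, Up, sum_range_zero, smul_zero,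
    zero_add]
  induction P using Polynomial.induction_on' with
  | add p q hp hq => simp only [map_add, mul_add, hp, hq]
  | monomial n a =>
    rw [X_mul_monomial, Bo_monomial, Ud_monomial]
    ext j
    cases j with
    | zero => simp [Bo_coeff]
    | succ j =>
      rw [Bo_coeff, coeff_X_mul, coeff_X_mul, coeff_smul, Up_coeff, taylor_monomial, coeff_C_mul,
        coeff_X_add_C_pow, smul_eq_mul, Nat.add_sub_cancel]
      split_ifs with h
      · obtain ⟨i, rfl⟩ := Nat.exists_eq_add_of_le (Nat.lt_succ_iff.1 h)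
        have : ((j + i + 1)! : 𝕜) ≠ 0 := Nat.cast_ne_zero.2 (Nat.factorial_ne_zero _)
        rw [Nat.add_sub_cancel_left]
        field_simp
        ring
      · rw [Nat.choose_eq_zero_of_lt (by omega)]; simp

section
variable {V : Type} [DecidableEq V] (z : 𝕜) (j : V → V → 𝕜)

/-- ordinary generating function of ordered families of walks -/
noncomputable def EX (S : Finset V) (r : V → 𝕜) : 𝕜[X] :=
  EE (C z) (fun x y => X + C (j x y)) S fun y => X + C (r y)

/-- the same with a first vertex -/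
noncomputable def DX (S : Finset V) : 𝕜[X] := ∑ y ∈ S, C z * EX z j (S.erase y) (j y)

omit [CharZero 𝕜] in
theorem EX_eq (S : Finset V) (r : V → 𝕜) : EX z j S r =
    1 + X * DX z j S + ∑ y ∈ S, C (r y) * (C z * EX z j (S.erase y) (j y)) := by
  rw [EX, EE_eq, DX, mul_sum, add_assoc, ← sum_add_distrib]
  exact congrArg _ (sum_congr rfl fun y _ => by rw [EX]; ring)

omit [CharZero 𝕜] in
theorem EX_zero (S : Finset V) : EX z j S 0 = 1 + X * DX z j S := by simp [EX_eq z j S]

theorem EX_union (w : 𝕜) (n : ℕ) : ∀ S T : Finset V, S.card + T.card = n → Disjoint S T →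
    (∀ x ∈ S, ∀ y ∈ T, j x y = 0 ∧ j y x = 0) → ∀ r : V → 𝕜, (∀ y ∈ T, r y = 0) →
      Bo w (EX z j (S ∪ T) r) = Bo w (EX z j S r) * Bo w (EX z j T 0) := by
  induction n using Nat.strong_induction_on with
  | _ n ih =>
    have key : ∀ S T : Finset V, S.card + T.card = n → Disjoint S T →
        (∀ x ∈ S, ∀ y ∈ T, j x y = 0 ∧ j y x = 0) → ∀ y ∈ S,
          Bo w (C z * EX z j ((S ∪ T).erase y) (j y)) =
            Bo w (C z * EX z j (S.erase y) (j y)) * Bo w (EX z j T 0) := by
      intro S T h1 h2 h3 y hy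
      rw [erase_union_distrib, erase_eq_of_notMem (disjoint_left.1 h2 hy), Bo_C_mul, Bo_C_mul,
        ih _ (h1 ▸ Nat.add_lt_add_right (card_erase_lt_of_mem hy) _) _ _ rfl
          (h2.mono_left (erase_subset _ _)) (fun a ha => h3 a (mem_of_mem_erase ha)) _
          fun a ha => (h3 y hy a ha).1, mul_assoc]
    intro S T h1 h2 h3 r hr
    have h4 := key S T h1 h2 h3
    have h5 := key T S ((add_comm _ _).trans h1) h2.symm fun x hx y hy => (h3 y hy x hx).symm
    rw [union_comm] at h5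
    have h6 : Bo w (1 + X * DX z j (S ∪ T)) = Bo w (1 + X * DX z j S) * Bo w (EX z j T 0) := by
      have h6 : derivative (Bo w (1 + X * DX z j (S ∪ T))) =
          derivative (Bo w (1 + X * DX z j S) * Bo w (EX z j T 0)) := by
        rw [derivative_mul, Bo_deriv, Bo_deriv, DX, sum_union h2, map_add, map_sum, map_sum,
          sum_congr rfl h4, sum_congr rfl h5, ← sum_mul, ← sum_mul, ← map_sum, ← map_sum, ← DX,
          ← DX, EX_zero, EX_zero, Bo_deriv]
        ring
      ext i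
      cases i with
      | zero => simp [Bo_coeff, EX_zero]
      | succ i =>
        have := congrArg (coeff · i) h6
        simp only [coeff_derivative] at this
        exact mul_right_cancel₀ i.cast_add_one_ne_zero this
    rw [EX_eq, EX_eq z j S, map_add _ (1 + _), map_add _ (1 + _), h6, add_mul, sum_union h2,
      sum_eq_zero (s := T) fun y hy => by rw [hr y hy, C_0, zero_mul], add_zero, map_sum, map_sum,
      sum_mul]
    exact congrArg _ (sum_congr rfl fun y hy => by
      rw [Bo_C_mul, h4 y hy, Bo_C_mul _ (r y), mul_assoc])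
end

variable {Γ : Type} [AddCommGroup Γ] [DecidableEq Γ]

/-- hierarchical structure of a kernel -/
structure HD (Λ T : ℕ → Finset Γ) (j : ℕ → Γ → ℝ) (w l : ℝ) (N : ℕ) : Prop where
  zero : Λ 0 = {0}
  succ : ∀ k, Λ (k + 1) = (T k).biUnion fun t => (Λ k).image (t + ·)
  card : ∀ k, (T k).card = N
  cardL : ∀ k, (Λ k).card = N ^ k
  mem0 : ∀ k, 0 ∈ Λ k
  sub : ∀ k, ∀ x ∈ Λ k, ∀ y ∈ Λ k, y - x ∈ Λ k
  out : ∀ k, ∀ t ∈ T k, ∀ t' ∈ T k, t ≠ t' → t' - t ∉ Λ k
  vanish : ∀ k x, x ∉ Λ k → j k x = 0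
  shift : ∀ k, ∀ x ∈ Λ (k + 1), x ≠ 0 → j (k + 1) x = j k x + w * l ^ k

/-- generating polynomial of the walks from the origin -/
noncomputable def EW (j : Γ → ℝ) (S : Finset Γ) (x : Γ) : ℝ[X] :=
  EE X (fun x y => C (j (y - x))) S fun y => C (j (y - x))

variable {Λ T : ℕ → Finset Γ} {j : ℕ → Γ → ℝ} {w l : ℝ} {N : ℕ} [Algebra ℝ 𝕜]

theorem HD.rg (h : HD Λ T j w l N) (z : 𝕜) (k : ℕ) :
    Bo (algebraMap ℝ 𝕜 (w * l ^ k)) (EX z (fun x y => algebraMap ℝ 𝕜 (j k (y - x))) (Λ k) 0) =
      1 + X * UU (algebraMap ℝ 𝕜 l) N (algebraMap ℝ 𝕜 w * z) k := by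
  induction k with
  | zero =>
    rw [h.zero, EX_zero, DX, sum_singleton, erase_singleton, EX, EE_eq, sum_empty, add_zero,
      mul_one, map_add, Bo_one, mul_comm X, C_mul_X_eq_monomial, Bo_monomial, mul_comm X]
    simp [UU, mul_comm z, ← C_mul_X_eq_monomial]
  | succ k ih =>
    have h1 : ∀ t ∈ T k, ∀ t' ∈ T k, t ≠ t' → ∀ x ∈ (Λ k).image (t + ·),
        ∀ y ∈ (Λ k).image (t' + ·), y - x ∉ Λ k := by
      intro t ht t' ht' hne x hx y hy h1
      obtain ⟨a, ha, rfl⟩ := mem_image.1 hx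
      obtain ⟨b, hb, rfl⟩ := mem_image.1 hy
      have := h.sub k _ (h.sub k a ha b hb) _ h1
      exact h.out k t ht t' ht' hne (by rwa [show t' + b - (t + a) - (b - a) = t' - t by abel] at this)
    have h2 : ∀ S ⊆ T k, Bo (algebraMap ℝ 𝕜 (w * l ^ k)) (EX z (fun x y => algebraMap ℝ 𝕜
        (j k (y - x))) (S.biUnion fun t => (Λ k).image (t + ·)) 0) =
          (1 + X * UU (algebraMap ℝ 𝕜 l) N (algebraMap ℝ 𝕜 w * z) k) ^ S.card := by
      intro S
      induction S using Finset.induction_on with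
      | empty => intro _; rw [biUnion_empty, EX, EE_eq]; simp [Bo_one]
      | insert t S ht ih' =>
        intro hS
        have h2 : ∀ x ∈ (Λ k).image (t + ·), ∀ y ∈ S.biUnion fun t => (Λ k).image (t + ·),
            y - x ∉ Λ k ∧ x - y ∉ Λ k := fun x hx y hy => by
          obtain ⟨t', ht', hy⟩ := mem_biUnion.1 hy
          have h3 : t ≠ t' := fun e => ht (e ▸ ht')
          have h4 := hS (mem_insert_self _ _)
          have h5 := hS (mem_insert_of_mem ht')
          exact ⟨h1 t h4 t' h5 h3 x hx y hy, h1 t' h5 t h4 h3.symm y hy x hx⟩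
        rw [biUnion_insert, EX_union _ _ _ _ _ _ rfl (disjoint_left.2 fun x hx hy =>
          (h2 x hx x hy).1 (by rw [sub_self]; exact h.mem0 k)) (fun x hx y hy => by
            simp [h.vanish k _ (h2 x hx y hy).1, h.vanish k _ (h2 x hx y hy).2]) 0
          fun _ _ => rfl, ih' ((subset_insert _ _).trans hS), card_insert_of_notMem ht, pow_succ',
          ← ih]
        exact congrArg (Bo _ · * _) (EE_hom (RingHom.id 𝕜[X]) (add_right_injective t) (C z)
          (J := fun x y => X + C (algebraMap ℝ 𝕜 (j k (y - x))))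
          (J' := fun x y => X + C (algebraMap ℝ 𝕜 (j k (y - x)))) (Λ k) (r := fun _ => X + C 0)
          (r' := fun _ => X + C 0) (fun _ _ _ _ _ => by simp) fun _ _ => rfl).symm
    have h3 := h2 _ Subset.rfl
    rw [← h.succ, h.card, EX_zero] at h3
    rw [UU_succ, step, ← h3, ← Bo_shift, EX_zero, map_add, Bo_one, pow_succ, ← mul_assoc,
      map_mul (algebraMap ℝ 𝕜),
      DX, DX, map_sum]
    refine congrArg (fun P => 1 + Bo _ (X * P)) (sum_congr rfl fun y hy => ?_)
    have h4 : ∀ a ∈ Λ (k + 1), ∀ b ∈ Λ (k + 1), a ≠ b →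
        (taylorAlgHom (algebraMap ℝ 𝕜 (w * l ^ k))).toRingHom
          (X + C (algebraMap ℝ 𝕜 (j k (b - a)))) = X + C (algebraMap ℝ 𝕜 (j (k + 1) (b - a))) :=
      fun a ha b hb hne => by
        rw [h.shift k _ (h.sub _ a ha b hb) (sub_ne_zero.2 hne.symm)]
        simp [taylorAlgHom]
        ring
    have h5 := EE_hom (taylorAlgHom (algebraMap ℝ 𝕜 (w * l ^ k))).toRingHom Function.injective_id
      (C z) (J := fun x y => X + C (algebraMap ℝ 𝕜 (j k (y - x))))
      (J' := fun x y => X + C (algebraMap ℝ 𝕜 (j (k + 1) (y - x)))) ((Λ (k + 1)).erase y)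
      (r := fun x => X + C (algebraMap ℝ 𝕜 (j k (x - y))))
      (r' := fun x => X + C (algebraMap ℝ 𝕜 (j (k + 1) (x - y))))
      (fun a ha b hb => h4 a (mem_of_mem_erase ha) b (mem_of_mem_erase hb))
      fun a ha => h4 y hy a (mem_of_mem_erase ha) (ne_of_mem_erase ha).symm
    rw [taylor_mul, taylor_C]
    refine congrArg _ (Eq.trans ?_ h5.symm)
    simp [EX, taylorAlgHom]

/-- the polynomial of one walk at scale `k` -/
noncomputable def PP (Λ : ℕ → Finset Γ) (j : ℕ → Γ → ℝ) (w ρ : ℝ) (k : ℕ) : ℝ[X] :=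
  C (w * ρ ^ k) * X * EW (j k) ((Λ k).erase 0) 0

theorem HD.link (h : HD Λ T j w l N) (z : 𝕜) (k : ℕ) :
    aeval z (PP Λ j w (l * N) k) =
      (UU (algebraMap ℝ 𝕜 l) N (algebraMap ℝ 𝕜 w * z) k).coeff 0 := by
  have h1 := congrArg (coeff · 1) (h.rg z k)
  simp only [EX_zero, Bo_coeff, coeff_add, coeff_X_mul, coeff_one, one_ne_zero, if_false, zero_add,
    pow_one, Nat.factorial_one, Nat.cast_one, div_one] at h1
  rw [← h1, DX, coeff_zero_eq_eval_zero, eval_finsetSum, sum_congr rfl (g := fun _ =>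
    z * aeval z (EW (j k) ((Λ k).erase 0) 0)) fun y hy => ?_]
  · simp [PP, h.cardL]
    ring
  have h2 : (Λ k).image (y + ·) = Λ k := eq_of_subset_of_card_le (fun x hx => by
    obtain ⟨a, ha, rfl⟩ := mem_image.1 hx
    simpa [add_comm] using h.sub k _ (h.sub k y hy 0 (h.mem0 k)) a ha)
    (card_image_of_injective _ (add_right_injective y)).ge
  have h3 := EE_hom (aeval z : ℝ[X] →ₐ[ℝ] 𝕜).toRingHom (add_right_injective y) X
    (J := fun x y => C (j k (y - x))) (J' := fun x y => algebraMap ℝ 𝕜 (j k (y - x)))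
    ((Λ k).erase 0) (r := fun x => C (j k (x - 0))) (r' := fun x => algebraMap ℝ 𝕜 (j k (x - y)))
    (fun _ _ _ _ _ => by simp) fun _ _ => by simp
  have h4 := EE_hom (evalRingHom (0 : 𝕜)) Function.injective_id (C z)
    (J := fun x y => X + C (algebraMap ℝ 𝕜 (j k (y - x))))
    (J' := fun x y => algebraMap ℝ 𝕜 (j k (y - x))) ((Λ k).erase y)
    (r := fun x => X + C (algebraMap ℝ 𝕜 (j k (x - y))))
    (r' := fun x => algebraMap ℝ 𝕜 (j k (x - y))) (fun _ _ _ _ _ => by simp) fun _ _ => by simp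
  rw [image_erase (add_right_injective y), h2, add_zero] at h3
  rw [eval_mul, eval_C]
  refine congrArg _ (h4.trans (Eq.trans ?_ h3.symm))
  simp

end Pool.Agent.Lib.LRS
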