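import Pool.Agent.Lib.LRS.Walk

/-! Sums over self-avoiding walks: Simon-Lieb type inequalities, joins, splitting. -/

namespace Pool.Agent.Lib.LRS

open scoped ENNReal

variable {Γ : Type} [AddCommGroup Γ]

/-- total weight -/
noncomputable def chi (K : Γ → ℝ≥0∞) : ℝ≥0∞ := ∑' l, W K l
/-- weight of walks staying in the ball -/
noncomputable def mm (K : Γ → ℝ≥0∞) (N : Γ → ℝ) (R : ℝ) : ℝ≥0∞ := ∑' l, W K l * ind (In N R l)
/-- weight of walks leaving the ball -/
noncomputable def TT (K : Γ → ℝ≥0∞) (N : Γ → ℝ) (R : ℝ) : ℝ≥0∞ :=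
  ∑' l, W K l * ind (¬ In N R l)
/-- Simon-Lieb quantity -/
noncomputable def phi (K : Γ → ℝ≥0∞) (N : Γ → ℝ) (R : ℝ) : ℝ≥0∞ :=
  ∑' a, ∑' s, W K a * ind (In N R a) * (K s * ind (R < N (a.sum + s)))
/-- weight of walks with `n` steps -/
noncomputable def aa (K : Γ → ℝ≥0∞) (n : ℕ) : ℝ≥0∞ := ∑' l, W K l * ind (l.length = n)
/-- weight of walks ending at `z` -/
noncomputable def GG (K : Γ → ℝ≥0∞) (z : Γ) : ℝ≥0∞ := ∑' l, W K l * ind (l.sum = z)

theorem one_le_mm (K : Γ → ℝ≥0∞) {N : Γ → ℝ} {R : ℝ} (h : N 0 ≤ R) : 1 ≤ mm K N R := by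
  refine le_trans ?_ (ENNReal.le_tsum ([] : List Γ))
  rw [W_nil, ind_pos (In_nil h), mul_one]

theorem mm_mono {K K' : Γ → ℝ≥0∞} (hK : ∀ s, K s ≤ K' s) (N : Γ → ℝ) {R R' : ℝ} (h : R ≤ R') :
    mm K N R ≤ mm K' N R' :=
  ENNReal.tsum_le_tsum fun _ => mul_le_mul' (W_mono fun s _ => hK s) (ind_mono fun hl => hl.mono h)

theorem mm_le_chi (K : Γ → ℝ≥0∞) (N : Γ → ℝ) (R : ℝ) : mm K N R ≤ chi K :=
  ENNReal.tsum_le_tsum fun _ => mul_ind_le _ _

theorem TT_le_chi (K : Γ → ℝ≥0∞) (N : Γ → ℝ) (R : ℝ) : TT K N R ≤ chi K :=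
  ENNReal.tsum_le_tsum fun _ => mul_ind_le _ _

theorem TT_anti (K : Γ → ℝ≥0∞) (N : Γ → ℝ) {R R' : ℝ} (h : R ≤ R') : TT K N R' ≤ TT K N R :=
  ENNReal.tsum_le_tsum fun _ => mul_le_mul' le_rfl (ind_mono fun hl hl' => hl (hl'.mono h))

theorem exit_le (K : Γ → ℝ≥0∞) {N : Γ → ℝ} {R : ℝ} (h0 : N 0 ≤ R) (F F' : List Γ → ℝ≥0∞)
    (hF : ∀ a s b, In N R a → R < N (a.sum + s) → K s ≠ 0 → F (a ++ s :: b) ≤ F' b) :
    ∑' l, W K l * ind (¬ In N R l) * F l ≤ phi K N R * ∑' b, W K b * F' b := by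
  have : phi K N R * ∑' b, W K b * F' b = ∑' p : List Γ × Γ × List Γ,
      W K p.1 * ind (In N R p.1) * (K p.2.1 * ind (R < N (p.1.sum + p.2.1))) *
        (W K p.2.2 * F' p.2.2) := by
    rw [tsum_prod3 (fun a s b => W K a * ind (In N R a) * (K s * ind (R < N (a.sum + s))) *
      (W K b * F' b))]
    simp only [ENNReal.tsum_mul_left, phi, ENNReal.tsum_mul_right]
  rw [this]
  refine tsum_le_of_lift _ _ (fun p => p.1 ++ p.2.1 :: p.2.2) fun l hl => ?_
  have h1 : ¬ In N R l := of_ind_ne (right_ne_zero_of_mul (left_ne_zero_of_mul hl))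
  obtain ⟨a, s, b, rfl, ha, hs⟩ := exit_exists h0 l h1
  refine ⟨(a, s, b), rfl, ?_⟩
  have hW := W_split_le K a s b
  have hK : K s ≠ 0 := by
    intro h
    rw [h, mul_zero, zero_mul] at hW
    exact left_ne_zero_of_mul (left_ne_zero_of_mul hl) (le_antisymm hW zero_le)
  simp only [ind_pos h1, ind_pos ha, ind_pos hs, mul_one]
  rw [← mul_assoc]
  exact mul_le_mul' hW (hF a s b ha hs hK)

omit [AddCommGroup Γ] in
theorem tsum_le_of_trunc (f : List Γ → ℝ≥0∞) (X : ℝ≥0∞)
    (h : ∀ n : ℕ, ∑' l, f l * ind (l.length < n) ≤ X) : ∑' l, f l ≤ X := by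
  rw [ENNReal.tsum_eq_iSup_sum]
  refine iSup_le fun S => le_trans ?_ (h (S.sup List.length + 1))
  refine le_trans (Finset.sum_le_sum fun l hl => ?_) (ENNReal.sum_le_tsum S)
  rw [ind_pos (Nat.lt_succ_of_le (Finset.le_sup (f := List.length) hl)), mul_one]

theorem chi_le (K : Γ → ℝ≥0∞) {N : Γ → ℝ} {R : ℝ} (h0 : N 0 ≤ R) (hφ : phi K N R ≤ 2⁻¹) :
    chi K ≤ 2 * mm K N R := by
  refine tsum_le_of_trunc _ _ fun n => ?_
  induction n with
  | zero => simp [ind_neg]
  | succ n ih =>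
    have h1 := exit_le K h0 (fun l => ind (l.length < n + 1)) (fun l => ind (l.length < n))
      fun a s b _ _ _ => ind_mono fun h => by
        simp only [List.length_append, List.length_cons] at h; omega
    have h2 : ∑' l, W K l * ind (l.length < n + 1) ≤
        mm K N R + ∑' l, W K l * ind (¬ In N R l) * ind (l.length < n + 1) := by
      rw [mm, ← ENNReal.tsum_add]
      refine ENNReal.tsum_le_tsum fun l => ?_
      by_cases hl : In N R l
      · rw [ind_pos hl, mul_one]; exact (mul_ind_le _ _).trans le_self_add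
      · rw [ind_pos hl, mul_one]; exact le_add_self
    refine h2.trans ((add_le_add le_rfl (h1.trans (mul_le_mul' hφ ih))).trans (le_of_eq ?_))
    rw [← mul_assoc, ENNReal.inv_mul_cancel (by simp) (by simp), one_mul, two_mul]

theorem TT_step (K : Γ → ℝ≥0∞) {N : Γ → ℝ} (hN : Sub N) {R ρ x : ℝ} (hR : 0 ≤ R) (hρ : 0 ≤ ρ)
    (hx : 0 ≤ x) (hK : ∀ s, K s ≠ 0 → N s ≤ ρ) :
    TT K N (x + (R + ρ)) ≤ phi K N R * TT K N x := by
  refine le_trans ?_ (exit_le K (hN.zero ▸ hR) (fun l => ind (¬ In N (x + (R + ρ)) l))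
    (fun l => ind (¬ In N x l)) fun a s b ha _ hs => ind_mono fun h hb => h ?_)
  · refine ENNReal.tsum_le_tsum fun l => ?_
    by_cases hl : In N (x + (R + ρ)) l
    · rw [ind_neg (not_not.2 hl), mul_zero]; exact zero_le
    · rw [ind_pos hl, ind_pos (show ¬ In N R l from fun h => hl (h.mono (by linarith))), mul_one,
        mul_one]
  · refine In_join hN ha hb ?_ (by linarith)
    have := hN.add a.sum s
    have := ha.sum_le
    have := hK s hs
    linarith

theorem TT_iter (K : Γ → ℝ≥0∞) {N : Γ → ℝ} (hN : Sub N) {R ρ : ℝ} (hR : 0 ≤ R) (hρ : 0 ≤ ρ)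
    (hK : ∀ s, K s ≠ 0 → N s ≤ ρ) (hφ : phi K N R ≤ 2⁻¹) (i : ℕ) :
    TT K N (i * (R + ρ)) ≤ 2⁻¹ ^ i * chi K := by
  induction i with
  | zero => simpa using TT_le_chi K N _
  | succ i ih =>
    have := TT_step K hN hR hρ (x := i * (R + ρ)) (by positivity) hK
    rw [Nat.cast_succ, add_mul, one_mul, pow_succ', mul_assoc]
    exact this.trans (mul_le_mul' hφ ih)

theorem join_ge (K : Γ → ℝ≥0∞) {N : Γ → ℝ} (hN : Sub N) {R : ℝ} (hR : 0 ≤ R)
    (w : List Γ → List Γ → ℝ≥0∞) (F : List Γ → ℝ≥0∞)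
    (hF : ∀ a b, In N R a → In N R b → w a b ≠ 0 →
      w a b ≤ ∑' s, K s * ind (2 * R < N (a.sum + s)) * F (a ++ s :: b)) :
    ∑' a, ∑' b, W K a * ind (In N R a) * (W K b * ind (In N R b)) * w a b ≤
      ∑' l, W K l * F l := by
  have h1 : ∑' a, ∑' b, W K a * ind (In N R a) * (W K b * ind (In N R b)) * w a b ≤
      ∑' p : List Γ × List Γ × Γ, W K p.1 * ind (In N R p.1) * (W K p.2.1 * ind (In N R p.2.1)) *
        (K p.2.2 * ind (2 * R < N (p.1.sum + p.2.2)) * F (p.1 ++ p.2.2 :: p.2.1)) := by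
    rw [tsum_prod3 (fun a b s => W K a * ind (In N R a) * (W K b * ind (In N R b)) *
      (K s * ind (2 * R < N (a.sum + s)) * F (a ++ s :: b)))]
    refine ENNReal.tsum_le_tsum fun a => ENNReal.tsum_le_tsum fun b => ?_
    rw [ENNReal.tsum_mul_left]
    by_cases ha : In N R a
    · by_cases hb : In N R b
      · by_cases hw : w a b = 0
        · rw [hw, mul_zero]; exact zero_le
        · exact mul_le_mul' le_rfl (hF a b ha hb hw)
      · simp [ind_neg hb]
    · simp [ind_neg ha]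
  refine h1.trans (tsum_ge_of_inj _ _ (fun p => p.1 ++ p.2.2 :: p.2.1) ?_ ?_)
  · rintro ⟨a, b, s⟩ ⟨a', b', s'⟩ h h' e
    have ha : In N R a := of_ind_ne (right_ne_zero_of_mul (left_ne_zero_of_mul
      (left_ne_zero_of_mul h)))
    have ha' : In N R a' := of_ind_ne (right_ne_zero_of_mul (left_ne_zero_of_mul
      (left_ne_zero_of_mul h')))
    have hs : 2 * R < N (a.sum + s) := of_ind_ne (right_ne_zero_of_mul (left_ne_zero_of_mul
      (right_ne_zero_of_mul h)))
    have hs' : 2 * R < N (a'.sum + s') := of_ind_ne (right_ne_zero_of_mul (left_ne_zero_of_mul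
      (right_ne_zero_of_mul h')))
    obtain ⟨rfl, rfl, rfl⟩ := exit_unique e ha ha' (by linarith) (by linarith)
    rfl
  · rintro ⟨a, b, s⟩ h
    have ha : In N R a := of_ind_ne (right_ne_zero_of_mul (left_ne_zero_of_mul
      (left_ne_zero_of_mul h)))
    have hb : In N R b := of_ind_ne (right_ne_zero_of_mul (right_ne_zero_of_mul
      (left_ne_zero_of_mul h)))
    have hs : 2 * R < N (a.sum + s) := of_ind_ne (right_ne_zero_of_mul (left_ne_zero_of_mul
      (right_ne_zero_of_mul h)))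
    simp only [ind_pos ha, ind_pos hb, ind_pos hs, mul_one]
    rw [← mul_assoc, mul_right_comm (W K a)]
    exact mul_le_mul' (W_join hN K ha hb hs) le_rfl

omit [AddCommGroup Γ] in
theorem map_sum_eq [Zero Γ] (h : Γ → ℝ≥0∞) (l : List Γ) :
    (l.map h).sum = ∑ i ∈ Finset.range l.length, h (l.getD i 0) := by
  induction l with
  | nil => simp
  | cons s l ih =>
    rw [List.length_cons, Finset.sum_range_succ', List.map_cons, List.sum_cons, ih, add_comm]
    simp

theorem split_le (K : Γ → ℝ≥0∞) (h : Γ → ℝ≥0∞) (n : ℕ) :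
    ∑' l, W K l * ind (l.length = n) * (l.map h).sum ≤
      (∑ i ∈ Finset.range n, aa K i * aa K (n - 1 - i)) * ∑' s, K s * h s := by
  have h1 : ∑' l, W K l * ind (l.length = n) * (l.map h).sum =
      ∑ i ∈ Finset.range n, ∑' l, W K l * ind (l.length = n) * h (l.getD i 0) := by
    rw [← Summable.tsum_finsetSum fun _ _ => ENNReal.summable]
    refine tsum_congr fun l => ?_
    by_cases hl : l.length = n
    · rw [map_sum_eq, hl, Finset.mul_sum]
    · simp [ind_neg hl]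
  rw [h1, Finset.sum_mul]
  refine Finset.sum_le_sum fun i hi => ?_
  have hi' := Finset.mem_range.1 hi
  have : aa K i * aa K (n - 1 - i) * ∑' s, K s * h s = ∑' p : List Γ × List Γ × Γ,
      W K p.1 * ind (p.1.length = i) * (W K p.2.1 * ind (p.2.1.length = n - 1 - i)) *
        (K p.2.2 * h p.2.2) := by
    rw [tsum_prod3 (fun a b s => W K a * ind (a.length = i) *
      (W K b * ind (b.length = n - 1 - i)) * (K s * h s))]
    simp only [ENNReal.tsum_mul_left, aa, ENNReal.tsum_mul_right]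
  rw [this]
  refine tsum_le_of_lift _ _ (fun p => p.1 ++ p.2.2 :: p.2.1) fun l hl => ?_
  have hn : l.length = n := of_ind_ne (right_ne_zero_of_mul (left_ne_zero_of_mul hl))
  have hil : i < l.length := hn ▸ hi'
  have e : l.take i ++ l[i] :: l.drop (i + 1) = l := by simp
  refine ⟨(l.take i, l.drop (i + 1), l[i]), e, ?_⟩
  have hW := W_split_le K (l.take i) l[i] (l.drop (i + 1))
  rw [e] at hW
  have e1 : (l.take i).length = i := by simp [hil.le]
  have e2 : (l.drop (i + 1)).length = n - 1 - i := by simp only [List.length_drop]; omega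
  simp only [ind_pos hn, ind_pos e1, ind_pos e2, mul_one, List.getD_eq_getElem _ _ hil]
  rw [← mul_assoc, mul_right_comm (W K _)]
  exact mul_le_mul' hW le_rfl

theorem aa_zero (K : Γ → ℝ≥0∞) : aa K 0 = 1 := by
  rw [aa, tsum_eq_single []]
  · simp [W_nil, ind_pos]
  · intro l hl
    rw [ind_neg (by simpa using hl), mul_zero]

theorem aa_add_le (K : Γ → ℝ≥0∞) (n m : ℕ) : aa K (n + m) ≤ aa K n * aa K m := by
  have : aa K n * aa K m = ∑' p : List Γ × List Γ,
      W K p.1 * ind (p.1.length = n) * (W K p.2 * ind (p.2.length = m)) := by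
    rw [ENNReal.tsum_prod']
    simp only [ENNReal.tsum_mul_left, aa, ENNReal.tsum_mul_right]
  rw [this]
  refine tsum_le_of_lift _ _ (fun p => p.1 ++ p.2) fun l hl => ?_
  have hn : l.length = n + m := of_ind_ne (right_ne_zero_of_mul hl)
  refine ⟨(l.take n, l.drop n), by simp, ?_⟩
  have hW := W_append_le K (l.take n) (l.drop n)
  rw [List.take_append_drop] at hW
  have e1 : (l.take n).length = n := by simp only [List.length_take]; omega
  have e2 : (l.drop n).length = m := by simp only [List.length_drop]; omega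
  simpa only [ind_pos hn, ind_pos e1, ind_pos e2, mul_one] using hW

omit [AddCommGroup Γ] in
theorem tsum_len (f : List Γ → ℝ≥0∞) : ∑' l, f l = ∑' n : ℕ, ∑' l, f l * ind (l.length = n) := by
  rw [ENNReal.tsum_comm]
  refine tsum_congr fun l => ?_
  rw [tsum_eq_single l.length]
  · rw [ind_pos rfl, mul_one]
  · intro n hn
    rw [ind_neg (Ne.symm hn), mul_zero]

theorem aa_smul (t : ℝ≥0∞) (K : Γ → ℝ≥0∞) (n : ℕ) : aa (fun s => t * K s) n = t ^ n * aa K n := by
  rw [aa, aa, ← ENNReal.tsum_mul_left]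
  refine tsum_congr fun l => ?_
  by_cases hl : l.length = n
  · rw [W_smul, hl, mul_assoc]
  · simp [ind_neg hl]

theorem chi_eq (K : Γ → ℝ≥0∞) : chi K = ∑' n, aa K n := tsum_len _

end Pool.Agent.Lib.LRS
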