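import Mathlib

/-! Analytic lemmas for the hierarchical walk: Fourier bounds, a local lower bound for
convolution powers, a drop on the circle, a two-sided Fekete lemma. -/

set_option autoImplicit false

namespace Pool.Agent.Lib.LRS.T33

open Polynomial Real Finset intervalIntegral MeasureTheory Filter Topology

theorem four (P : ℝ[X]) (s : ℝ) (m : ℕ) :
    ∫ θ in (-π)..π, aeval ((s : ℂ) * Complex.exp (Complex.I * θ)) P *
      Complex.exp (-(m : ℂ) * Complex.I * θ) = ((2 * π * (P.coeff m * s ^ m) : ℝ) : ℂ) := by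
  induction P using Polynomial.induction_on' with
  | add p q hp hq =>
    simp only [map_add, add_mul]
    rw [integral_add (Continuous.intervalIntegrable (by fun_prop) _ _)
      (Continuous.intervalIntegrable (by fun_prop) _ _), hp, hq, coeff_add]
    push_cast
    ring
  | monomial j a =>
    have e : ∀ θ : ℝ, aeval ((s : ℂ) * Complex.exp (Complex.I * θ)) (monomial j a) *
        Complex.exp (-(m : ℂ) * Complex.I * θ) =
        (a * s ^ j : ℂ) * Complex.exp ((((j : ℂ) - m) * Complex.I) * θ) := fun θ => by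
      rw [aeval_monomial, mul_pow, ← Complex.exp_nat_mul, mul_assoc, mul_assoc, ← Complex.exp_add,
        mul_assoc (a : ℂ)]
      congr 3
      ring
    simp only [e]
    rw [intervalIntegral.integral_const_mul, coeff_monomial]
    split_ifs with h
    · subst h
      simp
      ring
    · have hc : ((j : ℂ) - m) * Complex.I ≠ 0 :=
        mul_ne_zero (sub_ne_zero.2 (by exact_mod_cast h)) Complex.I_ne_zero
      have h2 : ((j : ℂ) - m) * Complex.I * (π : ℝ) =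
          ((j : ℂ) - m) * Complex.I * ((-π : ℝ) : ℂ) + ((j - m : ℤ) : ℂ) * (2 * π * Complex.I) := by
        push_cast
        ring
      rw [integral_exp_mul_complex hc, h2, Complex.exp_add, Complex.exp_int_mul_two_pi_mul_I]
      simp

theorem jint {δ g : ℝ} (hδ : 0 < δ) (hg : 1 < g) :
    ∫ θ in (-π)..π, (δ + |θ|) ^ (-g) ≤ 2 * δ ^ (1 - g) / (g - 1) := by
  have hc : Continuous fun θ : ℝ => (δ + |θ|) ^ (-g) :=
    Continuous.rpow_const (by fun_prop) fun θ => Or.inl (by positivity)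
  have h1 : ∫ θ in (0 : ℝ)..π, (δ + |θ|) ^ (-g) ≤ δ ^ (1 - g) / (g - 1) := by
    rw [integral_congr (g := fun θ => (δ + θ) ^ (-g)) fun θ hθ => by
      rw [Set.uIcc_of_le pi_pos.le] at hθ
      simp only [abs_of_nonneg hθ.1]]
    rw [integral_comp_add_left (fun x : ℝ => x ^ (-g)), integral_rpow (Or.inr ⟨by linarith, by
      rw [Set.uIcc_of_le (by linarith [pi_pos])]
      exact fun h => by linarith [h.1]⟩), add_zero, show -g + 1 = 1 - g by ring,
      show 1 - g = -(g - 1) by ring, div_neg, ← neg_div, neg_sub]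
    have := rpow_nonneg (show 0 ≤ δ + π by linarith [pi_pos]) (-(g - 1))
    gcongr
    linarith
  have h2 : ∫ θ in (-π)..0, (δ + |θ|) ^ (-g) = ∫ θ in (0 : ℝ)..π, (δ + |θ|) ^ (-g) := by
    have := integral_comp_neg (a := 0) (b := π) fun θ : ℝ => (δ + |θ|) ^ (-g)
    simp only [abs_neg, neg_zero] at this
    exact this.symm
  rw [← integral_add_adjacent_intervals (b := 0) (hc.intervalIntegrable _ _)
    (hc.intervalIntegrable _ _), h2, mul_div_assoc]
  linarith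

theorem coeff_le (P : ℝ[X]) {s δ g K : ℝ} (hs : 0 < s) (hδ : 0 < δ) (hg : 1 < g) (hK : 0 ≤ K)
    (h : ∀ θ : ℝ, |θ| ≤ π →
      ‖aeval ((s : ℂ) * Complex.exp (Complex.I * θ)) P‖ ≤ K * (δ + |θ|) ^ (-g)) (m : ℕ) :
    |P.coeff m| * s ^ m ≤ K * δ ^ (1 - g) / (g - 1) := by
  have hc : Continuous fun θ : ℝ => (δ + |θ|) ^ (-g) :=
    Continuous.rpow_const (by fun_prop) fun θ => Or.inl (by positivity)
  have h1 := norm_integral_le_of_norm_le (μ := volume) (a := -π) (b := π) (by linarith [pi_pos])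
    (f := fun θ : ℝ => aeval ((s : ℂ) * Complex.exp (Complex.I * θ)) P *
      Complex.exp (-(m : ℂ) * Complex.I * θ)) (g := fun θ => K * (δ + |θ|) ^ (-g))
    (Eventually.of_forall fun θ hθ => by
      have e : ‖Complex.exp (-(m : ℂ) * Complex.I * θ)‖ = 1 := by
        rw [Complex.norm_exp]; simp
      rw [norm_mul, e, mul_one]
      exact h θ (abs_le.2 ⟨hθ.1.le, hθ.2⟩)) ((hc.const_mul K).intervalIntegrable _ _)
  rw [four, intervalIntegral.integral_const_mul, Complex.norm_real, norm_eq_abs, abs_mul, abs_mul (P.coeff m),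
    abs_of_pos (pow_pos hs m), abs_of_pos two_pi_pos] at h1
  have h2 := mul_le_mul_of_nonneg_left (jint hδ hg) hK
  have h3 : 0 ≤ |P.coeff m| * s ^ m := by positivity
  have h4 : K * (2 * δ ^ (1 - g) / (g - 1)) = 2 * (K * δ ^ (1 - g) / (g - 1)) := by ring
  nlinarith [pi_gt_three]

theorem dist_ge {s θ : ℝ} (hs : 1 / 2 ≤ s) (hθ : |θ| ≤ π) :
    (1 - s + |θ|) / 4 ≤ ‖1 - (s : ℂ) * Complex.exp (Complex.I * θ)‖ := by
  have h1 := cos_le_one_sub_mul_cos_sq hθ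
  have h2 : 1 / 5 ≤ 2 / π ^ 2 := by
    rw [div_le_div_iff₀ (by norm_num) (by positivity)]
    nlinarith [pi_lt_d2, pi_pos]
  have h3 : ‖1 - (s : ℂ) * Complex.exp (Complex.I * θ)‖ ^ 2 = (1 - s) ^ 2 + 2 * s * (1 - cos θ) := by
    rw [Complex.sq_norm, Complex.normSq_apply, mul_comm Complex.I]
    simp [Complex.exp_ofReal_mul_I_re, Complex.exp_ofReal_mul_I_im]
    nlinarith [sin_sq_add_cos_sq θ]
  refine abs_le_of_sq_le_sq' ?_ (norm_nonneg _) |>.2
  rw [h3]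
  have h4 : θ ^ 2 / 5 ≤ 1 - cos θ := by nlinarith [sq_nonneg θ]
  nlinarith [sq_abs θ, sq_nonneg (1 - s - |θ|), sq_nonneg θ, sq_nonneg (1 - s)]

/-- coefficient bound from a bound in the disc -/
theorem T1 {g C : ℝ} (hg : 1 < g) (hC : 0 ≤ C) : ∃ C2 : ℝ, 0 < C2 ∧ ∀ P : ℝ[X],
    (∀ z : ℂ, ‖z‖ < 1 → ‖aeval z P‖ ≤ C * ‖1 - z‖ ^ (-g)) →
    ∀ m : ℕ, 1 ≤ m → |P.coeff m| ≤ C2 * (m : ℝ) ^ (g - 1) := by
  have hg' : 0 < g - 1 := by linarith
  refine ⟨3 * (C * 4 ^ g * 2 ^ (g - 1) / (g - 1)) + 1, by positivity, fun P h m hm => ?_⟩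
  have hm' : (1 : ℝ) ≤ m := by exact_mod_cast hm
  have hδ : (0 : ℝ) < 1 / (m + 1) := by positivity
  have hδ2 : (1 : ℝ) / (m + 1) ≤ 1 / 2 := one_div_le_one_div_of_le (by norm_num) (by linarith)
  have h1 := coeff_le P (s := 1 - 1 / (m + 1)) (K := C * 4 ^ g) (by linarith) hδ hg (by positivity)
    (fun θ hθ => by
      have h2 := dist_ge (s := 1 - 1 / (m + 1)) (by linarith) hθ
      refine (h _ ?_).trans ?_
      · rw [norm_mul, Complex.norm_real, mul_comm Complex.I, Complex.norm_exp_ofReal_mul_I,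
          mul_one, norm_eq_abs, abs_of_pos (by linarith)]
        linarith
      · rw [sub_sub_cancel] at h2
        have h3 := rpow_le_rpow_of_nonpos (by positivity) h2 (neg_nonpos.2 (by linarith : 0 ≤ g))
        rw [div_rpow (by positivity) (by norm_num), rpow_neg (show (0 : ℝ) ≤ 4 by norm_num),
          div_inv_eq_mul, mul_comm _ ((4 : ℝ) ^ g)] at h3
        rw [mul_assoc]
        exact mul_le_mul_of_nonneg_left h3 hC) m
  have h4 : (1 : ℝ) ≤ 3 * (1 - 1 / (m + 1)) ^ m := by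
    have e : (1 : ℝ) - 1 / (m + 1) = ((1 : ℝ) / m + 1)⁻¹ := by field_simp; ring
    have h5 : ((1 : ℝ) / m + 1) ^ m ≤ exp (1 / m) ^ m :=
      pow_le_pow_left₀ (by positivity) (add_one_le_exp _) m
    rw [← exp_nat_mul, mul_one_div_cancel (by positivity)] at h5
    rw [e, inv_pow, ← div_eq_mul_inv, le_div_iff₀ (by positivity)]
    linarith [exp_one_lt_three]
  have h6 : ((1 : ℝ) / (m + 1)) ^ (1 - g) ≤ 2 ^ (g - 1) * (m : ℝ) ^ (g - 1) := by
    rw [← mul_rpow (by norm_num) (by positivity), one_div, inv_rpow (by positivity),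
      ← rpow_neg (by positivity), neg_sub]
    exact rpow_le_rpow (by positivity) (by linarith) hg'.le
  have h7 : C * 4 ^ g * ((1 : ℝ) / (m + 1)) ^ (1 - g) / (g - 1) ≤
      C * 4 ^ g * 2 ^ (g - 1) / (g - 1) * (m : ℝ) ^ (g - 1) := by
    rw [div_mul_eq_mul_div, mul_assoc (C * 4 ^ g)]
    gcongr
  have h8 : 0 ≤ (m : ℝ) ^ (g - 1) := by positivity
  nlinarith [abs_nonneg (P.coeff m)]

theorem pow_dist {z : ℂ} (hz : ‖z‖ ≤ 1) (i : ℕ) : ‖1 - z ^ i‖ ≤ i * ‖1 - z‖ := by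
  induction i with
  | zero => simp
  | succ i ih =>
    have e : 1 - z ^ (i + 1) = (1 - z ^ i) + z ^ i * (1 - z) := by ring
    have h1 : ‖z ^ i * (1 - z)‖ ≤ ‖1 - z‖ := by
      rw [norm_mul, norm_pow]
      exact mul_le_of_le_one_left (norm_nonneg _) (pow_le_one₀ (norm_nonneg _) hz)
    rw [e]
    push_cast
    linarith [norm_add_le (1 - z ^ i) (z ^ i * (1 - z))]

theorem pow_dist_ge {z : ℂ} (hz : ‖z‖ ≤ 1) {m : ℕ} (hm : m * ‖1 - z‖ ≤ 1 / 2) :
    m * ‖1 - z‖ / 2 ≤ ‖1 - z ^ m‖ := by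
  have h1 : ‖∑ i ∈ range m, (1 - z ^ i)‖ ≤ m / 2 := by
    refine (norm_sum_le _ _).trans ((sum_le_card_nsmul _ _ (1 / 2 : ℝ) fun i hi => ?_).trans ?_)
    · refine (pow_dist hz i).trans (le_trans ?_ hm)
      gcongr
      exact (mem_range.1 hi).le
    · simp [div_eq_mul_inv]
  have h2 : (m : ℝ) / 2 ≤ ‖∑ i ∈ range m, z ^ i‖ := by
    have h3 := norm_add_le (∑ i ∈ range m, (1 - z ^ i)) (∑ i ∈ range m, z ^ i)
    rw [← sum_add_distrib] at h3
    simp only [sub_add_cancel, sum_const, card_range, nsmul_eq_mul, mul_one,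
      Complex.norm_natCast] at h3
    linarith
  rw [← mul_neg_geom_sum, norm_mul]
  nlinarith [norm_nonneg (1 - z)]

theorem aeval_sum (P : ℝ[X]) (z : ℂ) (S : Finset ℕ) :
    aeval z P = ∑ i ∈ P.support ∪ S, (P.coeff i : ℂ) * z ^ i := by
  rw [aeval_def, eval₂_eq_sum, sum_def]
  exact sum_subset subset_union_left fun i _ hi => by simp [notMem_support_iff.1 hi]

theorem eval_sum (P : ℝ[X]) (S : Finset ℕ) : P.eval 1 = ∑ i ∈ P.support ∪ S, P.coeff i := by
  rw [eval_eq_sum, sum_def]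
  simp only [one_pow, mul_one]
  exact sum_subset subset_union_left fun i _ hi => notMem_support_iff.1 hi

theorem drop_one {P : ℝ[X]} (hP : ∀ i, 0 ≤ P.coeff i) {z u : ℂ} (hz : ‖z‖ ≤ 1) (hu : ‖u‖ = 1)
    {S : Finset ℕ} {η : ℝ} (h : ∀ i ∈ S, (u * z ^ i).re ≤ 1 - η) :
    (u * aeval z P).re ≤ P.eval 1 - η * ∑ i ∈ S, P.coeff i := by
  have e : ∀ i, (u * ((P.coeff i : ℂ) * z ^ i)).re = P.coeff i * (u * z ^ i).re := fun i => by
    rw [mul_left_comm, Complex.re_ofReal_mul]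
  have h1 : ∀ i, (u * z ^ i).re ≤ 1 := fun i => (Complex.re_le_norm _).trans (by
    rw [norm_mul, hu, one_mul, norm_pow]
    exact pow_le_one₀ (norm_nonneg _) hz)
  have h2 : ∑ i ∈ S, η * P.coeff i ≤ ∑ i ∈ S, (P.coeff i - P.coeff i * (u * z ^ i).re) :=
    sum_le_sum fun i hi => by nlinarith [h i hi, hP i]
  have h3 := sum_le_sum_of_subset_of_nonneg (subset_union_right (s₁ := P.support) (s₂ := S))
    (f := fun i => P.coeff i - P.coeff i * (u * z ^ i).re) fun i _ _ => by nlinarith [h1 i, hP i]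
  rw [aeval_sum P z S, eval_sum P S, mul_sum, Complex.re_sum, mul_sum]
  rw [sum_sub_distrib (s := P.support ∪ S)] at h3
  simp only [e]
  linarith

/-- drop of the modulus off the point `1` -/
theorem T3 {P : ℝ[X]} (hP : ∀ i, 0 ≤ P.coeff i) {S₁ S₂ : Finset ℕ} {a b p : ℝ} (ha : 0 ≤ a)
    (h₁ : ∀ i ∈ S₁, (i : ℝ) ≤ a / 2) (h₂ : ∀ j ∈ S₂, a ≤ j ∧ (j : ℝ) ≤ b)
    (m₁ : p ≤ ∑ i ∈ S₁, P.coeff i) (m₂ : p ≤ ∑ i ∈ S₂, P.coeff i) {z : ℂ} (hz : ‖z‖ ≤ 1)
    (hb : b * ‖1 - z‖ ≤ 1 / 2) : ‖aeval z P‖ ≤ P.eval 1 - p * (a * ‖1 - z‖) ^ 2 / 128 := by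
  obtain ⟨u, hu, he⟩ := Complex.exists_norm_eq_mul_self (aeval z P)
  have e : ‖aeval z P‖ = (u * aeval z P).re := by rw [← he, Complex.ofReal_re]
  have hη : 0 ≤ (a * ‖1 - z‖) ^ 2 / 128 := by positivity
  have hn := norm_nonneg (1 - z)
  have key : ∀ i ∈ S₁, ∀ j ∈ S₂, (u * z ^ i).re + (u * z ^ j).re ≤ 2 - (a * ‖1 - z‖) ^ 2 / 64 := by
    intro i hi j hj
    have hi' := h₁ i hi
    obtain ⟨hj1, hj2⟩ := h₂ j hj
    obtain ⟨m, rfl⟩ : ∃ m, j = i + m := Nat.exists_eq_add_of_le (by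
      have : (i : ℝ) ≤ j := by linarith
      exact_mod_cast this)
    push_cast at hj1 hj2
    have hi0 : (0 : ℝ) ≤ i := Nat.cast_nonneg i
    have h3 := pow_dist_ge hz (m := m) (by nlinarith)
    have h4 : a * ‖1 - z‖ / 4 ≤ ‖1 - z ^ m‖ := by nlinarith
    have h5 := parallelogram_law_with_norm ℝ (1 : ℂ) (z ^ m)
    have h6 : ‖z ^ m‖ ≤ 1 := by rw [norm_pow]; exact pow_le_one₀ (norm_nonneg _) hz
    have h7 : (u * z ^ i).re + (u * z ^ (i + m)).re ≤ ‖1 + z ^ m‖ := by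
      rw [← Complex.add_re, pow_add, ← mul_assoc, ← mul_one_add]
      refine (Complex.re_le_norm _).trans ?_
      rw [norm_mul, norm_mul, hu, one_mul, norm_pow]
      exact mul_le_of_le_one_left (norm_nonneg _) (pow_le_one₀ (norm_nonneg _) hz)
    have h8 : (a * ‖1 - z‖ / 4) ^ 2 ≤ ‖1 - z ^ m‖ ^ 2 := pow_le_pow_left₀ (by positivity) h4 2
    rw [norm_one] at h5
    nlinarith [norm_nonneg (z ^ m), sq_nonneg (2 - ‖1 + z ^ m‖)]
  rw [e, mul_div_assoc, mul_comm p]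
  by_cases hc : ∀ i ∈ S₁, (u * z ^ i).re ≤ 1 - (a * ‖1 - z‖) ^ 2 / 128
  · linarith [drop_one hP hz hu hc, mul_le_mul_of_nonneg_left m₁ hη]
  · push Not at hc
    obtain ⟨i, hi, hc⟩ := hc
    linarith [drop_one hP hz hu (S := S₂) (η := (a * ‖1 - z‖) ^ 2 / 128)
      fun j hj => by linarith [key i hi j hj], mul_le_mul_of_nonneg_left m₂ hη]

theorem norm_le_eval {P : ℝ[X]} (hP : ∀ i, 0 ≤ P.coeff i) {z : ℂ} (hz : ‖z‖ ≤ 1) :
    ‖aeval z P‖ ≤ P.eval 1 := by
  simpa using T3 hP (S₁ := ∅) (S₂ := ∅) (a := 0) (b := 0) (p := 0) le_rfl (by simp) (by simp)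
    (by simp) (by simp) hz (by simp)

theorem lip {g A l : ℝ} (hg : 1 < g) (hl : 0 < l) {P : ℝ[X]} (hP : ∀ i, 0 ≤ P.coeff i)
    (hA : P.eval 1 ≤ A) (h : ∀ z : ℂ, ‖z‖ = 1 → z ≠ 1 → ‖aeval z P‖ ≤ A * (‖1 - z‖ * l) ^ (-g))
    (x : ℕ) : |(P ^ 2).coeff (x + 1) - (P ^ 2).coeff x| ≤
      A ^ 2 * 2 ^ (2 * g - 1) * 4 / (2 * g - 1 - 1) / l ^ 2 := by
  have hA0 : 0 ≤ A := ((norm_nonneg _).trans (norm_le_eval hP (z := 0) (by simp))).trans hA
  set γ := 2 * g - 1 with hγ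
  have h1 := coeff_le ((1 - X) * P ^ 2) (s := 1) (δ := 4 / l) (g := γ)
    (K := A ^ 2 * 2 ^ γ / l * (l / 4) ^ (-γ)) one_pos (by positivity) (by linarith)
    (by positivity) (fun θ hθ => by
      have h2 := dist_ge (s := 1) (by norm_num) hθ
      have hz : ‖((1 : ℝ) : ℂ) * Complex.exp (Complex.I * θ)‖ = 1 := by
        rw [Complex.ofReal_one, one_mul, mul_comm, Complex.norm_exp_ofReal_mul_I]
      set z := ((1 : ℝ) : ℂ) * Complex.exp (Complex.I * θ)
      have hu : 0 ≤ ‖1 - z‖ * l := by positivity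
      have h3 : (1 + ‖1 - z‖ * l) ^ (-γ) ≤ (l / 4) ^ (-γ) * (4 / l + |θ|) ^ (-γ) := by
        rw [← mul_rpow (by positivity) (by positivity)]
        refine rpow_le_rpow_of_nonpos (by positivity) ?_ (by linarith)
        rw [mul_add, show l / 4 * (4 / l) = 1 by field_simp]
        nlinarith
      have h4 : ‖1 - z‖ * l * ‖aeval z P‖ ^ 2 ≤ A ^ 2 * (2 ^ γ * (1 + ‖1 - z‖ * l) ^ (-γ)) := by
        have e : (2 : ℝ) ^ γ * (1 + ‖1 - z‖ * l) ^ (-γ) = ((1 + ‖1 - z‖ * l) / 2) ^ (-γ) := by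
          rw [div_rpow (by positivity) (by norm_num), rpow_neg (show (0 : ℝ) ≤ 2 by norm_num),
            div_inv_eq_mul, mul_comm]
        rw [e]
        rcases le_or_gt (‖1 - z‖ * l) 1 with hc | hc
        · have h5 : 1 ≤ ((1 + ‖1 - z‖ * l) / 2) ^ (-γ) :=
            one_le_rpow_of_pos_of_le_one_of_nonpos (by positivity) (by linarith) (by linarith)
          have h6 : ‖aeval z P‖ ^ 2 ≤ A ^ 2 :=
            pow_le_pow_left₀ (norm_nonneg _) ((norm_le_eval hP hz.le).trans hA) 2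
          nlinarith [sq_nonneg ‖aeval z P‖, sq_nonneg A]
        · have h5 := pow_le_pow_left₀ (norm_nonneg _) (h z hz fun e => by
            rw [e, sub_self, norm_zero, zero_mul] at hc; linarith) 2
          have h6 : ‖1 - z‖ * l * ((‖1 - z‖ * l) ^ (-g)) ^ 2 = (‖1 - z‖ * l) ^ (-γ) := by
            rw [← rpow_natCast, ← rpow_mul hu, mul_comm, ← rpow_add_one (by linarith)]
            congr 1
            push_cast
            linarith
          have h7 : (‖1 - z‖ * l) ^ (-γ) ≤ ((1 + ‖1 - z‖ * l) / 2) ^ (-γ) :=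
            rpow_le_rpow_of_nonpos (by positivity) (by linarith) (by linarith)
          calc _ ≤ ‖1 - z‖ * l * (A * (‖1 - z‖ * l) ^ (-g)) ^ 2 := by gcongr
            _ = A ^ 2 * (‖1 - z‖ * l) ^ (-γ) := by rw [← h6]; ring
            _ ≤ _ := by gcongr
      rw [map_mul, map_sub, map_one, aeval_X, map_pow, norm_mul, norm_pow]
      refine le_of_mul_le_mul_right ?_ hl
      calc _ = ‖1 - z‖ * l * ‖aeval z P‖ ^ 2 := by ring
        _ ≤ A ^ 2 * (2 ^ γ * ((l / 4) ^ (-γ) * (4 / l + |θ|) ^ (-γ))) := h4.trans (by gcongr)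
        _ = _ := by field_simp) (x + 1)
  rw [one_pow, mul_one, sub_mul, one_mul, coeff_sub, coeff_X_mul] at h1
  refine h1.trans (le_of_eq ?_)
  have e : (l / 4) ^ (-γ) * (4 / l) ^ (1 - γ) = 4 / l := by
    rw [← inv_div 4 l, inv_rpow (by positivity), ← rpow_neg (by positivity),
      ← rpow_add (by positivity), neg_neg, add_sub_cancel, rpow_one]
  rw [mul_assoc, e]
  field_simp

theorem conv {Q : ℝ[X]} (hQ : ∀ i, 0 ≤ Q.coeff i) {x k : ℕ} {β : ℝ} (hβ : 0 ≤ β)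
    (h : ∀ y, x ≤ y → y ≤ x + 3 * k → β ≤ Q.coeff y) (r : ℕ) :
    (∀ i, 0 ≤ (Q ^ (r + 1)).coeff i) ∧ ∀ m, (r + 1) * x + r * k ≤ m →
      m ≤ (r + 1) * x + (2 * r + 3) * k → β * (β * k) ^ r ≤ (Q ^ (r + 1)).coeff m := by
  induction r with
  | zero => exact ⟨by simpa using hQ, fun m h1 h2 => by simpa using h m (by omega) (by omega)⟩
  | succ r ih =>
    have hn : ∀ p : ℕ × ℕ, 0 ≤ Q.coeff p.1 * (Q ^ (r + 1)).coeff p.2 := fun p =>
      mul_nonneg (hQ _) (ih.1 _)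
    refine ⟨fun i => by rw [pow_succ', coeff_mul]; exact sum_nonneg fun p _ => hn p,
      fun m h1 h2 => ?_⟩
    obtain ⟨u, hu⟩ : ∃ u, u = (r + 1) * x + r * k := ⟨_, rfl⟩
    obtain ⟨v, hv⟩ : ∃ v, v = (r + 1) * x + (2 * r + 3) * k := ⟨_, rfl⟩
    have e1 : u + x + k ≤ m := by rw [hu]; nlinarith
    have e2 : m ≤ v + x + 2 * k := by rw [hv]; nlinarith
    have e3 : u + 3 * k ≤ v := by rw [hu, hv]; nlinarith
    have ih2 := ih.2
    rw [← hu, ← hv] at ih2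
    rw [pow_succ' Q, coeff_mul, Nat.sum_antidiagonal_eq_sum_range_succ_mk]
    refine le_trans ?_ (sum_le_sum_of_subset_of_nonneg
      (s := Ico (max (m - v) x) (max (m - v) x + k)) (fun i hi => ?_) fun i _ _ => hn (i, m - i))
    · refine le_trans (le_of_eq ?_) (card_nsmul_le_sum _ _ (β * (β * (β * k) ^ r)) fun i hi => ?_)
      · simp only [Nat.card_Ico, add_tsub_cancel_left, nsmul_eq_mul]
        ring
      · rw [mem_Ico] at hi
        exact mul_le_mul (h i (by omega) (by omega)) (ih2 _ (by omega) (by omega))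
          (by positivity) (hQ _)
    · rw [mem_Ico] at hi
      rw [mem_range]
      omega

theorem peak {P : ℝ[X]} (hP : ∀ i, 0 ≤ P.coeff i) {S : Finset ℕ} {n : ℕ} {p : ℝ} (hp : 0 ≤ p)
    (hS : ∀ i ∈ S, i ≤ n) (hm : p ≤ ∑ i ∈ S, P.coeff i) :
    ∃ x ≤ 2 * n, p ^ 2 / (2 * n + 1) ≤ (P ^ 2).coeff x := by
  have h1 : ∑ _ ∈ range (2 * n + 1), p ^ 2 / (2 * n + 1) ≤
      ∑ x ∈ range (2 * n + 1), (P ^ 2).coeff x := by
    rw [sum_const, card_range, nsmul_eq_mul]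
    push_cast
    rw [mul_div_cancel₀ _ (by positivity)]
    refine (pow_le_pow_left₀ hp hm 2).trans ?_
    rw [sq, sum_mul_sum, ← sum_product', ← sum_fiberwise_of_maps_to (t := range (2 * n + 1))
      (g := fun q : ℕ × ℕ => q.1 + q.2) fun q hq => by
        have := hS _ (mem_product.1 hq).1
        have := hS _ (mem_product.1 hq).2
        rw [mem_range]
        omega]
    refine sum_le_sum fun x _ => ?_
    rw [sq, coeff_mul]
    exact sum_le_sum_of_subset_of_nonneg (fun q hq => mem_antidiagonal.2 (mem_filter.1 hq).2)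
      fun q _ _ => mul_nonneg (hP _) (hP _)
  obtain ⟨x, hx, h⟩ := exists_le_of_sum_le (nonempty_range_iff.2 (by omega)) h1
  exact ⟨x, by rw [mem_range] at hx; omega, h⟩

/-- local lower bound for convolution powers -/
theorem T2 {g A C1 p ρ : ℝ} (hg : 1 < g) (hC : 0 < C1) (hp : 0 < p) (hρ : 0 ≤ ρ) :
    ∃ (C2 c l0 : ℝ) (r1 : ℕ), 0 < C2 ∧ 0 < c ∧ ∀ (l : ℝ) (P : ℝ[X]) (S : Finset ℕ), l0 ≤ l →
      (∀ i, 0 ≤ P.coeff i) → P.eval 1 ≤ A → (∀ i ∈ S, (i : ℝ) ≤ C1 * l) →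
      p ≤ ∑ i ∈ S, P.coeff i →
      (∀ z : ℂ, ‖z‖ = 1 → z ≠ 1 → ‖aeval z P‖ ≤ A * (‖1 - z‖ * l) ^ (-g)) →
      ∀ m : ℕ, C2 * l ≤ m → m ≤ ρ * C2 * l → ∃ r, 1 ≤ r ∧ r ≤ r1 ∧ c / l ≤ (P ^ r).coeff m := by
  obtain ⟨K, hK⟩ : ∃ K, K = A ^ 2 * 2 ^ (2 * g - 1) * 4 / (2 * g - 1 - 1) + 1 := ⟨_, rfl⟩
  have hK0 : 0 < K := by
    have : 0 < 2 * g - 1 - 1 := by linarith
    rw [hK]
    positivity
  obtain ⟨b, hb⟩ : ∃ b, b = p ^ 2 / (2 * C1 + 1) := ⟨_, rfl⟩
  have hb0 : 0 < b := by rw [hb]; positivity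
  obtain ⟨η, hη⟩ : ∃ η, η = b / (6 * K) := ⟨_, rfl⟩
  have hη0 : 0 < η := by rw [hη]; positivity
  obtain ⟨C2, hC2⟩ : ∃ C2, C2 = 4 * C1 * (2 * C1 + η) / η := ⟨_, rfl⟩
  have hC20 : 0 < C2 := by rw [hC2]; positivity
  have hC2' : C2 * η = 4 * C1 * (2 * C1 + η) := by rw [hC2]; field_simp
  obtain ⟨R, hR⟩ := exists_nat_ge (2 * ρ * C2 / η + 1)
  refine ⟨C2, b / 2 * min 1 (b * η / 4) ^ R, max 1 (1 / η), 2 * R, hC20, by positivity,
    fun l P S hl hP hA hS hm hz m m1 m2 => ?_⟩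
  have l1 : 1 ≤ l := (le_max_left _ _).trans hl
  have l2 : 1 ≤ η * l := by
    have := (le_max_right _ _).trans hl
    rw [div_le_iff₀ hη0] at this
    linarith
  have l0 : 0 < l := by linarith
  obtain ⟨x, hx, hpk⟩ := peak hP (n := ⌊C1 * l⌋₊) hp.le (fun i hi => Nat.le_floor (hS i hi)) hm
  have hn : (⌊C1 * l⌋₊ : ℝ) ≤ C1 * l := Nat.floor_le (by positivity)
  have hx' : (x : ℝ) ≤ 2 * C1 * l := by
    have : (x : ℝ) ≤ 2 * (⌊C1 * l⌋₊ : ℝ) := by exact_mod_cast hx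
    linarith
  have hx0 : (0 : ℝ) ≤ x := Nat.cast_nonneg x
  have hpk' : b / l ≤ (P ^ 2).coeff x := by
    refine le_trans ?_ hpk
    rw [hb, div_div]
    exact div_le_div_of_nonneg_left (by positivity) (by positivity) (by nlinarith)
  obtain ⟨k, k1, k2⟩ : ∃ k : ℕ, (k : ℝ) ≤ η * l ∧ η * l / 2 ≤ k :=
    ⟨⌊η * l⌋₊, Nat.floor_le (by positivity), (Nat.div_two_lt_floor l2).le⟩
  have k0 : (0 : ℝ) < k := by linarith
  have k0' : 0 < k := by exact_mod_cast k0
  have hw : ∀ j : ℕ, b / l - j * (K / l ^ 2) ≤ (P ^ 2).coeff (x + j) := fun j => by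
    induction j with
    | zero => simpa using hpk'
    | succ j ih =>
      have h1 := (abs_le.1 (lip hg l0 hP hA hz (x + j))).1
      have h2 : A ^ 2 * 2 ^ (2 * g - 1) * 4 / (2 * g - 1 - 1) / l ^ 2 ≤ K / l ^ 2 := by
        gcongr
        linarith
      rw [← add_assoc]
      push_cast
      linarith
  have hQ : ∀ i, 0 ≤ (P ^ 2).coeff i := fun i => by
    rw [sq, coeff_mul]
    exact sum_nonneg fun q _ => mul_nonneg (hP _) (hP _)
  have hwin : ∀ y, x ≤ y → y ≤ x + 3 * k → b / (2 * l) ≤ (P ^ 2).coeff y := fun y h1 h2 => by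
    obtain ⟨j, rfl⟩ := Nat.exists_eq_add_of_le h1
    have h3 : (j : ℝ) ≤ 3 * k := by exact_mod_cast (by omega : j ≤ 3 * k)
    have h4 : (j : ℝ) * (K / l ^ 2) ≤ 3 * (η * l) * (K / l ^ 2) := by gcongr; linarith
    have h5 : 3 * (η * l) * (K / l ^ 2) = b / (2 * l) := by rw [hη]; field_simp; norm_num
    have h6 : b / l = 2 * (b / (2 * l)) := by field_simp
    linarith [hw j]
  have hmk : x * (x + k) ≤ m * k := by
    have h1 : (x : ℝ) * (x + k) ≤ (2 * C1 * l) * (2 * C1 * l + η * l) := by gcongr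
    have h2 : C2 * l * (η * l / 2) ≤ m * k := by gcongr
    have h3 : (x : ℝ) * (x + k) ≤ m * k := by
      calc _ ≤ _ := h1
        _ = C2 * η * l ^ 2 / 2 := by rw [hC2']; ring
        _ = C2 * l * (η * l / 2) := by ring
        _ ≤ _ := h2
    exact_mod_cast h3
  have hxm : x ≤ m := le_of_mul_le_mul_right (by nlinarith) k0'
  have d1 := Nat.div_mul_le_self (m + k) (x + k)
  have d2 := Nat.lt_mul_div_succ (m + k) (show 0 < x + k by omega)
  obtain ⟨r, hr⟩ : ∃ r, (m + k) / (x + k) = r + 1 :=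
    ⟨_, (Nat.succ_pred_eq_of_pos (Nat.div_pos (by omega) (by omega))).symm⟩
  rw [hr] at d1 d2
  have d3 : x ≤ (r + 2) * k := le_of_mul_le_mul_right (a := x + k) (by nlinarith) (by omega)
  have hrR : r + 1 ≤ R := by
    have h1 : (r + 1) * k ≤ m + k := by nlinarith
    have h2 : ((r : ℝ) + 1) * k ≤ m + k := by exact_mod_cast h1
    have h3 : ρ * C2 * l = 2 * ρ * C2 / η * (η * l / 2) := by field_simp
    have h4 : 2 * ρ * C2 / η * (η * l / 2) ≤ 2 * ρ * C2 / η * k := by gcongr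
    have h5 : ((r : ℝ) + 1) * k ≤ R * k := by nlinarith
    exact_mod_cast le_of_mul_le_mul_right h5 k0
  have hc := (conv hQ (by positivity) hwin r).2 m (by nlinarith) (by nlinarith)
  rw [← pow_mul] at hc
  refine ⟨2 * (r + 1), by omega, by omega, le_trans ?_ hc⟩
  have h1 : min 1 (b * η / 4) ^ R ≤ (b / (2 * l) * k) ^ r := by
    refine (pow_le_pow_of_le_one (by positivity) (min_le_left _ _) (by omega : r ≤ R)).trans
      (pow_le_pow_left₀ (by positivity) ((min_le_right _ _).trans ?_) r)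
    calc b * η / 4 = b / (2 * l) * (η * l / 2) := by field_simp; norm_num
      _ ≤ _ := by gcongr
  calc _ = b / (2 * l) * min 1 (b * η / 4) ^ R := by field_simp
    _ ≤ _ := by gcongr

/-- two-sided Fekete lemma along a convergent cocycle -/
theorem T4 {g : ℕ → ℕ → ℝ} {C a : ℝ} (ha : 0 < a) (h0 : ∀ i p, 0 < g i p)
    (h1 : ∀ i p q, g i p * g (i + p) q ≤ g i (p + q))
    (h2 : ∀ i p q, g i (p + q) ≤ C * (g i p * g (i + p) q))
    (h3 : ∀ p, ∃ M, Tendsto (fun i => g i p) atTop (𝓝 M)) (h4 : ∀ i, a ≤ g i 1) :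
    ∃ Λ : ℝ, 0 < Λ ∧ (∀ b, Λ < b → ∃ E, ∀ i n, g i n ≤ E * b ^ n) ∧
      ∀ b, 0 < b → b < Λ → ∃ E, ∀ i n, b ^ n ≤ E * g i n := by
  have z1 : ∀ i, 1 ≤ C * g i 0 := fun i =>
    le_of_mul_le_mul_right (by have := h2 i 0 0; simp only [add_zero] at this; linarith) (h0 i 0)
  have z2 : ∀ i, g i 0 ≤ 1 := fun i =>
    le_of_mul_le_mul_right (by have := h1 i 0 0; simp only [add_zero] at this; linarith) (h0 i 0)
  have hC : 0 < C := (mul_pos_iff_of_pos_right (h0 0 0)).1 (one_pos.trans_le (z1 0))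
  have lo : ∀ n i, a ^ n ≤ C * g i n := fun n i => by
    induction n with
    | zero => simpa using z1 i
    | succ n ih =>
      calc a ^ (n + 1) = a ^ n * a := pow_succ _ _
        _ ≤ C * g i n * g (i + n) 1 := mul_le_mul ih (h4 _) ha.le (mul_pos hC (h0 _ _)).le
        _ ≤ _ := by rw [mul_assoc]; exact mul_le_mul_of_nonneg_left (h1 _ _ _) hC.le
  have up : ∀ p, ∃ B, ∀ i, g i p ≤ B := fun p => by
    obtain ⟨M, hM⟩ := h3 p
    obtain ⟨B, hB⟩ := hM.bddAbove_range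
    exact ⟨B, fun i => hB ⟨i, rfl⟩⟩
  choose B hB using up
  have hB0 : ∀ p, 0 < B p := fun p => (h0 0 p).trans_le (hB p 0)
  have LB : ∀ b, 0 < b → ∀ p, 1 ≤ p → (∀ᶠ i in atTop, b ^ p ≤ g i p) →
      ∃ E, ∀ i n, b ^ n ≤ E * g i n := fun b hb p hp h => by
    obtain ⟨i0, h⟩ := eventually_atTop.1 h
    refine ⟨∑ j ∈ range (i0 + p), C * (b / a) ^ j, fun i n => ?_⟩
    induction n using Nat.strong_induction_on with
    | _ n ih =>
      rcases lt_or_ge n (i0 + p) with hn | hn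
      · calc b ^ n = (b / a) ^ n * a ^ n := by rw [← mul_pow, div_mul_cancel₀ _ ha.ne']
          _ ≤ (b / a) ^ n * (C * g i n) := by gcongr; exact lo n i
          _ = C * (b / a) ^ n * g i n := by ring
          _ ≤ _ := mul_le_mul_of_nonneg_right (single_le_sum (f := fun j => C * (b / a) ^ j)
              (fun _ _ => by positivity) (mem_range.2 hn)) (h0 _ _).le
      · obtain ⟨n, rfl⟩ : ∃ n', n = n' + p := ⟨n - p, by omega⟩
        have hE : 0 ≤ ∑ j ∈ range (i0 + p), C * (b / a) ^ j := sum_nonneg fun _ _ => by positivity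
        calc b ^ (n + p) = b ^ n * b ^ p := pow_add _ _ _
          _ ≤ _ := mul_le_mul (ih n (by omega)) (h (i + n) (by omega)) (by positivity)
              (mul_nonneg hE (h0 _ _).le)
          _ ≤ _ := by rw [mul_assoc]; exact mul_le_mul_of_nonneg_left (h1 _ _ _) hE
  have UB : ∀ b, 0 < b → ∀ p, 1 ≤ p → (∀ᶠ i in atTop, C * g i p ≤ b ^ p) →
      ∃ E, ∀ i n, g i n ≤ E * b ^ n := fun b hb p hp h => by
    obtain ⟨i0, h⟩ := eventually_atTop.1 h
    refine ⟨∑ j ∈ range (i0 + p), B j / b ^ j, fun i n => ?_⟩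
    induction n using Nat.strong_induction_on with
    | _ n ih =>
      rcases lt_or_ge n (i0 + p) with hn | hn
      · calc g i n ≤ B n / b ^ n * b ^ n := by rw [div_mul_cancel₀ _ (by positivity)]; exact hB n i
          _ ≤ _ := mul_le_mul_of_nonneg_right (single_le_sum (f := fun j => B j / b ^ j)
              (fun j _ => by have := hB0 j; positivity) (mem_range.2 hn)) (by positivity)
      · obtain ⟨n, rfl⟩ : ∃ n', n = n' + p := ⟨n - p, by omega⟩
        calc g i (n + p) ≤ g i n * (C * g (i + n) p) := by rw [mul_left_comm]; exact h2 _ _ _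
          _ ≤ _ := mul_le_mul (ih n (by omega)) (h (i + n) (by omega))
              (mul_pos hC (h0 _ _)).le ((h0 _ _).le.trans (ih n (by omega)))
          _ = _ := by rw [pow_add, mul_assoc]
  have big : ∀ x y : ℝ, 1 < x → ∃ p, 1 ≤ p ∧ y < x ^ p := fun x y hx => by
    obtain ⟨p, hp⟩ := pow_unbounded_of_one_lt y hx
    exact ⟨p + 1, by omega, hp.trans_le (pow_le_pow_right₀ hx.le (by omega))⟩
  let T : Set ℝ := {b | 0 < b ∧ ∃ E, ∀ i n, b ^ n ≤ E * g i n}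
  have hT : a ∈ T := ⟨ha, C, fun i n => lo n i⟩
  have hbd : BddAbove T := by
    obtain ⟨E', hE'⟩ := UB (C * B 1) (mul_pos hC (hB0 1)) 1 le_rfl
      (Eventually.of_forall fun i => by rw [pow_one]; gcongr; exact hB 1 i)
    refine ⟨C * B 1, fun b ⟨_, E, hE⟩ => le_of_not_gt fun hlt => ?_⟩
    have hp := mul_pos hC (hB0 1)
    obtain ⟨p, -, h⟩ := big (b / (C * B 1)) (E * E') ((one_lt_div hp).2 hlt)
    have hE0 : 0 ≤ E := ((mul_pos_iff_of_pos_right (h0 0 0)).1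
      (one_pos.trans_le ((pow_zero b).ge.trans (hE 0 0)))).le
    rw [div_pow, lt_div_iff₀ (by positivity), mul_assoc] at h
    exact h.not_ge ((hE 0 p).trans (mul_le_mul_of_nonneg_left (hE' 0 p) hE0))
  have hΛ : 0 < sSup T := ha.trans_le (le_csSup hbd hT)
  refine ⟨sSup T, hΛ, fun b hb => ?_, fun b hb hlt => ?_⟩
  · obtain ⟨b', h5, h6⟩ := exists_between hb
    have hb' := hΛ.trans h5
    obtain ⟨p, hp, h⟩ := big (b / b') C ((one_lt_div hb').2 h6)
    obtain ⟨M, hM⟩ := h3 p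
    rw [div_pow, lt_div_iff₀ (by positivity)] at h
    rcases lt_or_ge (C * M) (b ^ p) with hc | hc
    · exact UB b (hb'.trans h6) p hp (((hM.const_mul C).eventually_lt_const hc).mono fun _ => le_of_lt)
    · exact absurd (le_csSup hbd ⟨hb', LB b' hb' p hp ((hM.eventually_const_lt
        (lt_of_mul_lt_mul_left (h.trans_le hc) hC.le)).mono fun _ => le_of_lt)⟩) h5.not_ge
  · obtain ⟨b', ⟨_, E, hE⟩, h⟩ := exists_lt_of_lt_csSup ⟨a, hT⟩ hlt
    exact ⟨E, fun i n => (pow_le_pow_left₀ hb.le h.le n).trans (hE i n)⟩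

end Pool.Agent.Lib.LRS.T33
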