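import Pool.Agent.Lib.LRS.Bubble

/-! Ultrametric case: combinatorics of lists of steps. -/

namespace Pool.Agent.Lib.LRS

open scoped ENNReal

theorem tsum_mul2 {α β : Type*} (f : α → ℝ≥0∞) (g : β → ℝ≥0∞) :
    (∑' a, f a) * ∑' b, g b = ∑' p : α × β, f p.1 * g p.2 := by
  rw [ENNReal.tsum_prod']
  simp only [ENNReal.tsum_mul_left, ENNReal.tsum_mul_right]

theorem tsum_dep {α β : Type*} (f : α → ℝ≥0∞) (g : α → β → ℝ≥0∞) :
    ∑' a, f a * ∑' b, g a b = ∑' p : α × β, f p.1 * g p.1 p.2 := by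
  rw [ENNReal.tsum_prod']
  simp only [ENNReal.tsum_mul_left]

variable {Γ : Type} [AddCommGroup Γ] {N : Γ → ℝ} {r : ℝ}

theorem SA_append {a b : List Γ} (ha : SA a) (hb : SA b)
    (h : ∀ u v, u <:+ a → v <+: b → u.sum + v.sum = 0 → u = []) : SA (a ++ b) := by
  intro e he hne h0
  rcases List.infix_append_iff.1 he with h1 | h1 | ⟨u, v, rfl, h1, h2⟩
  · exact ha e h1 hne h0
  · exact hb e h1 hne h0
  · obtain rfl := h u v h1 h2 (by simpa using h0)
    exact hb v h2.isInfix (by simpa using hne) (by simpa using h0)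

theorem SA.cross {a b u v : List Γ} (h : SA (a ++ b)) (hu : u <:+ a) (hv : v <+: b)
    (h0 : u.sum + v.sum = 0) : u = [] := by
  obtain ⟨x, rfl⟩ := hu
  obtain ⟨y, rfl⟩ := hv
  by_contra hne
  exact h (u ++ v) ⟨x, y, by simp⟩ (by simp [hne]) (by simpa using h0)

theorem SA.left {a b : List Γ} (h : SA (a ++ b)) : SA a := h.mono (List.prefix_append a b).isInfix
theorem SA.right {a b : List Γ} (h : SA (a ++ b)) : SA b := h.mono (List.suffix_append a b).isInfix

theorem W_append_eq (K : Γ → ℝ≥0∞) {a b : List Γ} (h : SA (a ++ b)) :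
    W K (a ++ b) = W K a * W K b := by
  rw [W_of_SA K h, W_of_SA K h.left, W_of_SA K h.right, List.map_append, List.prod_append]

theorem SA.reverse {a : List Γ} (h : SA a) : SA a.reverse := fun b hb hne h0 =>
  h b.reverse (by simpa using List.reverse_infix.2 hb) (by simpa using hne) (by simpa using h0)

theorem W_reverse (K : Γ → ℝ≥0∞) (a : List Γ) : W K a.reverse = W K a := by
  by_cases h : SA a
  · rw [W_of_SA K h, W_of_SA K h.reverse, List.map_reverse, List.prod_reverse]
  · rw [W, W, ind_neg h, ind_neg fun h' => h (by simpa using h'.reverse), zero_mul, zero_mul]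

theorem W_cons_le (K : Γ → ℝ≥0∞) (t : Γ) (b : List Γ) : W K (t :: b) ≤ K t * W K b := by
  simpa [W_nil] using W_split_le K [] t b

/-- an ultrametric size function -/
structure UL (N : Γ → ℝ) : Prop extends Sub N where
  ultra : ∀ x y, N (x + y) ≤ max (N x) (N y)

theorem UL.add_le (h : UL N) {x y : Γ} (hx : N x ≤ r) (hy : N y ≤ r) : N (x + y) ≤ r :=
  (h.ultra x y).trans (max_le hx hy)

theorem UL.add_eq (h : UL N) {x y : Γ} (hx : N x ≤ r) (hy : r < N y) : N (x + y) = N y := by
  refine le_antisymm (h.add_le (hx.trans hy.le) le_rfl) ?_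
  have h1 := h.ultra (x + y) (-x)
  rw [add_neg_cancel_comm, h.neg] at h1
  exact (le_max_iff.1 h1).resolve_right (not_le.2 (hx.trans_lt hy))

theorem UL.le_of_add (h : UL N) {x y : Γ} (hx : N x ≤ r) (hy : N (x + y) ≤ r) : N y ≤ r :=
  not_lt.1 fun h1 => absurd hy (not_le.2 (h.add_eq hx h1 ▸ h1))

/-- all steps are short -/
def Short (N : Γ → ℝ) (r : ℝ) (l : List Γ) : Prop := ∀ s ∈ l, N s ≤ r
/-- empty or starting with a long step -/
def SL (N : Γ → ℝ) (r : ℝ) (l : List Γ) : Prop := ∀ t b, l = t :: b → r < N t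
/-- never returns to the ball -/
def Away (N : Γ → ℝ) (r : ℝ) (l : List Γ) : Prop := ∀ v, v <+: l → v ≠ [] → r < N v.sum
/-- the short initial pieces avoid each other -/
def Good (N : Γ → ℝ) (r : ℝ) (a b : List Γ) : Prop :=
  ∀ u v, u <+: a → v <+: b → Short N r u → Short N r v → u.sum + v.sum = 0 → u = []
/-- weight of short walks -/
noncomputable def Ws (K : Γ → ℝ≥0∞) (N : Γ → ℝ) (r : ℝ) (l : List Γ) : ℝ≥0∞ :=
  W K l * ind (Short N r l)

section
omit [AddCommGroup Γ]

theorem Short.sub {l l' : List Γ} (h : Short N r l) (h' : l' ⊆ l) : Short N r l' :=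
  fun s hs => h s (h' hs)

theorem Short.mono {r' : ℝ} {l : List Γ} (h : Short N r l) (h' : r ≤ r') : Short N r' l :=
  fun s hs => (h s hs).trans h'

theorem short_append {a b : List Γ} : Short N r (a ++ b) ↔ Short N r a ∧ Short N r b :=
  List.forall_mem_append

theorem short_cons {t : Γ} {b : List Γ} : Short N r (t :: b) ↔ N t ≤ r ∧ Short N r b :=
  List.forall_mem_cons

theorem short_reverse {a : List Γ} : Short N r a.reverse ↔ Short N r a := by simp [Short]

theorem SL.append {r' : ℝ} {a b : List Γ} (ha : SL N r a) (hb : SL N r' b) (h : r ≤ r') :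
    SL N r (a ++ b) := by
  intro t x e
  cases a with
  | nil => exact h.trans_lt (hb t x e)
  | cons s a => exact ha t a (by rw [List.cons_append, List.cons.injEq] at e; rw [e.1])

theorem run_exists (N : Γ → ℝ) (r : ℝ) (b : List Γ) :
    ∃ b₀ b₁, b = b₀ ++ b₁ ∧ Short N r b₀ ∧ SL N r b₁ := by
  induction b with
  | nil => exact ⟨[], [], rfl, by simp [Short], by simp [SL]⟩
  | cons t b ih =>
    rcases le_or_gt (N t) r with h | h
    · obtain ⟨b₀, b₁, rfl, h1, h2⟩ := ih
      exact ⟨t :: b₀, b₁, rfl, short_cons.2 ⟨h, h1⟩, h2⟩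
    · exact ⟨[], t :: b, rfl, by simp [Short], fun s x e => by rw [← (List.cons.inj e).1]; exact h⟩

theorem short_pre {u a₀ a₁ : List Γ} (hu : Short N r u) (h : u <+: a₀ ++ a₁) (h1 : SL N r a₁) :
    u <+: a₀ := by
  obtain ⟨t, ht⟩ := h
  rcases List.append_eq_append_iff.1 ht with ⟨x, hx, -⟩ | ⟨x, hx, hx'⟩
  · exact ⟨x, hx.symm⟩
  · cases x with
    | nil => rw [hx]; simp
    | cons y x => exact absurd (hu y (by simp [hx])) (not_le.2 (h1 y _ hx'))

theorem run_unique {a₀ a₁ b₀ b₁ : List Γ} (e : a₀ ++ a₁ = b₀ ++ b₁) (ha : Short N r a₀)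
    (hb : Short N r b₀) (ha' : SL N r a₁) (hb' : SL N r b₁) : a₀ = b₀ ∧ a₁ = b₁ := by
  have h1 := short_pre ha (e ▸ List.prefix_append a₀ a₁) hb'
  have h2 := short_pre hb (e ▸ List.prefix_append b₀ b₁ : b₀ <+: a₀ ++ a₁) ha'
  obtain rfl := h1.eq_of_length (le_antisymm h1.length_le h2.length_le)
  exact ⟨rfl, List.append_cancel_left e⟩

end

theorem Away.sl {b : List Γ} (h : Away N r b) : SL N r b := by
  rintro t x rfl
  simpa using h [t] ⟨x, rfl⟩ (by simp)

theorem Short.sum_le (hN : UL N) (hr : 0 ≤ r) {l : List Γ} (h : Short N r l) : N l.sum ≤ r := by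
  induction l with
  | nil => simpa [hN.zero] using hr
  | cons s l ih => exact hN.add_le (short_cons.1 h).1 (ih (short_cons.1 h).2)

theorem in_iff_short (hN : UL N) (hr : 0 ≤ r) {l : List Γ} : In N r l ↔ Short N r l := by
  refine ⟨fun h s hs => ?_, fun h a ha => (h.sub ha.subset).sum_le hN hr⟩
  obtain ⟨a, b, rfl⟩ := List.append_of_mem hs
  exact hN.le_of_add (h a (List.prefix_append _ _)) (by simpa using h (a ++ [s]) ⟨b, by simp⟩)

theorem mm_eq (hN : UL N) (hr : 0 ≤ r) (K : Γ → ℝ≥0∞) : mm K N r = ∑' l, Ws K N r l := by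
  simp only [mm, Ws, in_iff_short hN hr]

theorem last_exists (hN : UL N) (hr : 0 ≤ r) (l : List Γ) :
    ∃ p A, l = p ++ A ∧ N p.sum ≤ r ∧ Away N r A := by
  induction l using List.reverseRecOn with
  | nil => exact ⟨[], [], rfl, by simpa [hN.zero] using hr, fun v hv h => absurd (by simpa using hv) h⟩
  | append_singleton l s ih =>
    rcases le_or_gt (N (l ++ [s]).sum) r with h | h
    · exact ⟨l ++ [s], [], by simp, h, fun v hv h => absurd (by simpa using hv) h⟩
    · obtain ⟨p, A, rfl, h1, h2⟩ := ih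
      refine ⟨p, A ++ [s], by simp, h1, fun v hv hne => ?_⟩
      rcases List.prefix_concat_iff.1 hv with rfl | h3
      · rw [List.append_assoc, List.sum_append] at h
        exact not_le.1 fun h4 => absurd (hN.add_le h1 h4) (not_le.2 h)
      · exact h2 v h3 hne

theorem SA_away (hN : UL N) (hr : 0 ≤ r) {c b : List Γ} (hc : Short N r c) (sc : SA c) (sb : SA b)
    (hb : Away N r b) : SA (c ++ b) := SA_append sc sb fun u v hu hv h0 => by
  by_cases h1 : v = []
  · by_contra h2
    exact sc u hu.isInfix h2 (by simpa [h1] using h0)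
  · have h2 := hb v hv h1
    rw [← hN.add_eq ((hc.sub hu.subset).sum_le hN hr) h2, h0, hN.zero] at h2
    exact absurd hr (not_le.2 h2)

theorem away_cons (hN : UL N) (hr : 0 ≤ r) {t : Γ} {b : List Γ} (ht : r < N t)
    (hb : Short N r b) : Away N r (t :: b) := by
  intro v hv hne
  rcases List.prefix_cons_iff.1 hv with rfl | ⟨e, rfl, he⟩
  · exact absurd rfl hne
  · rw [List.sum_cons, add_comm, hN.add_eq ((hb.sub he.subset).sum_le hN hr) ht]; exact ht

theorem SA_cons (hN : UL N) (hr : 0 ≤ r) {t : Γ} {b : List Γ} (h : Away N r (t :: b)) (sb : SA b) :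
    SA (t :: b) := by
  intro e he hne h0
  rcases List.infix_cons_iff.1 he with h1 | h1
  · have := h e h1 hne
    rw [h0, hN.zero] at this
    exact absurd hr (not_le.2 this)
  · exact sb e h1 hne h0

theorem Good.sa {a b : List Γ} (h : Good N r a b) (ha : Short N r a) (hb : Short N r b) (sa : SA a)
    (sb : SA b) : SA (a.reverse ++ b) := SA_append sa.reverse sb fun u v hu hv h0 => by
  have h1 : u.reverse <+: a := by simpa using List.reverse_prefix.2 hu
  simpa using h u.reverse v h1 hv (ha.sub h1.subset) (hb.sub hv.subset) (by simpa using h0)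

theorem good_of_sa {a b : List Γ} (h : SA (a.reverse ++ b)) : Good N r a b :=
  fun u v hu hv _ _ h0 => by
    simpa using h.cross (List.reverse_suffix.2 hu) hv (by simpa using h0)

theorem Good.anti {r' : ℝ} {a b : List Γ} (h : Good N r' a b) (hr : r ≤ r') : Good N r a b :=
  fun u v hu hv h1 h2 => h u v hu hv (h1.mono hr) (h2.mono hr)

theorem Ws_ne {K : Γ → ℝ≥0∞} {l : List Γ} (h : Ws K N r l ≠ 0) : SA l ∧ Short N r l :=
  ⟨SA_of_W (left_ne_zero_of_mul h), of_ind_ne (right_ne_zero_of_mul h)⟩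

theorem Ws_eq (K : Γ → ℝ≥0∞) {l : List Γ} (h : Short N r l) : Ws K N r l = W K l := by
  rw [Ws, ind_pos h, mul_one]

end Pool.Agent.Lib.LRS
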