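import Pool.Agent.Lib.LRS.Ultra1

/-! Ultrametric case: pairs of walks, scale by scale. -/

namespace Pool.Agent.Lib.LRS

open scoped ENNReal

variable {Γ : Type} [AddCommGroup Γ]

section
variable (K : Γ → ℝ≥0∞) (N : Γ → ℝ)

/-- pairs whose short initial pieces avoid each other -/
noncomputable def XX (r R : ℝ) : ℝ≥0∞ :=
  ∑' p : List Γ × List Γ, Ws K N R p.1 * Ws K N R p.2 * ind (Good N r p.1 p.2)
/-- walks with a marked point -/
noncomputable def QQ (r : ℝ) : ℝ≥0∞ := ∑' p : List Γ × List Γ, Ws K N r p.1 * ind (p.2 <+: p.1)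
/-- arms -/
noncomputable def arm (r R : ℝ) : ℝ≥0∞ := ∑' b, Ws K N R b * ind (SL N r b)
/-- arms that do not return -/
noncomputable def ZZ (r R : ℝ) : ℝ≥0∞ := ∑' b, Ws K N R b * ind (Away N r b)
/-- weight of long steps -/
noncomputable def ee (r : ℝ) : ℝ≥0∞ := ∑' t, K t * ind (r < N t)
/-- intersecting arms -/
noncomputable def II (r r' : ℝ) (x : Γ) : ℝ≥0∞ := ∑' q : List Γ × List Γ,
  Ws K N r' q.1 * ind (Away N r q.1) * (Ws K N r' q.2 * ind (Away N r q.2)) *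
    ind (∃ u v, u <+: q.1 ∧ v <+: q.2 ∧ u ≠ [] ∧ x + u.sum + v.sum = 0)
/-- size of the sum set of two walks -/
noncomputable def Sig (r : ℝ) : ℝ≥0∞ := ∑' q : (List Γ × List Γ) × Γ,
  Ws K N r q.1.1 * Ws K N r q.1.2 * ind (∃ u v, u <+: q.1.1 ∧ v <+: q.1.2 ∧ u.sum + v.sum = q.2)
/-- walks with two marked points -/
noncomputable def T2 (r : ℝ) (z : Γ) : ℝ≥0∞ := ∑' p : List Γ × List Γ × List Γ,
  Ws K N r p.1 * ind (p.2.1 <+: p.1 ∧ p.2.2 <+: p.1 ∧ p.2.1.sum - p.2.2.sum = z)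
end

variable {K : Γ → ℝ≥0∞} {N : Γ → ℝ} {r r' R : ℝ}

theorem XX_le_QQ : XX K N r r ≤ QQ K N r := by
  refine tsum_ge_of_inj _ _ (fun p => (p.1.reverse ++ p.2, p.1.reverse)) ?_ ?_
  · rintro ⟨a, b⟩ ⟨a', b'⟩ - - e
    simp only [Prod.mk.injEq, List.reverse_inj] at e
    obtain ⟨e1, rfl⟩ := e
    rw [List.append_cancel_left e1]
  · rintro ⟨a, b⟩ h
    obtain ⟨sa, ha⟩ := Ws_ne (left_ne_zero_of_mul (left_ne_zero_of_mul h))
    obtain ⟨sb, hb⟩ := Ws_ne (right_ne_zero_of_mul (left_ne_zero_of_mul h))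
    have hg : Good N r a b := of_ind_ne (right_ne_zero_of_mul h)
    simp only
    rw [ind_pos hg, ind_pos (List.prefix_append _ _), Ws_eq K ha, Ws_eq K hb,
      Ws_eq K (short_append.2 ⟨short_reverse.2 ha, hb⟩), W_append_eq K (hg.sa ha hb sa sb),
      W_reverse]

theorem QQ_le_XX : QQ K N r ≤ XX K N r r := by
  refine tsum_le_of_lift _ _ (fun p => (p.1.reverse ++ p.2, p.1.reverse)) ?_
  rintro ⟨l, u⟩ h
  obtain ⟨w, rfl⟩ : u <+: l := of_ind_ne (right_ne_zero_of_mul h)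
  obtain ⟨sa, ha⟩ := Ws_ne (left_ne_zero_of_mul h)
  refine ⟨(u.reverse, w), by simp, ?_⟩
  simp only at sa ha ⊢
  rw [ind_pos (good_of_sa (by simpa using sa)), ind_pos (List.prefix_append _ _), Ws_eq K ha,
    Ws_eq K (short_reverse.2 (short_append.1 ha).1), Ws_eq K (short_append.1 ha).2,
    W_append_eq K sa, W_reverse]

theorem XX_anti (h : r ≤ r') : XX K N r' R ≤ XX K N r R :=
  ENNReal.tsum_le_tsum fun _ => mul_le_mul' le_rfl (ind_mono fun h1 => h1.anti h)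

theorem QQ_mono (h : r ≤ r') : QQ K N r ≤ QQ K N r' :=
  ENNReal.tsum_le_tsum fun _ => mul_le_mul' (mul_le_mul' le_rfl (ind_mono fun h1 => h1.mono h))
    le_rfl

theorem XX_le_sq : XX K N r R ≤ (∑' l, Ws K N R l) * ∑' l, Ws K N R l := by
  rw [tsum_mul2]
  exact ENNReal.tsum_le_tsum fun _ => mul_ind_le _ _

theorem Ws_run {a₀ a₁ : List Γ} (h₀ : Short N r a₀) (h₁ : SL N r a₁) :
    Ws K N R (a₀ ++ a₁) ≤ Ws K N r a₀ * (Ws K N R a₁ * ind (SL N r a₁)) := by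
  rw [Ws_eq K h₀, ind_pos h₁, mul_one, Ws, Ws, ← mul_assoc]
  exact mul_le_mul' (W_append_le K _ _) (ind_mono fun h => (short_append.1 h).2)

theorem XX_le : XX K N r R ≤ XX K N r r * (arm K N r R * arm K N r R) := by
  rw [arm, tsum_mul2, XX, XX, tsum_mul2]
  refine tsum_le_of_lift _ _ (fun q => (q.1.1 ++ q.2.1, q.1.2 ++ q.2.2)) ?_
  rintro ⟨a, b⟩ h
  have hg : Good N r a b := of_ind_ne (right_ne_zero_of_mul h)
  obtain ⟨a₀, a₁, rfl, ha, ha'⟩ := run_exists N r a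
  obtain ⟨b₀, b₁, rfl, hb, hb'⟩ := run_exists N r b
  refine ⟨((a₀, b₀), a₁, b₁), rfl, ?_⟩
  simp only
  rw [ind_pos hg, ind_pos (show Good N r a₀ b₀ from fun u v hu hv => hg u v
    (hu.trans (List.prefix_append _ _)) (hv.trans (List.prefix_append _ _))), mul_one, mul_one,
    mul_mul_mul_comm]
  exact mul_le_mul' (Ws_run ha ha') (Ws_run hb hb')

omit [AddCommGroup Γ] in
theorem tsum_list_le (f : List Γ → ℝ≥0∞) :
    ∑' l, f l ≤ f [] + ∑' p : Γ × List Γ, f (p.1 :: p.2) := by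
  classical
  rw [ENNReal.tsum_eq_add_tsum_ite []]
  refine add_le_add le_rfl (tsum_le_of_lift _ _ (fun p => p.1 :: p.2) fun l hl => ?_)
  cases l with
  | nil => simp at hl
  | cons t b => exact ⟨(t, b), rfl, by simp⟩

theorem arm_le : arm K N r R ≤ 1 + ee K N r * ∑' l, Ws K N R l := by
  refine (tsum_list_le _).trans (add_le_add ?_ ?_)
  · exact (mul_ind_le _ _).trans ((mul_ind_le _ _).trans (W_nil K).le)
  · rw [ee, tsum_mul2]
    refine ENNReal.tsum_le_tsum fun p => ?_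
    rw [Ws, Ws, mul_mul_mul_comm, mul_assoc, mul_comm (ind (Short _ _ _))]
    exact mul_le_mul' (W_cons_le K _ _) (mul_le_mul' (ind_mono fun h => h _ _ rfl)
      (ind_mono fun h => (short_cons.1 h).2))

theorem Ws_three (hN : UL N) (hr : 0 ≤ r) (h1 : r ≤ r') (h2 : r' ≤ R) {a g c : List Γ}
    (ha : Ws K N r a ≠ 0) (hg : Ws K N r' g * ind (Away N r g) ≠ 0)
    (hc : Ws K N R c * ind (Away N r' c) ≠ 0) :
    Ws K N r a * (Ws K N r' g * ind (Away N r g)) * (Ws K N R c * ind (Away N r' c)) =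
      Ws K N R (a ++ g ++ c) := by
  obtain ⟨sa, ha'⟩ := Ws_ne ha
  obtain ⟨sg, hg'⟩ := Ws_ne (left_ne_zero_of_mul hg)
  obtain ⟨sc, hc'⟩ := Ws_ne (left_ne_zero_of_mul hc)
  have ag : Away N r g := of_ind_ne (right_ne_zero_of_mul hg)
  have ac : Away N r' c := of_ind_ne (right_ne_zero_of_mul hc)
  have h3 := SA_away hN hr ha' sa sg ag
  have h4 : Short N r' (a ++ g) := short_append.2 ⟨ha'.mono h1, hg'⟩
  rw [ind_pos ag, ind_pos ac, Ws_eq K ha', Ws_eq K hg', Ws_eq K hc',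
    Ws_eq K (short_append.2 ⟨h4.mono h2, hc'⟩),
    W_append_eq K (SA_away hN (hr.trans h1) h4 h3 sc ac), W_append_eq K h3, mul_one, mul_one]

theorem three_unique (h1 : r ≤ r') {a g c a' g' c' : List Γ} (e : a ++ g ++ c = a' ++ g' ++ c')
    (ha : Ws K N r a ≠ 0) (hg : Ws K N r' g * ind (Away N r g) ≠ 0)
    (hc : Ws K N R c * ind (Away N r' c) ≠ 0) (ha' : Ws K N r a' ≠ 0)
    (hg' : Ws K N r' g' * ind (Away N r g') ≠ 0) (hc' : Ws K N R c' * ind (Away N r' c') ≠ 0) :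
    a = a' ∧ g = g' ∧ c = c' := by
  obtain ⟨e1, e2⟩ := run_unique e
    (short_append.2 ⟨(Ws_ne ha).2.mono h1, (Ws_ne (left_ne_zero_of_mul hg)).2⟩)
    (short_append.2 ⟨(Ws_ne ha').2.mono h1, (Ws_ne (left_ne_zero_of_mul hg')).2⟩)
    (Away.sl (of_ind_ne (right_ne_zero_of_mul hc))) (Away.sl (of_ind_ne (right_ne_zero_of_mul hc')))
  obtain ⟨e3, e4⟩ := run_unique e1 (Ws_ne ha).2 (Ws_ne ha').2
    (Away.sl (of_ind_ne (right_ne_zero_of_mul hg))) (Away.sl (of_ind_ne (right_ne_zero_of_mul hg')))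
  exact ⟨e3, e4, e2⟩

theorem drop_le (hN : UL N) (hr : 0 ≤ r) (h1 : r ≤ r') (h2 : r' ≤ R) {I : ℝ≥0∞}
    (hI : ∀ x, N x ≤ r → I ≤ II K N r r' x) :
    XX K N r' R + XX K N r r * I * (ZZ K N r' R * ZZ K N r' R) ≤ XX K N r R := by
  have h3 : XX K N r r * I ≤ ∑' p : List Γ × List Γ, Ws K N r p.1 * Ws K N r p.2 *
      ind (Good N r p.1 p.2) * II K N r r' (p.1.sum + p.2.sum) := by
    rw [XX, ← ENNReal.tsum_mul_right]
    refine ENNReal.tsum_le_tsum fun p => ?_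
    by_cases h : Ws K N r p.1 * Ws K N r p.2 * ind (Good N r p.1 p.2) = 0
    · rw [h, zero_mul, zero_mul]
    · exact mul_le_mul' le_rfl (hI _ (hN.add_le
        ((Ws_ne (left_ne_zero_of_mul (left_ne_zero_of_mul h))).2.sum_le hN hr)
        ((Ws_ne (right_ne_zero_of_mul (left_ne_zero_of_mul h))).2.sum_le hN hr)))
  have h4 : XX K N r r * I * (ZZ K N r' R * ZZ K N r' R) ≤ ∑' p : List Γ × List Γ,
      Ws K N R p.1 * Ws K N R p.2 * ind (Good N r p.1 p.2 ∧ ¬ Good N r' p.1 p.2) := by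
    refine (mul_le_mul' h3 le_rfl).trans ?_
    simp only [II]
    rw [tsum_dep, ZZ, tsum_mul2, tsum_mul2]
    refine tsum_ge_of_inj _ _
      (fun q => (q.1.1.1 ++ q.1.2.1 ++ q.2.1, q.1.1.2 ++ q.1.2.2 ++ q.2.2)) ?_ ?_
    · rintro ⟨⟨⟨a, b⟩, g, g'⟩, c, c'⟩ ⟨⟨⟨a₁, b₁⟩, g₁, g₁'⟩, c₁, c₁'⟩ h h' e
      simp only [ne_eq, mul_eq_zero, not_or, Prod.mk.injEq] at h h' e
      obtain ⟨rfl, rfl, rfl⟩ := three_unique (K := K) (R := R) h1 e.1 h.1.1.1.1
        (mul_ne_zero h.1.2.1.1.1 h.1.2.1.1.2) (mul_ne_zero h.2.1.1 h.2.1.2) h'.1.1.1.1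
        (mul_ne_zero h'.1.2.1.1.1 h'.1.2.1.1.2) (mul_ne_zero h'.2.1.1 h'.2.1.2)
      obtain ⟨rfl, rfl, rfl⟩ := three_unique (K := K) (R := R) h1 e.2 h.1.1.1.2
        (mul_ne_zero h.1.2.1.2.1 h.1.2.1.2.2) (mul_ne_zero h.2.2.1 h.2.2.2) h'.1.1.1.2
        (mul_ne_zero h'.1.2.1.2.1 h'.1.2.1.2.2) (mul_ne_zero h'.2.2.1 h'.2.2.2)
      rfl
    · rintro ⟨⟨⟨a, b⟩, g, g'⟩, c, c'⟩ h
      simp only [ne_eq, mul_eq_zero, not_or] at h
      obtain ⟨⟨⟨⟨ha, hb⟩, hG⟩, ⟨hg, hg'⟩, hE⟩, hc, hc'⟩ := h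
      have hG' : Good N r a b := of_ind_ne hG
      have hE' := of_ind_ne hE
      have h5 : Good N r (a ++ g ++ c) (b ++ g' ++ c') ∧ ¬ Good N r' (a ++ g ++ c) (b ++ g' ++ c') := by
        refine ⟨fun u v hu hv su sv => hG' u v ?_ ?_ su sv, fun h => ?_⟩
        · exact short_pre su (by simpa using hu)
            ((Away.sl (of_ind_ne hg.2)).append (Away.sl (of_ind_ne hc.2)) h1)
        · exact short_pre sv (by simpa using hv)
            ((Away.sl (of_ind_ne hg'.2)).append (Away.sl (of_ind_ne hc'.2)) h1)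
        · obtain ⟨u, v, hu, hv, hne, h0⟩ := hE'
          have := h (a ++ u) (b ++ v)
            (((List.prefix_append_right_inj a).2 hu).trans (List.prefix_append _ _))
            (((List.prefix_append_right_inj b).2 hv).trans (List.prefix_append _ _))
            (short_append.2 ⟨(Ws_ne ha).2.mono h1, (Ws_ne hg.1).2.sub hu.subset⟩)
            (short_append.2 ⟨(Ws_ne hb).2.mono h1, (Ws_ne hg'.1).2.sub hv.subset⟩)
            (by rw [List.sum_append, List.sum_append, ← h0]; abel)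
          exact hne (List.append_eq_nil_iff.1 this).2
      simp only
      rw [ind_pos h5, ind_pos hG', ind_pos hE',
        ← Ws_three hN hr h1 h2 ha (mul_ne_zero hg.1 hg.2) (mul_ne_zero hc.1 hc.2),
        ← Ws_three hN hr h1 h2 hb (mul_ne_zero hg'.1 hg'.2) (mul_ne_zero hc'.1 hc'.2)]
      exact le_of_eq (by ring)
  refine (add_le_add le_rfl h4).trans ?_
  rw [XX, XX, ← ENNReal.tsum_add]
  refine ENNReal.tsum_le_tsum fun p => ?_
  rw [← mul_add]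
  refine mul_le_mul' le_rfl ?_
  by_cases h : Good N r' p.1 p.2
  · rw [ind_pos h, ind_pos (h.anti h1), ind_neg fun h' => h'.2 h, add_zero]
  · rw [ind_neg h, zero_add]; exact ind_mono fun h' => h'.1

theorem II_ge (hN : UL N) (hr : 0 ≤ r) (h1 : r ≤ r') {k : ℝ≥0∞}
    (hk : ∀ s, r < N s → N s ≤ r' → k ≤ K s) {x : Γ} (hx : N x ≤ r) :
    k * k * ((∑' s, ind (r < N s ∧ N s ≤ r')) * Sig K N r) ≤ II K N r r' x := by
  rw [Sig, tsum_mul2, ← ENNReal.tsum_mul_left]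
  refine tsum_ge_of_inj _ _ (fun q => (q.1 :: q.2.1.1, (-(x + q.2.2) - q.1) :: q.2.1.2)) ?_ ?_
  · rintro ⟨s, ⟨a, b⟩, y⟩ ⟨s', ⟨a', b'⟩, y'⟩ - - e
    simp only [Prod.mk.injEq, List.cons.injEq] at e
    obtain ⟨⟨rfl, rfl⟩, e1, rfl⟩ := e
    obtain rfl : y = y' := by simpa using e1
    rfl
  · rintro ⟨s, ⟨a, b⟩, y⟩ h
    simp only [ne_eq, mul_eq_zero, not_or] at h
    obtain ⟨-, hs, ⟨ha, hb⟩, hE⟩ := h
    have hs' := of_ind_ne hs
    have hE' := of_ind_ne hE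
    obtain ⟨sa, ha'⟩ := Ws_ne ha
    obtain ⟨sb, hb'⟩ := Ws_ne hb
    have ht : N (-(x + y) - s) = N s := by
      obtain ⟨u, v, hu, hv, rfl⟩ := hE'
      rw [← neg_add', hN.neg]
      exact hN.add_eq (hN.add_le hx (hN.add_le ((ha'.sub hu.subset).sum_le hN hr)
        ((hb'.sub hv.subset).sum_le hN hr))) hs'.1
    have key : ∀ t l, r < N t → N t ≤ r' → SA l → Short N r l →
        k * Ws K N r l ≤ Ws K N r' (t :: l) * ind (Away N r (t :: l)) := fun t l h2 h3 sl hl => by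
      have h4 := away_cons hN hr h2 hl
      rw [ind_pos h4, mul_one, Ws_eq K hl, Ws_eq K (short_cons.2 ⟨h3, hl.mono h1⟩),
        W_of_SA K (SA_cons hN hr h4 sl), W_of_SA K sl, List.map_cons, List.prod_cons]
      exact mul_le_mul' (hk t h2 h3) le_rfl
    have h5 : ∃ u v, u <+: s :: a ∧ v <+: (-(x + y) - s) :: b ∧ u ≠ [] ∧ x + u.sum + v.sum = 0 := by
      obtain ⟨u, v, hu, hv, rfl⟩ := hE'
      exact ⟨s :: u, _ :: v, List.cons_prefix_cons.2 ⟨rfl, hu⟩, List.cons_prefix_cons.2 ⟨rfl, hv⟩,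
        by simp, by simp only [List.sum_cons]; abel⟩
    simp only
    rw [ind_pos hs', ind_pos hE', ind_pos h5, one_mul, mul_one, mul_one, mul_mul_mul_comm]
    exact mul_le_mul' (key s a hs'.1 hs'.2 sa ha') (key _ b (ht ▸ hs'.1) (ht ▸ hs'.2) sb hb')

theorem second_moment (l : ℝ≥0∞) (h0 : l ≠ 0) (h1 : l ≠ ⊤) :
    QQ K N r * QQ K N r ≤ l * Sig K N r + l⁻¹ * ∑' z, T2 K N r z * T2 K N r z := by
  let n : (List Γ × List Γ) × Γ → ℝ≥0∞ := fun q => ∑' w : List Γ × List Γ,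
    ind (w.1 <+: q.1.1 ∧ w.2 <+: q.1.2 ∧ w.1.sum + w.2.sum = q.2)
  have h2 : QQ K N r * QQ K N r ≤ ∑' q : (List Γ × List Γ) × Γ,
      Ws K N r q.1.1 * Ws K N r q.1.2 * n q := by
    rw [QQ, tsum_mul2, tsum_dep]
    refine tsum_ge_of_inj _ _
      (fun p => (((p.1.1, p.2.1), p.1.2.sum + p.2.2.sum), p.1.2, p.2.2)) ?_ ?_
    · rintro ⟨⟨a, u⟩, b, v⟩ ⟨⟨a', u'⟩, b', v'⟩ - - e
      simp only [Prod.mk.injEq] at e
      obtain ⟨⟨⟨rfl, rfl⟩, -⟩, rfl, rfl⟩ := e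
      rfl
    · rintro ⟨⟨a, u⟩, b, v⟩ h
      simp only [ne_eq, mul_eq_zero, not_or] at h
      have hu : u <+: a := of_ind_ne h.1.2
      have hv : v <+: b := of_ind_ne h.2.2
      simp [ind_pos, hu, hv]
  have h3 : ∑' q : (List Γ × List Γ) × Γ, Ws K N r q.1.1 * Ws K N r q.1.2 * (n q * n q) ≤
      ∑' z, T2 K N r z * T2 K N r z := by
    simp only [n, T2, tsum_mul2]
    rw [tsum_dep, ← ENNReal.tsum_prod' (f := fun p : Γ × (List Γ × List Γ × List Γ) ×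
      List Γ × List Γ × List Γ => Ws K N r p.2.1.1 * ind (p.2.1.2.1 <+: p.2.1.1 ∧
        p.2.1.2.2 <+: p.2.1.1 ∧ p.2.1.2.1.sum - p.2.1.2.2.sum = p.1) * (Ws K N r p.2.2.1 *
          ind (p.2.2.2.1 <+: p.2.2.1 ∧ p.2.2.2.2 <+: p.2.2.1 ∧
            p.2.2.2.1.sum - p.2.2.2.2.sum = p.1)))]
    refine tsum_le_of_lift _ _ (fun p => (((p.2.1.1, p.2.2.1), p.2.1.2.1.sum + p.2.2.2.2.sum),
      (p.2.1.2.1, p.2.2.2.2), p.2.1.2.2, p.2.2.2.1)) ?_
    rintro ⟨⟨⟨a, b⟩, x⟩, ⟨u, v⟩, u', v'⟩ h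
    simp only [ne_eq, mul_eq_zero, not_or] at h
    obtain ⟨hu, hv, rfl⟩ := of_ind_ne h.2.1
    obtain ⟨hu', hv', e⟩ := of_ind_ne h.2.2
    refine ⟨(u.sum - u'.sum, (a, u, u'), b, v', v), rfl, ?_⟩
    have e' : v'.sum - v.sum = u.sum - u'.sum := by
      rw [sub_eq_sub_iff_add_eq_add, add_comm, e]
    simp [ind_pos, hu, hv, hu', hv', e, e']
  refine h2.trans (le_trans ?_ (add_le_add le_rfl (mul_le_mul' le_rfl h3)))
  rw [Sig, ← ENNReal.tsum_mul_left, ← ENNReal.tsum_mul_left, ← ENNReal.tsum_add]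
  refine ENNReal.tsum_le_tsum fun q => ?_
  rw [mul_left_comm, mul_left_comm l⁻¹, ← mul_add]
  refine mul_le_mul' le_rfl ?_
  rcases le_total (n q) l with h | h
  · by_cases h4 : n q = 0
    · rw [h4]; exact zero_le
    · obtain ⟨w, hw⟩ := not_forall.1 fun h5 => h4 (ENNReal.tsum_eq_zero.2 h5)
      rw [ind_pos ⟨w.1, w.2, of_ind_ne hw⟩, mul_one]
      exact h.trans le_self_add
  · refine le_trans ?_ le_add_self
    rw [← mul_assoc]
    refine le_mul_of_one_le_left' ?_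
    rw [← ENNReal.inv_mul_cancel h0 h1]
    exact mul_le_mul' le_rfl h

end Pool.Agent.Lib.LRS
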