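import Pool.Agent.Lib.LRS.Ultra2

/-! Ultrametric case: walks with two marked points. -/

namespace Pool.Agent.Lib.LRS

open scoped ENNReal

variable {Γ : Type} [AddCommGroup Γ]

section
variable (K : Γ → ℝ≥0∞) (N : Γ → ℝ)

/-- three-piece function -/
noncomputable def T3 (r : ℝ) (z : Γ) : ℝ≥0∞ := ∑' p : List Γ × List Γ × List Γ,
  Ws K N r (p.1.reverse ++ p.2.1 ++ p.2.2) * ind (p.2.1.sum = z)
/-- mutually avoiding outer arms -/
noncomputable def VV (j r : ℝ) (x : Γ) : ℝ≥0∞ := ∑' q : List Γ × List Γ,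
  Ws K N r q.1 * ind (Away N j q.1) * (Ws K N r q.2 * ind (Away N j q.2)) *
    ind (∀ u v, u <+: q.1 → v <+: q.2 → u ≠ [] → v ≠ [] → u.sum + x + v.sum ≠ 0)
/-- middle part -/
noncomputable def Mid (j : ℝ) (z : Γ) : ℝ≥0∞ := ∑' p : List Γ × List Γ × List Γ,
  W K (p.1.reverse ++ p.2.1 ++ p.2.2) * ind (N p.1.sum ≤ j ∧ N p.2.2.sum ≤ j ∧ p.2.1.sum = z)
/-- walks starting with a long step and ending in a ball -/
noncomputable def gg (ρ j : ℝ) : ℝ≥0∞ := ∑' l, W K l * ind (SL N ρ l ∧ N l.sum ≤ j)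
/-- walks starting and ending with a long step -/
noncomputable def HH (ρ : ℝ) (y : Γ) : ℝ≥0∞ :=
  ∑' l, W K l * ind (SL N ρ l ∧ SL N ρ l.reverse ∧ l ≠ [] ∧ l.sum = y)
end

variable {K : Γ → ℝ≥0∞} {N : Γ → ℝ} {r j ρ : ℝ}

theorem T2_le (z : Γ) : T2 K N r z ≤ T3 K N r z + T3 K N r (-z) := by
  have key : ∀ z, ∑' p : List Γ × List Γ × List Γ, Ws K N r p.1 *
      ind (p.2.1 <+: p.1 ∧ p.2.2 <+: p.2.1 ∧ p.2.1.sum - p.2.2.sum = z) ≤ T3 K N r z := fun z => by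
    refine tsum_le_of_lift _ _
      (fun p => (p.1.reverse ++ p.2.1 ++ p.2.2, p.1.reverse ++ p.2.1, p.1.reverse)) ?_
    rintro ⟨a, u, u'⟩ h
    have h2 : u <+: a ∧ u' <+: u ∧ u.sum - u'.sum = z := of_ind_ne (right_ne_zero_of_mul h)
    obtain ⟨⟨l, rfl⟩, ⟨e, rfl⟩, h3⟩ := h2
    refine ⟨(u'.reverse, e, l), by simp, ?_⟩
    simp only [List.reverse_reverse]
    exact mul_le_mul' le_rfl (ind_mono fun _ => by simpa using h3)
  refine le_trans ?_ (add_le_add (key z) (le_trans (le_of_eq ?_) (key (-z)) :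
    ∑' p : List Γ × List Γ × List Γ, Ws K N r p.1 *
      ind (p.2.2 <+: p.1 ∧ p.2.1 <+: p.2.2 ∧ p.2.2.sum - p.2.1.sum = -z) ≤ _))
  · rw [T2, ← ENNReal.tsum_add]
    refine ENNReal.tsum_le_tsum fun p => ?_
    rw [← mul_add]
    refine mul_le_mul' le_rfl ?_
    by_cases h : p.2.1 <+: p.1 ∧ p.2.2 <+: p.1 ∧ p.2.1.sum - p.2.2.sum = z
    · rcases List.prefix_or_prefix_of_prefix h.1 h.2.1 with h1 | h1
      · exact (ind_mono fun _ => ⟨h.2.1, h1, by rw [← h.2.2, neg_sub]⟩).trans le_add_self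
      · exact (ind_mono fun _ => ⟨h.1, h1, h.2.2⟩).trans le_self_add
    · rw [ind_neg h]; exact zero_le
  · exact ((Equiv.refl _).prodCongr (Equiv.prodComm _ _)).tsum_eq
      fun p : List Γ × List Γ × List Γ => Ws K N r p.1 *
        ind (p.2.1 <+: p.1 ∧ p.2.2 <+: p.2.1 ∧ p.2.1.sum - p.2.2.sum = -z)

theorem T3_zero : T3 K N r 0 ≤ QQ K N r := by
  refine tsum_ge_of_inj _ _ (fun p => (p.1.reverse ++ p.2.1 ++ p.2.2, p.1.reverse)) ?_ ?_
  · rintro ⟨a, e, b⟩ ⟨a', e', b'⟩ h h' e1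
    have h1 : ∀ {a e b : List Γ}, Ws K N r (a.reverse ++ e ++ b) * ind (e.sum = 0) ≠ 0 → e = [] :=
      fun h => by_contra fun h2 => (Ws_ne (left_ne_zero_of_mul h)).1 _ ⟨_, _, rfl⟩ h2
        (of_ind_ne (right_ne_zero_of_mul h))
    obtain rfl := h1 h
    obtain rfl := h1 h'
    simp only [Prod.mk.injEq, List.reverse_inj, List.append_nil] at e1
    obtain ⟨e2, rfl⟩ := e1
    rw [List.append_cancel_left e2]
  · rintro ⟨a, e, b⟩ -
    exact mul_le_mul' le_rfl (ind_mono fun _ => by simp)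

theorem T3_le (hN : UL N) (hj : 0 ≤ j) {z : Γ} (hz : N z ≤ j) {V : ℝ≥0∞}
    (hV : ∀ x, N x ≤ j → VV K N j r x ≤ V) : T3 K N r z ≤ Mid K N j z * V := by
  have h1 : ∑' p : List Γ × List Γ × List Γ, W K (p.1.reverse ++ p.2.1 ++ p.2.2) *
      ind (N p.1.sum ≤ j ∧ N p.2.2.sum ≤ j ∧ p.2.1.sum = z) *
        VV K N j r (p.1.sum + p.2.1.sum + p.2.2.sum) ≤ Mid K N j z * V := by
    rw [Mid, ← ENNReal.tsum_mul_right]
    refine ENNReal.tsum_le_tsum fun p => ?_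
    by_cases h : N p.1.sum ≤ j ∧ N p.2.2.sum ≤ j ∧ p.2.1.sum = z
    · exact mul_le_mul' le_rfl (hV _ (hN.add_le (hN.add_le h.1 (h.2.2 ▸ hz)) h.2.1))
    · simp [ind_neg h]
  refine le_trans ?_ h1
  simp only [VV]
  rw [tsum_dep]
  refine tsum_le_of_lift _ _ (fun q => (q.1.1 ++ q.2.1, q.1.2.1, q.1.2.2 ++ q.2.2)) ?_
  rintro ⟨a, e, b⟩ h
  have he : e.sum = z := of_ind_ne (right_ne_zero_of_mul h)
  obtain ⟨sa, hs⟩ := Ws_ne (left_ne_zero_of_mul h)
  obtain ⟨p, A, rfl, hp, hA⟩ := last_exists hN hj a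
  obtain ⟨p', A', rfl, hp', hA'⟩ := last_exists hN hj b
  refine ⟨((p, e, p'), A, A'), rfl, ?_⟩
  have e1 : (p ++ A).reverse ++ e ++ (p' ++ A') = A.reverse ++ (p.reverse ++ e ++ p') ++ A' := by simp
  simp only at sa hs ⊢
  rw [e1] at sa hs ⊢
  have h2 : ∀ u v, u <+: A → v <+: A' → u ≠ [] → v ≠ [] →
      u.sum + (p.sum + e.sum + p'.sum) + v.sum ≠ 0 := by
    rintro u v ⟨x, rfl⟩ ⟨y, rfl⟩ hu - h0
    exact sa (u.reverse ++ (p.reverse ++ e ++ p') ++ v) ⟨x.reverse, y, by simp⟩ (by simp [hu])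
      (by simpa [add_assoc] using h0)
  rw [ind_pos he, ind_pos h2, ind_pos hA, ind_pos hA', ind_pos ⟨hp, hp', he⟩, Ws_eq K hs,
    Ws_eq K (short_reverse.1 (short_append.1 (short_append.1 hs).1).1),
    Ws_eq K (short_append.1 hs).2, W_append_eq K sa, W_append_eq K sa.left, W_reverse]
  exact le_of_eq (by ring)

omit [AddCommGroup Γ] in
theorem pre_cases {u a b : List Γ} (h : u <+: a ++ b) :
    u <+: a ∨ ∃ x, x <+: b ∧ x ≠ [] ∧ u = a ++ x := by
  obtain ⟨t, ht⟩ := h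
  rcases List.append_eq_append_iff.1 ht with ⟨x, hx, -⟩ | ⟨x, hx, hx'⟩
  · exact Or.inl ⟨x, hx.symm⟩
  · by_cases h0 : x = []
    · left; rw [hx, h0]; simp
    · exact Or.inr ⟨x, ⟨t, hx'.symm⟩, h0, hx⟩

theorem XX_super (hN : UL N) (hj : 0 ≤ j) (hr : j ≤ r) {V : ℝ≥0∞}
    (hV : ∀ x, N x ≤ j → V ≤ VV K N j r x) : XX K N j j * V ≤ XX K N r r := by
  have h1 : XX K N j j * V ≤ ∑' p : List Γ × List Γ, Ws K N j p.1 * Ws K N j p.2 *
      ind (Good N j p.1 p.2) * VV K N j r (p.1.sum + p.2.sum) := by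
    rw [XX, ← ENNReal.tsum_mul_right]
    refine ENNReal.tsum_le_tsum fun p => ?_
    by_cases h : Ws K N j p.1 * Ws K N j p.2 * ind (Good N j p.1 p.2) = 0
    · rw [h, zero_mul, zero_mul]
    · exact mul_le_mul' le_rfl (hV _ (hN.add_le
        ((Ws_ne (left_ne_zero_of_mul (left_ne_zero_of_mul h))).2.sum_le hN hj)
        ((Ws_ne (right_ne_zero_of_mul (left_ne_zero_of_mul h))).2.sum_le hN hj)))
  refine h1.trans ?_
  simp only [VV]
  rw [tsum_dep]
  refine tsum_ge_of_inj _ _ (fun q => (q.1.1 ++ q.2.1, q.1.2 ++ q.2.2)) ?_ ?_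
  · rintro ⟨⟨a, b⟩, A, B⟩ ⟨⟨a', b'⟩, A', B'⟩ h h' e
    simp only [ne_eq, mul_eq_zero, not_or, Prod.mk.injEq] at h h' e
    obtain ⟨rfl, rfl⟩ := run_unique e.1 (Ws_ne h.1.1.1).2 (Ws_ne h'.1.1.1).2
      (Away.sl (of_ind_ne h.2.1.1.2)) (Away.sl (of_ind_ne h'.2.1.1.2))
    obtain ⟨rfl, rfl⟩ := run_unique e.2 (Ws_ne h.1.1.2).2 (Ws_ne h'.1.1.2).2
      (Away.sl (of_ind_ne h.2.1.2.2)) (Away.sl (of_ind_ne h'.2.1.2.2))
    rfl
  · rintro ⟨⟨a, b⟩, A, B⟩ h
    simp only [ne_eq, mul_eq_zero, not_or] at h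
    obtain ⟨⟨⟨ha, hb⟩, hG⟩, ⟨⟨hA, hA'⟩, hB, hB'⟩, hE⟩ := h
    obtain ⟨sa, ha⟩ := Ws_ne ha
    obtain ⟨sb, hb⟩ := Ws_ne hb
    obtain ⟨sA, hA⟩ := Ws_ne hA
    obtain ⟨sB, hB⟩ := Ws_ne hB
    have hG' : Good N j a b := of_ind_ne hG
    have aA : Away N j A := of_ind_ne hA'
    have aB : Away N j B := of_ind_ne hB'
    have hE' := of_ind_ne hE
    have far : ∀ x y : Γ, N x ≤ j → j < N y → x + y ≠ 0 := fun x y hx hy h0 => by
      rw [← hN.add_eq hx hy, h0, hN.zero] at hy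
      exact absurd hj (not_le.2 hy)
    have h2 : Good N r (a ++ A) (b ++ B) := by
      intro u v hu hv _ _ h0
      rcases pre_cases hu with h3 | ⟨x, hx, hx0, rfl⟩ <;>
        rcases pre_cases hv with h4 | ⟨y, hy, hy0, rfl⟩
      · exact hG' u v h3 h4 (ha.sub h3.subset) (hb.sub h4.subset) h0
      · exact absurd (by simpa [add_assoc] using h0) (far (u.sum + b.sum) _ (hN.add_le
          ((ha.sub h3.subset).sum_le hN hj) (hb.sum_le hN hj)) (aB y hy hy0))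
      · exact absurd (by rw [← h0, List.sum_append]; abel) (far (a.sum + v.sum) _ (hN.add_le
          (ha.sum_le hN hj) ((hb.sub h4.subset).sum_le hN hj)) (aA x hx hx0))
      · exact absurd (by rw [← h0, List.sum_append, List.sum_append]; abel) (hE' x y hx hy hx0 hy0)
    simp only
    rw [ind_pos hG', ind_pos hE', ind_pos h2, ind_pos aA, ind_pos aB, Ws_eq K ha, Ws_eq K hb,
      Ws_eq K hA, Ws_eq K hB, Ws_eq K (short_append.2 ⟨ha.mono hr, hA⟩),
      Ws_eq K (short_append.2 ⟨hb.mono hr, hB⟩), W_append_eq K (SA_away hN hj ha sa sA aA),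
      W_append_eq K (SA_away hN hj hb sb sB aB)]
    exact le_of_eq (by ring)

/-- moving the first step -/
def shift (y : Γ) : List Γ → List Γ
  | [] => []
  | t :: b => (y + t) :: b

theorem VV_shift (hN : UL N) (hj : 0 ≤ j) {κ : ℝ≥0∞} (h1 : 1 ≤ κ)
    (hK : ∀ t y, N y ≤ j → j < N t → K t ≤ κ * K (y + t)) {x x' : Γ} (hx : N x ≤ j)
    (hx' : N x' ≤ j) : VV K N j r x ≤ κ * VV K N j r x' := by
  have hy : N (x - x') ≤ j := by rw [sub_eq_add_neg]; exact hN.add_le hx (hN.neg x' ▸ hx')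
  rw [VV, VV, ← ENNReal.tsum_mul_left]
  refine tsum_ge_of_inj _ _ (fun q => (q.1, shift (x - x') q.2)) ?_ ?_
  · rintro ⟨A, B⟩ ⟨A', B'⟩ - - e
    simp only [Prod.mk.injEq] at e
    obtain ⟨rfl, e⟩ := e
    cases B <;> cases B' <;> simp_all [shift]
  · rintro ⟨A, B⟩ h
    simp only [ne_eq, mul_eq_zero, not_or] at h
    obtain ⟨⟨-, hB, hB'⟩, hE⟩ := h
    cases B with
    | nil =>
      refine le_trans (mul_le_mul' le_rfl (ind_mono fun _ u v _ hv _ h0 => ?_))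
        (le_mul_of_one_le_left' h1)
      exact absurd (List.prefix_nil.1 hv) h0
    | cons t b =>
      obtain ⟨sB, hB⟩ := Ws_ne hB
      have aB : Away N j (t :: b) := of_ind_ne hB'
      have ht := aB.sl t b rfl
      have aB' : Away N j ((x - x' + t) :: b) := by
        intro v hv hne
        rcases List.prefix_cons_iff.1 hv with rfl | ⟨e, rfl, he⟩
        · exact absurd rfl hne
        · have := aB (t :: e) (List.cons_prefix_cons.2 ⟨rfl, he⟩) (by simp)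
          rw [List.sum_cons] at this
          rw [List.sum_cons, add_assoc, hN.add_eq hy this]
          exact this
      have sb : SA b := sB.mono (List.suffix_cons t b).isInfix
      simp only [shift]
      rw [ind_pos aB, ind_pos aB', Ws_eq K hB, Ws_eq K (short_cons.2
        ⟨hN.add_eq hy ht ▸ (short_cons.1 hB).1, (short_cons.1 hB).2⟩), W_of_SA K sB,
        W_of_SA K (SA_cons hN hj aB' sb), List.map_cons, List.map_cons, List.prod_cons,
        List.prod_cons, ← mul_assoc κ, mul_left_comm κ, mul_one, mul_one, ← mul_assoc κ]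
      refine mul_le_mul' (mul_le_mul' le_rfl (mul_le_mul' (hK t _ hy ht) le_rfl))
        (ind_mono fun h u v hu hv h2 h3 h0 => ?_)
      rcases List.prefix_cons_iff.1 hv with rfl | ⟨e, rfl, he⟩
      · exact h3 rfl
      · exact h u (t :: e) hu (List.cons_prefix_cons.2 ⟨rfl, he⟩) h2 (by simp)
          (by rw [← h0, List.sum_cons, List.sum_cons]; abel)

theorem Mid_le (hN : UL N) (hρ : 0 ≤ ρ) (hj : ρ ≤ j) {z : Γ} (hz : ρ < N z) {H : ℝ≥0∞}
    (hH : ∀ y, HH K N ρ y ≤ H) :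
    Mid K N j z ≤ XX K N ρ ρ * XX K N ρ ρ * H * (gg K N ρ j * gg K N ρ j) := by
  have h1 : ∑' p : (List Γ × List Γ) × List Γ × List Γ,
      Ws K N ρ p.1.1 * Ws K N ρ p.1.2 * ind (Good N ρ p.1.1 p.1.2) *
        (Ws K N ρ p.2.1 * Ws K N ρ p.2.2 * ind (Good N ρ p.2.1 p.2.2)) *
          HH K N ρ (z - p.1.2.sum - p.2.1.sum) ≤ XX K N ρ ρ * XX K N ρ ρ * H := by
    rw [XX, tsum_mul2, ← ENNReal.tsum_mul_right]
    exact ENNReal.tsum_le_tsum fun p => mul_le_mul' le_rfl (hH _)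
  refine le_trans ?_ (mul_le_mul' h1 le_rfl)
  simp only [HH]
  rw [tsum_dep, gg, tsum_mul2, tsum_mul2]
  refine tsum_le_of_lift _ _ (fun q => (q.1.1.1.1 ++ q.2.1,
    q.1.1.1.2 ++ q.1.2 ++ q.1.1.2.1.reverse, q.1.1.2.2 ++ q.2.2)) ?_
  rintro ⟨a, e, b⟩ h
  obtain ⟨ha, hb, he⟩ := of_ind_ne (right_ne_zero_of_mul h)
  have sa := SA_of_W (left_ne_zero_of_mul h)
  obtain ⟨c, g, rfl, hc, hg⟩ := run_exists N ρ a
  obtain ⟨c', g', rfl, hc', hg'⟩ := run_exists N ρ b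
  obtain ⟨e₁, e', rfl, h₁, h₁'⟩ := run_exists N ρ e
  obtain ⟨e₂, w, e2, h₂, h₂'⟩ := run_exists N ρ e'.reverse
  obtain rfl : e' = w.reverse ++ e₂.reverse := by simpa using congrArg List.reverse e2
  simp only at ha hb he sa
  have hw : w.reverse ≠ [] := fun h0 => by
    rw [h0, List.nil_append] at he
    exact absurd (he ▸ (short_append.2 ⟨h₁, short_reverse.2 h₂⟩).sum_le hN hρ) (not_le.2 hz)
  refine ⟨((((c, e₁), e₂, c'), w.reverse), g, g'), by simp, ?_⟩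
  have e1 : (c ++ g).reverse ++ (e₁ ++ (w.reverse ++ e₂.reverse)) ++ (c' ++ g') =
      g.reverse ++ ((c.reverse ++ e₁) ++ (w.reverse ++ ((e₂.reverse ++ c') ++ g'))) := by simp
  have h3 : SL N ρ w.reverse ∧ SL N ρ w.reverse.reverse ∧ w.reverse ≠ [] ∧
      w.reverse.sum = z - e₁.sum - e₂.sum :=
    ⟨fun t x ex => h₁' t (x ++ e₂.reverse) (by rw [ex]; rfl), by simpa using h₂', hw,
      by rw [← he]; simp⟩
  have h4 : ∀ {c g : List Γ}, Short N ρ c → N (c ++ g).sum ≤ j → N g.sum ≤ j := fun hc h =>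
    hN.le_of_add ((hc.sum_le hN hρ).trans hj) (by simpa using h)
  simp only
  rw [e1] at sa ⊢
  rw [ind_pos ⟨ha, hb, he⟩, ind_pos h3, ind_pos (And.intro hg (h4 hc ha)),
    ind_pos (And.intro hg' (h4 hc' hb)),
    ind_pos (good_of_sa sa.right.left), ind_pos (good_of_sa sa.right.right.right.left),
    Ws_eq K hc, Ws_eq K hc', Ws_eq K h₁, Ws_eq K h₂, W_append_eq K sa, W_append_eq K sa.right,
    W_append_eq K sa.right.left, W_append_eq K sa.right.right, W_append_eq K sa.right.right.right,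
    W_append_eq K sa.right.right.right.left, W_reverse K g, W_reverse K c, W_reverse K e₂]
  exact le_of_eq (by ring)

/-- arms that return are paid for by the two-point function -/
theorem hit_le (hN : UL N) (hρ : 0 ≤ ρ) (t : Γ) :
    (∑' b, W K b * ind (N (t + b.sum) ≤ ρ ∧ ∀ v, v <+: b → v ≠ b → ρ < N (t + v.sum))) *
      ∑' l, Ws K N ρ l ≤ ∑' l, W K l * ind (N (t + l.sum) ≤ ρ) := by
  rw [tsum_mul2]
  refine tsum_ge_of_inj _ _ (fun q => q.1 ++ q.2) ?_ ?_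
  · rintro ⟨b, l⟩ ⟨b', l'⟩ h h' e
    have h1 := of_ind_ne (right_ne_zero_of_mul (left_ne_zero_of_mul h))
    have h2 := of_ind_ne (right_ne_zero_of_mul (left_ne_zero_of_mul h'))
    simp only at e h1 h2
    obtain rfl : b = b' := by
      rcases List.prefix_or_prefix_of_prefix (List.prefix_append b l)
        (e ▸ List.prefix_append b' l') with h3 | h3
      · by_contra h4
        exact absurd h1.1 (not_le.2 (h2.2 b h3 h4))
      · by_contra h4
        exact absurd h2.1 (not_le.2 (h1.2 b' h3 (Ne.symm h4)))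
    rw [List.append_cancel_left e]
  · rintro ⟨b, l⟩ h
    have h1 := of_ind_ne (right_ne_zero_of_mul (left_ne_zero_of_mul h))
    have sb := SA_of_W (left_ne_zero_of_mul (left_ne_zero_of_mul h))
    obtain ⟨sl, hl⟩ := Ws_ne (right_ne_zero_of_mul h)
    simp only at h1 sb sl hl ⊢
    have h2 : SA (b ++ l) := SA_append sb sl fun u v hu hv h0 => by
      obtain ⟨x, rfl⟩ := hu
      by_contra hne
      have h3 := h1.2 x (List.prefix_append _ _) fun h4 => hne (by simpa using h4.symm)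
      have h4 := hN.add_le h1.1 ((hl.sub hv.subset).sum_le hN hρ)
      rw [List.sum_append, add_assoc, add_assoc, h0, add_zero] at h4
      exact absurd h4 (not_le.2 h3)
    rw [ind_pos h1, Ws_eq K hl, W_append_eq K h2, ind_pos, mul_one, mul_one]
    rw [List.sum_append, ← add_assoc]
    exact hN.add_le h1.1 (hl.sum_le hN hρ)

theorem ZZ_ge (hN : UL N) (hρ : 0 ≤ ρ) {R : ℝ} (P : Γ → Prop) (hP : ∀ t, P t → ρ < N t ∧ N t ≤ R)
    (hF : ∀ t, P t → ∑' b, W K b *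
      ind (N (t + b.sum) ≤ ρ ∧ ∀ v, v <+: b → v ≠ b → ρ < N (t + v.sum)) ≤ 2⁻¹)
    (hm : ∑' l, Ws K N R l ≠ ⊤) :
    (∑' t, K t * ind (P t)) * (2⁻¹ * ∑' l, Ws K N R l) ≤ ZZ K N ρ R := by
  have h1 : ∀ t, P t → 2⁻¹ * ∑' l, Ws K N R l ≤ ∑' b, Ws K N R b * ind (Away N ρ (t :: b)) := by
    intro t ht
    have h2 : ∑' b, Ws K N R b * ind (¬ Away N ρ (t :: b)) ≤ 2⁻¹ * ∑' l, Ws K N R l := by
      refine le_trans ?_ (mul_le_mul' (hF t ht) le_rfl)
      rw [tsum_mul2]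
      refine tsum_le_of_lift _ _ (fun q => q.1 ++ q.2) fun b hb => ?_
      have h3 : ¬ Away N ρ (t :: b) := of_ind_ne (right_ne_zero_of_mul hb)
      have h4 : ∃ n, ∃ v, v.length = n ∧ v <+: b ∧ N (t + v.sum) ≤ ρ := by
        simp only [Away, not_forall, not_lt] at h3
        obtain ⟨v, hv, hne, h4⟩ := h3
        rcases List.prefix_cons_iff.1 hv with rfl | ⟨e, rfl, he⟩
        · exact absurd rfl hne
        · exact ⟨_, e, rfl, he, h4⟩
      classical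
      obtain ⟨v, hn, ⟨w, rfl⟩, h5⟩ := Nat.find_spec h4
      refine ⟨(v, w), rfl, ?_⟩
      have h6 : ∀ u, u <+: v → u ≠ v → ρ < N (t + u.sum) := fun u hu hne => not_le.1 fun h7 =>
        Nat.find_min h4 (hn ▸ lt_of_le_of_ne hu.length_le fun h8 => hne (hu.eq_of_length h8))
          ⟨u, rfl, hu.trans (List.prefix_append _ _), h7⟩
      simp only
      rw [ind_pos h3, ind_pos ⟨h5, h6⟩, mul_one, mul_one, Ws, Ws, ← mul_assoc]
      exact mul_le_mul' (W_append_le K _ _) (ind_mono fun h => (short_append.1 h).2)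
    have h3 : 2⁻¹ * ∑' l, Ws K N R l + 2⁻¹ * ∑' l, Ws K N R l ≤
        ∑' b, Ws K N R b * ind (Away N ρ (t :: b)) + 2⁻¹ * ∑' l, Ws K N R l := by
      rw [← add_mul, ENNReal.inv_two_add_inv_two, one_mul]
      refine le_trans (le_of_eq ?_) (add_le_add le_rfl h2)
      rw [← ENNReal.tsum_add]
      exact tsum_congr fun b => by rw [← mul_add, ind_add_not, mul_one]
    exact (ENNReal.add_le_add_iff_right (ENNReal.mul_ne_top (by simp) hm)).1 h3
  have h2 : (∑' t, K t * ind (P t)) * (2⁻¹ * ∑' l, Ws K N R l) ≤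
      ∑' t, K t * ind (P t) * ∑' b, Ws K N R b * ind (Away N ρ (t :: b)) := by
    rw [← ENNReal.tsum_mul_right]
    refine ENNReal.tsum_le_tsum fun t => ?_
    by_cases ht : P t
    · exact mul_le_mul' le_rfl (h1 t ht)
    · simp [ind_neg ht]
  refine h2.trans ?_
  rw [tsum_dep]
  refine tsum_ge_of_inj _ _ (fun q => q.1 :: q.2) (fun q q' _ _ e => Prod.ext (List.cons.inj e).1
    (List.cons.inj e).2) ?_
  rintro ⟨t, b⟩ h
  have ht : P t := of_ind_ne (right_ne_zero_of_mul (left_ne_zero_of_mul h))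
  obtain ⟨sb, hb⟩ := Ws_ne (left_ne_zero_of_mul (right_ne_zero_of_mul h))
  have ab : Away N ρ (t :: b) := of_ind_ne (right_ne_zero_of_mul (right_ne_zero_of_mul h))
  simp only
  rw [ind_pos ht, ind_pos ab, Ws_eq K hb, Ws_eq K (short_cons.2 ⟨(hP t ht).2, hb⟩),
    W_of_SA K (SA_cons hN hρ ab sb), W_of_SA K sb, List.map_cons, List.prod_cons, mul_one, mul_one,
    mul_one]

end Pool.Agent.Lib.LRS
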