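import Pool.Agent.Lib.LRS.Ultra3

/-! Ultrametric case: estimates. -/

namespace Pool.Agent.Lib.LRS

open scoped ENNReal
open ENNReal (ofReal)

variable {Γ : Type} [AddCommGroup Γ] {N : Γ → ℝ} {K : Γ → ℝ≥0∞} {D α c C : ℝ}

theorem tsum_by_sum (K : Γ → ℝ≥0∞) (F : Γ → ℝ≥0∞) :
    ∑' l, W K l * F l.sum = ∑' z, GG K z * F z := by
  simp only [GG, ← ENNReal.tsum_mul_right]
  rw [ENNReal.tsum_comm]
  refine tsum_congr fun l => ?_
  rw [tsum_eq_single l.sum fun z hz => by rw [ind_neg (Ne.symm hz), mul_zero, zero_mul],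
    ind_pos rfl, mul_one]

theorem Ker.ee_le (h : Ker N K D α c C) :
    ∃ B : ℝ, 0 < B ∧ ∀ ρ, 0 < ρ → ee K N ρ ≤ ofReal (B * ρ ^ (-α)) := by
  obtain ⟨B, hB, h1⟩ := h.sum_gp h.α_pos
  refine ⟨B, hB, fun ρ hρ => le_trans (ENNReal.tsum_le_tsum fun t => mul_le_mul' le_rfl ?_)
    (zero_sub α ▸ h1 ρ hρ)⟩
  by_cases ht : ρ < N t
  · rw [ind_pos ht, gp_of_le zero_le_one hρ ht.le, Real.rpow_zero, ENNReal.ofReal_one]
  · rw [ind_neg ht]; exact zero_le

theorem SG_far (h : Ker N K D α c C) (hc : Crit K) (hN : UL N) : ∃ B : ℝ, 0 < B ∧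
    ∀ ρ ρ' t, 1 ≤ 2 * ρ → ρ ≤ ρ' → ρ' < N t →
      ∑' l, W K l * ind (N (t + l.sum) ≤ ρ) ≤ ofReal (B * ρ ^ D * ρ' ^ (α - D)) := by
  obtain ⟨A, hA, hA'⟩ := GG_upper h hc
  have hC := h.C_pos
  refine ⟨A * C * 2 ^ D, by positivity, fun ρ ρ' t h1 h2 ht => ?_⟩
  have hρ : 0 < ρ := by linarith
  have hρ' : 0 < ρ' := by linarith
  rw [tsum_by_sum K fun z => ind (N (t + z) ≤ ρ)]
  calc _ ≤ ∑' z, ofReal (A * ρ' ^ (α - D)) * ind (N (t + z) ≤ 2 * ρ) := by
        refine ENNReal.tsum_le_tsum fun z => ?_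
        by_cases hz : N (t + z) ≤ ρ
        · have h3 : N z = N t := by
            have := hN.add_eq hz (show ρ < N (-t) by rw [hN.neg]; linarith)
            rwa [add_neg_cancel_comm, hN.neg] at this
          have h4 : z ≠ 0 := fun h0 => by rw [h0, hN.zero] at h3; linarith
          refine mul_le_mul' ((hA' z h4).trans (ENNReal.ofReal_le_ofReal ?_))
            (ind_mono fun _ => by linarith)
          exact mul_le_mul_of_nonneg_left (Real.rpow_le_rpow_of_nonpos hρ' (h3 ▸ ht.le)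
            (by linarith [h.α_lt_D])) hA.le
        · simp [ind_neg hz]
    _ = ofReal (A * ρ' ^ (α - D)) * ∑' z, ind (N z ≤ 2 * ρ) := by
        rw [ENNReal.tsum_mul_left]
        exact congrArg _ ((Equiv.addLeft t).tsum_eq fun z => ind (N z ≤ 2 * ρ))
    _ ≤ ofReal (A * ρ' ^ (α - D)) * ofReal (C * (2 * ρ) ^ D) := mul_le_mul' le_rfl (h.vhi _ h1)
    _ = _ := by
        rw [← ENNReal.ofReal_mul (by positivity), Real.mul_rpow zero_le_two hρ.le]
        congr 1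
        ring

theorem SG (h : Ker N K D α c C) (hc : Crit K) (hN : UL N) : ∃ B : ℝ, 0 < B ∧
    ∀ ρ t, 1 ≤ 2 * ρ → ∑' l, W K l * ind (N (t + l.sum) ≤ ρ) ≤ ofReal (B * ρ ^ α) := by
  classical
  obtain ⟨A, hA, hA'⟩ := GG_upper h hc
  obtain ⟨B, hB, hB'⟩ := SG_far h hc hN
  obtain ⟨S, hS, hS'⟩ := h.shell h.α_pos one_pos
  have hα := h.α_pos
  refine ⟨2 ^ α + A * S + B, by positivity, fun ρ t h1 => ?_⟩
  have hρ : 0 < ρ := by linarith
  rcases lt_or_ge ρ (N t) with ht | ht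
  · refine (hB' ρ ρ t h1 le_rfl ht).trans (ENNReal.ofReal_le_ofReal ?_)
    rw [mul_assoc, ← Real.rpow_add hρ, add_sub_cancel]
    gcongr
    exact le_add_of_nonneg_left (by positivity)
  rw [tsum_by_sum K fun z => ind (N (t + z) ≤ ρ)]
  calc _ ≤ ∑' z, ((if z = 0 then 1 else 0) + ofReal (A * ρ ^ α) * (ind (z ≠ 0) *
        ofReal (N z ^ (-D) * min ((N z / ρ) ^ α) ((N z / ρ) ^ (-1 : ℝ))))) := by
        refine ENNReal.tsum_le_tsum fun z => ?_
        by_cases h0 : z = 0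
        · rw [if_pos h0, h0, GG_zero]; exact (mul_ind_le _ _).trans le_self_add
        by_cases hz : N (t + z) ≤ ρ
        · have h2 := hN.le_of_add ht hz
          have h3 := h.pos h0
          rw [if_neg h0, zero_add, ind_pos hz, ind_pos h0, mul_one, one_mul,
            ← ENNReal.ofReal_mul (by positivity), min_eq_left
              (Real.rpow_le_rpow_of_exponent_ge (by positivity) ((div_le_one hρ).2 h2) (by linarith))]
          refine (hA' z h0).trans (le_of_eq (congrArg _ ?_))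
          rw [Real.div_rpow h3.le hρ.le, sub_eq_add_neg, Real.rpow_add h3]
          field_simp
        · simp [ind_neg hz]
    _ ≤ ofReal ((2 * ρ) ^ α) + ofReal (A * ρ ^ α) * ofReal S := by
        rw [ENNReal.tsum_add, tsum_ite_eq, ENNReal.tsum_mul_left]
        exact add_le_add (ENNReal.one_le_ofReal.2 (Real.one_le_rpow h1 hα.le))
          (mul_le_mul' le_rfl (hS' ρ hρ))
    _ ≤ _ := by
        rw [← ENNReal.ofReal_mul (by positivity), ← ENNReal.ofReal_add (by positivity)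
          (by positivity), Real.mul_rpow zero_le_two hρ.le]
        refine ENNReal.ofReal_le_ofReal ?_
        nlinarith [mul_pos hB (Real.rpow_pos_of_pos hρ α)]

theorem Ker.long_le (h : Ker N K D α c C) {ρ : ℝ} (hρ : 0 < ρ) {t : Γ} (ht : ρ < N t) :
    K t ≤ ofReal (C * ρ ^ (-(D + α))) :=
  (h.khi t fun h0 => by rw [h0, h.zero] at ht; linarith).trans (ENNReal.ofReal_le_ofReal
    (mul_le_mul_of_nonneg_left (Real.rpow_le_rpow_of_nonpos hρ ht.le
      (by linarith [h.α_pos, h.D_pos])) h.C_pos.le))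

theorem KG (h : Ker N K D α c C) (hc : Crit K) (hN : UL N) : ∃ B : ℝ, 0 < B ∧
    ∀ ρ y, 1 ≤ 2 * ρ → ∑' t, K t * ind (ρ < N t) * GG K (y - t) ≤ ofReal (B * ρ ^ (-D)) := by
  obtain ⟨A, hA, hA'⟩ := GG_upper h hc
  obtain ⟨B, hB, hB'⟩ := SG h hc hN
  obtain ⟨E, hE, hE'⟩ := h.ee_le
  have hC := h.C_pos
  refine ⟨C * B + E * A, by positivity, fun ρ y h1 => ?_⟩
  have hρ : 0 < ρ := by linarith
  calc _ ≤ ∑' t, (ofReal (C * ρ ^ (-(D + α))) * (GG K (y - t) * ind (N (0 + (y - t)) ≤ ρ)) +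
        K t * ind (ρ < N t) * ofReal (A * ρ ^ (α - D))) := by
        refine ENNReal.tsum_le_tsum fun t => ?_
        by_cases ht : ρ < N t
        swap
        · simp [ind_neg ht]
        rcases le_or_gt (N (y - t)) ρ with h2 | h2
        · rw [ind_pos ht, zero_add, ind_pos h2, mul_one, mul_one]
          exact (mul_le_mul' (h.long_le hρ ht) le_rfl).trans le_self_add
        · refine le_trans (mul_le_mul' le_rfl ((hA' _ fun h0 => ?_).trans
            (ENNReal.ofReal_le_ofReal ?_))) le_add_self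
          · rw [h0, h.zero] at h2; linarith
          · exact mul_le_mul_of_nonneg_left (Real.rpow_le_rpow_of_nonpos hρ h2.le
              (by linarith [h.α_lt_D])) hA.le
    _ ≤ ofReal (C * ρ ^ (-(D + α))) * ofReal (B * ρ ^ α) +
        ofReal (E * ρ ^ (-α)) * ofReal (A * ρ ^ (α - D)) := by
        have e : ∑' t, GG K (y - t) * ind (N (0 + (y - t)) ≤ ρ) = _ :=
          (Equiv.subLeft y).tsum_eq fun z => GG K z * ind (N (0 + z) ≤ ρ)
        rw [ENNReal.tsum_add, ENNReal.tsum_mul_left, ENNReal.tsum_mul_right, e,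
          ← tsum_by_sum K fun z => ind (N (0 + z) ≤ ρ)]
        exact add_le_add (mul_le_mul' le_rfl (hB' ρ 0 h1)) (mul_le_mul' (hE' ρ hρ) le_rfl)
    _ = _ := by
        rw [← ENNReal.ofReal_mul (by positivity), ← ENNReal.ofReal_mul (by positivity),
          ← ENNReal.ofReal_add (by positivity) (by positivity), mul_mul_mul_comm,
          mul_mul_mul_comm E, ← Real.rpow_add hρ, ← Real.rpow_add hρ, add_mul]
        congr 4 <;> ring

theorem HH_le (h : Ker N K D α c C) (hc : Crit K) (hN : UL N) : ∃ B : ℝ, 0 < B ∧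
    ∀ ρ y, 1 ≤ 2 * ρ → HH K N ρ y ≤ ofReal (B * ρ ^ (-(D + α))) := by
  obtain ⟨B, hB, hB'⟩ := KG h hc hN
  obtain ⟨E, hE, hE'⟩ := h.ee_le
  have hC := h.C_pos
  refine ⟨C + E * B, by positivity, fun ρ y h1 => ?_⟩
  have hρ : 0 < ρ := by linarith
  have h2 : HH K N ρ y ≤ ∑' l, W K l * ind (l = [y] ∧ ρ < N y) + ∑' l, W K l *
      ind (∃ t t' w, l = t :: (w ++ [t']) ∧ ρ < N t ∧ ρ < N t' ∧ w.sum = y - t - t') := by
    rw [HH, ← ENNReal.tsum_add]
    refine ENNReal.tsum_le_tsum fun l => ?_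
    rw [← mul_add]
    refine mul_le_mul' le_rfl ?_
    by_cases hl : SL N ρ l ∧ SL N ρ l.reverse ∧ l ≠ [] ∧ l.sum = y
    swap
    · rw [ind_neg hl]; exact zero_le
    obtain ⟨h3, h4, h5, rfl⟩ := hl
    obtain ⟨t, b, rfl⟩ := List.exists_cons_of_ne_nil h5
    rcases List.eq_nil_or_concat' b with rfl | ⟨w, t', rfl⟩
    · exact (ind_mono fun _ => ⟨by simp, by simpa using h3 t [] rfl⟩).trans le_self_add
    · exact (ind_mono fun _ => ⟨t, t', w, rfl, h3 t _ rfl, h4 t' (w.reverse ++ [t]) (by simp),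
        by simp⟩).trans le_add_self
  have h3 : ∑' l, W K l * ind (l = [y] ∧ ρ < N y) ≤ ofReal (C * ρ ^ (-(D + α))) := by
    rw [tsum_eq_single [y] fun l hl => by rw [ind_neg fun h => hl h.1, mul_zero]]
    by_cases hy : ρ < N y
    · exact (mul_ind_le _ _).trans ((W_cons_le K y []).trans (by
        rw [W_nil, mul_one]; exact h.long_le hρ hy))
    · simp [ind_neg, hy]
  have h4 : ∑' l, W K l *
      ind (∃ t t' w, l = t :: (w ++ [t']) ∧ ρ < N t ∧ ρ < N t' ∧ w.sum = y - t - t') ≤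
      ∑' t, K t * ind (ρ < N t) * ∑' t', K t' * ind (ρ < N t') * GG K (y - t - t') := by
    simp only [GG, tsum_dep]
    refine tsum_le_of_lift _ _ (fun q => q.1 :: (q.2.2 ++ [q.2.1])) fun l hl => ?_
    obtain ⟨t, t', w, rfl, h5, h6, h7⟩ := of_ind_ne (right_ne_zero_of_mul hl)
    refine ⟨(t, t', w), rfl, (mul_ind_le _ _).trans ?_⟩
    simp only
    rw [ind_pos h5, ind_pos h6, ind_pos h7, mul_one, mul_one, mul_one, mul_comm (K t')]
    exact (W_cons_le K _ _).trans (mul_le_mul' le_rfl (by simpa [W_nil] using W_split_le K w t' []))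
  refine h2.trans ((add_le_add h3 (h4.trans ((ENNReal.tsum_le_tsum fun t => mul_le_mul' le_rfl
    (hB' ρ (y - t) h1)).trans ?_))).trans (le_of_eq ?_ :
      _ + ofReal (E * ρ ^ (-α)) * ofReal (B * ρ ^ (-D)) ≤ _))
  · rw [ENNReal.tsum_mul_right]
    exact mul_le_mul' (hE' ρ hρ) le_rfl
  · rw [← ENNReal.ofReal_mul (by positivity), ← ENNReal.ofReal_add (by positivity) (by positivity),
      mul_mul_mul_comm, ← Real.rpow_add hρ, add_mul]
    congr 4
    ring

theorem gg_le (h : Ker N K D α c C) (hc : Crit K) (hN : UL N) : ∃ B : ℝ, 0 < B ∧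
    ∀ ρ, 1 ≤ 2 * ρ → gg K N ρ (2 * ρ) ≤ ofReal B := by
  obtain ⟨B, hB, hB'⟩ := SG h hc hN
  obtain ⟨E, hE, hE'⟩ := h.ee_le
  refine ⟨1 + E * B * 2 ^ α, by positivity, fun ρ h1 => ?_⟩
  have hρ : 0 < ρ := by linarith
  rw [ENNReal.ofReal_add zero_le_one (by positivity), ENNReal.ofReal_one]
  refine (tsum_list_le _).trans (add_le_add ((mul_ind_le _ _).trans (W_nil K).le) ?_)
  calc _ ≤ ∑' t, K t * ind (ρ < N t) * ∑' l, W K l * ind (N (t + l.sum) ≤ 2 * ρ) := by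
        rw [tsum_dep]
        refine ENNReal.tsum_le_tsum fun p => ?_
        rw [mul_mul_mul_comm]
        refine mul_le_mul' (W_cons_le K _ _) ?_
        by_cases h2 : SL N ρ (p.1 :: p.2) ∧ N (p.1 :: p.2).sum ≤ 2 * ρ
        · rw [ind_pos h2, ind_pos (h2.1 _ _ rfl), ind_pos (by simpa using h2.2), mul_one]
        · rw [ind_neg h2]; exact zero_le
    _ ≤ ofReal (E * ρ ^ (-α)) * ofReal (B * (2 * ρ) ^ α) := by
        refine (ENNReal.tsum_le_tsum fun t => mul_le_mul' le_rfl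
          (hB' (2 * ρ) t (by linarith))).trans ?_
        rw [ENNReal.tsum_mul_right]
        exact mul_le_mul' (hE' ρ hρ) le_rfl
    _ = _ := by
        rw [← ENNReal.ofReal_mul (by positivity), Real.mul_rpow zero_le_two hρ.le,
          Real.rpow_neg hρ.le]
        congr 1
        field_simp

theorem one_le_QQ (K : Γ → ℝ≥0∞) (N : Γ → ℝ) (r : ℝ) : 1 ≤ QQ K N r := by
  refine le_trans ?_ (ENNReal.le_tsum (([] : List Γ), ([] : List Γ)))
  simp [Ws, W_nil, ind_pos, Short]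

theorem QQ_le (h : Ker N K D α c C) (hc : Crit K) (hN : UL N) : ∃ A : ℝ, 0 < A ∧
    ∀ r r', 1 ≤ r' → XX K N r r' ≤ ofReal (A * r' ^ α * (A * r' ^ α)) := by
  obtain ⟨A, hA, hA'⟩ := stepA h hc
  refine ⟨A, hA, fun r r' hr => XX_le_sq.trans ?_⟩
  rw [← mm_eq hN (zero_le_one.trans hr), ENNReal.ofReal_mul (by positivity)]
  exact mul_le_mul' (hA' _ hr) (hA' _ hr)

theorem T3_bound (h : Ker N K D α c C) (hc : Crit K) (hN : UL N) : ∃ B : ℝ, 0 < B ∧
    ∀ r z, z ≠ 0 → N z ≤ r →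
      T3 K N r z ≤ ofReal (B * N z ^ (-(D + α))) * QQ K N (N z) * QQ K N r := by
  obtain ⟨H, hH, hH'⟩ := HH_le h hc hN
  obtain ⟨g, hg, hg'⟩ := gg_le h hc hN
  obtain ⟨A, hA, hA'⟩ := QQ_le h hc hN
  have hc0 := h.c_pos
  have hC := h.C_pos
  set κ := 1 + C / c with hκ
  have hκ0 : 0 < κ := by positivity
  refine ⟨H * 2⁻¹ ^ (-(D + α)) * (g * g) * (κ * κ), by positivity, fun r z hz hr => ?_⟩
  have hj := h.disc z hz
  have hj0 := h.pos hz
  have hK : ∀ t y, N y ≤ N z → N z < N t → K t ≤ ofReal κ * K (y + t) := fun t y hy ht => by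
    have h1 := hN.add_eq hy ht
    have h2 : 0 < N t := hj0.trans ht
    refine (h.khi t fun h0 => by rw [h0, h.zero] at h2; exact h2.false).trans (le_trans ?_
      (mul_le_mul' le_rfl (h.klo _ fun h0 => by rw [← h1, h0, h.zero] at h2; exact h2.false)))
    rw [← ENNReal.ofReal_mul hκ0.le, h1, ← mul_assoc]
    refine ENNReal.ofReal_le_ofReal (mul_le_mul_of_nonneg_right ?_ (by positivity))
    rw [hκ, add_mul, div_mul_cancel₀ _ hc0.ne']
    linarith
  have h1κ : 1 ≤ ofReal κ := ENNReal.one_le_ofReal.2 (le_add_of_nonneg_right (by positivity))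
  have h0 : N 0 ≤ N z := h.zero ▸ hj0.le
  have h1 := T3_le (K := K) (r := r) hN hj0.le le_rfl fun x hx => VV_shift hN hj0.le h1κ hK hx h0
  have h2 := XX_super (K := K) (V := (ofReal κ)⁻¹ * VV K N (N z) r 0) hN hj0.le hr fun x hx => by
    refine (mul_le_mul' le_rfl (VV_shift hN hj0.le h1κ hK h0 hx)).trans (le_of_eq ?_)
    rw [← mul_assoc, ENNReal.inv_mul_cancel (ENNReal.ofReal_pos.2 hκ0).ne' ENNReal.ofReal_ne_top,
      one_mul]
  have e : 2 * (2⁻¹ * N z) = N z := by ring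
  have h3 := Mid_le (K := K) hN (ρ := 2⁻¹ * N z) (j := N z) (by positivity) (by linarith)
    (z := z) (by linarith) fun y => hH' _ y (by linarith)
  have h4 := hg' (2⁻¹ * N z) (by linarith)
  rw [e] at h4
  have h5 : XX K N (2⁻¹ * N z) (2⁻¹ * N z) ≤ QQ K N (N z) :=
    XX_le_QQ.trans (QQ_mono (by linarith))
  calc T3 K N r z ≤ QQ K N (N z) * XX K N (N z) (N z) * ofReal (H * (2⁻¹ * N z) ^ (-(D + α))) *
        (ofReal g * ofReal g) * (ofReal κ * VV K N (N z) r 0) :=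
        h1.trans (mul_le_mul' (h3.trans (mul_le_mul' (mul_le_mul' (mul_le_mul' h5
          (h5.trans QQ_le_XX)) le_rfl) (mul_le_mul' h4 h4))) le_rfl)
    _ = ofReal (H * (2⁻¹ * N z) ^ (-(D + α))) * (ofReal g * ofReal g) * (ofReal κ * ofReal κ) *
        QQ K N (N z) * (XX K N (N z) (N z) * ((ofReal κ)⁻¹ * VV K N (N z) r 0)) := by
        have := ENNReal.mul_inv_cancel (ENNReal.ofReal_pos.2 hκ0).ne' ENNReal.ofReal_ne_top
        calc _ = _ * (ofReal κ * (ofReal κ)⁻¹) := by rw [this, mul_one]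
          _ = _ := by ring
    _ ≤ _ := by
        refine mul_le_mul' (mul_le_mul' (le_of_eq ?_) le_rfl) (h2.trans XX_le_QQ)
        rw [← ENNReal.ofReal_mul hg.le, ← ENNReal.ofReal_mul hκ0.le,
          ← ENNReal.ofReal_mul (by positivity), ← ENNReal.ofReal_mul (by positivity),
          Real.mul_rpow (by positivity) hj0.le]
        congr 1
        ring

theorem T3_far (hN : UL N) {r : ℝ} (hr : 0 ≤ r) {z : Γ} (hz : r < N z) : T3 K N r z = 0 := by
  refine ENNReal.tsum_eq_zero.2 fun p => by_contra fun h => ?_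
  have h1 := (short_append.1 (short_append.1 (Ws_ne (left_ne_zero_of_mul h)).2).1).2.sum_le hN hr
  rw [of_ind_ne (right_ne_zero_of_mul h)] at h1
  exact absurd h1 (not_le.2 hz)

theorem ZZ_bound (h : Ker N K D α c C) (hc : Crit K) (hN : UL N) : ∃ Λ κ : ℝ, 1 ≤ Λ ∧ 0 < κ ∧
    ∀ ρ R, 1 ≤ ρ → Λ * ρ ≤ R → ofReal (κ * ρ ^ (-α)) * mm K N R ≤ ZZ K N ρ R := by
  obtain ⟨L, κ, hL, hκ, hL'⟩ := h.annulus
  obtain ⟨B, hB, hB'⟩ := SG_far h hc hN
  obtain ⟨a, ha, ha'⟩ := stepB h hc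
  obtain ⟨A, hA, hA'⟩ := stepA h hc
  have hD := sub_pos.2 h.α_lt_D
  obtain ⟨M, hM1, hM⟩ : ∃ M : ℝ, 1 ≤ M ∧ 2 * B / a ≤ M ^ (D - α) := by
    refine ⟨max 1 ((2 * B / a) ^ (D - α)⁻¹), le_max_left _ _, ?_⟩
    refine le_trans (le_of_eq ?_) (Real.rpow_le_rpow (by positivity) (le_max_right _ _) hD.le)
    rw [Real.rpow_inv_rpow (by positivity) hD.ne']
  have hM0 : 0 < M := one_pos.trans_le hM1
  refine ⟨L * M, κ * M ^ (-α) * 2⁻¹, one_le_mul_of_one_le_of_one_le hL hM1, by positivity,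
    fun ρ R hρ hR => ?_⟩
  have hρ0 : 0 < ρ := one_pos.trans_le hρ
  have hMρ : ρ ≤ M * ρ := le_mul_of_one_le_left hρ0.le hM1
  have hR1 : 1 ≤ R := le_trans (one_le_mul_of_one_le_of_one_le
    (one_le_mul_of_one_le_of_one_le hL hM1) hρ) hR
  refine le_trans ?_ (ZZ_ge hN hρ0.le (fun t => 3 * (M * ρ) < N t ∧ N t ≤ L * (M * ρ))
    (fun t ht => ⟨by linarith [ht.1], by linarith [ht.2]⟩) (fun t ht => ?_) ?_)
  · rw [← mm_eq hN (by linarith), ← mul_assoc]
    refine mul_le_mul' (le_trans (le_of_eq ?_) (mul_le_mul' (hL' _ (hρ.trans hMρ)) le_rfl)) le_rfl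
    rw [← ENNReal.ofReal_ofNat 2, ← ENNReal.ofReal_inv_of_pos two_pos,
      ← ENNReal.ofReal_mul (by positivity), Real.mul_rpow hM0.le hρ0.le]
    congr 1
    ring
  · have h1 := ((mul_le_mul' le_rfl (mm_eq hN hρ0.le K ▸ ha' ρ hρ0)).trans
      (hit_le hN hρ0.le t)).trans (hB' ρ (M * ρ) t (by linarith) hMρ (by linarith [ht.1]))
    refine (ENNReal.mul_le_mul_iff_left (ENNReal.ofReal_pos.2 (by positivity : 0 < a * ρ ^ α)).ne'
      ENNReal.ofReal_ne_top).1 (h1.trans ?_)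
    rw [← ENNReal.ofReal_ofNat 2, ← ENNReal.ofReal_inv_of_pos two_pos,
      ← ENNReal.ofReal_mul (by positivity), Real.mul_rpow hM0.le hρ0.le, mul_mul_mul_comm,
      ← Real.rpow_add hρ0, add_sub_cancel, ← mul_assoc, ← neg_sub, Real.rpow_neg hM0.le]
    refine ENNReal.ofReal_le_ofReal (mul_le_mul_of_nonneg_right ?_ (by positivity))
    rw [div_le_iff₀ ha] at hM
    rw [← div_eq_mul_inv, div_le_iff₀ (by positivity)]
    linarith
  · rw [← mm_eq hN (by linarith)]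
    exact ne_top_of_le_ne_top ENNReal.ofReal_ne_top (hA' R hR1)

theorem arm_bound (h : Ker N K D α c C) (hc : Crit K) : ∃ B : ℝ, 0 < B ∧
    ∀ r R, 0 < r → r ≤ R → 1 + ee K N r * mm K N R ≤ ofReal (B * r ^ (-α)) * mm K N R := by
  obtain ⟨a, ha, ha'⟩ := stepB h hc
  obtain ⟨E, hE, hE'⟩ := h.ee_le
  refine ⟨a⁻¹ + E, by positivity, fun r R hr hR => ?_⟩
  rw [add_mul, ENNReal.ofReal_add (by positivity) (by positivity), add_mul]
  refine add_le_add (le_trans (le_of_eq ?_) (mul_le_mul' le_rfl ((ha' r hr).trans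
    (mm_mono (fun _ => le_rfl) N hR)))) (mul_le_mul' (hE' r hr) le_rfl)
  rw [← ENNReal.ofReal_mul (by positivity), Real.rpow_neg hr.le, ← ENNReal.ofReal_one]
  congr 1
  field_simp

theorem Geo.ann_count (h : Geo N D c C) : ∃ L : ℝ, 1 ≤ L ∧ ∀ R, 1 ≤ R →
    ofReal (R ^ D) ≤ ∑' s, ind (R < N s ∧ N s ≤ L * R) := by
  have hC := h.C_pos
  have hc := h.c_pos
  have hD := h.D_pos
  obtain ⟨L, hL1, hL⟩ : ∃ L : ℝ, 1 ≤ L ∧ C + 1 ≤ c * L ^ D := by
    refine ⟨max 1 (((C + 1) / c) ^ D⁻¹), le_max_left _ _, ?_⟩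
    rw [← div_le_iff₀' hc]
    refine le_trans (le_of_eq ?_) (Real.rpow_le_rpow (by positivity) (le_max_right _ _) hD.le)
    rw [Real.rpow_inv_rpow (by positivity) hD.ne']
  refine ⟨L, hL1, fun R hR => ?_⟩
  have hR0 : 0 < R := one_pos.trans_le hR
  have h2 : ∑' s, ind (N s ≤ L * R) ≤ ∑' s, ind (R < N s ∧ N s ≤ L * R) + ∑' s, ind (N s ≤ R) := by
    rw [← ENNReal.tsum_add]
    refine ENNReal.tsum_le_tsum fun s => ?_
    by_cases hs : N s ≤ R
    · rw [ind_pos hs]; exact (ind_le_one _).trans le_add_self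
    · exact (ind_mono fun h => ⟨not_le.1 hs, h⟩).trans le_self_add
  have h3 := ((h.vlo _ (one_le_mul_of_one_le_of_one_le hL1 hR)).trans h2).trans
    (add_le_add le_rfl (h.vhi _ hR))
  refine (ENNReal.add_le_add_iff_right ENNReal.ofReal_ne_top).1 (le_trans ?_ h3)
  rw [← ENNReal.ofReal_add (by positivity) (by positivity)]
  refine ENNReal.ofReal_le_ofReal ?_
  rw [Real.mul_rpow (by positivity) hR0.le]
  nlinarith [Real.rpow_pos_of_pos hR0 D]

end Pool.Agent.Lib.LRS
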