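import Pool.Agent.Lib.LRS.Ultra4
import Pool.Agent.Lib.LRS.Bubble

/-! Ultrametric case: the multi-scale recursion. -/

namespace Pool.Agent.Lib.LRS

open scoped ENNReal
open ENNReal (ofReal)

variable {Γ : Type} [AddCommGroup Γ] {N : Γ → ℝ} {K : Γ → ℝ≥0∞} {D α c C : ℝ}

theorem exists_scale {Λ x : ℝ} (hΛ : 1 ≤ Λ) (hx : 1 ≤ x) {k : ℕ} (hk : x ≤ Λ ^ k) :
    ∃ i ≤ k, x ≤ Λ ^ i ∧ Λ ^ i ≤ Λ * x := by
  induction k with
  | zero => exact ⟨0, le_rfl, hk, by rw [pow_zero]; exact one_le_mul_of_one_le_of_one_le hΛ hx⟩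
  | succ k ih =>
    rcases le_or_gt x (Λ ^ k) with h | h
    · obtain ⟨i, hi, h1⟩ := ih h
      exact ⟨i, by omega, h1⟩
    · exact ⟨k + 1, le_rfl, hk, by rw [pow_succ']; gcongr⟩

theorem E2_le (h : Ker N K D α c C) (hc : Crit K) (hN : UL N) {Λ : ℝ} (hΛ : 1 ≤ Λ) :
    ∃ B : ℝ, 0 < B ∧ ∀ k : ℕ, ∑' z, T2 K N (Λ ^ k) z * T2 K N (Λ ^ k) z ≤
      QQ K N (Λ ^ k) * QQ K N (Λ ^ k) * (ofReal B * ∑ i ∈ Finset.range (k + 1),
        QQ K N (Λ ^ i) * QQ K N (Λ ^ i) * ofReal ((Λ ^ i) ^ (-(2 * α + D)))) := by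
  obtain ⟨B, hB, hB'⟩ := T3_bound h hc hN
  have hC := h.C_pos
  have hΛ0 : 0 < Λ := one_pos.trans_le hΛ
  have hs : 0 < D + α := add_pos h.D_pos h.α_pos
  set E := 1 + B * Λ ^ (D + α) with hE
  have hE0 : 0 < E := by positivity
  refine ⟨4 * (E * E) * C, by positivity, fun k => ?_⟩
  let Y : ℕ → ℝ≥0∞ := fun i =>
    ofReal (E * (Λ ^ i) ^ (-(D + α))) * QQ K N (Λ ^ i) * QQ K N (Λ ^ k)
  have key : ∀ z, N z ≤ Λ ^ k → ∃ i ≤ k, N z ≤ Λ ^ i ∧ ∀ y, N y = N z →
      T3 K N (Λ ^ k) y ≤ Y i := fun z hz => by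
    by_cases h0 : z = 0
    · refine ⟨0, k.zero_le, by simp [h0, h.zero], fun y hy => ?_⟩
      obtain rfl : y = 0 := by_contra fun h1 => by
        have := h.pos h1
        rw [hy, h0, h.zero] at this
        exact this.false
      refine T3_zero.trans (le_mul_of_one_le_left' (one_le_mul ?_ (one_le_QQ _ _ _)))
      rw [pow_zero, Real.one_rpow, mul_one]
      exact ENNReal.one_le_ofReal.2 (le_add_of_nonneg_right (by positivity))
    obtain ⟨i, hi, h1, h2⟩ := exists_scale hΛ (h.disc z h0) hz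
    refine ⟨i, hi, h1, fun y hy => ?_⟩
    have h3 := h.pos h0
    refine (hB' _ y (fun h4 => by rw [← hy, h4, h.zero] at h3; exact h3.false) (hy ▸ hz)).trans
      (mul_le_mul' (mul_le_mul' (ENNReal.ofReal_le_ofReal ?_) (QQ_mono (hy ▸ h1))) le_rfl)
    rw [hy]
    calc B * N z ^ (-(D + α)) = B * Λ ^ (D + α) * (Λ * N z) ^ (-(D + α)) := by
          rw [Real.mul_rpow hΛ0.le h3.le, Real.rpow_neg hΛ0.le]; field_simp
      _ ≤ _ := mul_le_mul (by linarith) (Real.rpow_le_rpow_of_nonpos (by positivity) h2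
          (by linarith)) (by positivity) hE0.le
  calc _ ≤ ∑' z, ∑ i ∈ Finset.range (k + 1), (Y i + Y i) * (Y i + Y i) * ind (N z ≤ Λ ^ i) := by
        refine ENNReal.tsum_le_tsum fun z => ?_
        rcases le_or_gt (N z) (Λ ^ k) with hz | hz
        · obtain ⟨i, hi, h1, h2⟩ := key z hz
          have h3 := (T2_le z).trans (add_le_add (h2 z rfl) (h2 _ (h.neg z)))
          refine le_trans ?_ (Finset.single_le_sum (fun _ _ => zero_le)
            (Finset.mem_range.2 (Nat.lt_succ_of_le hi)))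
          rw [ind_pos h1, mul_one]
          exact mul_le_mul' h3 h3
        · have h3 := T2_le (K := K) (N := N) (r := Λ ^ k) z
          rw [T3_far hN (by positivity) hz, T3_far hN (by positivity) (h.neg z ▸ hz), add_zero,
            le_zero_iff] at h3
          rw [h3, zero_mul]
          exact zero_le
    _ ≤ _ := by
        rw [Summable.tsum_finsetSum fun _ _ => ENNReal.summable, Finset.mul_sum, Finset.mul_sum]
        refine Finset.sum_le_sum fun i _ => ?_
        rw [ENNReal.tsum_mul_left]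
        refine (mul_le_mul' le_rfl (h.vhi _ (one_le_pow₀ hΛ))).trans (le_of_eq ?_)
        have e : ofReal (4 * (E * E) * C) * ofReal ((Λ ^ i) ^ (-(2 * α + D))) =
            4 * (ofReal (E * (Λ ^ i) ^ (-(D + α))) * ofReal (E * (Λ ^ i) ^ (-(D + α)))) *
              ofReal (C * (Λ ^ i) ^ D) := by
          rw [← ENNReal.ofReal_ofNat 4, ← ENNReal.ofReal_mul (by positivity),
            ← ENNReal.ofReal_mul (by positivity), ← ENNReal.ofReal_mul (by positivity),
            ← ENNReal.ofReal_mul (by positivity),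
            show -(2 * α + D) = -(D + α) + -(D + α) + D by ring, Real.rpow_add (by positivity),
            Real.rpow_add (by positivity)]
          congr 1
          ring
        calc _ = QQ K N (Λ ^ k) * QQ K N (Λ ^ k) * (QQ K N (Λ ^ i) * QQ K N (Λ ^ i)) *
              (4 * (ofReal (E * (Λ ^ i) ^ (-(D + α))) * ofReal (E * (Λ ^ i) ^ (-(D + α)))) *
                ofReal (C * (Λ ^ i) ^ D)) := by simp only [Y]; ring
          _ = _ := by rw [← e]; ring

/-- the effective coupling at scale `Λ ^ k` -/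
noncomputable def uu (K : Γ → ℝ≥0∞) (N : Γ → ℝ) (e Λ : ℝ) (k : ℕ) : ℝ :=
  (QQ K N (Λ ^ k)).toReal * (QQ K N (Λ ^ k)).toReal * (Λ ^ k) ^ (-e)

theorem QQ_ne_top (h : Ker N K D α c C) (hc : Crit K) (hN : UL N) {r : ℝ} (hr : 1 ≤ r) :
    QQ K N r ≠ ⊤ := by
  obtain ⟨A, -, hA⟩ := QQ_le h hc hN
  exact ne_top_of_le_ne_top ENNReal.ofReal_ne_top (QQ_le_XX.trans (hA r r hr))

theorem uu_pos (h : Ker N K D α c C) (hc : Crit K) (hN : UL N) {Λ : ℝ} (hΛ : 1 ≤ Λ) (e : ℝ)
    (k : ℕ) : 0 < uu K N e Λ k := by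
  have h1 := ENNReal.toReal_pos (one_pos.trans_le (one_le_QQ K N (Λ ^ k))).ne'
    (QQ_ne_top h hc hN (one_le_pow₀ hΛ (n := k)))
  have h2 := one_pos.trans_le hΛ
  unfold uu
  positivity

theorem Sig_ge (h : Ker N K D α c C) (hc : Crit K) (hN : UL N) {Λ : ℝ} (hΛ : 1 ≤ Λ) :
    ∃ B : ℝ, 0 < B ∧ ∀ k : ℕ, ofReal ((QQ K N (Λ ^ k)).toReal * (QQ K N (Λ ^ k)).toReal /
      (B * ∑ i ∈ Finset.range (k + 1), uu K N (2 * α + D) Λ i)) ≤ Sig K N (Λ ^ k) := by
  obtain ⟨B, hB, hB'⟩ := E2_le h hc hN hΛ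
  refine ⟨4 * B, by positivity, fun k => ?_⟩
  have hΛ0 := one_pos.trans_le hΛ
  have hq : ∀ i : ℕ, QQ K N (Λ ^ i) = ofReal (QQ K N (Λ ^ i)).toReal := fun i =>
    (ENNReal.ofReal_toReal (QQ_ne_top h hc hN (one_le_pow₀ hΛ))).symm
  have e : ∑ i ∈ Finset.range (k + 1), QQ K N (Λ ^ i) * QQ K N (Λ ^ i) *
      ofReal ((Λ ^ i) ^ (-(2 * α + D))) =
        ofReal (∑ i ∈ Finset.range (k + 1), uu K N (2 * α + D) Λ i) := by
    rw [ENNReal.ofReal_sum_of_nonneg fun i _ => (uu_pos h hc hN hΛ _ i).le]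
    refine Finset.sum_congr rfl fun i _ => ?_
    rw [uu, ENNReal.ofReal_mul (by positivity), ENNReal.ofReal_mul (by positivity), ← hq]
  have hS : 0 < ∑ i ∈ Finset.range (k + 1), uu K N (2 * α + D) Λ i :=
    Finset.sum_pos (fun i _ => uu_pos h hc hN hΛ _ i) ⟨0, by simp⟩
  have h1 := hB' k
  rw [e] at h1
  set S := ∑ i ∈ Finset.range (k + 1), uu K N (2 * α + D) Λ i
  have hl : 0 < 2 * B * S := by positivity
  have h2 := (second_moment (K := K) (N := N) (r := Λ ^ k) (ofReal (2 * B * S))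
    (ENNReal.ofReal_pos.2 hl).ne' ENNReal.ofReal_ne_top).trans
      (add_le_add le_rfl (mul_le_mul' le_rfl h1))
  rw [hq k] at h2
  have hq0 : 0 ≤ (QQ K N (Λ ^ k)).toReal := ENNReal.toReal_nonneg
  set q := (QQ K N (Λ ^ k)).toReal
  rw [← ENNReal.ofReal_inv_of_pos hl, ← ENNReal.ofReal_mul hq0, ← ENNReal.ofReal_mul hB.le,
    ← ENNReal.ofReal_mul (by positivity), ← ENNReal.ofReal_mul (by positivity),
    show (2 * B * S)⁻¹ * (q * q * (B * S)) = q * q / 2 by field_simp,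
    show q * q = q * q / 2 + q * q / 2 by ring, ENNReal.ofReal_add (by positivity) (by positivity),
    show (q * q / 2 + q * q / 2) / 2 = q * q / 2 by ring,
    ENNReal.add_le_add_iff_right ENNReal.ofReal_ne_top] at h2
  refine le_trans (le_of_eq ?_) ((mul_le_mul' (le_refl (ofReal (2 * B * S)⁻¹)) h2).trans
    (le_of_eq ?_))
  · rw [← ENNReal.ofReal_mul (by positivity)]
    congr 1
    field_simp
    ring
  · rw [← mul_assoc, ← ENNReal.ofReal_mul (by positivity), inv_mul_cancel₀ hl.ne',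
      ENNReal.ofReal_one, one_mul]

theorem drop_step (h : Ker N K D α c C) (hc : Crit K) (hN : UL N) :
    ∃ Λ a : ℝ, 2 ≤ Λ ∧ 0 < a ∧ ∀ (k : ℕ) (R : ℝ), Λ * Λ ^ (k + 1) ≤ R →
      XX K N (Λ ^ (k + 1)) R + ofReal (a * (uu K N (2 * α + D) Λ k /
        ∑ i ∈ Finset.range (k + 1), uu K N (2 * α + D) Λ i)) * XX K N (Λ ^ k) R ≤
          XX K N (Λ ^ k) R := by
  obtain ⟨L, hL, hL'⟩ := h.toGeo.ann_count
  obtain ⟨M, κ, hM, hκ, hM'⟩ := ZZ_bound h hc hN
  obtain ⟨A, hA, hA'⟩ := arm_bound h hc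
  set Λ := max 2 (max L M) with hΛ
  have h2 : 2 ≤ Λ := le_max_left _ _
  have h1 : 1 ≤ Λ := one_le_two.trans h2
  have h0 : 0 < Λ := one_pos.trans_le h1
  obtain ⟨B, hB, hB'⟩ := Sig_ge h hc hN h1
  have hc0 := h.c_pos
  refine ⟨Λ, (c * Λ ^ (-(D + α))) ^ 2 / B * (κ * Λ ^ (-α) / A) ^ 2, h2, by positivity,
    fun k R hR => ?_⟩
  have hr : 1 ≤ Λ ^ k := one_le_pow₀ h1
  have hS : 0 < ∑ i ∈ Finset.range (k + 1), uu K N (2 * α + D) Λ i :=
    Finset.sum_pos (fun i _ => uu_pos h hc hN h1 _ i) ⟨0, by simp⟩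
  have h3 := hB' k
  rw [pow_succ'] at hR ⊢
  rw [uu]
  have hq0 : 0 ≤ (QQ K N (Λ ^ k)).toReal := ENNReal.toReal_nonneg
  set q := (QQ K N (Λ ^ k)).toReal
  set S := ∑ i ∈ Finset.range (k + 1), uu K N (2 * α + D) Λ i
  set r := Λ ^ k
  have hr0 : 0 < r := one_pos.trans_le hr
  have hrr : r ≤ Λ * r := le_mul_of_one_le_left hr0.le h1
  have hrR : Λ * r ≤ R := (le_mul_of_one_le_left (by positivity) h1).trans hR
  have h4 := drop_le (K := K) hN hr0.le hrr hrR fun x hx => le_trans (mul_le_mul' le_rfl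
    (mul_le_mul' ((hL' r hr).trans (ENNReal.tsum_le_tsum fun s => ind_mono fun hs =>
      ⟨hs.1, hs.2.trans (mul_le_mul_of_nonneg_right ((le_max_left _ _).trans (le_max_right _ _))
        hr0.le)⟩)) h3)) (II_ge hN hr0.le hrr (k := ofReal (c * (Λ * r) ^ (-(D + α))))
          (fun s hs hs' => le_trans (ENNReal.ofReal_le_ofReal (mul_le_mul_of_nonneg_left
            (Real.rpow_le_rpow_of_nonpos (hr0.trans hs) hs' (by linarith [h.D_pos, h.α_pos]))
              hc0.le)) (h.klo s fun h5 => by rw [h5, h.zero] at hs; linarith)) hx)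
  have h5 := hM' (Λ * r) R (hr.trans hrr) (le_trans (mul_le_mul_of_nonneg_right
    ((le_max_right _ _).trans (le_max_right _ _)) (by positivity)) hR)
  have h6 : arm K N r R ≤ ofReal (A * r ^ (-α)) * mm K N R := by
    refine le_trans ?_ (hA' r R hr0 (hrr.trans hrR))
    rw [mm_eq hN (by linarith)]
    exact arm_le
  have h7 : ofReal (κ * Λ ^ (-α) / A) * arm K N r R ≤ ZZ K N (Λ * r) R := by
    refine (mul_le_mul' le_rfl h6).trans (le_trans (le_of_eq ?_) h5)
    rw [← mul_assoc, ← ENNReal.ofReal_mul (by positivity), Real.mul_rpow h0.le hr0.le]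
    congr 2
    field_simp
  refine le_trans (add_le_add le_rfl ?_) h4
  refine (mul_le_mul' le_rfl XX_le).trans (le_trans (le_of_eq ?_)
    (mul_le_mul' le_rfl (mul_le_mul' h7 h7)))
  have e : ofReal ((c * Λ ^ (-(D + α))) ^ 2 / B * (κ * Λ ^ (-α) / A) ^ 2 *
      (q * q * r ^ (-(2 * α + D)) / S)) = ofReal (c * (Λ * r) ^ (-(D + α))) *
        ofReal (c * (Λ * r) ^ (-(D + α))) * (ofReal (r ^ D) * ofReal (q * q / (B * S))) *
          (ofReal (κ * Λ ^ (-α) / A) * ofReal (κ * Λ ^ (-α) / A)) := by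
    rw [← ENNReal.ofReal_mul (by positivity), ← ENNReal.ofReal_mul (by positivity),
      ← ENNReal.ofReal_mul (by positivity), ← ENNReal.ofReal_mul (by positivity),
      ← ENNReal.ofReal_mul (by positivity), Real.mul_rpow h0.le hr0.le,
      show -(2 * α + D) = -(D + α) + -(D + α) + D by ring, Real.rpow_add hr0, Real.rpow_add hr0]
    congr 1
    field_simp
  rw [e]
  ring

theorem prod_drop {x u : ℕ → ℝ} {a M : ℝ} (ha : 0 < a) (hM : 0 < M) (hu : ∀ k, 0 < u k)
    (hM' : ∀ k, u (k + 1) ≤ M * u k) (hx : ∀ k, 0 ≤ x k) (n : ℕ) (hrec : ∀ k < n,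
      x (k + 1) + a * (u k / ∑ i ∈ Finset.range (k + 1), u i) * x k ≤ x k) :
    x n * (∑ i ∈ Finset.range (n + 1), u i) ^ (a / M) ≤ x 0 * u 0 ^ (a / M) := by
  induction n with
  | zero => simp
  | succ n ih =>
    refine le_trans ?_ (ih fun k hk => hrec k (by omega))
    have h1 := hrec n (by omega)
    have hS : 0 < ∑ i ∈ Finset.range (n + 1), u i := Finset.sum_pos (fun i _ => hu i) ⟨0, by simp⟩
    rw [Finset.sum_range_succ _ (n + 1)]
    set S := ∑ i ∈ Finset.range (n + 1), u i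
    have h2 : x (n + 1) ≤ x n * Real.exp (-(a * (u n / S))) := by
      nlinarith [mul_le_mul_of_nonneg_left (Real.add_one_le_exp (-(a * (u n / S)))) (hx n)]
    have h3 : S + u (n + 1) ≤ S * Real.exp (M * (u n / S)) := by
      refine le_trans ?_ (mul_le_mul_of_nonneg_left (Real.add_one_le_exp _) hS.le)
      rw [mul_add, mul_left_comm, mul_div_cancel₀ _ hS.ne']
      linarith [hM' n]
    refine (mul_le_mul h2 (Real.rpow_le_rpow (add_pos hS (hu _)).le h3 (by positivity))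
      (Real.rpow_nonneg (add_pos hS (hu _)).le _) (mul_nonneg (hx n) (Real.exp_pos _).le)).trans
        (le_of_eq ?_)
    rw [Real.mul_rpow hS.le (Real.exp_pos _).le, ← Real.exp_mul, Real.exp_neg,
      show M * (u n / S) * (a / M) = a * (u n / S) by field_simp]
    field_simp

theorem QQ_step (h : Ker N K D α c C) (hc : Crit K) (hN : UL N) {Λ : ℝ} (hΛ : 1 ≤ Λ) :
    ∃ G : ℝ, 0 < G ∧ ∀ r, 1 ≤ r → QQ K N (Λ * r) ≤ QQ K N r * ofReal G := by
  obtain ⟨B, hB, hB'⟩ := arm_bound h hc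
  obtain ⟨A, hA, hA'⟩ := stepA h hc
  have h0 := one_pos.trans_le hΛ
  refine ⟨B * A * Λ ^ α * (B * A * Λ ^ α), by positivity, fun r hr => ?_⟩
  have hr0 := one_pos.trans_le hr
  have hrr : r ≤ Λ * r := le_mul_of_one_le_left hr0.le hΛ
  have h1 : arm K N r (Λ * r) ≤ ofReal (B * A * Λ ^ α) := by
    refine arm_le.trans (le_trans ?_ ((hB' r _ hr0 hrr).trans
      ((mul_le_mul' le_rfl (hA' _ (hr.trans hrr))).trans (le_of_eq ?_))))
    · rw [mm_eq hN (by positivity)]
    · rw [← ENNReal.ofReal_mul (by positivity), Real.mul_rpow h0.le hr0.le, Real.rpow_neg hr0.le]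
      congr 1
      field_simp
  rw [ENNReal.ofReal_mul (by positivity)]
  exact QQ_le_XX.trans ((XX_anti hrr).trans (XX_le.trans
    (mul_le_mul' XX_le_QQ (mul_le_mul' h1 h1))))

theorem QQ_poly (h : Ker N K D α c C) (hc : Crit K) (hN : UL N) (hD : D < 2 * α) :
    ∃ θ B : ℝ, α < θ ∧ θ < 2 * α ∧ 0 < B ∧ ∀ R, 1 ≤ R → QQ K N R ≤ ofReal (B * R ^ θ) := by
  obtain ⟨Λ, a, h2, ha, hrec⟩ := drop_step h hc hN
  have h1 : 1 ≤ Λ := one_le_two.trans h2
  have h0 := one_pos.trans_le h1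
  obtain ⟨G, hG, hG'⟩ := QQ_step h hc hN h1
  obtain ⟨A, hA, hA'⟩ := QQ_le h hc hN
  have hα := h.α_pos
  have hD0 := h.D_pos
  have hq : ∀ k : ℕ, QQ K N (Λ ^ k) ≠ ⊤ := fun k => QQ_ne_top h hc hN (one_le_pow₀ h1)
  have hu := uu_pos h hc hN h1 (2 * α + D)
  have hM : ∀ k, uu K N (2 * α + D) Λ (k + 1) ≤ G * G * uu K N (2 * α + D) Λ k := fun k => by
    have h3 := ENNReal.toReal_mono (ENNReal.mul_ne_top (hq k) ENNReal.ofReal_ne_top)
      (hG' _ (one_le_pow₀ h1 (n := k)))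
    rw [ENNReal.toReal_mul, ENNReal.toReal_ofReal hG.le, ← pow_succ'] at h3
    refine (mul_le_mul (mul_le_mul h3 h3 ENNReal.toReal_nonneg (by positivity))
      (Real.rpow_le_rpow_of_nonpos (by positivity) (pow_le_pow_right₀ h1 k.le_succ) (by linarith))
      (by positivity) (by positivity)).trans (le_of_eq ?_)
    rw [uu]
    ring
  set b := a / (G * G) with hb
  have hb0 : 0 < b := by positivity
  set θ := (2 * α + (2 * α + D) * b) / (1 + 2 * b) with hθ
  set E := (A * Λ ^ α * (A * Λ ^ α) * uu K N (2 * α + D) Λ 0 ^ b) ^ (1 + 2 * b)⁻¹ with hE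
  have hE0 : 0 < E := by have := hu 0; positivity
  have key : ∀ n : ℕ, (QQ K N (Λ ^ n)).toReal ≤ E * (Λ ^ n) ^ θ := fun n => by
    have hx : ∀ k : ℕ, XX K N (Λ ^ k) (Λ ^ (n + 1)) ≠ ⊤ := fun k =>
      ne_top_of_le_ne_top ENNReal.ofReal_ne_top (hA' _ _ (one_le_pow₀ h1))
    have h3 := prod_drop (x := fun k => (XX K N (Λ ^ k) (Λ ^ (n + 1))).toReal) ha
      (mul_pos hG hG) hu hM (fun _ => ENNReal.toReal_nonneg) n fun k hk => by
        have h4 := ENNReal.toReal_mono (hx k) (hrec k (Λ ^ (n + 1))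
          (by rw [← pow_succ']; exact pow_le_pow_right₀ h1 (by omega)))
        rwa [ENNReal.toReal_add (hx _) (ENNReal.mul_ne_top ENNReal.ofReal_ne_top (hx _)),
          ENNReal.toReal_mul, ENNReal.toReal_ofReal (mul_nonneg ha.le (div_nonneg (hu _).le
            (Finset.sum_nonneg fun i _ => (hu i).le)))] at h4
    have h4 : (QQ K N (Λ ^ n)).toReal ≤ (XX K N (Λ ^ n) (Λ ^ (n + 1))).toReal :=
      ENNReal.toReal_mono (hx n) ((QQ_mono (pow_le_pow_right₀ h1 n.le_succ)).trans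
        (QQ_le_XX.trans (XX_anti (pow_le_pow_right₀ h1 n.le_succ))))
    have h5 := ENNReal.toReal_le_of_le_ofReal (by positivity)
      (hA' (Λ ^ 0) _ (one_le_pow₀ h1 (n := n + 1)))
    have h6 := ((mul_le_mul h4 (Real.rpow_le_rpow (hu n).le (Finset.single_le_sum
      (fun i _ => (hu i).le) (Finset.self_mem_range_succ n)) hb0.le)
        (Real.rpow_nonneg (hu n).le _) ENNReal.toReal_nonneg).trans h3).trans
          (mul_le_mul_of_nonneg_right h5 (Real.rpow_nonneg (hu 0).le _))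
    have hq0 := ENNReal.toReal_pos (one_pos.trans_le (one_le_QQ K N (Λ ^ n))).ne' (hq n)
    have hr : 0 < Λ ^ n := by positivity
    rw [uu, pow_succ'] at h6
    set q := (QQ K N (Λ ^ n)).toReal
    set r := Λ ^ n
    rw [hE, hθ, div_eq_mul_inv, Real.rpow_mul hr.le,
      ← Real.mul_rpow (by have := hu 0; positivity) (by positivity),
      Real.le_rpow_inv_iff_of_pos hq0.le (by have := hu 0; positivity) (by positivity),
      two_mul b, two_mul α, Real.rpow_add hq0, Real.rpow_add hq0, Real.rpow_add hr,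
      Real.rpow_add hr, Real.rpow_one, ← two_mul α]
    rw [Real.mul_rpow (by positivity) (by positivity), Real.mul_rpow hq0.le hq0.le,
      ← Real.rpow_mul hr.le, neg_mul, Real.rpow_neg hr.le, Real.mul_rpow h0.le hr.le,
      ← mul_assoc, ← div_eq_mul_inv, div_le_iff₀ (by positivity)] at h6
    refine h6.trans (le_of_eq ?_)
    ring
  refine ⟨max θ (3 / 2 * α), E * Λ ^ θ, lt_max_of_lt_right (by linarith), max_lt ?_ (by linarith),
    by positivity, fun R hR => ?_⟩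
  · rw [hθ, div_lt_iff₀ (by positivity)]
    nlinarith
  obtain ⟨k, hk⟩ := pow_unbounded_of_one_lt R (one_lt_two.trans_le h2)
  obtain ⟨i, -, h3, h4⟩ := exists_scale h1 hR hk.le
  have hR0 := one_pos.trans_le hR
  refine (QQ_mono h3).trans ((ENNReal.le_ofReal_iff_toReal_le (hq i) (by positivity)).2
    ((key i).trans ?_))
  rw [mul_assoc]
  refine mul_le_mul_of_nonneg_left ((Real.rpow_le_rpow (by positivity) h4 (by positivity)).trans ?_)
    hE0.le
  rw [Real.mul_rpow h0.le hR0.le]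
  exact mul_le_mul_of_nonneg_left (Real.rpow_le_rpow_of_exponent_le hR (le_max_left _ _))
    (by positivity)

theorem mm_le_QQ (K : Γ → ℝ≥0∞) (N : Γ → ℝ) (R : ℝ) (n : ℕ) :
    n * ∑' l, Ws K N R l ≤ n * ∑ k ∈ Finset.range n, aa K k + QQ K N R := by
  have h1 : ∑' l, Ws K N R l * l.length ≤ QQ K N R := by
    simp only [← tsum_ind_lt, tsum_dep]
    refine tsum_ge_of_inj _ _ (fun p => (p.1, p.1.take p.2)) ?_ fun p _ => ?_
    · rintro ⟨l, i⟩ ⟨l', j⟩ h h' e
      have h2 : i < l.length := of_ind_ne (right_ne_zero_of_mul h)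
      have h3 : j < l'.length := of_ind_ne (right_ne_zero_of_mul h')
      simp only [Prod.mk.injEq] at e
      obtain ⟨rfl, e⟩ := e
      have := congrArg List.length e
      rw [List.length_take, List.length_take] at this
      rw [show i = j by omega]
    · exact mul_le_mul' le_rfl (ind_mono fun _ => List.take_prefix _ _)
  refine le_trans ?_ (add_le_add le_rfl h1)
  simp only [aa]
  rw [← Summable.tsum_finsetSum fun _ _ => ENNReal.summable, ← ENNReal.tsum_mul_left,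
    ← ENNReal.tsum_mul_left, ← ENNReal.tsum_add]
  refine ENNReal.tsum_le_tsum fun l => ?_
  rcases lt_or_ge l.length n with hl | hl
  · refine le_trans (mul_le_mul' le_rfl (le_trans ?_ (Finset.single_le_sum (fun _ _ => zero_le)
      (Finset.mem_range.2 hl)))) le_self_add
    rw [ind_pos rfl, mul_one]
    exact mul_ind_le _ _
  · rw [mul_comm]
    exact (mul_le_mul' le_rfl (Nat.cast_le.2 hl)).trans le_add_self

theorem aa_lower (h : Ker N K D α c C) (hc : Crit K) (hN : UL N) (hD : D < 2 * α) :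
    ∃ δ a : ℝ, 0 < δ ∧ 0 < a ∧ ∀ n : ℕ,
      a * (n : ℝ) ^ (1 + δ) ≤ ∑ k ∈ Finset.range n, (aa K k).toReal := by
  obtain ⟨θ, B, h1, h2, hB, hB'⟩ := QQ_poly h hc hN hD
  obtain ⟨a, ha, ha'⟩ := stepB h hc
  have hθ := sub_pos.2 h1
  have hδ : 0 < (θ - α)⁻¹ * α - 1 := by
    rw [sub_pos, ← div_eq_inv_mul, one_lt_div hθ]; linarith
  set δ := (θ - α)⁻¹ * α - 1 with hδ'
  refine ⟨δ, min (a / 2 * (a / (2 * B)) ^ (1 + δ)) ((a / (2 * B)) ^ δ), hδ, by positivity,
    fun n => ?_⟩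
  rcases n.eq_zero_or_pos with rfl | hn
  · simp [Real.zero_rpow (by linarith : 1 + δ ≠ 0)]
  have hn0 : (0 : ℝ) < n := by exact_mod_cast hn
  have hs : ∑ k ∈ Finset.range n, aa K k ≠ ⊤ :=
    ENNReal.sum_ne_top.2 fun k _ => hc.aa_ne_top k
  rcases le_total (a / (2 * B) * n) 1 with h3 | h3
  · have h4 := Finset.card_nsmul_le_sum (Finset.range n) (fun k => (aa K k).toReal) 1 fun k _ => by
      simpa using ENNReal.toReal_mono (hc.aa_ne_top k) (hc.one_le k)
    rw [Finset.card_range, nsmul_eq_mul, mul_one] at h4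
    refine (mul_le_mul_of_nonneg_right (min_le_right _ _) (by positivity)).trans (le_trans ?_ h4)
    rw [Real.rpow_add hn0, Real.rpow_one, mul_left_comm, ← Real.mul_rpow (by positivity) hn0.le]
    exact mul_le_of_le_one_right hn0.le (Real.rpow_le_one (by positivity) h3 hδ.le)
  set R := (a / (2 * B) * n) ^ (θ - α)⁻¹ with hR
  have hR1 : 1 ≤ R := Real.one_le_rpow h3 (by positivity)
  have hR0 := one_pos.trans_le hR1
  have h4 := ENNReal.toReal_mono (ENNReal.add_ne_top.2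
    ⟨ENNReal.mul_ne_top (ENNReal.natCast_ne_top n) hs, ENNReal.ofReal_ne_top⟩)
      (((mul_le_mul' le_rfl (mm_eq hN hR0.le K ▸ ha' R hR0)).trans (mm_le_QQ K N R n)).trans
        (add_le_add le_rfl (hB' R hR1)))
  rw [ENNReal.toReal_add (ENNReal.mul_ne_top (ENNReal.natCast_ne_top n) hs) ENNReal.ofReal_ne_top,
    ENNReal.toReal_mul, ENNReal.toReal_mul, ENNReal.toReal_natCast,
    ENNReal.toReal_ofReal (by positivity), ENNReal.toReal_ofReal (by positivity),
    ENNReal.toReal_sum fun k _ => hc.aa_ne_top k] at h4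
  have h5 : B * R ^ θ = n * (a / 2 * R ^ α) := by
    rw [← add_sub_cancel α θ, Real.rpow_add hR0, hR, Real.rpow_inv_rpow (by positivity) hθ.ne']
    field_simp
  refine (mul_le_mul_of_nonneg_right (min_le_left _ _) (by positivity)).trans ?_
  rw [mul_assoc, ← Real.mul_rpow (by positivity) hn0.le, hδ', add_sub_cancel,
    Real.rpow_mul (by positivity), ← hR]
  refine le_of_mul_le_mul_left ?_ hn0
  linarith

end Pool.Agent.Lib.LRS
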