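import Pool.Agent.Lib.LRS.Ultra5

/-! Upper bound on the growth of `c_n / μ ^ n` when the bubble diverges. -/

namespace Pool.Agent.Lib.LRS

open scoped ENNReal
open ENNReal (ofReal)

theorem blowup' (h : ℝ → ℝ) {b σ : ℝ} (hb : 0 < b) (hσ : 0 < σ)
    (h0 : ∀ s, 0 < s → s < 1 → 0 < h s)
    (hrec : ∀ s s', 0 < s → s ≤ s' → s' < 1 → h s * b + (s' - s) * (h s * h s ^ σ) ≤ h s' * b)
    {s : ℝ} (hs : 0 < s) (hs1 : s < 1) : h s ^ σ * (1 - s) ≤ b / (1 - 2⁻¹ ^ σ) := by
  by_contra hcon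
  have hρ0 : (0 : ℝ) < 2⁻¹ ^ σ := by positivity
  have hρ1 : 0 < 1 - (2⁻¹ : ℝ) ^ σ :=
    sub_pos.2 (Real.rpow_lt_one (by norm_num) (by norm_num) hσ)
  have hρ : ∀ k : ℕ, ((2⁻¹ : ℝ) ^ σ) ^ k * (2 ^ k) ^ σ = 1 := fun k => by
    rw [← Real.rpow_pow_comm zero_le_two, ← mul_pow, ← Real.mul_rpow (by norm_num) zero_le_two,
      inv_mul_cancel₀ two_ne_zero, Real.one_rpow, one_pow]
  set ρ : ℝ := 2⁻¹ ^ σ
  have hh := h0 s hs hs1
  set δ := b / (1 - ρ) / h s ^ σ with hδ
  have hδ0 : 0 < δ := by positivity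
  have h1 : s + δ < 1 := by
    rw [hδ, ← lt_sub_iff_add_lt', div_lt_iff₀' (by positivity)]; exact not_le.1 hcon
  have hk : ∀ k : ℕ, 0 < s + δ * (1 - ρ ^ k) ∧ s + δ * (1 - ρ ^ k) ≤ s + δ := fun k => by
    have h2 := pow_pos hρ0 k
    have h3 := pow_le_one₀ hρ0.le (sub_pos.1 hρ1).le (n := k)
    constructor <;> nlinarith
  have key : ∀ k : ℕ, 2 ^ k * h s ≤ h (s + δ * (1 - ρ ^ k)) := by
    intro k
    induction k with
    | zero => simp
    | succ k ih =>
      have h3 : s + δ * (1 - ρ ^ (k + 1)) - (s + δ * (1 - ρ ^ k)) = b * ρ ^ k / h s ^ σ := by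
        rw [hδ, pow_succ]; field_simp; ring
      have h2 := hrec (s + δ * (1 - ρ ^ k)) (s + δ * (1 - ρ ^ (k + 1))) (hk k).1
        (sub_nonneg.1 (by rw [h3]; positivity)) ((hk _).2.trans_lt h1)
      rw [h3] at h2
      have h4 := Real.rpow_le_rpow (by positivity) ih hσ.le
      have h5 := h0 _ (hk k).1 ((hk _).2.trans_lt h1)
      set x := h (s + δ * (1 - ρ ^ k))
      have h6 : x * b ≤ b * ρ ^ k / h s ^ σ * (x * x ^ σ) := by
        refine le_trans (le_of_eq ?_) (mul_le_mul_of_nonneg_left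
          (mul_le_mul_of_nonneg_left h4 h5.le) (by positivity))
        rw [Real.mul_rpow (by positivity) hh.le]
        calc x * b = x * b * (ρ ^ k * (2 ^ k) ^ σ) := by rw [hρ, mul_one]
          _ = _ := by field_simp
      refine le_of_mul_le_mul_right ?_ hb
      rw [pow_succ]
      nlinarith [mul_le_mul_of_nonneg_right ih hb.le]
  obtain ⟨k, hk'⟩ := pow_unbounded_of_one_lt (h (s + δ) / h s) (one_lt_two (α := ℝ))
  rw [div_lt_iff₀ hh] at hk'
  have h2 := hrec _ (s + δ) (hk k).1 (hk k).2 h1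
  have h5 := h0 _ (hk k).1 ((hk _).2.trans_lt h1)
  have h4 := le_of_mul_le_mul_right (le_trans (le_add_of_nonneg_right
    (mul_nonneg (sub_nonneg.2 (hk k).2) (by positivity))) h2) hb
  linarith [key k]

variable {Γ : Type} [AddCommGroup Γ] {N : Γ → ℝ} {K : Γ → ℝ≥0∞} {D α c C : ℝ}

theorem one_le_chi (K : Γ → ℝ≥0∞) : 1 ≤ chi K :=
  le_trans (W_nil K).ge (ENNReal.le_tsum ([] : List Γ))

theorem sum_le_of_bubble (hc : Crit K) {b σ : ℝ} (hb : 0 < b) (hσ : 0 < σ)
    (hB : ∀ s, 0 < s → s < 1 → ∑' z, GG (fun x => ofReal s * K x) (-z) *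
      GG (fun x => ofReal s * K x) z ≤
        ofReal (b * (chi fun x => ofReal s * K x).toReal ^ (1 - σ))) :
    ∃ A : ℝ, 0 < A ∧ ∀ n : ℕ, ∑ k ∈ Finset.range n, (aa K k).toReal ≤ A * (n : ℝ) ^ σ⁻¹ := by
  let H : ℝ → ℝ≥0∞ := fun s => ofReal s * chi fun x => ofReal s * K x
  have hH : ∀ s, 0 < s → s < 1 → H s ≠ ⊤ := fun s h1 h2 =>
    ENNReal.mul_ne_top ENNReal.ofReal_ne_top (hc.sub s h1 h2)
  have hH0 : ∀ s, 0 < s → s < 1 → 0 < (H s).toReal := fun s h1 h2 => ENNReal.toReal_pos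
    (mul_ne_zero (ENNReal.ofReal_pos.2 h1).ne' (one_pos.trans_le (one_le_chi _)).ne') (hH s h1 h2)
  have hrec : ∀ s s', 0 < s → s ≤ s' → s' < 1 →
      (H s).toReal * b + (s' - s) * ((H s).toReal * (H s).toReal ^ σ) ≤ (H s').toReal * b := by
    intro s s' hs hss hs'
    have hs1 : ofReal s ≤ 1 := ENNReal.ofReal_le_one.2 (hss.trans hs'.le)
    have h1 : H s + ofReal (s' - s) * ∑' l, W (fun x => ofReal s * K x) l * (l.length + 1 : ℕ) ≤
        H s' := by
      simp only [H, chi, W_smul, ← ENNReal.tsum_mul_left, ← ENNReal.tsum_add]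
      refine ENNReal.tsum_le_tsum fun l => ?_
      have h2 := ENNReal.ofReal_le_ofReal (pow_conv hs.le hss l.length)
      rw [ENNReal.ofReal_add (by positivity) (mul_nonneg (sub_nonneg.2 hss) (by positivity)),
        ENNReal.ofReal_mul (sub_nonneg.2 hss), ENNReal.ofReal_mul (by positivity),
        ENNReal.ofReal_pow hs.le, ENNReal.ofReal_pow hs.le, ENNReal.ofReal_pow (hs.le.trans hss),
        ← Nat.cast_succ, ENNReal.ofReal_natCast] at h2
      refine le_trans (le_of_eq ?_) ((mul_le_mul' h2 (le_refl (W K l))).trans (le_of_eq ?_)) <;> ring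
    have h4 := hH s hs (hss.trans_lt hs')
    have h6 := hH0 s hs (hss.trans_lt hs')
    have h2 : ofReal ((H s).toReal * (H s).toReal ^ σ) ≤
        (∑' l, W (fun x => ofReal s * K x) l * (l.length + 1 : ℕ)) * ofReal b := by
      have h7 := hc.sub s hs (hss.trans_lt hs')
      have h8 := (bubble_le _).trans (mul_le_mul' le_rfl (hB s hs (hss.trans_lt hs')))
      have h9 : (H s).toReal ≤ (chi fun x => ofReal s * K x).toReal :=
        ENNReal.toReal_mono h7 (mul_le_of_le_one_left' hs1)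
      rw [← ENNReal.ofReal_toReal h7, ENNReal.toReal_ofReal ENNReal.toReal_nonneg] at h8
      have h10 := h6.trans_le h9
      set x := (chi fun x => ofReal s * K x).toReal
      refine (ENNReal.ofReal_le_ofReal (mul_le_mul h9 (Real.rpow_le_rpow h6.le h9 hσ.le)
        (by positivity) h10.le)).trans ((ENNReal.mul_le_mul_iff_left (ENNReal.ofReal_pos.2
          (Real.rpow_pos_of_pos h10 (1 - σ))).ne' ENNReal.ofReal_ne_top).1 ?_)
      rw [mul_assoc, ← ENNReal.ofReal_mul hb.le, ← ENNReal.ofReal_mul (by positivity), mul_assoc,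
        ← Real.rpow_add h10, add_sub_cancel, Real.rpow_one, ENNReal.ofReal_mul h10.le]
      exact h8
    have h3 : H s * ofReal b + ofReal (s' - s) * ofReal ((H s).toReal * (H s).toReal ^ σ) ≤
        H s' * ofReal b := by
      refine le_trans ?_ (mul_le_mul' h1 le_rfl)
      rw [add_mul, mul_assoc (ofReal (s' - s))]
      exact add_le_add le_rfl (mul_le_mul' le_rfl h2)
    have h5 := ENNReal.toReal_mono
      (ENNReal.mul_ne_top (hH s' (hs.trans_le hss) hs') ENNReal.ofReal_ne_top) h3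
    rw [ENNReal.toReal_add (ENNReal.mul_ne_top h4 ENNReal.ofReal_ne_top)
      (ENNReal.mul_ne_top ENNReal.ofReal_ne_top ENNReal.ofReal_ne_top)] at h5
    simpa only [ENNReal.toReal_mul, ENNReal.toReal_ofReal hb.le,
      ENNReal.toReal_ofReal (mul_nonneg h6.le (Real.rpow_nonneg h6.le σ)),
      ENNReal.toReal_ofReal (sub_nonneg.2 hss)] using h5
  have hρ1 : 0 < 1 - (2⁻¹ : ℝ) ^ σ :=
    sub_pos.2 (Real.rpow_lt_one (by norm_num) (by norm_num) hσ)
  refine ⟨2 * (b / (1 - 2⁻¹ ^ σ) * 2) ^ σ⁻¹, by positivity, fun n => ?_⟩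
  rcases n.eq_zero_or_pos with rfl | hn'
  · rw [Finset.sum_range_zero]; positivity
  have hn : (1 : ℝ) ≤ n := by exact_mod_cast hn'
  have hε : (0 : ℝ) < (2 * (n : ℝ))⁻¹ := by positivity
  have hε1 : (n : ℝ) * (2 * (n : ℝ))⁻¹ = 2⁻¹ := by field_simp
  have hε2 : (2 * (n : ℝ))⁻¹ ≤ 2⁻¹ := by nlinarith
  set s : ℝ := 1 - (2 * (n : ℝ))⁻¹ with hs
  have hs0 : 0 < s := by linarith
  have hs1 : s < 1 := by linarith
  have h1 := blowup' (fun s => (H s).toReal) hb hσ hH0 hrec hs0 hs1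
  have h2 : ∑ k ∈ Finset.range n, 2⁻¹ * (aa K k).toReal ≤ (H s).toReal := by
    rw [← ENNReal.ofReal_le_iff_le_toReal (hH s hs0 hs1),
      ENNReal.ofReal_sum_of_nonneg fun _ _ => by positivity]
    simp only [H, chi_smul, ← ENNReal.tsum_mul_left]
    refine le_trans (Finset.sum_le_sum fun k hk => ?_) (ENNReal.sum_le_tsum _)
    rw [ENNReal.ofReal_mul (by norm_num), ENNReal.ofReal_toReal (hc.aa_ne_top k), ← mul_assoc,
      ← pow_succ', ← ENNReal.ofReal_pow hs0.le]
    refine mul_le_mul' (ENNReal.ofReal_le_ofReal (le_trans ?_ (pow_le_pow_of_le_one hs0.le hs1.le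
      (Nat.succ_le_of_lt (Finset.mem_range.1 hk))))) le_rfl
    have := one_add_mul_le_pow (a := -(2 * (n : ℝ))⁻¹) (by linarith) n
    rw [← sub_eq_add_neg, mul_neg, hε1] at this
    linarith
  rw [← Finset.mul_sum, inv_mul_le_iff₀ two_pos] at h2
  refine h2.trans ?_
  rw [mul_assoc, ← Real.mul_rpow (by positivity) (by positivity)]
  refine mul_le_mul_of_nonneg_left ((Real.le_rpow_inv_iff_of_pos (hH0 s hs0 hs1).le
    (by positivity) hσ).2 ?_) zero_le_two
  rw [hs, sub_sub_cancel, ← div_eq_mul_inv, div_le_iff₀ (by positivity)] at h1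
  rwa [mul_assoc]

theorem aa_upper (h : Ker N K D α c C) (hc : Crit K) {u : ℝ} (hu : 0 < u) (hD : 2 * α - D ≤ u) :
    ∃ A : ℝ, 0 < A ∧ ∀ n : ℕ,
      ∑ k ∈ Finset.range n, (aa K k).toReal ≤ A * (n : ℝ) ^ ((u + (D - α)) / (D - α)) := by
  classical
  obtain ⟨A, hA, hA'⟩ := GG_upper h hc
  obtain ⟨B, hB, hB'⟩ := h.shell hu one_pos
  have hd := sub_pos.2 h.α_lt_D
  rw [← inv_div]
  refine sum_le_of_bubble hc (b := 1 + A * A * B + A) (by positivity) (by positivity)
    fun s hs hs1 => ?_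
  have hG : ∀ z, GG (fun x => ofReal s * K x) z ≤ GG K z := fun z => ENNReal.tsum_le_tsum fun l =>
    mul_le_mul' (W_mono fun x _ => mul_le_of_le_one_left' (ENNReal.ofReal_le_one.2 hs1.le)) le_rfl
  have hχ := hc.sub s hs hs1
  have hx : 1 ≤ (chi fun x => ofReal s * K x).toReal := by
    simpa using ENNReal.toReal_mono hχ (one_le_chi _)
  have hs' : ∑' z, GG (fun x => ofReal s * K x) z =
      ofReal (chi fun x => ofReal s * K x).toReal := by
    rw [ENNReal.ofReal_toReal hχ]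
    simpa only [mul_one, chi] using (tsum_by_sum (fun x => ofReal s * K x) fun _ => 1).symm
  set x := (chi fun x => ofReal s * K x).toReal
  have hx0 := one_pos.trans_le hx
  set ξ := x ^ (u + (D - α))⁻¹ with hξ
  have hξ0 : 0 < ξ := by positivity
  have e1 : x ^ (1 - (D - α) / (u + (D - α))) = ξ ^ u := by
    rw [hξ, ← Real.rpow_mul hx0.le]; congr 1; field_simp; ring
  have e2 : ξ ^ (α - D) * x = ξ ^ u := by
    rw [hξ, ← Real.rpow_mul hx0.le, ← Real.rpow_mul hx0.le, ← Real.rpow_add_one hx0.ne']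
    congr 1; field_simp; ring
  calc _ ≤ ∑' z, ((if z = 0 then 1 else 0) + ofReal (A * A * ξ ^ u) * (ind (z ≠ 0) *
        ofReal (N z ^ (-D) * min ((N z / ξ) ^ u) ((N z / ξ) ^ (-1 : ℝ)))) +
          ofReal (A * ξ ^ (α - D)) * GG (fun x => ofReal s * K x) z) := by
        refine ENNReal.tsum_le_tsum fun z => ?_
        by_cases h0 : z = 0
        · rw [if_pos h0, h0, neg_zero, GG_zero, one_mul, add_assoc]; exact le_self_add
        have h3 := h.pos h0
        have h4 := (hG _).trans (hA' _ (neg_ne_zero.2 h0))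
        rw [h.neg] at h4
        rcases le_total (N z) ξ with hz | hz
        · refine le_trans ?_ le_self_add
          rw [if_neg h0, zero_add, ind_pos h0, one_mul, ← ENNReal.ofReal_mul (by positivity),
            min_eq_left (Real.rpow_le_rpow_of_exponent_ge (by positivity)
              ((div_le_one hξ0).2 hz) (by linarith))]
          refine (mul_le_mul' h4 ((hG _).trans (hA' z h0))).trans ?_
          rw [← ENNReal.ofReal_mul (by positivity), mul_mul_mul_comm, ← Real.rpow_add h3,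
            Real.div_rpow h3.le hξ0.le, show A * A * ξ ^ u * (N z ^ (-D) * (N z ^ u / ξ ^ u)) =
              A * A * (N z ^ (-D) * N z ^ u) by field_simp, ← Real.rpow_add h3]
          exact ENNReal.ofReal_le_ofReal (mul_le_mul_of_nonneg_left
            (Real.rpow_le_rpow_of_exponent_le (h.disc z h0) (by linarith)) (by positivity))
        · exact le_trans (mul_le_mul' (h4.trans (ENNReal.ofReal_le_ofReal
            (mul_le_mul_of_nonneg_left (Real.rpow_le_rpow_of_nonpos hξ0 hz (by linarith)) hA.le)))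
              le_rfl) le_add_self
    _ ≤ ofReal (ξ ^ u) + ofReal (A * A * ξ ^ u) * ofReal B + ofReal (A * ξ ^ (α - D)) * ofReal x := by
        rw [ENNReal.tsum_add, ENNReal.tsum_add, tsum_ite_eq, ENNReal.tsum_mul_left,
          ENNReal.tsum_mul_left, hs']
        exact add_le_add (add_le_add (ENNReal.one_le_ofReal.2 (Real.one_le_rpow
          (Real.one_le_rpow hx (by positivity)) hu.le)) (mul_le_mul' le_rfl (hB' ξ hξ0))) le_rfl
    _ = _ := by
        rw [← ENNReal.ofReal_mul (by positivity), ← ENNReal.ofReal_mul (by positivity),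
          ← ENNReal.ofReal_add (by positivity) (by positivity),
          ← ENNReal.ofReal_add (by positivity) (by positivity), mul_assoc A _ x, e1, e2]
        congr 1
        ring

end Pool.Agent.Lib.LRS
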