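import Mathlib

/-! Long-range self-avoiding walk: walks as lists of steps, weights in `ℝ≥0∞`,
first-exit decomposition, joins, splitting. -/

namespace Pool.Agent.Lib.LRS

open scoped ENNReal

/-- indicator of a proposition -/
noncomputable def ind (P : Prop) : ℝ≥0∞ := by classical exact if P then 1 else 0

theorem ind_pos {P : Prop} (h : P) : ind P = 1 := by simp [ind, h]
theorem ind_neg {P : Prop} (h : ¬ P) : ind P = 0 := by simp [ind, h]
theorem ind_le_one (P : Prop) : ind P ≤ 1 := by
  by_cases h : P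
  · rw [ind_pos h]
  · rw [ind_neg h]; exact zero_le
theorem ind_mono {P Q : Prop} (h : P → Q) : ind P ≤ ind Q := by
  by_cases hP : P
  · rw [ind_pos hP, ind_pos (h hP)]
  · rw [ind_neg hP]; exact zero_le
theorem of_ind_ne {P : Prop} (h : ind P ≠ 0) : P := by
  by_contra hP; exact h (ind_neg hP)
theorem mul_ind_le (x : ℝ≥0∞) (P : Prop) : x * ind P ≤ x := by
  simpa using mul_le_mul_right (ind_le_one P) x
theorem ind_add_not (P : Prop) : ind P + ind (¬ P) = 1 := by
  by_cases h : P
  · rw [ind_pos h, ind_neg (not_not.2 h), add_zero]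
  · rw [ind_neg h, ind_pos h, zero_add]

theorem tsum_ge_of_inj {α β : Type*} (g : β → ℝ≥0∞) (f : α → ℝ≥0∞) (π : β → α)
    (hinj : ∀ b b', g b ≠ 0 → g b' ≠ 0 → π b = π b' → b = b')
    (h : ∀ b, g b ≠ 0 → g b ≤ f (π b)) : ∑' b, g b ≤ ∑' a, f a := by
  rw [← tsum_subtype_support g]
  refine le_trans (ENNReal.tsum_le_tsum fun b : Function.support g => h b.1 b.2) ?_
  exact ENNReal.tsum_comp_le_tsum_of_injective (f := fun b : Function.support g => π b.1)
    (fun b b' e => Subtype.ext (hinj _ _ b.2 b'.2 e)) f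

theorem tsum_le_of_lift {α β : Type*} (f : α → ℝ≥0∞) (g : β → ℝ≥0∞) (π : β → α)
    (h : ∀ a, f a ≠ 0 → ∃ b, π b = a ∧ f a ≤ g b) : ∑' a, f a ≤ ∑' b, g b := by
  rw [← tsum_subtype_support f]
  choose σ hσ using h
  refine le_trans (ENNReal.tsum_le_tsum fun a : Function.support f => (hσ a.1 a.2).2) ?_
  exact ENNReal.tsum_comp_le_tsum_of_injective (f := fun a : Function.support f => σ a.1 a.2)
    (fun a a' e => Subtype.ext (by rw [← (hσ a.1 a.2).1, ← (hσ a'.1 a'.2).1]; exact congrArg π e)) g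

theorem tsum_prod3 {α β γ : Type*} (f : α → β → γ → ℝ≥0∞) :
    ∑' p : α × β × γ, f p.1 p.2.1 p.2.2 = ∑' a, ∑' b, ∑' c, f a b c := by
  rw [ENNReal.tsum_prod']
  refine tsum_congr fun a => ?_
  rw [ENNReal.tsum_prod']

variable {Γ : Type} [AddCommGroup Γ]

/-- a list of steps is self-avoiding -/
def SA (l : List Γ) : Prop := ∀ b, b <:+: l → b ≠ [] → b.sum ≠ 0

/-- weight of a list of steps -/
noncomputable def W (K : Γ → ℝ≥0∞) (l : List Γ) : ℝ≥0∞ := ind (SA l) * (l.map K).prod

/-- the walk stays in the ball of radius `R` -/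
def In (N : Γ → ℝ) (R : ℝ) (l : List Γ) : Prop := ∀ a, a <+: l → N a.sum ≤ R

theorem SA.mono {l b : List Γ} (h : SA l) (hb : b <:+: l) : SA b :=
  fun c hc => h c (hc.trans hb)

theorem SA_nil : SA ([] : List Γ) := fun _ hb hne => absurd (List.infix_nil.1 hb) hne

theorem W_nil (K : Γ → ℝ≥0∞) : W K [] = 1 := by simp [W, ind_pos (SA_nil (Γ := Γ))]

theorem SA_of_W {K : Γ → ℝ≥0∞} {l : List Γ} (h : W K l ≠ 0) : SA l :=
  of_ind_ne (left_ne_zero_of_mul h)

theorem W_of_SA (K : Γ → ℝ≥0∞) {l : List Γ} (h : SA l) : W K l = (l.map K).prod := by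
  rw [W, ind_pos h, one_mul]

theorem SA.ne_zero {l : List Γ} (h : SA l) {s : Γ} (hs : s ∈ l) : s ≠ 0 := by
  have := h [s] (List.singleton_infix_iff _ _ |>.2 hs) (by simp)
  simpa using this

theorem W_append_le (K : Γ → ℝ≥0∞) (a b : List Γ) : W K (a ++ b) ≤ W K a * W K b := by
  by_cases h : SA (a ++ b)
  · rw [W_of_SA K h, W_of_SA K (h.mono (List.prefix_append a b).isInfix),
      W_of_SA K (h.mono (List.suffix_append a b).isInfix), List.map_append, List.prod_append]
  · rw [W, ind_neg h, zero_mul]; exact zero_le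

theorem W_split_le (K : Γ → ℝ≥0∞) (a : List Γ) (s : Γ) (b : List Γ) :
    W K (a ++ s :: b) ≤ W K a * K s * W K b := by
  by_cases h : SA (a ++ s :: b)
  · rw [W_of_SA K h, W_of_SA K (h.mono (List.prefix_append a _).isInfix),
      W_of_SA K (h.mono ((List.suffix_cons s b).trans (List.suffix_append a _)).isInfix),
      List.map_append, List.prod_append, List.map_cons, List.prod_cons, mul_assoc]
  · rw [W, ind_neg h, zero_mul]; exact zero_le

theorem W_mono {K K' : Γ → ℝ≥0∞} {l : List Γ} (h : ∀ s ∈ l, K s ≤ K' s) : W K l ≤ W K' l := by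
  unfold W
  gcongr
  induction l with
  | nil => simp
  | cons s l ih =>
    simp only [List.map_cons, List.prod_cons]
    exact mul_le_mul' (h s (by simp)) (ih fun t ht => h t (by simp [ht]))

theorem W_smul (t : ℝ≥0∞) (K : Γ → ℝ≥0∞) (l : List Γ) :
    W (fun s => t * K s) l = t ^ l.length * W K l := by
  unfold W
  have : (l.map fun s => t * K s).prod = t ^ l.length * (l.map K).prod := by
    induction l with
    | nil => simp
    | cons s l ih => simp only [List.map_cons, List.prod_cons, ih, List.length_cons]; ring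
  rw [this]; ring

theorem In.mono {N : Γ → ℝ} {R R' : ℝ} {l : List Γ} (h : In N R l) (hR : R ≤ R') : In N R' l :=
  fun a ha => (h a ha).trans hR

theorem In.sum_le {N : Γ → ℝ} {R : ℝ} {l : List Γ} (h : In N R l) : N l.sum ≤ R :=
  h l (List.prefix_refl l)

theorem In_nil {N : Γ → ℝ} {R : ℝ} (h : N 0 ≤ R) : In N R ([] : List Γ) := by
  intro a ha
  rw [List.prefix_nil.1 ha]; simpa using h

omit [AddCommGroup Γ] in
theorem pre_split {a c b : List Γ} {s : Γ} (h : c <+: a ++ s :: b) :
    c <+: a ∨ ∃ e, e <+: b ∧ c = a ++ s :: e := by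
  obtain ⟨t, ht⟩ := h
  rcases List.append_eq_append_iff.1 ht with ⟨u, hu, -⟩ | ⟨u, hu, hu'⟩
  · exact Or.inl ⟨u, hu.symm⟩
  · cases u with
    | nil => left; rw [hu]; simp
    | cons x u =>
      right
      simp only [List.cons_append, List.cons.injEq] at hu'
      exact ⟨u, ⟨t, hu'.2.symm⟩, by rw [hu, hu'.1]⟩

theorem exit_exists {N : Γ → ℝ} {R : ℝ} (h0 : N 0 ≤ R) (l : List Γ) (h : ¬ In N R l) :
    ∃ a s b, l = a ++ s :: b ∧ In N R a ∧ R < N (a.sum + s) := by
  induction l using List.reverseRecOn with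
  | nil => exact absurd (In_nil h0) h
  | append_singleton l s ih =>
    by_cases hl : In N R l
    · refine ⟨l, s, [], rfl, hl, ?_⟩
      by_contra hc
      apply h
      intro c hc'
      rcases pre_split hc' with h1 | ⟨e, he, rfl⟩
      · exact hl c h1
      · rw [List.prefix_nil.1 he]; simpa using hc
    · obtain ⟨a, t, b, rfl, h1, h2⟩ := ih hl
      exact ⟨a, t, b ++ [s], by simp, h1, h2⟩

theorem exit_unique {N : Γ → ℝ} {R : ℝ} {a a' b b' : List Γ} {s s' : Γ}
    (e : a ++ s :: b = a' ++ s' :: b') (ha : In N R a) (ha' : In N R a')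
    (hs : R < N (a.sum + s)) (hs' : R < N (a'.sum + s')) : a = a' ∧ s = s' ∧ b = b' := by
  rcases List.append_eq_append_iff.1 e with ⟨u, hu, hu'⟩ | ⟨u, hu, hu'⟩
  · cases u with
    | nil => simp only [List.nil_append, List.cons.injEq, List.append_nil] at hu hu'; exact ⟨hu.symm, hu'⟩
    | cons x u =>
      simp only [List.cons_append, List.cons.injEq] at hu'
      have := ha' (a ++ [s]) ⟨u, by rw [hu, hu'.1]; simp⟩
      simp only [List.sum_append, List.sum_cons, List.sum_nil, add_zero] at this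
      exact absurd this (not_le.2 hs)
  · cases u with
    | nil =>
      simp only [List.nil_append, List.cons.injEq, List.append_nil] at hu hu'
      exact ⟨hu, hu'.1.symm, hu'.2.symm⟩
    | cons x u =>
      simp only [List.cons_append, List.cons.injEq] at hu'
      have := ha (a' ++ [s']) ⟨u, by rw [hu, hu'.1]; simp⟩
      simp only [List.sum_append, List.sum_cons, List.sum_nil, add_zero] at this
      exact absurd this (not_le.2 hs')

/-- a subadditive even size function -/
structure Sub (N : Γ → ℝ) : Prop where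
  zero : N 0 = 0
  add : ∀ x y, N (x + y) ≤ N x + N y
  neg : ∀ x, N (-x) = N x

theorem Sub.nonneg {N : Γ → ℝ} (h : Sub N) (x : Γ) : 0 ≤ N x := by
  have := h.add x (-x)
  rw [add_neg_cancel, h.zero, h.neg] at this
  linarith

theorem Sub.sub {N : Γ → ℝ} (h : Sub N) (x y : Γ) : N (x - y) ≤ N x + N y := by
  have := h.add x (-y)
  rwa [h.neg, ← sub_eq_add_neg] at this

theorem Sub.le_add {N : Γ → ℝ} (h : Sub N) (x y : Γ) : N x ≤ N (x + y) + N y := by
  simpa using h.sub (x + y) y

theorem In_join {N : Γ → ℝ} (hN : Sub N) {R R' x : ℝ} {a b : List Γ} {s : Γ} (ha : In N R a)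
    (hb : In N x b) (hs : N (a.sum + s) + x ≤ R') (hR : R ≤ R') : In N R' (a ++ s :: b) := by
  intro c hc
  rcases pre_split hc with h1 | ⟨e, he, rfl⟩
  · exact (ha c h1).trans hR
  · have := hN.add (a.sum + s) e.sum
    have h2 := hb e he
    simp only [List.sum_append, List.sum_cons, ← add_assoc]
    linarith

theorem SA_join {N : Γ → ℝ} (hN : Sub N) {R : ℝ} {a b : List Γ} {s : Γ} (sa : SA a) (sb : SA b)
    (ha : In N R a) (hb : In N R b) (hs : 2 * R < N (a.sum + s)) : SA (a ++ s :: b) := by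
  intro c hc hne h0
  have key : ∀ u v e : List Γ, a = u ++ v → e <+: b → v.sum + s + e.sum ≠ 0 := by
    intro u v e huv he h1
    have h2 := ha u ⟨v, huv.symm⟩
    have h3 := hb e he
    have h4 : a.sum + s = u.sum - e.sum := by
      rw [huv, List.sum_append, eq_sub_iff_add_eq, add_assoc, add_assoc, ← add_assoc v.sum, h1,
        add_zero]
    have := hN.sub u.sum e.sum
    rw [h4] at hs
    linarith
  rcases List.infix_append_iff.1 hc with h1 | h1 | ⟨c1, c2, rfl, h1, h2⟩
  · exact sa c h1 hne h0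
  · rcases List.infix_cons_iff.1 h1 with h2 | h2
    · rcases List.prefix_cons_iff.1 h2 with rfl | ⟨e, rfl, he⟩
      · exact hne rfl
      · exact key a [] e (by simp) he (by simpa using h0)
    · exact sb c h2 hne h0
  · obtain ⟨u, hu⟩ := h1
    rcases List.prefix_cons_iff.1 h2 with rfl | ⟨e, rfl, he⟩
    · exact sa c1 ⟨u, [], by simpa using hu⟩ (by simpa using hne) (by simpa using h0)
    · exact key u c1 e hu.symm he (by simpa [add_assoc] using h0)

theorem W_join {N : Γ → ℝ} (hN : Sub N) (K : Γ → ℝ≥0∞) {R : ℝ} {a b : List Γ} {s : Γ}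
    (ha : In N R a) (hb : In N R b) (hs : 2 * R < N (a.sum + s)) :
    W K a * K s * W K b ≤ W K (a ++ s :: b) := by
  by_cases sa : SA a
  · by_cases sb : SA b
    · rw [W_of_SA K sa, W_of_SA K sb, W_of_SA K (SA_join hN sa sb ha hb hs), List.map_append,
        List.prod_append, List.map_cons, List.prod_cons, mul_assoc]
    · rw [W.eq_1 K b, ind_neg sb]; simp
  · rw [W.eq_1 K a, ind_neg sa]; simp

end Pool.Agent.Lib.LRS
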